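import Pool.Agent.Work.MP_814647_an.OS.Stmts2
import Pool.Agent.Work.MP_814647_an.Idx9

/-!
# Block OS, item Br: the bridge (helper79)
-/

set_option autoImplicit false

open Set Filter Topology Function
open scoped Manifold ContDiff

noncomputable section

namespace Pool.Agent.OmegaStability.OS

open Dens

universe u v

namespace I_Br

section

variable {M : Type*} [MulAction Circle M]

theorem nlift_rot {f : M → M} {ℒ : M → ℝ → ℝ} (h : NLift f ℒ) (s : ℝ) :
    NLift (rotated f s) ℒ where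
  cont := h.cont
  mono := h.mono
  zero := h.zero
  per := h.per
  map y θ := by
    show Circle.exp s • f (Circle.exp θ • y) = Circle.exp (ℒ y θ) • Circle.exp s • f y
    rw [h.map, smul_smul, smul_smul, mul_comm]

theorem rot_rot (f : M → M) (s t : ℝ) :
    (fun y => Circle.exp t • rotated f s y) = fun y => Circle.exp (s + t) • f y := by
  funext y
  show Circle.exp t • Circle.exp s • f y = _
  rw [smul_smul, ← Circle.exp_add, add_comm]

end

section

variable {m : ℕ} {M : Type u} [MetricSpace M] [CompactSpace M]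
  [ChartedSpace (EuclideanSpace ℝ (Fin m)) M] [IsManifold (𝓡 m) ∞ M] [MulAction Circle M]

theorem exists_tau' (ha : SmoothCircleAction (EuclideanSpace ℝ (Fin m)) M)
    (hfree : ∀ (z : Circle) (y : M), z • y = y → z = 1) {r : ℕ∞} (hr : 1 ≤ r)
    (f : Diffeo (EuclideanSpace ℝ (Fin m)) M r) (hst : OmegaStable f) {ℒ : M → ℝ → ℝ}
    (hℒ : NLift (⇑f : M → M) ℒ) :
    ∃ τ : ℝ, 0 < τ ∧ ∀ (s : ℝ) (y : M) (n : ℕ), |s| < τ → 0 < n → (rotated f s)^[n] y = y →
      ∀ t, |t| < τ - |s| → ∀ θ, orb (fun j => ℒ ((rotated f s)^[j] y)) t n θ = θ →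
        (¬ IsLocalExtr (fun θ => orb (fun j => ℒ ((rotated f s)^[j] y)) t n θ - θ) θ) ∧
        ∃ g₁ : ℝ, HasDerivAt (orb (fun j => ℒ ((rotated f s)^[j] y)) t n) g₁ θ ∧ g₁ ≠ 1 := by
  have hst' : OmegaStab.OmegaStable f := hst
  obtain ⟨N, hN, hfN, hNconj⟩ := hst'
  have hconj : OmegaStab.ConjClass N := OmegaStab.conjClass_of_conj hNconj
  have hhyp := OmegaStab.hypAt_of_conjClass hr hN hconj
  obtain ⟨h, hfam, hh⟩ := exists_rot ha r
  have hev : ∀ᶠ t in 𝓝 (0 : ℝ), f.trans (h t) ∈ N := by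
    let _ := OmegaStab.crTopology m M r
    exact (hfam.tendsto f).eventually (IsOpen.mem_nhds hN hfN)
  obtain ⟨τ, hτ, hball⟩ := Metric.eventually_nhds_iff.1 hev
  have hfun : ∀ t, ⇑(f.trans (h t)) = fun y => Circle.exp t • f y := by
    intro t
    funext y
    exact hh t (f y)
  refine ⟨τ, hτ, fun s y n hs hn hy t ht θ hθ => ?_⟩
  have hℒ' := nlift_rot hℒ s
  have hch := chain_periodic hℒ' hn hy
  have hmap : ∀ η : ℝ, (f.trans (h (s + t)))^[n] (Circle.exp η • y) =
      Circle.exp (orb (fun j => ℒ ((rotated f s)^[j] y)) t n η) • y := by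
    intro η
    rw [hfun, ← rot_rot]
    have h1 := hch.iterate t η n le_rfl
    rw [hch.closed] at h1
    exact h1
  have hst2 : |s + t| < τ := by
    have := abs_add_le s t
    linarith
  have hhyp' : OmegaStab.HypAt (d := m) (f.trans (h (s + t))) (Circle.exp θ • y) := by
    refine hhyp _ (hball (by simpa using hst2)) _ ⟨n, hn, ?_⟩
    show (f.trans (h (s + t)))^[n] (Circle.exp θ • y) = _
    rw [hmap, hθ]
  have hcont : Continuous (orb (fun j => ℒ ((rotated f s)^[j] y)) t n) :=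
    (hch.retMap hℒ').cont.comp (continuous_const.prodMk continuous_id)
  exact ⟨crossing hr ha hfree (f.trans (h (s + t))) hn hcont hmap hθ hhyp',
    crossing_aux hr ha hfree (f.trans (h (s + t))) hn hcont hmap hθ hhyp'⟩

theorem dm_ne (ha : SmoothCircleAction (EuclideanSpace ℝ (Fin m)) M)
    (hfree : ∀ (z : Circle) (y : M), z • y = y → z = 1) {r : ℕ∞} (hr : 1 ≤ r)
    (f : Diffeo (EuclideanSpace ℝ (Fin m)) M r) (y : M) (L : ℝ → ℝ) (D : ℝ)
    (hL : HasDerivAt L D 0) (hf : ∀ η : ℝ, f (Circle.exp η • y) = Circle.exp (L η) • f y) :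
    D ≠ 0 := by
  rintro rfl
  have hfd : MDifferentiable (𝓡 m) (𝓡 m) f := OmegaStab.FinHyp.mdiff hr f
  have hfd' : MDifferentiable (𝓡 m) (𝓡 m) f.symm := OmegaStab.FinHyp.mdiff hr f.symm
  have h1 := mfderiv_lift ha f y (f y) L 0 0 (hfd _) hL hf
  rw [zero_smul] at h1
  set y₀ : M := Circle.exp (0 : ℝ) • y with hy₀
  have h2 := HasMFDerivAt.comp y₀ (hfd' (f y₀)).hasMFDerivAt (hfd y₀).hasMFDerivAt
  have h3 : (f.symm : M → M) ∘ (f : M → M) = id := funext fun x => f.symm_apply_apply x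
  rw [h3] at h2
  have h4 := hasMFDerivAt_unique h2 (hasMFDerivAt_id y₀)
  have h5 := DFunLike.congr_fun h4 (vgen m y₀)
  have h6 : mfderiv (𝓡 m) (𝓡 m) f.symm (f y₀)
      (mfderiv (𝓡 m) (𝓡 m) f y₀ (vgen m y₀)) = vgen m y₀ := h5
  rw [h1] at h6
  exact gen_ne_zero ha hfree y₀ (h6.symm.trans
    (ContinuousLinearMap.map_zero (mfderiv (𝓡 m) (𝓡 m) f.symm (f y₀))))

end

end I_Br

open I_Br in
theorem pr_Br (h1 : StUq.{u}) : StBr.{u} := by
  intro m M _ _ _ _ _ ha hfree r hr f hcirc hst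
  obtain ⟨Dm, hD, hDm⟩ := exists_fibreDeriv ha hfree hr f
  obtain ⟨ℒ, hℒ⟩ := exists_nlift (f := (⇑f : M → M)) hfree f.injective hcirc
  obtain ⟨τ, hτ, hX⟩ := exists_tau' ha hfree hr f hst hℒ
  have hact : Continuous fun p : Circle × M => p.1 • p.2 := ha.continuous
  have hder : ∀ y θ, HasDerivAt (ℒ y) (Dm (Circle.exp θ • y)) θ := fun y θ =>
    hDm y (f y) (ℒ y) (hℒ.cont y) (hℒ.mono y).monotone (hℒ.map y) θ
  have hpos : ∀ y, 0 < Dm y := by
    intro y
    have h2 := hder y 0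
    rw [Circle.exp_zero, one_smul] at h2
    have h3 : 0 ≤ Dm y := by
      have := (hℒ.mono y).monotone.deriv_nonneg (x := (0 : ℝ))
      rwa [h2.deriv] at this
    exact lt_of_le_of_ne h3 (dm_ne ha hfree hr f y (ℒ y) (Dm y) h2 (hℒ.map y)).symm
  have hsm : ∀ y, ContDiff ℝ 1 (ℒ y) := by
    intro y
    rw [contDiff_one_iff_deriv]
    refine ⟨fun θ => (hder y θ).differentiableAt, ?_⟩
    have : deriv (ℒ y) = fun θ => Dm (Circle.exp θ • y) := funext fun θ => (hder y θ).deriv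
    rw [this]
    exact hD.comp (hact.comp (Circle.exp.continuous.prodMk continuous_const))
  obtain ⟨C, hC⟩ := isCompact_univ.exists_bound_of_continuousOn hD.continuousOn
  have hΛ : ∀ y, Dm y ≤ max C 1 := fun y =>
    ((le_abs_self _).trans (hC y (mem_univ y))).trans (le_max_left _ _)
  refine ⟨ℒ, Dm, τ, max C 1, ⟨hτ, lt_max_of_lt_right one_pos, hℒ, hD, hpos, hsm,
    fun y θ => (hder y θ).deriv, ?_⟩, ?_⟩
  · intro s y n hs hn hy
    have hdL : ∀ j θ, deriv (ℒ ((rotated f s)^[j] y)) θ =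
        Dm (Circle.exp θ • (rotated f s)^[j] y) := fun j θ => (hder _ θ).deriv
    refine ⟨hn, fun j => ?_, fun j => hsm _, fun j θ => ?_, fun j θ => ?_, fun j => hℒ.per _,
      fun j => hℒ.zero _, fun t ht θ hθ => (hX s y n hs hn hy t ht θ hθ).1, ?_⟩
    · show ℒ ((rotated f s)^[j + n] y) = ℒ ((rotated f s)^[j] y)
      rw [iterate_add_apply, hy]
    · rw [hdL]
      exact hpos _
    · rw [hdL]
      exact hΛ _
    · intro t ht θ hθ
      obtain ⟨g₁, hg, hne⟩ := (hX s y n hs hn hy t ht θ hθ).2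
      have h2 : HasDerivAt (orb (fun j => ℒ ((rotated f s)^[j] y)) t n)
          (loopD Dm (fun j => (rotated f s)^[j] y) (fun j => ℒ ((rotated f s)^[j] y)) t n θ) θ :=
        orb_hasDerivAt (n := n) (fun j _ θ => hder _ θ) t θ n le_rfl
      have h3 : ∏ i ∈ Finset.range n, deriv (ℒ ((rotated f s)^[i] y))
          (orb (fun j => ℒ ((rotated f s)^[j] y)) t i θ) = g₁ := by
        rw [← h2.unique hg]
        exact Finset.prod_congr rfl fun i _ => hdL i _
      rw [h3]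
      exact hne
  · intro hc3 y
    obtain ⟨L, hL, hL3, -⟩ := hc3 y
    have h2 : L = ℒ y := h1 M hfree f y L (ℒ y) hL ⟨hℒ.cont y, hℒ.zero y, hℒ.map y⟩
    rw [← h2]
    exact hL3

end Pool.Agent.OmegaStability.OS
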