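import Pool.Agent.Work.MP_814647_an.OS.Stmts

/-!
# Circle extensions with one-sided nonlinearity: item Dif, the speed
-/

set_option autoImplicit false

open Set Filter Topology Function
open scoped Manifold ContDiff

noncomputable section

namespace Pool.Agent.OmegaStability.OS

open Dens

namespace I_Dif

/-- The derivative of `(s, θ) ↦ orb L s k θ`. -/
def der (L : ℕ → ℝ → ℝ) (s θ : ℝ) : ℕ → ℝ × ℝ →L[ℝ] ℝ
  | 0 => ContinuousLinearMap.snd ℝ ℝ ℝ
  | k + 1 => deriv (L k) (orb L s k θ) • der L s θ k + ContinuousLinearMap.fst ℝ ℝ ℝ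

theorem hasF (L : ℕ → ℝ → ℝ) (hL : ∀ j, Differentiable ℝ (L j)) (s θ : ℝ) (k : ℕ) :
    HasFDerivAt (fun x : ℝ × ℝ => orb L x.1 k x.2) (der L s θ k) (s, θ) := by
  induction k with
  | zero => exact hasFDerivAt_snd
  | succ k ih =>
    have h1 : HasDerivAt (L k) (deriv (L k) (orb L s k θ)) (orb L s k θ) :=
      (hL k _).hasDerivAt
    have h2 := h1.comp_hasFDerivAt (s, θ) ih
    exact h2.add hasFDerivAt_fst

theorem der_one (L : ℕ → ℝ → ℝ) (s θ : ℝ) (k : ℕ) :
    der L s θ k (0, 1) = ∏ i ∈ Finset.range k, deriv (L i) (orb L s i θ) := by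
  induction k with
  | zero => simp [der]
  | succ k ih =>
    rw [Finset.prod_range_succ, ← ih]
    simp [der, mul_comm]

/-- implicit differentiation -/
theorem impl (Φ : ℝ × ℝ → ℝ) (A : ℝ × ℝ →L[ℝ] ℝ) (P : ℝ → ℝ) (s : ℝ)
    (hΦ : HasFDerivAt Φ A (s, P s)) (hA : A (0, 1) ≠ 0) (hP : ContinuousAt P s)
    (h0 : ∀ᶠ s' in 𝓝 s, Φ (s', P s') = 0) : ∃ p' : ℝ, HasDerivAt P p' s := by
  set α : ℝ := A (1, 0) with hα
  set β : ℝ := A (0, 1) with hβ
  have hlin : ∀ x y : ℝ, A (x, y) = α * x + β * y := by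
    intro x y
    have e : ((x, y) : ℝ × ℝ) = x • ((1, 0) : ℝ × ℝ) + y • ((0, 1) : ℝ × ℝ) := by
      ext <;> simp
    rw [e, map_add, map_smul, map_smul, smul_eq_mul, smul_eq_mul, hα, hβ]
    ring
  have h00 : Φ (s, P s) = 0 := h0.self_of_nhds
  set g : ℝ → ℝ := fun s' => α * (s' - s) + β * (P s' - P s) with hg
  have hT : Tendsto (fun s' => ((s', P s') : ℝ × ℝ)) (𝓝 s) (𝓝 (s, P s)) :=
    (continuousAt_id.prodMk hP)
  have h1 : g =o[𝓝 s] fun s' => ((s', P s') : ℝ × ℝ) - (s, P s) := by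
    have h := (hΦ.isLittleO.comp_tendsto hT)
    refine (h.neg_left).congr' ?_ (Eventually.of_forall fun _ => rfl)
    filter_upwards [h0] with s' hs'
    simp only [Function.comp, hs', h00, Prod.mk_sub_mk, hlin, hg]
    ring
  have hP' : ∀ s', P s' - P s = β⁻¹ * (g s' - α * (s' - s)) := by
    intro s'
    simp only [hg]
    field_simp
    ring
  set C : ℝ := 1 + |β⁻¹| * (1 + |α|) with hC
  have hC1 : 1 ≤ C := by
    have : 0 ≤ |β⁻¹| * (1 + |α|) := by positivity
    linarith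
  have hbd : ∀ s', ‖((s', P s') : ℝ × ℝ) - (s, P s)‖ ≤ C * (|s' - s| + |g s'|) := by
    intro s'
    rw [Prod.mk_sub_mk, Prod.norm_def]
    refine max_le ?_ ?_
    · simp only [Real.norm_eq_abs]
      nlinarith [abs_nonneg (s' - s), abs_nonneg (g s')]
    · simp only [Real.norm_eq_abs]
      rw [hP', abs_mul]
      have h2 : |g s' - α * (s' - s)| ≤ |g s'| + |α| * |s' - s| := by
        rw [← abs_mul]
        exact abs_sub _ _
      have h3 : |g s'| + |α| * |s' - s| ≤ (1 + |α|) * (|s' - s| + |g s'|) := by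
        nlinarith [abs_nonneg (s' - s), abs_nonneg (g s'), abs_nonneg α,
          mul_nonneg (abs_nonneg α) (abs_nonneg (g s'))]
      calc |β⁻¹| * |g s' - α * (s' - s)| ≤ |β⁻¹| * ((1 + |α|) * (|s' - s| + |g s'|)) :=
            mul_le_mul_of_nonneg_left (h2.trans h3) (abs_nonneg _)
        _ = (|β⁻¹| * (1 + |α|)) * (|s' - s| + |g s'|) := by ring
        _ ≤ C * (|s' - s| + |g s'|) := by
            refine mul_le_mul_of_nonneg_right ?_ (by positivity)
            rw [hC]
            linarith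
  have h2 : g =O[𝓝 s] fun s' => s' - s := by
    refine Asymptotics.IsBigO.of_bound 1 ?_
    have h := h1.def (c := 1 / (2 * C)) (by positivity)
    filter_upwards [h] with s' hs'
    have h3 : 1 / (2 * C) * ‖((s', P s') : ℝ × ℝ) - (s, P s)‖ ≤ (|s' - s| + |g s'|) / 2 := by
      calc 1 / (2 * C) * ‖((s', P s') : ℝ × ℝ) - (s, P s)‖
          ≤ 1 / (2 * C) * (C * (|s' - s| + |g s'|)) :=
            mul_le_mul_of_nonneg_left (hbd s') (by positivity)
        _ = (|s' - s| + |g s'|) / 2 := by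
            have : C ≠ 0 := by linarith
            field_simp
    rw [Real.norm_eq_abs] at hs' ⊢
    rw [Real.norm_eq_abs]
    linarith
  have h3 : (fun s' => ((s', P s') : ℝ × ℝ) - (s, P s)) =O[𝓝 s] fun s' => s' - s := by
    obtain ⟨c, hc⟩ := h2.bound
    refine Asymptotics.IsBigO.of_bound (C * (1 + c)) ?_
    filter_upwards [hc] with s' hs'
    refine (hbd s').trans ?_
    rw [Real.norm_eq_abs, Real.norm_eq_abs] at hs'
    rw [Real.norm_eq_abs, mul_assoc]
    refine mul_le_mul_of_nonneg_left ?_ (by linarith)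
    linarith
  have h4 : g =o[𝓝 s] fun s' => s' - s := h1.trans_isBigO h3
  refine ⟨-(β⁻¹ * α), ?_⟩
  rw [hasDerivAt_iff_isLittleO]
  refine (h4.const_mul_left β⁻¹).congr_left ?_
  intro s'
  rw [hP', smul_eq_mul]
  ring

end I_Dif

theorem pr_Dif : StDif := by
  intro L N τ Λ s₁ P hE hs₁ hsτ hS s hs
  have hL : ∀ j, Differentiable ℝ (L j) := fun j => (hE.smooth j).differentiable (by norm_num)
  have hnear : ∀ᶠ s' in 𝓝 s, |s'| ≤ s₁ := by
    have h : ∀ᶠ s' in 𝓝 s, |s'| < s₁ := (continuous_abs.continuousAt).eventually_lt_const hs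
    exact h.mono fun _ h => h.le
  have hPc : ContinuousAt P s := by
    refine hS.cont.continuousAt (Icc_mem_nhds ?_ ?_)
    · exact (abs_lt.1 hs).1
    · exact (abs_lt.1 hs).2
  have hF := (I_Dif.hasF L hL s (P s) N).sub (hasFDerivAt_snd (𝕜 := ℝ) (p := ((s, P s) : ℝ × ℝ)))
  have hA : (I_Dif.der L s (P s) N - ContinuousLinearMap.snd ℝ ℝ ℝ) (0, 1) ≠ 0 := by
    have h := hE.noN s (hs.trans hsτ) (P s) (hS.fixed s hs.le)
    rw [sub_apply, I_Dif.der_one]
    simpa [sub_eq_zero] using h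
  obtain ⟨p', hp'⟩ := I_Dif.impl _ _ P s hF hA hPc (by
    filter_upwards [hnear] with s' hs'
    simp only [Pi.sub_apply, hS.fixed s' hs', sub_self])
  set v : ℕ → ℝ := fun n => Nat.rec p' (fun k x => deriv (L k) (orb L s k (P s)) * x + 1) n
    with hv
  have hv1 : ∀ k, v (k + 1) = deriv (L k) (orb L s k (P s)) * v k + 1 := fun k => rfl
  have hd : ∀ k, HasDerivAt (fun s' => orb L s' k (P s')) (v k) s := by
    intro k
    induction k with
    | zero => exact hp'
    | succ k ih =>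
      have h1 : HasDerivAt (L k) (deriv (L k) (orb L s k (P s))) (orb L s k (P s)) :=
        (hL k _).hasDerivAt
      rw [hv1]
      exact (h1.comp s ih).add (hasDerivAt_id s)
  refine ⟨v, hd, hv1, ?_⟩
  have h1 := hd N
  have h2 : HasDerivAt (fun s' => orb L s' N (P s')) p' s := by
    refine hp'.congr_of_eventuallyEq ?_
    filter_upwards [hnear] with s' hs'
    exact hS.fixed s' hs'
  exact h1.unique h2

end Pool.Agent.OmegaStability.OS
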