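import Pool.Agent.Work.MP_814647_an.OS.Stmts

/-!
# Item Int: the integral of `1 / |1 - exp χ|`
-/

set_option autoImplicit false

open Set Filter Topology Function
open scoped Manifold ContDiff

noncomputable section

namespace Pool.Agent.OmegaStability.OS

open Dens

namespace I_Int

theorem orb_zero_zero {L : ℕ → ℝ → ℝ} (h : ∀ j, L j 0 = 0) (k : ℕ) : orb L 0 k 0 = 0 := by
  induction k with
  | zero => rfl
  | succ k ih => simp only [orb]; rw [ih, h k, add_zero]

theorem orb_contOn {L : ℕ → ℝ → ℝ} (hL : ∀ j, Continuous (L j)) {P : ℝ → ℝ} {A : Set ℝ}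
    (hP : ContinuousOn P A) (k : ℕ) : ContinuousOn (fun s => orb L s k (P s)) A := by
  induction k with
  | zero => exact hP
  | succ k ih =>
      have : ContinuousOn (fun s => L k (orb L s k (P s)) + s) A :=
        ((hL k).comp_continuousOn ih).add continuousOn_id
      exact this

theorem der_nonneg {g : ℝ → ℝ} {a b x v : ℝ} (hx : x ∈ Ioo a b) (hg : MonotoneOn g (Icc a b))
    (hd : HasDerivAt g v x) : 0 ≤ v := by
  have hab : a < b := hx.1.trans hx.2
  have h1 : derivWithin g (Icc a b) x = v :=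
    (hd.hasDerivWithinAt).derivWithin (uniqueDiffOn_Icc hab x (Ioo_subset_Icc_self hx))
  rw [← h1]
  exact hg.derivWithin_nonneg

theorem core (h3 : StDif) {L : ℕ → ℝ → ℝ} {N : ℕ} {τ Λ s₁ : ℝ} (hE : Ext L N τ Λ) (hs : 0 < s₁)
    (hst : s₁ < τ) {P : ℝ → ℝ} (hP : Swp L N s₁ P) (e : ℝ) (he : e = 1 ∨ e = -1)
    (key : ∀ s ∈ Ioo (-s₁) s₁, ∀ v : ℕ → ℝ,
      (∀ k, HasDerivAt (fun s' => orb L s' k (P s')) (v k) s) →
      (∀ k, v (k + 1) = deriv (L k) (orb L s k (P s)) * v k + 1) → v N = v 0 →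
      1 / |1 - Real.exp (Real.log (∏ i ∈ Finset.range N, deriv (L i) (orb L s i (P s))) / N)| ≤
        (∑ k ∈ Finset.range N, e * v k) / N) :
    ContinuousOn (fun s => Real.log (∏ i ∈ Finset.range N, deriv (L i) (orb L s i (P s))) / N)
        (Icc (-s₁) s₁) ∧
      (∀ s ∈ Icc (-s₁) s₁,
        Real.log (∏ i ∈ Finset.range N, deriv (L i) (orb L s i (P s))) / N ≠ 0) ∧
      ∫ s in (-s₁)..s₁,
        1 / |1 - Real.exp
          (Real.log (∏ i ∈ Finset.range N, deriv (L i) (orb L s i (P s))) / N)| ≤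
          2 * Real.pi := by
  have hN : (0 : ℝ) < N := by exact_mod_cast hE.pos
  have hLc : ∀ j, Continuous (L j) := fun j => (hE.smooth j).continuous
  have hdc : ∀ j, Continuous (deriv (L j)) := fun j => (hE.smooth j).continuous_deriv le_rfl
  have hoc := orb_contOn hLc hP.cont
  have hpos : ∀ s, 0 < ∏ i ∈ Finset.range N, deriv (L i) (orb L s i (P s)) := fun s =>
    Finset.prod_pos fun i _ => hE.dpos i _
  have hpc : ContinuousOn (fun s => ∏ i ∈ Finset.range N, deriv (L i) (orb L s i (P s)))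
      (Icc (-s₁) s₁) := continuousOn_finset_prod _ fun i _ => (hdc i).comp_continuousOn (hoc i)
  have hχ : ContinuousOn
      (fun s => Real.log (∏ i ∈ Finset.range N, deriv (L i) (orb L s i (P s))) / N)
      (Icc (-s₁) s₁) := (hpc.log fun s _ => (hpos s).ne').div_const _
  have hne : ∀ s ∈ Icc (-s₁) s₁,
      Real.log (∏ i ∈ Finset.range N, deriv (L i) (orb L s i (P s))) / N ≠ 0 := by
    intro s hs' h0
    have habs : |s| ≤ s₁ := abs_le.2 hs'
    have h1 := hE.noN s (habs.trans_lt hst) (P s) (hP.fixed s habs)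
    rcases div_eq_zero_iff.1 h0 with h2 | h2
    · rcases Real.log_eq_zero.1 h2 with h3 | h3 | h3
      · exact (hpos s).ne' h3
      · exact h1 h3
      · have := hpos s
        rw [h3] at this
        linarith
    · exact hN.ne' h2
  refine ⟨hχ, hne, ?_⟩
  have hφc : ContinuousOn (fun s => 1 / |1 - Real.exp
      (Real.log (∏ i ∈ Finset.range N, deriv (L i) (orb L s i (P s))) / N)|)
      (Icc (-s₁) s₁) := by
    refine ContinuousOn.div continuousOn_const
      (ContinuousOn.abs (continuousOn_const.sub hχ.rexp)) ?_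
    intro s hs' h0
    rw [abs_eq_zero, sub_eq_zero] at h0
    exact hne s hs' ((Real.exp_eq_one_iff _).1 h0.symm)
  choose! w hw using fun s (hs' : s ∈ Ioo (-s₁) s₁) =>
    h3 L N τ Λ s₁ P hE hs hst hP s (abs_lt.2 hs')
  have hgc : ContinuousOn (fun s => (∑ k ∈ Finset.range N, e * orb L s k (P s)) / N)
      (Icc (-s₁) s₁) :=
    (continuousOn_finset_sum _ fun k _ => continuousOn_const.mul (hoc k)).div_const _
  have hgd : ∀ s ∈ Ioo (-s₁) s₁, HasDerivWithinAt
      (fun s => (∑ k ∈ Finset.range N, e * orb L s k (P s)) / N)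
      ((∑ k ∈ Finset.range N, e * w s k) / N) (Ioi s) s := by
    intro s hs'
    refine HasDerivAt.hasDerivWithinAt ?_
    exact (HasDerivAt.fun_sum fun k _ => ((hw s hs').1 k).const_mul e).div_const _
  have hle := intervalIntegral.integral_le_sub_of_hasDeriv_right_of_le
    (show -s₁ ≤ s₁ by linarith) hgc hgd hφc.integrableOn_Icc
    (fun s hs' => key s hs' (w s) (hw s hs').1 (hw s hs').2.1 (hw s hs').2.2)
  refine hle.trans ?_
  rw [← sub_div, ← Finset.sum_sub_distrib, div_le_iff₀ hN]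
  have hsum : ∑ k ∈ Finset.range N, (e * orb L s₁ k (P s₁) - e * orb L (-s₁) k (P (-s₁))) ≤
      ∑ _k ∈ Finset.range N, 2 * Real.pi := by
    refine Finset.sum_le_sum fun k _ => ?_
    have b1 : |(-s₁)| ≤ s₁ := by rw [abs_neg, abs_of_pos hs]
    have b2 : |s₁| ≤ s₁ := by rw [abs_of_pos hs]
    have a1 := hP.circ (-s₁) s₁ b1 b2 k
    have a2 := hP.circ s₁ (-s₁) b2 b1 k
    rcases he with rfl | rfl <;> linarith
  refine hsum.trans (le_of_eq ?_)
  rw [Finset.sum_const, Finset.card_range, nsmul_eq_mul]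
  ring

end I_Int

theorem pr_Int (h1 : StSwC) (h2 : StSwE) (h3 : StDif) (h4 : StJen) : StInt := by
  intro L N τ Λ s₁ hE hs hst hΛ
  have h0 : ∏ i ∈ Finset.range N, deriv (L i) 0 ≠ 1 := by
    have := hE.noN 0 (by simpa using hs.trans hst) 0 (I_Int.orb_zero_zero hE.zero N)
    simpa only [I_Int.orb_zero_zero hE.zero] using this
  rcases lt_or_gt_of_ne h0 with hlt | hgt
  · obtain ⟨P, hP, -, hm⟩ := h1 L N τ Λ s₁ hE hs hst hlt
    refine ⟨P, hP, I_Int.core h3 hE hs hst hP 1 (Or.inl rfl) ?_⟩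
    intro s hs' v hv1 hv2 hv3
    have hv : ∀ k, 1 ≤ v k := by
      intro k
      have hmono : MonotoneOn (fun s' => orb L s' k (P s') - s') (Icc (-s₁) s₁) := by
        intro x hx y hy hxy
        have := hm x y (abs_le.2 hx) (abs_le.2 hy) hxy k
        simp only
        linarith
      have := I_Int.der_nonneg hs' hmono ((hv1 k).fun_sub (hasDerivAt_id' s))
      linarith
    have := ((h4 N (fun k => deriv (L k) (orb L s k (P s))) v hE.pos (fun k => hE.dpos k _)
      hv3 hv2).1 (fun k _ => hv k)).2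
    simpa only [one_mul] using this
  · obtain ⟨P, hP, -, hm⟩ := h2 L N τ Λ s₁ hE hs hst hgt
    refine ⟨P, hP, I_Int.core h3 hE hs hst hP (-1) (Or.inr rfl) ?_⟩
    intro s hs' v hv1 hv2 hv3
    have hv : ∀ k, v k < 0 := by
      intro k
      have hmono : MonotoneOn (fun s' => (-Λ) * orb L s' k (P s') - s') (Icc (-s₁) s₁) := by
        intro x hx y hy hxy
        have := (hm x y (abs_le.2 hx) (abs_le.2 hy) hxy k).2
        simp only
        linarith
      have h5 := I_Int.der_nonneg hs' hmono (((hv1 k).const_mul (-Λ)).fun_sub (hasDerivAt_id' s))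
      by_contra hcon
      push Not at hcon
      have := mul_nonneg hΛ.le hcon
      linarith
    have := ((h4 N (fun k => deriv (L k) (orb L s k (P s))) v hE.pos (fun k => hE.dpos k _)
      hv3 hv2).2 (fun k _ => hv k)).2
    simpa only [neg_one_mul] using this

end Pool.Agent.OmegaStability.OS
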