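import Pool.Agent.Work.MP_814647_an.OS.Stmts

/-!
# Item Jen: speeds and exponents
-/

set_option autoImplicit false

open Set Filter Topology Function
open scoped Manifold ContDiff

noncomputable section

namespace Pool.Agent.OmegaStability.OS

open Dens

universe u v

namespace I_Jen

/-- geometric mean against harmonic mean -/
theorem core (N : ℕ) (hN : 0 < N) (w : ℕ → ℝ) (hw : ∀ k < N, 1 < w k) :
    1 < (∑ k ∈ Finset.range N, w k) / N ∧
    0 < ∏ k ∈ Finset.range N, (1 - 1 / w k) ∧
    Real.exp (Real.log (∏ k ∈ Finset.range N, (1 - 1 / w k)) / N) ≤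
      1 - 1 / ((∑ k ∈ Finset.range N, w k) / N) := by
  have hN' : (0 : ℝ) < N := by exact_mod_cast hN
  obtain ⟨W, hW⟩ : ∃ W : ℝ, W = (∑ k ∈ Finset.range N, w k) / N := ⟨_, rfl⟩
  have hsum : ∑ k ∈ Finset.range N, w k = N * W := by
    rw [hW]; field_simp
  have hW1 : 1 < W := by
    have h : ∑ k ∈ Finset.range N, (1 : ℝ) < ∑ k ∈ Finset.range N, w k := by
      refine Finset.sum_lt_sum_of_nonempty ⟨0, Finset.mem_range.mpr hN⟩ ?_
      intro k hk
      exact hw k (Finset.mem_range.mp hk)
    rw [hsum] at h
    simp only [Finset.sum_const, Finset.card_range, nsmul_eq_mul, mul_one] at h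
    exact (lt_mul_iff_one_lt_right hN').mp h
  have hpos : ∀ k ∈ Finset.range N, 0 < 1 - 1 / w k := by
    intro k hk
    have h1 := hw k (Finset.mem_range.mp hk)
    have h2 : 1 / w k < 1 := by
      rw [div_lt_one (by linarith)]
      exact h1
    linarith
  have hprod : 0 < ∏ k ∈ Finset.range N, (1 - 1 / w k) := Finset.prod_pos hpos
  rw [← hW]
  refine ⟨hW1, hprod, ?_⟩
  obtain ⟨m, hm⟩ : ∃ m : ℝ, m = 1 - 1 / W := ⟨_, rfl⟩
  have hm0 : 0 < m := by
    rw [hm]
    have : 1 / W < 1 := by
      rw [div_lt_one (by linarith)]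
      exact hW1
    linarith
  rw [← hm]
  have hterm : ∀ k ∈ Finset.range N, Real.log (1 - 1 / w k) ≤
      Real.log m + ((1 - (2 / W - w k / W ^ 2)) / m - 1) := by
    intro k hk
    have h1 := hpos k hk
    have hwk : 0 < w k := by linarith [hw k (Finset.mem_range.mp hk)]
    have h2 : Real.log ((1 - 1 / w k) / m) ≤ (1 - 1 / w k) / m - 1 :=
      Real.log_le_sub_one_of_pos (div_pos h1 hm0)
    rw [Real.log_div h1.ne' hm0.ne'] at h2
    have h3 : 2 / W - w k / W ^ 2 ≤ 1 / w k := by
      have h4 : 1 / w k - (2 / W - w k / W ^ 2) = (w k - W) ^ 2 / (w k * W ^ 2) := by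
        have : W ≠ 0 := by linarith
        field_simp
        ring
      have h5 : 0 ≤ (w k - W) ^ 2 / (w k * W ^ 2) := by positivity
      linarith
    have h6 : (1 - 1 / w k) / m ≤ (1 - (2 / W - w k / W ^ 2)) / m :=
      div_le_div_of_nonneg_right (by linarith) hm0.le
    linarith
  have hlog : Real.log (∏ k ∈ Finset.range N, (1 - 1 / w k)) ≤ N * Real.log m := by
    rw [Real.log_prod fun k hk => (hpos k hk).ne']
    refine (Finset.sum_le_sum hterm).trans ?_
    have h7 : ∑ k ∈ Finset.range N, (Real.log m + ((1 - (2 / W - w k / W ^ 2)) / m - 1)) =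
        N * Real.log m + ((N - N * (2 / W) + (∑ k ∈ Finset.range N, w k) / W ^ 2) / m - N) := by
      rw [Finset.sum_add_distrib, Finset.sum_sub_distrib, ← Finset.sum_div,
        Finset.sum_sub_distrib, Finset.sum_sub_distrib, Finset.sum_div _ _ (W ^ 2)]
      simp only [Finset.sum_const, Finset.card_range, nsmul_eq_mul, mul_one]
      ring
    rw [h7, hsum]
    have h8 : (N : ℝ) - N * (2 / W) + N * W / W ^ 2 = N * m := by
      have : W ≠ 0 := by linarith
      rw [hm]
      field_simp
      ring
    rw [h8, mul_div_cancel_right₀ _ hm0.ne']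
    linarith
  calc Real.exp (Real.log (∏ k ∈ Finset.range N, (1 - 1 / w k)) / N)
      ≤ Real.exp (Real.log m) := by
        refine Real.exp_le_exp.mpr ?_
        rw [div_le_iff₀ hN']
        linarith
    _ = m := Real.exp_log hm0

theorem shift (N : ℕ) (g : ℕ → ℝ) (h : g N = g 0) (h0 : g 0 ≠ 0) :
    ∏ k ∈ Finset.range N, g (k + 1) = ∏ k ∈ Finset.range N, g k := by
  have h1 := Finset.prod_range_succ' g N
  have h2 := Finset.prod_range_succ g N
  rw [h1, h] at h2
  exact mul_right_cancel₀ h0 h2

end I_Jen

theorem pr_Jen : StJen := by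
  intro N a v hN ha hv hrec
  have hN' : (0 : ℝ) < N := by exact_mod_cast hN
  constructor
  · intro h1
    have hgt : ∀ k < N, 1 < v (k + 1) := by
      intro k hk
      rw [hrec k]
      have := mul_pos (ha k) (show 0 < v k by linarith [h1 k hk.le])
      linarith
    have h0 : 1 < v 0 := by
      rw [← hv]
      have := hgt (N - 1) (by omega)
      rwa [Nat.sub_add_cancel hN] at this
    have hw : ∀ k < N, 1 < v k := by
      intro k hk
      rcases Nat.eq_zero_or_pos k with rfl | hk0
      · exact h0
      · have := hgt (k - 1) (by omega)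
        rwa [Nat.sub_add_cancel hk0] at this
    have hprod : ∏ i ∈ Finset.range N, a i = ∏ k ∈ Finset.range N, (1 - 1 / v k) := by
      have h2 : ∏ k ∈ Finset.range N, (v (k + 1) - 1) = ∏ k ∈ Finset.range N, (v k - 1) :=
        I_Jen.shift N (fun k => v k - 1) (by show v N - 1 = v 0 - 1; rw [hv])
          (by show v 0 - 1 ≠ 0; linarith)
      calc ∏ i ∈ Finset.range N, a i = ∏ k ∈ Finset.range N, ((v (k + 1) - 1) / v k) := by
            refine Finset.prod_congr rfl fun k hk => ?_
            have hk' := hw k (Finset.mem_range.mp hk)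
            rw [hrec k, add_sub_cancel_right, mul_div_cancel_right₀ _ (by linarith)]
        _ = (∏ k ∈ Finset.range N, (v k - 1)) / ∏ k ∈ Finset.range N, v k := by
            rw [Finset.prod_div_distrib, h2]
        _ = ∏ k ∈ Finset.range N, (1 - 1 / v k) := by
            rw [← Finset.prod_div_distrib]
            refine Finset.prod_congr rfl fun k hk => ?_
            have hk' := hw k (Finset.mem_range.mp hk)
            rw [sub_div, div_self (by linarith)]
    obtain ⟨hV, hP, hc⟩ := I_Jen.core N hN v hw
    rw [← hprod] at hP hc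
    obtain ⟨V, hVd⟩ : ∃ V : ℝ, V = (∑ k ∈ Finset.range N, v k) / N := ⟨_, rfl⟩
    rw [← hVd] at hV hc ⊢
    have hV0 : 0 < 1 / V := by positivity
    have hc1 : Real.exp (Real.log (∏ i ∈ Finset.range N, a i) / N) < 1 := by linarith
    constructor
    · have h3 : Real.log (∏ i ∈ Finset.range N, a i) / N < 0 := Real.exp_lt_one_iff.mp hc1
      have h4 : Real.log (∏ i ∈ Finset.range N, a i) < 0 := by
        by_contra hcon
        push Not at hcon
        have := div_nonneg hcon hN'.le
        linarith
      exact (Real.log_neg_iff hP).mp h4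
    · rw [abs_of_pos (by linarith), div_le_iff₀ (by linarith)]
      have h5 : 1 / V ≤ 1 - Real.exp (Real.log (∏ i ∈ Finset.range N, a i) / N) := by linarith
      have hVp : 0 < V := by linarith
      calc (1 : ℝ) = V * (1 / V) := by field_simp
        _ ≤ V * (1 - Real.exp (Real.log (∏ i ∈ Finset.range N, a i) / N)) :=
            mul_le_mul_of_nonneg_left h5 hVp.le
  · intro h1
    have hw : ∀ k < N, 1 < 1 - v k := fun k hk => by linarith [h1 k hk.le]
    have h0 : v 0 < 0 := h1 0 (Nat.zero_le _)
    have hprod : (∏ i ∈ Finset.range N, a i)⁻¹ =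
        ∏ k ∈ Finset.range N, (1 - 1 / (1 - v k)) := by
      have h2 : ∏ k ∈ Finset.range N, (1 - v (k + 1)) = ∏ k ∈ Finset.range N, (1 - v k) :=
        I_Jen.shift N (fun k => 1 - v k) (by show 1 - v N = 1 - v 0; rw [hv])
          (by show 1 - v 0 ≠ 0; linarith)
      calc (∏ i ∈ Finset.range N, a i)⁻¹
          = (∏ k ∈ Finset.range N, ((1 - v (k + 1)) / (- v k)))⁻¹ := by
            congr 1
            refine Finset.prod_congr rfl fun k hk => ?_
            have hk' := h1 k (Finset.mem_range.mp hk).le
            rw [hrec k, eq_div_iff (by linarith)]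
            ring
        _ = (∏ k ∈ Finset.range N, (- v k)) / ∏ k ∈ Finset.range N, (1 - v k) := by
            rw [Finset.prod_div_distrib, h2, inv_div]
        _ = ∏ k ∈ Finset.range N, (1 - 1 / (1 - v k)) := by
            rw [← Finset.prod_div_distrib]
            refine Finset.prod_congr rfl fun k hk => ?_
            have hk' := hw k (Finset.mem_range.mp hk)
            rw [eq_sub_iff_add_eq, ← add_div, div_eq_one_iff_eq (by linarith)]
            ring
    obtain ⟨hV, hP, hc⟩ := I_Jen.core N hN (fun k => 1 - v k) hw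
    rw [← hprod] at hP hc
    have hAp : 0 < ∏ i ∈ Finset.range N, a i := inv_pos.mp hP
    obtain ⟨R, hR⟩ : ∃ R : ℝ, R = (∑ k ∈ Finset.range N, -v k) / N := ⟨_, rfl⟩
    have hWR : (∑ k ∈ Finset.range N, (1 - v k)) / N = 1 + R := by
      rw [hR, Finset.sum_sub_distrib, Finset.sum_neg_distrib]
      simp only [Finset.sum_const, Finset.card_range, nsmul_eq_mul, mul_one]
      field_simp
      ring
    rw [hWR] at hV hc
    rw [← hR]
    have hR0 : 0 < R := by linarith
    obtain ⟨c, hcd⟩ : ∃ c : ℝ, c = Real.exp (Real.log (∏ i ∈ Finset.range N, a i) / N) := ⟨_, rfl⟩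
    have hc0 : 0 < c := by rw [hcd]; exact Real.exp_pos _
    have hcinv : Real.exp (Real.log (∏ i ∈ Finset.range N, a i)⁻¹ / N) = c⁻¹ := by
      rw [hcd, Real.log_inv, neg_div, Real.exp_neg]
    rw [hcinv] at hc
    rw [← hcd]
    have hcR : 1 + 1 / R ≤ c := by
      have h3 : 1 - 1 / (1 + R) = R / (1 + R) := by
        field_simp
        ring
      rw [h3, inv_le_comm₀ hc0 (by positivity), inv_div] at hc
      have h4 : 1 + 1 / R = (1 + R) / R := by
        field_simp
        ring
      rw [h4]
      exact hc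
    have hR1 : 0 < 1 / R := by positivity
    have hc1 : 1 < c := by linarith
    constructor
    · rw [hcd, Real.one_lt_exp_iff] at hc1
      have h4 : 0 < Real.log (∏ i ∈ Finset.range N, a i) := by
        by_contra hcon
        push Not at hcon
        have := div_nonpos_of_nonpos_of_nonneg hcon hN'.le
        linarith
      exact (Real.log_pos_iff hAp.le).mp h4
    · rw [abs_of_neg (by linarith), div_le_iff₀ (by linarith)]
      calc (1 : ℝ) = R * (1 / R) := by field_simp
        _ ≤ R * -(1 - c) := mul_le_mul_of_nonneg_left (by linarith) hR0.le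

end Pool.Agent.OmegaStability.OS
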