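import Pool.Agent.Work.MP_814647_an.OS.Stmts2

/-!
# Circle extensions: mean hyperbolicity (item Mea)
-/

set_option autoImplicit false

open Set Filter Topology Function
open scoped Manifold ContDiff

noncomputable section

namespace Pool.Agent.OmegaStability.OS

open Dens

universe u v

namespace I_Mea

theorem orb_der {L : ℕ → ℝ → ℝ} (hL : ∀ j, Differentiable ℝ (L j)) (t θ : ℝ) (j : ℕ) :
    HasDerivAt (orb L t j) (∏ i ∈ Finset.range j, deriv (L i) (orb L t i θ)) θ := by
  induction j with
  | zero =>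
    rw [Finset.range_zero, Finset.prod_empty]
    exact hasDerivAt_id θ
  | succ j ih =>
    have h2 := ((hL j (orb L t j θ)).hasDerivAt).comp θ ih
    have h3 := h2.add_const t
    rw [Finset.prod_range_succ, mul_comm]
    exact h3

theorem rotated_zero {M : Type*} [MulAction Circle M] (f : M → M) : rotated f 0 = f := by
  funext z
  simp [rotated]

end I_Mea

open I_Mea

theorem pr_Mea (hBr : StBr.{u}) (hInt : StInt) : StMea.{u} := by
  intro m M _ _ _ _ _ ha hfree r hr f hcirc hst
  obtain ⟨ℒ, Dm, τ, Λ, hF, -⟩ := hBr m M ha hfree r hr f hcirc hst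
  have hτ := hF.tau
  refine ⟨τ / 2, by positivity, fun n y hn hy => ?_⟩
  have h0 : rotated (⇑f) 0 = ⇑f := rotated_zero _
  have hExt : Ext (fun j => ℒ ((⇑f)^[j] y)) n τ Λ := by
    have h1 := hF.ext 0 y n (by rw [abs_zero]; exact hτ) hn (by rw [h0]; exact hy)
    rw [h0, abs_zero, sub_zero] at h1
    exact h1
  have hchain := chain_periodic (f := (⇑f : M → M)) (ℒ := ℒ) hF.lift hn hy
  generalize hL : (fun j => ℒ ((⇑f)^[j] y)) = L at hExt hchain
  obtain ⟨P, hP, hχc, hχ0, hint⟩ := hInt L n τ Λ (τ / 2) hExt (by positivity) (by linarith) hF.lam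
  refine ⟨P, fun s => Real.log (∏ i ∈ Finset.range n, deriv (L i) (orb L s i (P s))) / n,
    hP.zero, hP.cont, hχc, ?_, hint⟩
  intro t ht
  have hfix := hP.fixed t (abs_le.2 ht)
  have hiter : ∀ θ, (rotated (⇑f) t)^[n] (Circle.exp θ • y) = Circle.exp (orb L t n θ) • y := by
    intro θ
    have h1 := hchain.iterate t θ n le_rfl
    have h2 : (⇑f)^[n] y = y := hy
    simp only [h2] at h1
    exact h1
  refine ⟨hχ0 t ht, ?_, ?_⟩
  · rw [hiter, hfix]
  · obtain ⟨h, -, hh⟩ := exists_rot ha r
    have hfun : rotated (⇑f) t = ⇑(f.trans (h t)) := by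
      funext z
      exact (hh t (f z)).symm
    have hmd : MDifferentiable (𝓡 m) (𝓡 m) (rotated (⇑f) t)^[n] := by
      rw [hfun]
      exact OmegaStab.FinHyp.mdiff_iter (OmegaStab.FinHyp.mdiff hr (f.trans (h t))) n
    have hder := orb_der (L := L) (fun j => (hExt.smooth j).differentiable (by simp)) t (P t) n
    have h1 := mfderiv_lift ha (rotated (⇑f) t)^[n] y y (orb L t n) (P t) _ (hmd _) hder hiter
    rw [hfix] at h1
    have hpos : 0 < ∏ i ∈ Finset.range n, deriv (L i) (orb L t i (P t)) :=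
      Finset.prod_pos fun i _ => hExt.dpos i _
    have hn0 : (n : ℝ) ≠ 0 := by exact_mod_cast hn.ne'
    have hexp : Real.exp (n * (Real.log (∏ i ∈ Finset.range n, deriv (L i) (orb L t i (P t))) / n))
        = ∏ i ∈ Finset.range n, deriv (L i) (orb L t i (P t)) := by
      rw [mul_div_cancel₀ _ hn0, Real.exp_log hpos]
    beta_reduce
    rw [hexp]
    exact h1

end Pool.Agent.OmegaStability.OS
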