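import Pool.Agent.Work.MP_814647_an.OS.Stmts

/-!
# Item SwC: the motion of an attracting periodic point
-/

set_option autoImplicit false

open Set Filter Topology Function

noncomputable section

namespace Pool.Agent.OmegaStability.OS

open Dens

namespace I_SwC

theorem monoFam {L : ℕ → ℝ → ℝ} {N : ℕ} {τ Λ : ℝ} (h : Ext L N τ Λ) :
    MonoFam (fun t θ => orb L t N θ) where
  cont := orb_cont (fun j => (h.smooth j).continuous) N
  mono t := orb_strictMono (fun j => strictMono_of_deriv_pos (h.dpos j)) t N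
  per t θ := orb_per h.deg t N θ
  incr t t' θ htt := by
    obtain ⟨k, rfl⟩ : ∃ k, N = k + 1 := ⟨N - 1, by have := h.pos; omega⟩
    have hm : ∀ j, Monotone (L j) := fun j => (strictMono_of_deriv_pos (h.dpos j)).monotone
    have h1 := hm k (orb_le_orb hm htt θ k)
    show L k (orb L t k θ) + t + (t' - t) ≤ L k (orb L t' k θ) + t'
    linarith

theorem orb_deriv' {L : ℕ → ℝ → ℝ} {N : ℕ} {τ Λ : ℝ} (h : Ext L N τ Λ) (t θ : ℝ) (j : ℕ) :
    HasDerivAt (orb L t j) (∏ i ∈ Finset.range j, deriv (L i) (orb L t i θ)) θ := by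
  induction j with
  | zero =>
    rw [Finset.range_zero, Finset.prod_empty]
    exact hasDerivAt_id θ
  | succ j ih =>
    have h0 : HasDerivAt (L j) (deriv (L j) (orb L t j θ)) (orb L t j θ) :=
      ((h.smooth j).differentiable (by simp) _).hasDerivAt
    have h3 := (h0.comp θ ih).add_const t
    rw [Finset.prod_range_succ, mul_comm]
    exact h3

theorem orb_zero0 {L : ℕ → ℝ → ℝ} {N : ℕ} {τ Λ : ℝ} (h : Ext L N τ Λ) (j : ℕ) :
    orb L 0 j 0 = 0 := by
  induction j with
  | zero => rfl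
  | succ j ih =>
    show L j (orb L 0 j 0) + 0 = 0
    rw [ih, h.zero, add_zero]

end I_SwC

open I_SwC

theorem pr_SwC : StSwC := by
  intro L N τ Λ s₁ hE hs₁ hs₁τ hprod
  have hτ : 0 < τ := hs₁.trans hs₁τ
  have hG := monoFam hE
  have hφ := hG.dispFam hE.noT
  have h00 : orb L 0 N 0 - 0 = 0 := by rw [orb_zero0 hE]; ring
  have hm : ∀ j, Monotone (L j) := fun j => (strictMono_of_deriv_pos (hE.dpos j)).monotone
  -- the signs near 0
  have hd0 : HasDerivAt (fun θ => orb L 0 N θ - θ)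
      (∏ i ∈ Finset.range N, deriv (L i) 0 - 1) 0 := by
    have h1 := (orb_deriv' hE 0 0 N).sub (hasDerivAt_id (0 : ℝ))
    have h2 : ∏ i ∈ Finset.range N, deriv (L i) (orb L 0 i 0) =
        ∏ i ∈ Finset.range N, deriv (L i) 0 :=
      Finset.prod_congr rfl fun i _ => by rw [orb_zero0 hE]
    rw [h2] at h1
    exact h1
  have hsl : ∀ᶠ x in 𝓝[≠] (0 : ℝ), slope (fun θ => orb L 0 N θ - θ) 0 x < 0 :=
    (hasDerivAt_iff_tendsto_slope.1 hd0).eventually (gt_mem_nhds (by linarith))
  obtain ⟨ρ, hρ, hρ'⟩ := Metric.eventually_nhds_iff.1 (eventually_nhdsWithin_iff.1 hsl)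
  have hsl' : ∀ x, |x| < ρ → x ≠ 0 → (orb L 0 N x - x) / x < 0 := by
    intro x hx hx0
    have h1 := hρ' (y := x) (by rwa [Real.dist_eq, sub_zero]) hx0
    rw [slope_def_field] at h1
    have h2 : (orb L 0 N x - x - (orb L 0 N 0 - 0)) / (x - 0) = (orb L 0 N x - x) / x := by
      rw [h00, sub_zero, sub_zero]
    rwa [h2] at h1
  have hr : ∀ x ∈ Ioo 0 ρ, orb L 0 N x - x < 0 := by
    intro x hx
    have h1 := hsl' x (by rw [abs_of_pos hx.1]; exact hx.2) hx.1.ne'
    rcases div_neg_iff.1 h1 with h2 | h2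
    · exact absurd h2.2 (not_lt.2 hx.1.le)
    · exact h2.1
  have hl : ∀ x ∈ Ioo (-ρ) 0, 0 < orb L 0 N x - x := by
    intro x hx
    have h1 := hsl' x (by rw [abs_of_neg hx.2]; linarith [hx.1]) hx.2.ne
    rcases div_neg_iff.1 h1 with h2 | h2
    · exact h2.1
    · exact absurd h2.2 (not_lt.2 hx.2.le)
  obtain ⟨W, W', -, -, hW, hW', htrap⟩ := hφ.trap h00 hρ hr hl hs₁.le hs₁τ
    (k := 0) (by linarith)
  choose! P hPI hP0 hPr hPl using htrap
  have hfix : ∀ s, |s| ≤ s₁ → orb L s N (P s) = P s := fun s hs => by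
    have := hP0 s hs
    linarith
  have hincr0 : ∀ s s', |s| ≤ s₁ → |s'| ≤ s₁ → s ≤ s' → P s + (s' - s) ≤ P s' := by
    intro s s' hs hs' hss
    by_contra hcon
    have hcon' := not_le.1 hcon
    rcases lt_or_ge (P s') (P s) with h1 | h1
    · have h2 := hPl s hs (P s') ⟨(hPI s' hs').1.le, h1⟩
      have h3 := hφ.incr s s' (P s') hss
      have h4 := hP0 s' hs'
      linarith
    · have h2 := (hG.mono s').monotone h1
      have h3 := hG.incr s s' (P s) hss
      have h4 := hfix s hs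
      have h5 := hfix s' hs'
      linarith
  have hincr : ∀ s s' : ℝ, |s| ≤ s₁ → |s'| ≤ s₁ → s ≤ s' → ∀ k : ℕ,
      orb L s k (P s) + (s' - s) ≤ orb L s' k (P s') := by
    intro s s' hs hs' hss k
    induction k with
    | zero => exact hincr0 s s' hs hs' hss
    | succ k ih =>
      have h1 : L k (orb L s k (P s)) ≤ L k (orb L s' k (P s')) := hm k (by linarith)
      show L k (orb L s k (P s)) + s + (s' - s) ≤ L k (orb L s' k (P s')) + s'
      linarith
  have hloop : ∀ s, |s| ≤ s₁ → ∀ K, orb L s (K * N) (P s) = P s := by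
    intro s hs K
    rw [orb_loops hE.per]
    exact iterate_fixed (hfix s hs) K
  have hcirc0 : ∀ s s', |s| ≤ s₁ → |s'| ≤ s₁ → P s' < P s + 2 * Real.pi := by
    intro s s' hs hs'
    have hpi := Real.pi_pos
    by_contra hcon
    have hcon' := not_lt.1 hcon
    have h1 : P s + 2 * Real.pi ∈ Ioc (P s) W := ⟨by linarith, by linarith [(hPI s' hs').2]⟩
    have h2 := hPr s hs _ h1
    have h3 := hG.per s (P s)
    have h4 := hfix s hs
    linarith
  refine ⟨P, ⟨?_, ?_, hfix, ?_⟩, ?_, hincr⟩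
  · -- P 0 = 0
    have h0 : |(0 : ℝ)| ≤ s₁ := by rw [abs_zero]; exact hs₁.le
    rcases lt_trichotomy (P 0) 0 with h1 | h1 | h1
    · have h2 := hPr 0 h0 0 ⟨h1, hW.le⟩
      linarith
    · exact h1
    · have h2 := hPl 0 h0 0 ⟨by linarith, h1⟩
      linarith
  · -- continuity
    rw [Metric.continuousOn_iff]
    intro s₀ hs₀ ε hε
    have habs : ∀ s ∈ Icc (-s₁) s₁, |s| ≤ s₁ := fun s hs => abs_le.2 hs
    have hI := hPI s₀ (habs s₀ hs₀)
    obtain ⟨δ, hδ, hδε, hδ1, hδ2⟩ : ∃ δ : ℝ, 0 < δ ∧ δ < ε ∧ -W' < P s₀ - δ ∧ P s₀ + δ < W := by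
      refine ⟨min (ε / 2) (min ((P s₀ + W') / 2) ((W - P s₀) / 2)), ?_, ?_, ?_, ?_⟩
      · have := hI.1
        have := hI.2
        refine lt_min (by linarith) (lt_min (by linarith) (by linarith))
      · exact (min_le_left _ _).trans_lt (by linarith)
      · have h1 : min (ε / 2) (min ((P s₀ + W') / 2) ((W - P s₀) / 2)) ≤ (P s₀ + W') / 2 :=
          (min_le_right _ _).trans (min_le_left _ _)
        linarith [hI.1]
      · have h1 : min (ε / 2) (min ((P s₀ + W') / 2) ((W - P s₀) / 2)) ≤ (W - P s₀) / 2 :=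
          (min_le_right _ _).trans (min_le_right _ _)
        linarith [hI.2]
    have h1 : 0 < orb L s₀ N (P s₀ - δ) - (P s₀ - δ) :=
      hPl s₀ (habs s₀ hs₀) _ ⟨hδ1.le, by linarith⟩
    have h2 : orb L s₀ N (P s₀ + δ) - (P s₀ + δ) < 0 :=
      hPr s₀ (habs s₀ hs₀) _ ⟨by linarith, hδ2.le⟩
    have e1 : ∀ᶠ s in 𝓝 s₀, 0 < orb L s N (P s₀ - δ) - (P s₀ - δ) :=
      (hφ.cont_left (P s₀ - δ)).continuousAt.eventually (lt_mem_nhds h1)
    have e2 : ∀ᶠ s in 𝓝 s₀, orb L s N (P s₀ + δ) - (P s₀ + δ) < 0 :=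
      (hφ.cont_left (P s₀ + δ)).continuousAt.eventually (gt_mem_nhds h2)
    obtain ⟨η, hη, hη'⟩ := Metric.eventually_nhds_iff.1 (e1.and e2)
    refine ⟨η, hη, fun s hs hd => ?_⟩
    obtain ⟨h3, h4⟩ := hη' hd
    have hs' := habs s hs
    rw [Real.dist_eq, abs_lt]
    constructor
    · by_contra hcon
      have h5 : P s ≤ P s₀ - δ := by linarith [not_lt.1 hcon]
      rcases h5.lt_or_eq with h6 | h6
      · have := hPr s hs' (P s₀ - δ) ⟨h6, by linarith⟩
        linarith
      · have := hP0 s hs'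
        rw [h6] at this
        linarith
    · by_contra hcon
      have h5 : P s₀ + δ ≤ P s := by linarith [not_lt.1 hcon]
      rcases h5.lt_or_eq with h6 | h6
      · have := hPl s hs' (P s₀ + δ) ⟨by linarith, h6⟩
        linarith
      · have := hP0 s hs'
        rw [← h6] at this
        linarith
  · -- circle
    intro s s' hs hs' k
    have hpi := Real.pi_pos
    rcases le_total s' s with hss | hss
    · have := hincr s' s hs' hs hss k
      linarith
    · by_contra hcon
      have hcon' := not_lt.1 hcon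
      have hup : ∀ j, orb L s (k + j) (P s) + 2 * Real.pi ≤ orb L s' (k + j) (P s') := by
        intro j
        induction j with
        | zero => exact hcon'
        | succ j ih =>
          have h1 := hm (k + j) ih
          rw [hE.deg] at h1
          show L (k + j) (orb L s (k + j) (P s)) + s + 2 * Real.pi ≤
            L (k + j) (orb L s' (k + j) (P s')) + s'
          linarith
      have h1 := hup (k * N - k)
      have h2 : k + (k * N - k) = k * N := by
        have : k ≤ k * N := Nat.le_mul_of_pos_right k hE.pos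
        omega
      rw [h2, hloop s hs, hloop s' hs'] at h1
      linarith [hcirc0 s s' hs hs']
  · -- the multiplier
    intro s hs
    have hsτ : |s| < τ := hs.trans_lt hs₁τ
    have hne := hE.noN s hsτ (P s) (hfix s hs)
    refine lt_of_le_of_ne ?_ hne
    have hd : HasDerivAt (fun θ => orb L s N θ - θ)
        (∏ i ∈ Finset.range N, deriv (L i) (orb L s i (P s)) - 1) (P s) :=
      (orb_deriv' hE s (P s) N).sub (hasDerivAt_id (P s))
    have ht := (hasDerivAt_iff_tendsto_slope.1 hd).mono_left (nhdsGT_le_nhdsNE (P s))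
    have h1 : ∏ i ∈ Finset.range N, deriv (L i) (orb L s i (P s)) - 1 ≤ 0 := by
      refine le_of_tendsto ht ?_
      filter_upwards [Ioo_mem_nhdsGT (hPI s hs).2] with x hx
      rw [slope_def_field, hP0 s hs, sub_zero]
      have h2 := hPr s hs x ⟨hx.1, hx.2.le⟩
      exact div_nonpos_of_nonpos_of_nonneg h2.le (by linarith [hx.1])
    linarith

end Pool.Agent.OmegaStability.OS
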