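import Pool.Agent.Work.MP_814647_an.OS.Stmts

/-!
# Circle extensions with one-sided nonlinearity, item SwE (helper24): the motion of a repelling
periodic point
-/

set_option autoImplicit false

open Set Filter Topology Function
open scoped Manifold ContDiff

noncomputable section

namespace Pool.Agent.OmegaStability.OS

open Dens

namespace I_SwE

variable {L : ℕ → ℝ → ℝ} {N : ℕ} {τ Λ : ℝ}

theorem smono (hE : Ext L N τ Λ) (j : ℕ) : StrictMono (L j) :=
  strictMono_of_deriv_pos (hE.dpos j)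

theorem diffb (hE : Ext L N τ Λ) (j : ℕ) : Differentiable ℝ (L j) :=
  (hE.smooth j).differentiable one_ne_zero

/-- the derivative of the orbit map -/
theorem orb_hasDeriv (hE : Ext L N τ Λ) (s θ : ℝ) (k : ℕ) :
    HasDerivAt (orb L s k) (∏ i ∈ Finset.range k, deriv (L i) (orb L s i θ)) θ := by
  induction k with
  | zero =>
    rw [Finset.range_zero, Finset.prod_empty]
    exact hasDerivAt_id θ
  | succ k ih =>
    have h1 : HasDerivAt (L k) (deriv (L k) (orb L s k θ)) (orb L s k θ) :=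
      (diffb hE k _).hasDerivAt
    have h2 := (h1.comp θ ih).add_const s
    rw [Finset.prod_range_succ, mul_comm]
    exact h2

theorem monoFam (hE : Ext L N τ Λ) : MonoFam (fun t θ => orb L t N θ) where
  cont := Dens.orb_cont (fun j => (diffb hE j).continuous) N
  mono t := Dens.orb_strictMono (smono hE) t N
  per t θ := Dens.orb_per hE.deg t N θ
  incr t t' θ htt := by
    obtain ⟨k, rfl⟩ : ∃ k, N = k + 1 := ⟨N - 1, by have := hE.pos; omega⟩
    have h1 := (smono hE k).monotone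
      (Dens.orb_le_orb (fun j => (smono hE j).monotone) htt θ k)
    show L k (orb L t k θ) + t + (t' - t) ≤ L k (orb L t' k θ) + t'
    linarith

theorem orb_zz (hE : Ext L N τ Λ) (j : ℕ) : orb L 0 j 0 = 0 := by
  induction j with
  | zero => rfl
  | succ j ih =>
    show L j (orb L 0 j 0) + 0 = 0
    rw [ih, hE.zero, add_zero]

/-- sign of a function with positive derivative near a zero -/
theorem sign_near {f : ℝ → ℝ} {d : ℝ} (hf : HasDerivAt f d 0) (hd : 0 < d) (h0 : f 0 = 0) :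
    ∃ ρ > 0, (∀ x ∈ Ioo 0 ρ, 0 < f x) ∧ ∀ x ∈ Ioo (-ρ) 0, f x < 0 := by
  have h1 := (hasDerivAt_iff_tendsto_slope.1 hf).eventually (lt_mem_nhds hd)
  rw [eventually_nhdsWithin_iff, Metric.eventually_nhds_iff] at h1
  obtain ⟨ρ, hρ, h2⟩ := h1
  refine ⟨ρ, hρ, fun x hx => ?_, fun x hx => ?_⟩
  · have h3 := h2 (y := x) (by rw [Real.dist_eq, sub_zero, abs_lt]; exact ⟨by linarith [hx.1], hx.2⟩)
      (ne_of_gt hx.1)
    rw [slope_def_field, h0, sub_zero, sub_zero] at h3
    exact (div_pos_iff_of_pos_right hx.1).1 h3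
  · have h3 := h2 (y := x) (by rw [Real.dist_eq, sub_zero, abs_lt]; exact ⟨hx.1, by linarith [hx.2]⟩)
      (ne_of_lt hx.2)
    rw [slope_def_field, h0, sub_zero, sub_zero] at h3
    by_contra hcon
    have h4 : f x / x ≤ 0 := div_nonpos_of_nonneg_of_nonpos (not_lt.1 hcon) hx.2.le
    linarith

/-- a function with positive values on the right of a zero has a nonnegative derivative -/
theorem deriv_nonneg' {f : ℝ → ℝ} {d x₀ b : ℝ} (hf : HasDerivAt f d x₀) (h0 : f x₀ = 0)
    (hb : x₀ < b) (hpos : ∀ x ∈ Ioc x₀ b, 0 < f x) : 0 ≤ d := by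
  have h1 : Tendsto (slope f x₀) (𝓝[>] x₀) (𝓝 d) :=
    (hasDerivAt_iff_tendsto_slope.1 hf).mono_left
      (nhdsWithin_mono _ fun y hy => ne_of_gt hy)
  refine ge_of_tendsto h1 ?_
  filter_upwards [Ioc_mem_nhdsGT hb] with x hx
  rw [slope_def_field, h0, sub_zero]
  exact div_nonneg (hpos x hx).le (by linarith [hx.1])

end I_SwE

open I_SwE in
theorem pr_SwE : StSwE := by
  intro L N τ Λ s₁ hE hs₁ hsτ hprod
  have hMF := monoFam hE
  have hDF := hMF.dispFam hE.noT
  set φ : ℝ → ℝ → ℝ := fun t θ => orb L t N θ - θ with hφ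
  have hφ0 : φ 0 0 = 0 := by
    show orb L 0 N 0 - 0 = 0
    rw [orb_zz hE, sub_zero]
  have hder : ∀ s θ : ℝ, HasDerivAt (φ s)
      (∏ i ∈ Finset.range N, deriv (L i) (orb L s i θ) - 1) θ := fun s θ =>
    (orb_hasDeriv hE s θ N).sub (hasDerivAt_id θ)
  have hd0 : 0 < ∏ i ∈ Finset.range N, deriv (L i) (orb L 0 i 0) - 1 := by
    have h1 : ∏ i ∈ Finset.range N, deriv (L i) (orb L 0 i 0) =
        ∏ i ∈ Finset.range N, deriv (L i) 0 :=
      Finset.prod_congr rfl fun i _ => by rw [orb_zz hE]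
    rw [h1]
    linarith
  obtain ⟨ρ, hρ, hρ1, hρ2⟩ := sign_near (hder 0 0) hd0 hφ0
  have htrap := hDF.refl.trap (by
      show φ 0 (-0) = 0
      rw [neg_zero]; exact hφ0) hρ
    (fun x hx => hρ2 (-x) ⟨by linarith [hx.2], by linarith [hx.1]⟩)
    (fun x hx => hρ1 (-x) ⟨by linarith [hx.2], by linarith [hx.1]⟩)
    hs₁.le hsτ (k := 0) (by linarith)
  obtain ⟨W, W', -, -, hW, hW', hα⟩ := htrap
  choose! α hα1 hα2 hα3 hα4 using hα
  -- properties of `P = -α`
  have hP1 : ∀ s, |s| ≤ s₁ → -W < -α s ∧ -α s < W' := fun s hs =>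
    ⟨by linarith [(hα1 s hs).2], by linarith [(hα1 s hs).1]⟩
  have hP2 : ∀ s, |s| ≤ s₁ → φ s (-α s) = 0 := fun s hs => hα2 s hs
  have hP3 : ∀ s, |s| ≤ s₁ → ∀ x, -W ≤ x → x < -α s → φ s x < 0 := by
    intro s hs x hx1 hx2
    have h1 : φ s (-(-x)) < 0 := hα3 s hs (-x) ⟨by linarith, by linarith⟩
    rwa [neg_neg] at h1
  have hP4 : ∀ s, |s| ≤ s₁ → ∀ x, -α s < x → x ≤ W' → 0 < φ s x := by
    intro s hs x hx1 hx2
    have h1 : 0 < φ s (-(-x)) := hα4 s hs (-x) ⟨by linarith, by linarith⟩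
    rwa [neg_neg] at h1
  set P : ℝ → ℝ := fun s => -α s with hP
  have hfix : ∀ s, |s| ≤ s₁ → orb L s N (P s) = P s := by
    intro s hs
    have h1 : orb L s N (P s) - P s = 0 := hP2 s hs
    linarith
  have h00 : |(0 : ℝ)| ≤ s₁ := by rw [abs_zero]; exact hs₁.le
  have hPz : P 0 = 0 := by
    rcases lt_trichotomy (P 0) 0 with h | h | h
    · have := hP4 0 h00 0 h hW'.le
      linarith
    · exact h
    · have := hP3 0 h00 0 (by linarith) h
      linarith
  have hanti : ∀ s s' : ℝ, |s| ≤ s₁ → |s'| ≤ s₁ → s ≤ s' → P s' ≤ P s := by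
    intro s s' hs hs' hss
    by_contra hcon
    have h1 := hP4 s hs (P s') (not_le.1 hcon) (hP1 s' hs').2.le
    have h2 := hDF.incr s s' (P s') hss
    have h3 := hP2 s' hs'
    have h4 : φ s (P s') + (s' - s) ≤ φ s' (P s') := h2
    have h5 : φ s' (P s') = 0 := h3
    linarith
  have hcont : ContinuousOn P (Icc (-s₁) s₁) := by
    intro s₀ hs₀
    have hs₀' : |s₀| ≤ s₁ := abs_le.2 hs₀
    have hev : ∀ᶠ s in 𝓝[Icc (-s₁) s₁] s₀, |s| ≤ s₁ := by
      filter_upwards [self_mem_nhdsWithin] with s hs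
      exact abs_le.2 hs
    refine tendsto_order.2 ⟨fun a ha => ?_, fun a ha => ?_⟩
    · have hx : max a (-W) < P s₀ := max_lt ha (hP1 s₀ hs₀').1
      have h1 : φ s₀ (max a (-W)) < 0 := hP3 s₀ hs₀' _ (le_max_right _ _) hx
      have h2 : ∀ᶠ s in 𝓝[Icc (-s₁) s₁] s₀, φ s (max a (-W)) < 0 :=
        ((hDF.cont_left (max a (-W))).continuousAt.eventually (gt_mem_nhds h1)).filter_mono
          nhdsWithin_le_nhds
      filter_upwards [h2, hev] with s h3 hs
      by_contra hcon
      have h4 : P s ≤ max a (-W) := (not_lt.1 hcon).trans (le_max_left _ _)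
      rcases h4.lt_or_eq with h5 | h5
      · have := hP4 s hs _ h5 (hx.le.trans (hP1 s₀ hs₀').2.le)
        linarith
      · have h6 : φ s (P s) = 0 := hP2 s hs
        rw [h5] at h6
        linarith
    · have hx : P s₀ < min a W' := lt_min ha (hP1 s₀ hs₀').2
      have h1 : 0 < φ s₀ (min a W') := hP4 s₀ hs₀' _ hx (min_le_right _ _)
      have h2 : ∀ᶠ s in 𝓝[Icc (-s₁) s₁] s₀, 0 < φ s (min a W') :=
        ((hDF.cont_left (min a W')).continuousAt.eventually (lt_mem_nhds h1)).filter_mono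
          nhdsWithin_le_nhds
      filter_upwards [h2, hev] with s h3 hs
      by_contra hcon
      have h4 : min a W' ≤ P s := (min_le_left _ _).trans (not_lt.1 hcon)
      rcases h4.lt_or_eq with h5 | h5
      · have := hP3 s hs _ ((hP1 s₀ hs₀').1.le.trans hx.le) h5
        linarith
      · have h6 : φ s (P s) = 0 := hP2 s hs
        rw [← h5] at h6
        linarith
  have hmul : ∀ s, |s| ≤ s₁ → 1 < ∏ i ∈ Finset.range N, deriv (L i) (orb L s i (P s)) := by
    intro s hs
    have h1 := deriv_nonneg' (hder s (P s)) (hP2 s hs) (hP1 s hs).2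
      (fun x hx => hP4 s hs x hx.1 hx.2)
    have h2 := hE.noN s (hs.trans_lt hsτ) (P s) (hfix s hs)
    rcases lt_or_eq_of_le h1 with h3 | h3
    · linarith
    · exact absurd (by linarith) h2
  -- the multiples of `N`
  have hloop : ∀ s, |s| ≤ s₁ → ∀ m : ℕ, orb L s (m * N) (P s) = P s := by
    intro s hs m
    rw [Dens.orb_loops hE.per]
    exact Function.iterate_fixed (hfix s hs) m
  have hstep : ∀ s s' : ℝ, s ≤ s' → ∀ k : ℕ,
      orb L s' (k + 1) (P s') ≤ orb L s (k + 1) (P s) →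
      orb L s' k (P s') ≤ orb L s k (P s) ∧
        s' - s ≤ Λ * (orb L s k (P s) - orb L s' k (P s')) := by
    intro s s' hss k hk
    have h1 : L k (orb L s' k (P s')) + s' ≤ L k (orb L s k (P s)) + s := hk
    have h2 : orb L s' k (P s') ≤ orb L s k (P s) :=
      (smono hE k).le_iff_le.1 (by linarith)
    refine ⟨h2, ?_⟩
    have h3 := image_sub_le_mul_sub_of_deriv_le (diffb hE k) (hE.dle k) h2
    linarith
  have hdesc : ∀ s s' : ℝ, s ≤ s' → ∀ n k : ℕ,
      orb L s' (k + n) (P s') ≤ orb L s (k + n) (P s) →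
      orb L s' k (P s') ≤ orb L s k (P s) := by
    intro s s' hss n
    induction n with
    | zero => intro k hk; exact hk
    | succ n ih => intro k hk; exact ih k (hstep s s' hss (k + n) hk).1
  have hle : ∀ s s' : ℝ, |s| ≤ s₁ → |s'| ≤ s₁ → s ≤ s' → ∀ k : ℕ,
      orb L s' k (P s') ≤ orb L s k (P s) := by
    intro s s' hs hs' hss k
    have hkN : k ≤ k * N := Nat.le_mul_of_pos_right k hE.pos
    refine hdesc s s' hss (k * N - k) k ?_
    rw [Nat.add_sub_cancel' hkN, hloop s' hs', hloop s hs]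
    exact hanti s s' hs hs' hss
  have hcirc0 : ∀ s s' : ℝ, |s| ≤ s₁ → |s'| ≤ s₁ → P s' < P s + 2 * Real.pi := by
    intro s s' hs hs'
    have h1 : φ s (P s + 2 * Real.pi) = 0 := by
      have h2 := hDF.per s (P s) 1
      rw [Int.cast_one, one_mul] at h2
      exact h2.trans (hP2 s hs)
    have h2 : W' < P s + 2 * Real.pi := by
      by_contra hcon
      have := hP4 s hs (P s + 2 * Real.pi) (by linarith [Real.pi_pos]) (not_lt.1 hcon)
      linarith
    exact (hP1 s' hs').2.trans h2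
  have hcirc : ∀ s s' : ℝ, |s| ≤ s₁ → |s'| ≤ s₁ → ∀ k : ℕ,
      orb L s' k (P s') < orb L s k (P s) + 2 * Real.pi := by
    intro s s' hs hs' k
    rcases le_total s s' with hss | hss
    · have := hle s s' hs hs' hss k
      linarith [Real.pi_pos]
    · induction k with
      | zero => exact hcirc0 s s' hs hs'
      | succ k ih =>
        have h1 := smono hE k ih
        rw [hE.deg] at h1
        show L k (orb L s' k (P s')) + s' < L k (orb L s k (P s)) + s + 2 * Real.pi
        linarith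
  exact ⟨P, ⟨hPz, hcont, hfix, hcirc⟩, hmul, fun s s' hs hs' hss k =>
    hstep s s' hss k (hle s s' hs hs' hss (k + 1))⟩

end Pool.Agent.OmegaStability.OS
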