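import Pool.Agent.Work.MP_814647_an.OS.Stmts2

set_option autoImplicit false

open Set Filter Topology Function
open scoped Manifold ContDiff

noncomputable section

namespace Pool.Agent.OmegaStability.OS

open Dens

universe u

namespace I_Uq

theorem zero_of_exp {D : ℝ → ℝ} (hc : Continuous D) (h0 : D 0 = 0)
    (h : ∀ θ, Circle.exp (D θ) = 1) (θ : ℝ) : D θ = 0 := by
  have hZ : ∀ t, ∃ n : ℤ, D t = n * (2 * Real.pi) := by
    intro t
    have := h t
    rw [← Circle.exp_zero, Circle.exp_eq_exp] at this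
    obtain ⟨m, hm⟩ := this
    exact ⟨m, by rw [hm]; ring⟩
  by_contra hne
  -- intermediate value
  have hpi := Real.pi_pos
  obtain ⟨n, hn⟩ := hZ θ
  have hn0 : n ≠ 0 := by
    rintro rfl
    exact hne (by rw [hn]; simp)
  have hpre : IsPreconnected (Set.range D) := isPreconnected_range hc
  have hord : (Set.range D).OrdConnected := hpre.ordConnected
  have hm0 : (0 : ℝ) ∈ Set.range D := ⟨0, h0⟩
  have hmθ : D θ ∈ Set.range D := ⟨θ, rfl⟩
  rcases lt_or_gt_of_ne hn0 with hneg | hpos
  · have h1 : (n : ℝ) ≤ -1 := by exact_mod_cast (by omega : n ≤ -1)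
    have h2 : -Real.pi ∈ Set.range D := by
      apply hord.out hmθ hm0
      constructor
      · rw [hn]; nlinarith
      · linarith
    obtain ⟨t, ht⟩ := h2
    obtain ⟨k, hk⟩ := hZ t
    have h3 : (2 * k : ℝ) = -1 := by
      have : (2 * k : ℝ) * Real.pi = (-1) * Real.pi := by linarith
      exact mul_right_cancel₀ hpi.ne' this
    have h4 : (2 * k : ℤ) = -1 := by exact_mod_cast h3
    omega
  · have h1 : (1 : ℝ) ≤ n := by exact_mod_cast (by omega : 1 ≤ n)
    have h2 : Real.pi ∈ Set.range D := by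
      apply hord.out hm0 hmθ
      constructor
      · linarith
      · rw [hn]; nlinarith
    obtain ⟨t, ht⟩ := h2
    obtain ⟨k, hk⟩ := hZ t
    have h3 : (2 * k : ℝ) = 1 := by
      have : (2 * k : ℝ) * Real.pi = 1 * Real.pi := by linarith
      exact mul_right_cancel₀ hpi.ne' this
    have h4 : (2 * k : ℤ) = 1 := by exact_mod_cast h3
    omega

end I_Uq

theorem pr_Uq : StUq.{u} := by
  intro M _ hfree f y L L' hL hL'
  obtain ⟨hc, h0, h⟩ := hL
  obtain ⟨hc', h0', h'⟩ := hL'
  funext θ
  have key : ∀ t, (L - L') t = 0 := by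
    apply I_Uq.zero_of_exp (hc.sub hc')
    · simp [h0, h0']
    · intro t
      apply hfree _ (f y)
      have e1 : Circle.exp (L t) • f y = Circle.exp (L' t) • f y := by rw [← h t, ← h' t]
      rw [Pi.sub_apply, sub_eq_neg_add, Circle.exp_add, mul_smul, e1, ← mul_smul, ← Circle.exp_add]
      simp
  have := key θ
  simp only [Pi.sub_apply] at this
  linarith

end Pool.Agent.OmegaStability.OS
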