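import Pool.Agent.Work.MP_814647_an.OS.Notions
import Pool.Agent.Work.MP_814647_an.Bd.B07

/-!
# Circle extensions with one-sided nonlinearity: definitions used by the items

Throughout, `orb L t k θ` is the orbit of `θ` under the maps `L j + t` (`orb L t 0 θ = θ`,
`orb L t (k + 1) θ = L k (orb L t k θ) + t`, file `ProjBasic`).
-/

set_option autoImplicit false

open Set Filter Topology Function
open scoped Manifold ContDiff

noncomputable section

namespace Pool.Agent.OmegaStability.OS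

open Dens

/-! ### One-sidedness at a point of the line -/

/-- The nonlinearity of `F` at `θ`. -/
def nlAt (F : ℝ → ℝ) (θ : ℝ) : ℝ := iteratedDeriv 2 F θ / deriv F θ

/-- The Schwarzian of `F` at `θ`, plus `κ (F' ^ 2 - 1)`. -/
def scAt (κ : ℝ) (F : ℝ → ℝ) (θ : ℝ) : ℝ :=
  iteratedDeriv 3 F θ / deriv F θ - 3 / 2 * nlAt F θ ^ 2 + κ * (deriv F θ ^ 2 - 1)

/-- The three kinds of one-sidedness. -/
inductive Kd : Type
  | up : Kd
  | down : Kd
  | sch : ℝ → Kd

/-- The restriction on the parameter of the Schwarzian. -/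
def Kd.ok : Kd → Prop
  | .up => True
  | .down => True
  | .sch κ => κ ≤ 1 / 2

/-- The condition at a point. -/
def Kd.at (σ : ℝ) : Kd → (ℝ → ℝ) → ℝ → Prop
  | .up, F, θ => 0 ≤ nlAt F θ
  | .down, F, θ => nlAt F θ ≤ 0
  | .sch κ, F, θ => 0 ≤ σ * scAt κ F θ

/-! ### The functions sine and cosine of curvature `κ / 2` -/

/-- `S` and `G` are the solutions of `u'' = - (κ / 2) u` with `S 0 = 0`, `S' 0 = 1`, `G = S'`, and
`S` is positive on `(0, 2 π)`. -/
structure IsSG (κ : ℝ) (S G : ℝ → ℝ) : Prop where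
  S0 : S 0 = 0
  G0 : G 0 = 1
  dS : ∀ x, HasDerivAt S (G x) x
  dG : ∀ x, HasDerivAt G (-(κ / 2) * S x) x
  neg : ∀ x, S (-x) = -S x
  neg' : ∀ x, G (-x) = G x
  add : ∀ x y, S (x + y) = S x * G y + G x * S y
  sq : ∀ x, G x ^ 2 + κ / 2 * S x ^ 2 = 1
  pos : ∀ x, 0 < x → x < 2 * Real.pi → 0 < S x

/-! ### Lifts along a periodic orbit -/

/-- The lifts `L j` of the maps of the circles over a periodic orbit of length `N`; the family of
the maps `L j + t` has no tangencies and no neutral periodic points for `|t| < τ`. -/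
structure Ext (L : ℕ → ℝ → ℝ) (N : ℕ) (τ Λ : ℝ) : Prop where
  pos : 0 < N
  per : ∀ j, L (j + N) = L j
  smooth : ∀ j, ContDiff ℝ 1 (L j)
  dpos : ∀ j θ, 0 < deriv (L j) θ
  dle : ∀ j θ, deriv (L j) θ ≤ Λ
  deg : ∀ j θ, L j (θ + 2 * Real.pi) = L j θ + 2 * Real.pi
  zero : ∀ j, L j 0 = 0
  noT : NoTangency (fun t θ => orb L t N θ) τ
  noN : ∀ t, |t| < τ → ∀ θ, orb L t N θ = θ →
    ∏ i ∈ Finset.range N, deriv (L i) (orb L t i θ) ≠ 1

/-- `P s` is the position, at the parameter `s`, of a periodic point which is at `0` for the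
parameter `0`. -/
structure Swp (L : ℕ → ℝ → ℝ) (N : ℕ) (s₁ : ℝ) (P : ℝ → ℝ) : Prop where
  zero : P 0 = 0
  cont : ContinuousOn P (Icc (-s₁) s₁)
  fixed : ∀ s, |s| ≤ s₁ → orb L s N (P s) = P s
  circ : ∀ s s' : ℝ, |s| ≤ s₁ → |s'| ≤ s₁ → ∀ k : ℕ,
    orb L s' k (P s') < orb L s k (P s) + 2 * Real.pi

/-! ### The fibre derivative -/

/-- `ℒ` are the lifts and `Dm` is the derivative of `f` along the circles; the periodic points of
the rotations `rotated f s`, `|s| < τ`, have the properties `Ext`. -/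
structure FibData {M : Type*} [MetricSpace M] [MulAction Circle M] (f : M → M)
    (ℒ : M → ℝ → ℝ) (Dm : M → ℝ) (τ Λ : ℝ) : Prop where
  tau : 0 < τ
  lam : 0 < Λ
  lift : NLift f ℒ
  cont : Continuous Dm
  pos : ∀ y, 0 < Dm y
  smooth : ∀ y, ContDiff ℝ 1 (ℒ y)
  der : ∀ y θ, deriv (ℒ y) θ = Dm (Circle.exp θ • y)
  ext : ∀ (s : ℝ) (y : M) (n : ℕ), |s| < τ → 0 < n → (rotated f s)^[n] y = y →
    Ext (fun j => ℒ ((rotated f s)^[j] y)) n (τ - |s|) Λ

end Pool.Agent.OmegaStability.OS
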