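import Pool.Agent.Work.MP_814647_an.OS.Stmts2

/-!
# Item Clo of block OS
-/

set_option autoImplicit false

open Set Filter Topology Function
open scoped Manifold ContDiff

noncomputable section

namespace Pool.Agent.OmegaStability.OS

open Dens

universe u v

namespace I_Clo

theorem rot_zero {M : Type u} [MulAction Circle M] (f : M → M) : rotated f 0 = f := by
  funext y
  simp [rotated]

/-- The product over a period starting at `f y` is the product starting at `y`. -/
theorem prod_shift {M : Type u} (f : M → M) (Dm : M → ℝ) (hpos : ∀ y, 0 < Dm y) (y : M) (n : ℕ)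
    (hy : f^[n] y = y) :
    ∏ i ∈ Finset.range n, Dm (f^[i] (f y)) = ∏ i ∈ Finset.range n, Dm (f^[i] y) := by
  have h1 := Finset.prod_range_succ (fun i => Dm (f^[i] y)) n
  have h2 := Finset.prod_range_succ' (fun i => Dm (f^[i] y)) n
  rw [h1, hy] at h2
  simp only [Function.iterate_succ_apply, Function.iterate_zero, id_eq] at h2
  exact (mul_right_cancel₀ (hpos y).ne' h2).symm

theorem iter_iff {M : Type u} (f : M → M) (hinj : Injective f) (y : M) (n : ℕ) :
    f^[n] (f y) = f y ↔ f^[n] y = y := by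
  rw [← Function.iterate_succ_apply, Function.iterate_succ_apply']
  exact hinj.eq_iff

theorem mem_iff {M : Type u} (f : M → M) (hinj : Injective f) (Dm : M → ℝ)
    (hpos : ∀ y, 0 < Dm y) (S : Set M) (Q : ℝ → Prop)
    (hS : ∀ y, y ∈ S ↔ ∃ n, 0 < n ∧ f^[n] y = y ∧ Q (∏ i ∈ Finset.range n, Dm (f^[i] y)))
    (y : M) : f y ∈ S ↔ y ∈ S := by
  rw [hS, hS]
  constructor
  · rintro ⟨n, hn, h1, h2⟩
    have h3 := (iter_iff f hinj y n).1 h1
    rw [prod_shift f Dm hpos y n h3] at h2
    exact ⟨n, hn, h3, h2⟩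
  · rintro ⟨n, hn, h1, h2⟩
    refine ⟨n, hn, (iter_iff f hinj y n).2 h1, ?_⟩
    rwa [prod_shift f Dm hpos y n h1]

theorem closure_iff {M : Type u} [TopologicalSpace M] (h : M ≃ₜ M) (S : Set M)
    (hS : ∀ y, h y ∈ S ↔ y ∈ S) (y : M) : h y ∈ closure S ↔ y ∈ closure S := by
  have h1 : h ⁻¹' S = S := by
    ext z
    exact hS z
  have h2 := h.preimage_closure S
  rw [h1] at h2
  constructor
  · intro hy
    have : y ∈ h ⁻¹' closure S := hy
    rwa [h2] at this
  · intro hy
    have : y ∈ h ⁻¹' closure S := by rw [h2]; exact hy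
    exact this

end I_Clo

open I_Clo

theorem pr_Clo (hcls : StCls.{u}) : StClo.{u} := by
  intro m M _ _ _ _ _ hact hfree r hr f ℒ Dm τ Λ hF C lam τ₁ hU
  have hc := hcls m M hact hfree r hr f ℒ Dm τ Λ hF 0
  simp only [rot_zero] at hc
  obtain ⟨hC, hl0, hl1, hτ, hest⟩ := hU
  have he := hest 0 (by simpa using hτ)
  simp only [rot_zero] at he
  have hfc : Continuous (f : M → M) := f.continuous
  have hcont : ∀ n : ℕ, Continuous (fun y : M => ∏ i ∈ Finset.range n, Dm (f^[i] y)) := by
    intro n
    exact continuous_finsetProd _ fun i _ => hF.cont.comp (hfc.iterate i)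
  refine ⟨?_, ?_, ?_, ?_⟩
  · intro y hy n
    have hcl : IsClosed {y : M | ∏ i ∈ Finset.range n, Dm (f^[i] y) ≤ C * lam ^ n} :=
      isClosed_le (hcont n) continuous_const
    exact closure_minimal (fun z hz => (he z).1 hz n) hcl hy
  · intro y hy n
    have hcl : IsClosed {y : M | 1 ≤ C * lam ^ n * ∏ i ∈ Finset.range n, Dm (f^[i] y)} :=
      isClosed_le continuous_const (continuous_const.mul (hcont n))
    exact closure_minimal (fun z hz => (he z).2 hz n) hcl hy
  · intro y
    exact closure_iff f.toHomeomorph _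
      (mem_iff f f.injective Dm hF.pos _ (fun c => c < 1) fun z => (hc z).1) y
  · intro y
    exact closure_iff f.toHomeomorph _
      (mem_iff f f.injective Dm hF.pos _ (fun c => 1 < c) fun z => (hc z).2) y

end Pool.Agent.OmegaStability.OS
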