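import Pool.Agent.Work.MP_814647_an.OS.Stmts2

/-!
# Circle extensions with one-sided nonlinearity, item Cls: circle-contracting and
circle-expanding periodic points of the small rotations
-/

set_option autoImplicit false

open Set Filter Topology Function
open scoped Manifold ContDiff

noncomputable section

namespace Pool.Agent.OmegaStability.OS

open Dens

universe u v

namespace I_Cls

variable {m : ℕ} {M : Type u} [MetricSpace M] [CompactSpace M]
    [ChartedSpace (EuclideanSpace ℝ (Fin m)) M] [IsManifold (𝓡 m) ∞ M] [MulAction Circle M]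

omit [MetricSpace M] [CompactSpace M] [ChartedSpace (EuclideanSpace ℝ (Fin m)) M]
  [IsManifold (𝓡 m) ∞ M] in
/-- The lifts of `f` are the lifts of the rotations of `f`. -/
lemma nlift_rot {f : M → M} {ℒ : M → ℝ → ℝ} (h : NLift f ℒ) (s : ℝ) :
    NLift (rotated f s) ℒ where
  cont := h.cont
  mono := h.mono
  zero := h.zero
  per := h.per
  map := by
    intro y θ
    change Circle.exp s • f (Circle.exp θ • y) = Circle.exp (ℒ y θ) • (Circle.exp s • f y)
    rw [h.map, smul_smul, smul_smul, mul_comm]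

omit [CompactSpace M] in
/-- The derivative of a lift. -/
lemma der {f : M → M} {ℒ : M → ℝ → ℝ} {Dm : M → ℝ} {τ Λ : ℝ} (h : FibData f ℒ Dm τ Λ)
    (y : M) (θ : ℝ) : HasDerivAt (ℒ y) (Dm (Circle.exp θ • y)) θ := by
  rw [← h.der y θ]
  exact ((h.smooth y).differentiable (by norm_num)).differentiableAt.hasDerivAt

/-- The multiplier of a periodic point of a rotation of `f` along its circle. -/
lemma mult (ha : SmoothCircleAction (EuclideanSpace ℝ (Fin m)) M) {r : ℕ∞} (hr : 1 ≤ r)
    (f : Diffeo (EuclideanSpace ℝ (Fin m)) M r) {ℒ : M → ℝ → ℝ} {Dm : M → ℝ} {τ Λ : ℝ}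
    (hF : FibData f ℒ Dm τ Λ) (s : ℝ) {y : M} {n : ℕ} (hn : 0 < n)
    (hy : (rotated f s)^[n] y = y) :
    (mfderiv (𝓡 m) (𝓡 m) (rotated f s)^[n] y (vgen m y) : EuclideanSpace ℝ (Fin m)) =
      (∏ i ∈ Finset.range n, Dm ((rotated f s)^[i] y)) • vgen m y := by
  obtain ⟨h, -, hh⟩ := exists_rot ha r
  have hfun : (⇑(f.trans (h s)) : M → M) = rotated f s := by
    funext y
    exact hh s (f y)
  have hℒ : NLift (rotated f s) ℒ := nlift_rot hF.lift s
  have h00 : ∀ i, orb (fun j => ℒ ((rotated f s)^[j] y)) 0 i 0 = 0 := fun i =>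
    orb_zero_zero hℒ y i
  have hd : HasDerivAt (orb (fun j => ℒ ((rotated f s)^[j] y)) 0 n)
      (loopD Dm (fun j => (rotated f s)^[j] y) (fun j => ℒ ((rotated f s)^[j] y)) 0 n 0) 0 :=
    orb_hasDerivAt (n := n) (fun j _ θ => der hF _ θ) 0 0 n le_rfl
  have hloop : loopD Dm (fun j => (rotated f s)^[j] y) (fun j => ℒ ((rotated f s)^[j] y)) 0 n 0 =
      ∏ i ∈ Finset.range n, Dm ((rotated f s)^[i] y) := by
    unfold loopD
    refine Finset.prod_congr rfl fun i _ => ?_
    rw [h00 i, Circle.exp_zero, one_smul]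
  rw [hloop] at hd
  have hmd : MDifferentiable (𝓡 m) (𝓡 m) (rotated f s)^[n] := by
    rw [← hfun]
    exact OmegaStab.FinHyp.mdiff_iter (OmegaStab.FinHyp.mdiff hr (f.trans (h s))) n
  have hmap : ∀ η : ℝ, (rotated f s)^[n] (Circle.exp η • y) =
      Circle.exp (orb (fun j => ℒ ((rotated f s)^[j] y)) 0 n η) • y := by
    intro η
    have := (retMap_periodic hℒ hn hy).map 0 η
    rwa [iterate_rot_zero] at this
  have h1 := mfderiv_lift ha (rotated f s)^[n] y y _ 0 _ (hmd _) hd hmap
  rw [h00 n] at h1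
  have h2 : Circle.exp 0 • y = y := by simp
  rw [h2] at h1
  exact h1

end I_Cls

theorem pr_Cls : StCls := by
  intro m M _ _ _ _ _ ha hfree r hr f ℒ Dm τ Λ hF s y
  have hpos : ∀ n, 0 < ∏ i ∈ Finset.range n, Dm ((rotated f s)^[i] y) := fun n =>
    Finset.prod_pos fun i _ => hF.pos _
  constructor
  · constructor
    · rintro ⟨n, hn, hper, c, hc, hder⟩
      refine ⟨n, hn, hper, ?_⟩
      have h1 : (∏ i ∈ Finset.range n, Dm ((rotated f s)^[i] y)) •
          (vgen m y : EuclideanSpace ℝ (Fin m)) = c • vgen m y :=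
        (I_Cls.mult ha hr f hF s hn hper).symm.trans hder
      have h2 := smul_left_injective ℝ (gen_ne_zero ha hfree y) h1
      have h3 : ∏ i ∈ Finset.range n, Dm ((rotated f s)^[i] y) = c := h2
      rw [h3]
      exact (abs_lt.1 hc).2
    · rintro ⟨n, hn, hper, h⟩
      exact ⟨n, hn, hper, _, by rwa [abs_of_pos (hpos n)], I_Cls.mult ha hr f hF s hn hper⟩
  · constructor
    · rintro ⟨n, hn, hper, c, hc, hder⟩
      refine ⟨n, hn, hper, ?_⟩
      have h1 : (∏ i ∈ Finset.range n, Dm ((rotated f s)^[i] y)) •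
          (vgen m y : EuclideanSpace ℝ (Fin m)) = c • vgen m y :=
        (I_Cls.mult ha hr f hF s hn hper).symm.trans hder
      have h2 := smul_left_injective ℝ (gen_ne_zero ha hfree y) h1
      have h3 : ∏ i ∈ Finset.range n, Dm ((rotated f s)^[i] y) = c := h2
      rw [← h3, abs_of_pos (hpos n)] at hc
      exact hc
    · rintro ⟨n, hn, hper, h⟩
      exact ⟨n, hn, hper, _, by rwa [abs_of_pos (hpos n)], I_Cls.mult ha hr f hF s hn hper⟩

end Pool.Agent.OmegaStability.OS
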