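import Pool.Agent.Work.MP_814647_an.OS.Stmts

/-!
# Item Cot: bounds for the cotangent of curvature `κ / 2`
-/

set_option autoImplicit false

open Set Filter Topology Function
open scoped Manifold ContDiff

noncomputable section

namespace Pool.Agent.OmegaStability.OS

open Dens

namespace I_Cot

variable {κ : ℝ} {S G : ℝ → ℝ}

theorem dif (h : IsSG κ S G) {x y : ℝ} (hx : 0 < x) (hxy : x < y) (hy : y < 2 * Real.pi) :
    G x / S x - G y / S y = S (y - x) / (S x * S y) := by
  have h1 := (h.pos x hx (hxy.trans hy)).ne'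
  have h2 := (h.pos y (hx.trans hxy) hy).ne'
  have h3 : S (y - x) = S y * G x - G y * S x := by
    rw [sub_eq_add_neg, h.add, h.neg, h.neg']
    ring
  rw [h3]
  field_simp

theorem plus (h : IsSG κ S G) {a b : ℝ} (ha : 0 < a) (hb : 0 < b) (hab : a + b < 2 * Real.pi) :
    G a / S a + G b / S b = S (a + b) / (S a * S b) := by
  have h1 := (h.pos a ha (by linarith)).ne'
  have h2 := (h.pos b hb (by linarith)).ne'
  rw [h.add]
  field_simp
  ring

theorem cont (h : IsSG κ S G) : Continuous S :=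
  continuous_iff_continuousAt.2 fun x => (h.dS x).continuousAt

theorem bdd (h : IsSG κ S G) : ∃ M : ℝ, 0 < M ∧ ∀ x, 0 ≤ x → x ≤ 2 * Real.pi → S x ≤ M := by
  obtain ⟨M, hM⟩ := (isCompact_Icc (a := (0 : ℝ)) (b := 2 * Real.pi)).bddAbove_image
    (cont h).continuousOn
  exact ⟨max M 1, lt_max_of_lt_right one_pos, fun x h0 h1 =>
    (hM ⟨x, ⟨h0, h1⟩, rfl⟩).trans (le_max_left _ _)⟩

theorem quot {s p q M : ℝ} (hs : 0 ≤ s) (hp : 0 < p) (hq : 0 < q) (hpM : p ≤ M) (hqM : q ≤ M) :
    s / (M * M) ≤ s / (p * q) :=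
  div_le_div_of_nonneg_left hs (mul_pos hp hq) (mul_le_mul hpM hqM hq.le (hp.le.trans hpM))

theorem mono (h : IsSG κ S G) {x y : ℝ} (hx : 0 < x) (hxy : x < y) (hy : y < 2 * Real.pi) :
    G y / S y < G x / S x := by
  rw [← sub_pos, dif h hx hxy hy]
  exact div_pos (h.pos _ (by linarith) (by linarith))
    (mul_pos (h.pos x hx (hxy.trans hy)) (h.pos y (hx.trans hxy) hy))

theorem mono' (h : IsSG κ S G) {x y : ℝ} (hx : 0 < x) (hxy : x ≤ y) (hy : y < 2 * Real.pi) :
    G y / S y ≤ G x / S x := by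
  rcases hxy.eq_or_lt with h1 | h1
  · rw [h1]
  · exact (mono h hx h1 hy).le

end I_Cot

open I_Cot in
theorem pr_Cot : StCot := by
  intro κ S G h δ hδ
  obtain ⟨M, hM, hSM⟩ := bdd h
  obtain ⟨c, hc, hc1⟩ : ∃ c : ℝ, 0 < c ∧ ∀ x : ℝ, 0 < x → x + δ < 2 * Real.pi →
      G (x + δ) / S (x + δ) + c ≤ G x / S x := by
    by_cases hd : δ < 2 * Real.pi
    · have hSd := h.pos δ hδ hd
      refine ⟨S δ / (M * M), by positivity, fun x hx hxd => ?_⟩
      have h1 := dif h hx (by linarith : x < x + δ) hxd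
      rw [add_sub_cancel_left] at h1
      have h2 := quot hSd.le (h.pos x hx (by linarith)) (h.pos (x + δ) (by linarith) hxd)
        (hSM x hx.le (by linarith)) (hSM (x + δ) (by linarith) hxd.le)
      linarith
    · exact ⟨1, one_pos, fun x hx hxd => absurd hxd (by linarith)⟩
  obtain ⟨w, W, hw, hwW, hW⟩ : ∃ w W : ℝ, 0 < w ∧ w ≤ W ∧ ∀ a b : ℝ, δ ≤ a → δ ≤ b →
      a + b ≤ 2 * Real.pi - δ → w ≤ G a / S a + G b / S b ∧ G a / S a + G b / S b ≤ W := by
    by_cases hd : 2 * δ ≤ 2 * Real.pi - δ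
    · obtain ⟨z, hz, hmin⟩ := (isCompact_Icc (a := 2 * δ) (b := 2 * Real.pi - δ)).exists_isMinOn
        (nonempty_Icc.2 hd) (cont h).continuousOn
      have hSz : 0 < S z := h.pos z (by linarith [hz.1]) (by linarith [hz.2])
      refine ⟨S z / (M * M), max (2 * (G δ / S δ)) (S z / (M * M)), by positivity,
        le_max_right _ _, fun a b ha hb hab => ⟨?_, ?_⟩⟩
      · rw [plus h (by linarith) (by linarith) (by linarith)]
        have h1 : S z ≤ S (a + b) := hmin ⟨by linarith, hab⟩
        refine (div_le_div_of_nonneg_right h1 (by positivity)).trans ?_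
        exact quot (hSz.le.trans h1) (h.pos a (by linarith) (by linarith))
          (h.pos b (by linarith) (by linarith)) (hSM a (by linarith) (by linarith))
          (hSM b (by linarith) (by linarith))
      · refine le_trans ?_ (le_max_left _ _)
        have h1 := mono' h hδ ha (by linarith)
        have h2 := mono' h hδ hb (by linarith)
        linarith
    · exact ⟨1, 1, one_pos, le_rfl, fun a b ha hb hab => absurd hab (by linarith)⟩
  exact ⟨c, w, W, hc, hw, hwW, hc1, fun x y hx hxy hy => mono h hx hxy hy, hW⟩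

end Pool.Agent.OmegaStability.OS
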