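import Pool.Agent.Work.MP_814647_an.OS.Stmts

/-!
# Item Cvx: one-sided nonlinearity, contracting case
-/

set_option autoImplicit false

open Set Filter Topology Function
open scoped Manifold ContDiff

noncomputable section

namespace Pool.Agent.OmegaStability.OS

open Dens

namespace I_Cvx

theorem tel (a w : ℕ → ℝ) (δ W : ℝ) (hδ : 0 < δ) (hW : δ < W) (ha : ∀ k, 0 < a k)
    (h1 : ∀ k, δ ≤ w k) (h2 : ∀ k, w k ≤ W) (h3 : ∀ k, a k * w k + δ ≤ w (k + 1)) (n : ℕ) :
    ∏ i ∈ Finset.range n, a i ≤ W / δ * (1 - δ / W) ^ n := by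
  have hW0 : 0 < W := hδ.trans hW
  have hq : 0 < 1 - δ / W := by
    rw [sub_pos, div_lt_one hW0]
    exact hW
  have hw : ∀ k, 0 < w k := fun k => hδ.trans_le (h1 k)
  have h4 : ∀ k, a k * w k ≤ (1 - δ / W) * w (k + 1) := by
    intro k
    have e : δ / W * w (k + 1) ≤ δ := by
      rw [div_mul_eq_mul_div, div_le_iff₀ hW0]
      exact mul_le_mul_of_nonneg_left (h2 (k + 1)) hδ.le
    have := h3 k
    nlinarith
  have h5 : ∀ n : ℕ, (∏ i ∈ Finset.range n, a i) * w 0 ≤ (1 - δ / W) ^ n * w n := by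
    intro n
    induction n with
    | zero => simp
    | succ n ih =>
      rw [Finset.prod_range_succ, pow_succ]
      calc (∏ i ∈ Finset.range n, a i) * a n * w 0
          = (∏ i ∈ Finset.range n, a i) * w 0 * a n := by ring
        _ ≤ (1 - δ / W) ^ n * w n * a n := mul_le_mul_of_nonneg_right ih (ha n).le
        _ = (1 - δ / W) ^ n * (a n * w n) := by ring
        _ ≤ (1 - δ / W) ^ n * ((1 - δ / W) * w (n + 1)) :=
            mul_le_mul_of_nonneg_left (h4 n) (pow_pos hq n).le
        _ = (1 - δ / W) ^ n * (1 - δ / W) * w (n + 1) := by ring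
  have hP : 0 ≤ ∏ i ∈ Finset.range n, a i := Finset.prod_nonneg fun i _ => (ha i).le
  have h6 : (∏ i ∈ Finset.range n, a i) * δ ≤ (1 - δ / W) ^ n * W :=
    (mul_le_mul_of_nonneg_left (h1 0) hP).trans ((h5 n).trans
      (mul_le_mul_of_nonneg_left (h2 n) (pow_pos hq n).le))
  rw [div_mul_eq_mul_div, le_div_iff₀ hδ, mul_comm W]
  exact h6

theorem vac (a w : ℕ → ℝ) (δ W : ℝ) (hδ : 0 < δ) (ha : ∀ k, 0 < a k)
    (h1 : ∀ k, δ ≤ w k) (h2 : ∀ k, w k ≤ W) (h3 : ∀ k, a k * w k + δ ≤ w (k + 1)) : δ < W := by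
  have e := mul_pos (ha 0) (hδ.trans_le (h1 0))
  have := h3 0
  have := h2 1
  linarith

theorem dd (F : ℝ → ℝ) (hF : ContDiff ℝ 3 F) :
    Differentiable ℝ (deriv F) ∧ ∀ x, iteratedDeriv 2 F x = deriv (deriv F) x := by
  refine ⟨(hF.of_le (by norm_num : (2 : WithTop ℕ∞) ≤ 3)).differentiable_deriv_two, fun x => ?_⟩
  rw [iteratedDeriv_succ, iteratedDeriv_one]

/-- convex case -/
theorem up (F : ℝ → ℝ) (hF : ContDiff ℝ 3 F) (hF' : ∀ x, 0 < deriv F x) (l p r : ℝ)
    (hlp : l ≤ p) (hpr : p ≤ r) (h : ∀ x ∈ Icc l r, 0 ≤ nlAt F x) :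
    deriv F p * (r - p) ≤ F r - F p := by
  obtain ⟨h1, h2⟩ := dd F hF
  have hm : MonotoneOn (deriv F) (Icc p r) := by
    refine monotoneOn_of_deriv_nonneg (convex_Icc _ _) h1.continuous.continuousOn
      h1.differentiableOn fun x hx => ?_
    have hx' := interior_subset hx
    have h3 := h x ⟨hlp.trans hx'.1, hx'.2⟩
    unfold nlAt at h3
    rw [h2] at h3
    have h4 := mul_nonneg h3 (hF' x).le
    rwa [div_mul_cancel₀ _ (hF' x).ne'] at h4
  exact (convex_Icc p r).mul_sub_le_image_sub_of_le_deriv hF.continuous.continuousOn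
    (hF.differentiable (by norm_num)).differentiableOn
    (fun x hx => hm (left_mem_Icc.2 hpr) (interior_subset hx) (interior_subset hx).1)
    p (left_mem_Icc.2 hpr) r (right_mem_Icc.2 hpr) hpr

/-- concave case -/
theorem down (F : ℝ → ℝ) (hF : ContDiff ℝ 3 F) (hF' : ∀ x, 0 < deriv F x) (l p r : ℝ)
    (hlp : l ≤ p) (hpr : p ≤ r) (h : ∀ x ∈ Icc l r, nlAt F x ≤ 0) :
    deriv F p * (p - l) ≤ F p - F l := by
  obtain ⟨h1, h2⟩ := dd F hF
  have hm : AntitoneOn (deriv F) (Icc l p) := by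
    refine antitoneOn_of_deriv_nonpos (convex_Icc _ _) h1.continuous.continuousOn
      h1.differentiableOn fun x hx => ?_
    have hx' := interior_subset hx
    have h3 := h x ⟨hx'.1, hx'.2.trans hpr⟩
    unfold nlAt at h3
    rw [h2] at h3
    have h4 := mul_nonpos_of_nonpos_of_nonneg h3 (hF' x).le
    rwa [div_mul_cancel₀ _ (hF' x).ne'] at h4
  exact (convex_Icc l p).mul_sub_le_image_sub_of_le_deriv hF.continuous.continuousOn
    (hF.differentiable (by norm_num)).differentiableOn
    (fun x hx => hm (interior_subset hx) (right_mem_Icc.2 hlp) (interior_subset hx).2)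
    l (left_mem_Icc.2 hlp) p (right_mem_Icc.2 hlp) hlp

end I_Cvx

open I_Cvx in
/-- item Cvx -/
theorem pr_Cvx : StCvx := by
  intro δ hδ
  by_cases hd : δ < 2 * Real.pi
  · refine ⟨2 * Real.pi / δ, 1 - δ / (2 * Real.pi), by positivity, ?_, ?_, ?_⟩
    · rw [sub_pos, div_lt_one (by positivity)]
      exact hd
    · have : 0 < δ / (2 * Real.pi) := by positivity
      linarith
    · intro F l p r hF hF' hp hlp hpr hrl hl hr hn n
      have hlp' : ∀ k, l k ≤ p k := fun k => by linarith [hlp k]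
      have hpr' : ∀ k, p k ≤ r k := fun k => by linarith [hpr k]
      rcases hn with hn | hn
      · refine tel (fun k => deriv (F k) (p k)) (fun k => r k - p k) δ (2 * Real.pi) hδ hd
          (fun k => hF' k _) (fun k => by linarith [hpr k])
          (fun k => by linarith [hrl k, hlp k]) (fun k => ?_) n
        have h1 := up (F k) (hF k) (hF' k) (l k) (p k) (r k) (hlp' k) (hpr' k) (hn k)
        have h2 := hr k
        have h3 := hp k
        show deriv (F k) (p k) * (r k - p k) + δ ≤ r (k + 1) - p (k + 1)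
        linarith
      · refine tel (fun k => deriv (F k) (p k)) (fun k => p k - l k) δ (2 * Real.pi) hδ hd
          (fun k => hF' k _) (fun k => by linarith [hlp k])
          (fun k => by linarith [hrl k, hpr k]) (fun k => ?_) n
        have h1 := down (F k) (hF k) (hF' k) (l k) (p k) (r k) (hlp' k) (hpr' k) (hn k)
        have h2 := hl k
        have h3 := hp k
        show deriv (F k) (p k) * (p k - l k) + δ ≤ p (k + 1) - l (k + 1)
        linarith
  · refine ⟨1, 1 / 2, one_pos, by norm_num, by norm_num, ?_⟩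
    intro F l p r hF hF' hp hlp hpr hrl hl hr hn n
    exfalso
    have h1 := hlp 0
    have h2 := hpr 0
    have h3 := hrl 0
    linarith

end Pool.Agent.OmegaStability.OS
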