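import Pool.Agent.Work.MP_814647_an.OS.Stmts

/-! MP_814647_an, block OS, item CvxE (helper70): one-sided nonlinearity, expanding case. -/

set_option autoImplicit false

open Set Filter Topology Function
open scoped Manifold ContDiff

noncomputable section

namespace Pool.Agent.OmegaStability.OS

open Dens

namespace I_CvxE

lemma tele (δ : ℝ) (hδ : 0 < δ) (a w : ℕ → ℝ) (ha : ∀ k, 0 < a k) (hw : ∀ k, δ ≤ w k)
    (hW : ∀ k, w k ≤ 2 * Real.pi) (h : ∀ k, w (k + 1) + δ ≤ a k * w k) (n : ℕ) :
    1 ≤ 2 * Real.pi / δ * ((1 + δ / (2 * Real.pi))⁻¹) ^ n * ∏ i ∈ Finset.range n, a i := by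
  have hpi : 0 < 2 * Real.pi := by positivity
  set q : ℝ := 1 + δ / (2 * Real.pi) with hq
  have hq0 : 0 < q := by positivity
  have key : ∀ n : ℕ, w n * q ^ n ≤ w 0 * ∏ i ∈ Finset.range n, a i := by
    intro n
    induction n with
    | zero => simp
    | succ n ih =>
      have h1 : w (n + 1) * q ≤ a n * w n := by
        refine le_trans ?_ (h n)
        have h2 : w (n + 1) * (δ / (2 * Real.pi)) ≤ δ := by
          rw [← mul_div_assoc, div_le_iff₀ hpi, mul_comm δ]
          exact mul_le_mul_of_nonneg_right (hW (n + 1)) hδ.le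
        rw [hq, mul_add, mul_one]
        linarith
      rw [Finset.prod_range_succ, pow_succ]
      calc w (n + 1) * (q ^ n * q) = (w (n + 1) * q) * q ^ n := by ring
        _ ≤ (a n * w n) * q ^ n := mul_le_mul_of_nonneg_right h1 (by positivity)
        _ = a n * (w n * q ^ n) := by ring
        _ ≤ a n * (w 0 * ∏ i ∈ Finset.range n, a i) :=
          mul_le_mul_of_nonneg_left ih (ha n).le
        _ = w 0 * ((∏ i ∈ Finset.range n, a i) * a n) := by ring
  have hP : 0 < ∏ i ∈ Finset.range n, a i := Finset.prod_pos fun i _ => ha i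
  have h3 : δ * q ^ n ≤ 2 * Real.pi * ∏ i ∈ Finset.range n, a i :=
    calc δ * q ^ n ≤ w n * q ^ n := mul_le_mul_of_nonneg_right (hw n) (by positivity)
      _ ≤ w 0 * ∏ i ∈ Finset.range n, a i := key n
      _ ≤ 2 * Real.pi * ∏ i ∈ Finset.range n, a i := mul_le_mul_of_nonneg_right (hW 0) hP.le
  have h4 : 2 * Real.pi / δ * (q⁻¹) ^ n * ∏ i ∈ Finset.range n, a i =
      (2 * Real.pi * ∏ i ∈ Finset.range n, a i) / (δ * q ^ n) := by
    rw [inv_pow]
    field_simp
  rw [h4, le_div_iff₀ (by positivity), one_mul]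
  exact h3

lemma dd (F : ℝ → ℝ) (hp : ∀ x, 0 < deriv F x) (x : ℝ) :
    deriv (deriv F) x = nlAt F x * deriv F x := by
  have h : iteratedDeriv 2 F = deriv (deriv F) := by
    rw [iteratedDeriv_succ, iteratedDeriv_one]
  rw [nlAt, h, div_mul_cancel₀ _ (hp x).ne']

lemma dF (F : ℝ → ℝ) (hF : ContDiff ℝ 3 F) : Differentiable ℝ (deriv F) := by
  have h : ContDiff ℝ 1 (deriv F) := by
    have h' : ContDiff ℝ (2 + 1) F := by
      refine hF.of_le ?_
      norm_num
    exact (contDiff_succ_iff_deriv.1 h').2.2.of_le (by norm_num)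
  exact h.differentiable (by norm_num)

lemma up (F : ℝ → ℝ) (hF : ContDiff ℝ 3 F) (hp : ∀ x, 0 < deriv F x) (l p r : ℝ) (hl : l < p)
    (hr : p ≤ r) (h : ∀ x ∈ Icc l r, 0 ≤ nlAt F x) : F p - F l ≤ deriv F p * (p - l) := by
  have hm : MonotoneOn (deriv F) (Icc l r) := by
    refine monotoneOn_of_deriv_nonneg (convex_Icc l r) (dF F hF).continuous.continuousOn
      (dF F hF).differentiableOn ?_
    intro x hx
    rw [dd F hp]
    exact mul_nonneg (h x (interior_subset hx)) (hp x).le
  have hd : Differentiable ℝ F := hF.differentiable (by norm_num)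
  obtain ⟨c, hc, hc'⟩ := exists_deriv_eq_slope F hl hd.continuous.continuousOn
    hd.differentiableOn
  have h1 : deriv F c ≤ deriv F p :=
    hm ⟨hc.1.le, hc.2.le.trans hr⟩ ⟨hl.le, hr⟩ hc.2.le
  have h2 : 0 < p - l := sub_pos.2 hl
  rw [hc', div_le_iff₀ h2] at h1
  exact h1

lemma down (F : ℝ → ℝ) (hF : ContDiff ℝ 3 F) (hp : ∀ x, 0 < deriv F x) (l p r : ℝ) (hl : l ≤ p)
    (hr : p < r) (h : ∀ x ∈ Icc l r, nlAt F x ≤ 0) : F r - F p ≤ deriv F p * (r - p) := by
  have hm : AntitoneOn (deriv F) (Icc l r) := by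
    refine antitoneOn_of_deriv_nonpos (convex_Icc l r) (dF F hF).continuous.continuousOn
      (dF F hF).differentiableOn ?_
    intro x hx
    rw [dd F hp]
    exact mul_nonpos_of_nonpos_of_nonneg (h x (interior_subset hx)) (hp x).le
  have hd : Differentiable ℝ F := hF.differentiable (by norm_num)
  obtain ⟨c, hc, hc'⟩ := exists_deriv_eq_slope F hr hd.continuous.continuousOn
    hd.differentiableOn
  have h1 : deriv F c ≤ deriv F p :=
    hm ⟨hl, hr.le⟩ ⟨hl.trans hc.1.le, hc.2.le⟩ hc.1.le
  have h2 : 0 < r - p := sub_pos.2 hr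
  rw [hc', div_le_iff₀ h2] at h1
  exact h1

end I_CvxE

open I_CvxE in
theorem pr_CvxE : StCvxE := by
  intro δ hδ
  have hpi : 0 < 2 * Real.pi := by positivity
  refine ⟨2 * Real.pi / δ, (1 + δ / (2 * Real.pi))⁻¹, by positivity, by positivity,
    inv_lt_one_of_one_lt₀ (by have : 0 < δ / (2 * Real.pi) := by positivity
                              linarith), ?_⟩
  intro F l p r hF hpos hFp hlp hpr hrl hFl hFr hcase n
  rcases hcase with hup | hdown
  · refine tele δ hδ (fun i => deriv (F i) (p i)) (fun k => p k - l k) (fun k => hpos k _)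
      (fun k => ?_) (fun k => ?_) (fun k => ?_) n
    · have := hlp k
      show δ ≤ p k - l k
      linarith
    · have := hpr k
      have := hrl k
      show p k - l k ≤ 2 * Real.pi
      linarith
    · have h1 := up (F k) (hF k) (hpos k) (l k) (p k) (r k) (by linarith [hlp k])
        (by linarith [hpr k]) (hup k)
      have h2 := hFl k
      have h3 := hFp k
      show p (k + 1) - l (k + 1) + δ ≤ deriv (F k) (p k) * (p k - l k)
      linarith
  · refine tele δ hδ (fun i => deriv (F i) (p i)) (fun k => r k - p k) (fun k => hpos k _)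
      (fun k => ?_) (fun k => ?_) (fun k => ?_) n
    · have := hpr k
      show δ ≤ r k - p k
      linarith
    · have := hlp k
      have := hrl k
      show r k - p k ≤ 2 * Real.pi
      linarith
    · have h1 := down (F k) (hF k) (hpos k) (l k) (p k) (r k) (by linarith [hlp k])
        (by linarith [hpr k]) (hdown k)
      have h2 := hFr k
      have h3 := hFp k
      show r (k + 1) - p (k + 1) + δ ≤ deriv (F k) (p k) * (r k - p k)
      linarith

end Pool.Agent.OmegaStability.OS
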