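import Pool.Agent.Work.MP_814647_an.OS.Stmts2

/-!
# Circle extensions: the fibre derivative is the multiplier of the derivative along the circles
-/

set_option autoImplicit false

open Set Filter Topology Function
open scoped Manifold ContDiff

noncomputable section

namespace Pool.Agent.OmegaStability.OS

open Dens

universe u v

theorem pr_Der : StDer.{u} := by
  intro m M _ _ _ _ _ ha r hr f ℒ Dm τ Λ hF y
  have hr' : ((r : ℕ∞) : WithTop ℕ∞) ≠ 0 := by
    intro h
    have h1 : r = 0 := by exact_mod_cast h
    rw [h1] at hr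
    simp at hr
  have hL : HasDerivAt (ℒ y) (Dm y) 0 := by
    have h1 : DifferentiableAt ℝ (ℒ y) 0 :=
      ((hF.smooth y).differentiable (by norm_num)).differentiableAt
    have h2 := h1.hasDerivAt
    rw [hF.der y 0, Circle.exp_zero, one_smul] at h2
    exact h2
  have hg : MDifferentiableAt (𝓡 m) (𝓡 m) (f : M → M) (Circle.exp 0 • y) :=
    (f.contMDiff.mdifferentiable hr') _
  have h := mfderiv_lift ha (f : M → M) y (f y) (ℒ y) 0 (Dm y) hg hL (hF.lift.map y)
  have e1 : (Circle.exp 0 : Circle) • y = y := by rw [Circle.exp_zero, one_smul]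
  have e2 : (Circle.exp (ℒ y 0) : Circle) • f y = f y := by
    rw [hF.lift.zero y, Circle.exp_zero, one_smul]
  rw [e1, e2] at h
  exact h

end Pool.Agent.OmegaStability.OS
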