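import Pool.Agent.Work.MP_814647_an.OS.Stmts2

/-!
# Circle extensions with one-sided nonlinearity: item Fol
-/

set_option autoImplicit false

open Set Filter Topology Function
open scoped Manifold ContDiff

noncomputable section

namespace Pool.Agent.OmegaStability.OS

open Dens

universe u v

theorem pr_Fol : StFol.{u, v} := by
  intro M B _ _ _ _ π f hact hπ hLip ε hε
  obtain ⟨η, K, hη, hK, hL⟩ := hLip
  obtain ⟨δ, hδ, h1⟩ := Metric.uniformContinuous_iff.1
    (CompactSpace.uniformContinuous_of_continuous hact) ε hε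
  have hexp : ContinuousAt (fun θ : ℝ => Circle.exp θ) 0 := Circle.exp.continuous.continuousAt
  obtain ⟨δ', hδ', h2⟩ := Metric.continuousAt_iff.1 hexp δ hδ
  refine ⟨min η (δ' / K), lt_min hη (div_pos hδ' hK), fun s hs n z hn hz => ?_⟩
  obtain ⟨θ, hθ, hfix⟩ := hL s (lt_of_lt_of_le hs (min_le_left _ _)) n z hn hz
  have hθ' : |θ| < δ' := by
    have h3 : |s| < δ' / K := lt_of_lt_of_le hs (min_le_right _ _)
    have h4 : K * |s| < δ' := by
      rw [lt_div_iff₀ hK] at h3
      linarith
    linarith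
  refine ⟨Circle.exp θ • z, hfix, ((hπ z _).2 ⟨Circle.exp θ, rfl⟩).symm, ?_⟩
  have h5 : dist (Circle.exp θ) (Circle.exp 0) < δ :=
    h2 (by rw [Real.dist_eq, sub_zero]; exact hθ')
  have h6 := h1 (a := (Circle.exp θ, z)) (b := (Circle.exp 0, z)) (by
    rw [Prod.dist_eq]
    simpa using h5)
  simp only [Circle.exp_zero, one_smul] at h6
  rw [dist_comm]
  exact h6.le

end Pool.Agent.OmegaStability.OS
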