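import Pool.Agent.Work.MP_814647_an.OS.Stmts

/-!
# Item Gau: gauges
-/

set_option autoImplicit false

noncomputable section

namespace Pool.Agent.OmegaStability.OS

open Set Filter Topology

namespace I_Gau

theorem con {a w : ℕ → ℝ} {l W : ℝ} (hl : 0 ≤ l) (ha : ∀ k, 0 < a k) (hW : ∀ k, w k ≤ W)
    (h : ∀ k, a k * w (k + 1) ≤ l * w k) (n : ℕ) :
    (∏ i ∈ Finset.range n, a i) * w n ≤ l ^ n * W := by
  have h1 : (∏ i ∈ Finset.range n, a i) * w n ≤ l ^ n * w 0 := by
    induction n with
    | zero => simp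
    | succ n ih =>
      rw [Finset.prod_range_succ, mul_assoc]
      have hp : 0 ≤ ∏ i ∈ Finset.range n, a i := Finset.prod_nonneg fun i _ => (ha i).le
      calc (∏ i ∈ Finset.range n, a i) * (a n * w (n + 1))
          ≤ (∏ i ∈ Finset.range n, a i) * (l * w n) := mul_le_mul_of_nonneg_left (h n) hp
        _ = l * ((∏ i ∈ Finset.range n, a i) * w n) := by ring
        _ ≤ l * (l ^ n * w 0) := mul_le_mul_of_nonneg_left ih hl
        _ = l ^ (n + 1) * w 0 := by ring
  exact h1.trans (mul_le_mul_of_nonneg_left (hW 0) (pow_nonneg hl n))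

theorem exp {a w : ℕ → ℝ} {l W : ℝ} (hl : 0 ≤ l) (ha : ∀ k, 0 < a k) (hW : ∀ k, w k ≤ W)
    (h : ∀ k, w k ≤ l * (a k * w (k + 1))) (n : ℕ) :
    w 0 ≤ l ^ n * (∏ i ∈ Finset.range n, a i) * W := by
  have h1 : w 0 ≤ l ^ n * (∏ i ∈ Finset.range n, a i) * w n := by
    induction n with
    | zero => simp
    | succ n ih =>
      have hp : 0 ≤ ∏ i ∈ Finset.range n, a i := Finset.prod_nonneg fun i _ => (ha i).le
      calc w 0 ≤ l ^ n * (∏ i ∈ Finset.range n, a i) * w n := ih
        _ ≤ l ^ n * (∏ i ∈ Finset.range n, a i) * (l * (a n * w (n + 1))) :=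
            mul_le_mul_of_nonneg_left (h n) (by positivity)
        _ = l ^ (n + 1) * (∏ i ∈ Finset.range (n + 1), a i) * w (n + 1) := by
            rw [Finset.prod_range_succ]; ring
  have hp : 0 ≤ ∏ i ∈ Finset.range n, a i := Finset.prod_nonneg fun i _ => (ha i).le
  exact h1.trans (mul_le_mul_of_nonneg_left (hW n) (by positivity))

end I_Gau

theorem pr_Gau : StGau := by
  intro c w₀ W hc hw₀ hwW
  have hW : 0 < W := hw₀.trans_le hwW
  obtain ⟨l, hl⟩ : ∃ l : ℝ, l = W / (W + c) := ⟨_, rfl⟩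
  have hl0 : 0 < l := by rw [hl]; positivity
  have hlW : l * (W + c) = W := by rw [hl]; field_simp
  have hl1 : l < 1 := by
    rw [hl, div_lt_one (by positivity)]
    linarith
  refine ⟨W / w₀, l, by positivity, hl0, hl1, ?_⟩
  intro a w ha hw hwW'
  constructor
  · intro h n
    have h1 : ∀ k, a k * w (k + 1) ≤ l * w k := by
      intro k
      have h2 : w (k + 1) ≤ l * (w (k + 1) + c) := by
        have h3 : w (k + 1) * (W + c) ≤ W * (w (k + 1) + c) := by
          nlinarith [hwW' (k + 1)]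
        have h4 : (l * (w (k + 1) + c)) * (W + c) = W * (w (k + 1) + c) := by
          rw [mul_right_comm, hlW]
        have h5 : 0 < W + c := by positivity
        nlinarith
      calc a k * w (k + 1) ≤ a k * (l * (w (k + 1) + c)) :=
            mul_le_mul_of_nonneg_left h2 (ha k).le
        _ = l * (a k * (w (k + 1) + c)) := by ring
        _ ≤ l * w k := mul_le_mul_of_nonneg_left (h k) hl0.le
    have h2 := I_Gau.con hl0.le ha hwW' h1 n
    have hp : 0 ≤ ∏ i ∈ Finset.range n, a i := Finset.prod_nonneg fun i _ => (ha i).le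
    have h3 : (∏ i ∈ Finset.range n, a i) * w₀ ≤ l ^ n * W :=
      (mul_le_mul_of_nonneg_left (hw n) hp).trans h2
    rw [div_mul_eq_mul_div, le_div_iff₀ hw₀]
    linarith
  · intro h n
    have h1 : ∀ k, w k ≤ l * (a k * w (k + 1)) := by
      intro k
      have h2 : w (k + 1) - c ≤ l * w (k + 1) := by
        have h3 : (w (k + 1) - c) * (W + c) ≤ W * w (k + 1) := by
          nlinarith [hwW' (k + 1)]
        have h4 : (l * w (k + 1)) * (W + c) = W * w (k + 1) := by
          rw [mul_right_comm, hlW]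
        have h5 : 0 < W + c := by positivity
        nlinarith
      calc w k ≤ a k * (w (k + 1) - c) := h k
        _ ≤ a k * (l * w (k + 1)) := mul_le_mul_of_nonneg_left h2 (ha k).le
        _ = l * (a k * w (k + 1)) := by ring
    have h2 := I_Gau.exp hl0.le ha hwW' h1 n
    have h3 : w₀ ≤ l ^ n * (∏ i ∈ Finset.range n, a i) * W := (hw 0).trans h2
    rw [div_mul_eq_mul_div, div_mul_eq_mul_div, le_div_iff₀ hw₀]
    linarith

end Pool.Agent.OmegaStability.OS
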