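import Pool.Agent.Work.MP_814647_an.OS.Stmts2
import Pool.Agent.Work.MP_814647_an.Bd.B02

/-!
# Circle extensions with one-sided nonlinearity, item HB
-/

set_option autoImplicit false

open Set Filter Topology Function
open scoped Manifold ContDiff

noncomputable section

namespace Pool.Agent.OmegaStability.OS

open Dens

universe u v

namespace I_HB

variable {E : Type*} [NormedAddCommGroup E] [NormedSpace ℝ E] [FiniteDimensional ℝ E]
  {M : Type*} [MetricSpace M] [ChartedSpace E M]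

/-- Invariance under the inverse map over an invariant set. -/
theorem inv_symm {r : ℕ∞} (hr : 1 ≤ r) (A : Diffeo E M r) {Λ : Set M}
    (hΛ : ∀ x, A x ∈ Λ ↔ x ∈ Λ) {Es Eu : TFamily E M}
    (hc : ∀ x ∈ Λ, IsCompl (Es x) (Eu x)) (hs : InvariantOver A Es Λ)
    (hu : InvariantOver A Eu Λ) : InvariantOver A.symm Es Λ := by
  intro y hy w hw
  obtain ⟨x, rfl⟩ : ∃ x, A x = y := ⟨A.symm y, by simp⟩
  have hx : x ∈ Λ := (hΛ x).1 hy
  have hinj : Function.Injective (mfderiv 𝓘(ℝ, E) 𝓘(ℝ, E) A x) := by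
    intro v v' hvv
    rw [← mfderiv_symm_apply hr A x v, hvv, mfderiv_symm_apply hr A x v']
  let D : E →L[ℝ] E := mfderiv 𝓘(ℝ, E) 𝓘(ℝ, E) A x
  let S : Submodule ℝ E := Es x
  let U : Submodule ℝ E := Eu x
  let S' : Submodule ℝ E := Es (A x)
  let U' : Submodule ℝ E := Eu (A x)
  have h1 : IsCompl S U := hc x hx
  have h2 : IsCompl S' U' := hc (A x) hy
  have h3 : ∀ v ∈ S, (D : E →ₗ[ℝ] E) v ∈ S' := fun v hv => hs x hx v hv
  have h4 : ∀ v ∈ U, (D : E →ₗ[ℝ] E) v ∈ U' := fun v hv => hu x hx v hv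
  obtain ⟨v, hv, hvw⟩ := p8a_surj_of_compl (V := E) (W := E) rfl h1 h2
    (D : E →ₗ[ℝ] E) hinj h3 h4 w hw
  have h1 : w = mfderiv 𝓘(ℝ, E) 𝓘(ℝ, E) A x v := hvw.symm
  rw [h1, mfderiv_symm_apply hr A x v]
  have h2 : A.symm (A x) = x := by simp
  rw [h2]
  exact hv

end I_HB

theorem pr_HB : StHB.{v} := by
  intro d B _ _ _ _ r hr A Λ hΛ h
  obtain ⟨Es, Eu, -, -, hc, hs, hu, γ, c, μ, c0, μ0, μ1, cs, cu⟩ := h
  exact ⟨γ, Es, Eu, c, μ, c0, μ0, μ1, hc, hs, I_HB.inv_symm hr A hΛ hc hs hu, hu,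
    I_HB.inv_symm hr A hΛ (fun x hx => (hc x hx).symm) hu hs, cs, cu⟩

end Pool.Agent.OmegaStability.OS
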