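import Pool.Agent.Work.MP_814647_an.OS.Stmts2
import Pool.Agent.Work.MP_814647_an.Bd.B02

/-!
# Block OS, item HE: hyperbolic estimates over a closed invariant set of the base
-/

set_option autoImplicit false

open Set Filter Topology
open scoped Manifold ContDiff

noncomputable section

namespace Pool.Agent.OmegaStability.OS

open Dens

universe u v

namespace I_HE

open P7

section lin

variable {M B V W : Type*} [AddCommGroup V] [Module ℝ V] [AddCommGroup W] [Module ℝ W]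

/-- The restriction of a self-map to an invariant set. -/
def rs {M : Type*} {Λ : Set M} (f : M → M) (h : ∀ y ∈ Λ, f y ∈ Λ) : Λ → Λ :=
  fun y => ⟨f y, h y y.2⟩

theorem rs_coe {Λ : Set M} (f : M → M) (h : ∀ y ∈ Λ, f y ∈ Λ) (y : Λ) :
    ((rs f h y : Λ) : M) = f y := rfl

theorem rs_iter {Λ : Set M} (f : M → M) (h : ∀ y ∈ Λ, f y ∈ Λ) (k : ℕ) (y : Λ) :
    (((rs f h)^[k] y : Λ) : M) = f^[k] y := by
  induction k with
  | zero => rfl
  | succ k ih =>
    rw [Function.iterate_succ_apply', Function.iterate_succ_apply', rs_coe, ih]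

theorem it_rs {Λ : Set M} (f : M → M) (h : ∀ y ∈ Λ, f y ∈ Λ) (F : M → V →ₗ[ℝ] V) (k : ℕ)
    (y : Λ) (v : V) : it (rs f h) (fun y : Λ => F y) k y v = it f F k y v := by
  induction k with
  | zero => rfl
  | succ k ih =>
    rw [it_succ, it_succ, ih, rs_iter]

/-- The splitting over an invariant set, if the base is hyperbolic over an invariant set. -/
theorem splitting {π : M → B} {f f' : M → M} {A A' : B → B} {X : M → V} {T : M → V →ₗ[ℝ] W}
    {F F' : M → V →ₗ[ℝ] V} {G G' : B → W →ₗ[ℝ] W} {D : M → ℝ} {n : M → V → ℝ} {m : B → W → ℝ}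
    {o : M → V →ₗ[ℝ] ℝ} {K : ℝ} (S : Setup π f f' A A' X T F F' G G' D n m o K)
    {ΛB : Set B} {EsB EuB : B → Submodule ℝ W} {cB μB : ℝ}
    (hcB : 0 < cB) (hμB : 0 < μB) (hμB1 : μB < 1)
    (hA : ∀ x ∈ ΛB, A x ∈ ΛB) (hA' : ∀ x ∈ ΛB, A' x ∈ ΛB)
    (compl : ∀ x ∈ ΛB, IsCompl (EsB x) (EuB x))
    (inv_s : ∀ x ∈ ΛB, ∀ w ∈ EsB x, G x w ∈ EsB (A x))
    (inv_s' : ∀ x ∈ ΛB, ∀ w ∈ EsB x, G' x w ∈ EsB (A' x))
    (inv_u : ∀ x ∈ ΛB, ∀ w ∈ EuB x, G x w ∈ EuB (A x))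
    (inv_u' : ∀ x ∈ ΛB, ∀ w ∈ EuB x, G' x w ∈ EuB (A' x))
    (contr_s : ∀ x ∈ ΛB, ∀ w ∈ EsB x, ∀ k : ℕ, m (A^[k] x) (it A G k x w) ≤ cB * μB ^ k * m x w)
    (contr_u : ∀ x ∈ ΛB, ∀ w ∈ EuB x, ∀ k : ℕ,
      m (A'^[k] x) (it A' G' k x w) ≤ cB * μB ^ k * m x w)
    {Λ : Set M} (hΛ : ∀ y ∈ Λ, f y ∈ Λ) (hΛ' : ∀ y ∈ Λ, f' y ∈ Λ) (hπ : ∀ y ∈ Λ, π y ∈ ΛB)
    {C κ : ℝ} (hC : 0 < C) (hκ : 0 < κ) (hκ1 : κ < 1)
    (hest : ∀ y ∈ Λ, ∀ l : ℕ, ∏ i ∈ Finset.range l, D (f^[i] y) ≤ C * κ ^ l) :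
    ∃ (Es Eu : M → Submodule ℝ V) (c μ : ℝ), 0 < c ∧ 0 < μ ∧ μ < 1 ∧
      (∀ y ∈ Λ, IsCompl (Es y) (Eu y)) ∧
      (∀ y ∈ Λ, ∀ v ∈ Es y, F y v ∈ Es (f y)) ∧ (∀ y ∈ Λ, ∀ v ∈ Es y, F' y v ∈ Es (f' y)) ∧
      (∀ y ∈ Λ, ∀ v ∈ Eu y, F y v ∈ Eu (f y)) ∧ (∀ y ∈ Λ, ∀ v ∈ Eu y, F' y v ∈ Eu (f' y)) ∧
      (∀ y ∈ Λ, ∀ v ∈ Es y, ∀ k : ℕ, n (f^[k] y) (it f F k y v) ≤ c * μ ^ k * n y v) ∧
      (∀ y ∈ Λ, ∀ v ∈ Eu y, ∀ k : ℕ, n (f'^[k] y) (it f' F' k y v) ≤ c * μ ^ k * n y v) := by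
  classical
  have S' : Setup (M := Λ) (B := ΛB) (V := V) (W := W) (fun y => ⟨π y, hπ y y.2⟩)
      (rs f hΛ) (rs f' hΛ') (rs A hA) (rs A' hA') (fun y => X y) (fun y => T y)
      (fun y => F y) (fun y => F' y) (fun x => G x) (fun x => G' x) (fun y => D y)
      (fun y v => n y v) (fun x w => m x w) (fun y => o y) K :=
    { ff' := fun y => Subtype.ext (S.ff' y)
      f'f := fun y => Subtype.ext (S.f'f y)
      cov := fun y => Subtype.ext (S.cov y)
      cov' := fun y => Subtype.ext (S.cov' y)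
      FF' := fun y v => S.FF' y v
      F'F := fun y v => S.F'F y v
      GG' := fun x w => S.GG' x w
      TF := fun y v => S.TF y v
      TF' := fun y v => S.TF' y v
      Tsurj := fun y => S.Tsurj y
      Tker := fun y v h => S.Tker y v h
      TX := fun y => S.TX y
      FX := fun y => S.FX y
      D_pos := fun y => S.D_pos y
      ωX := fun y => S.ωX y
      n_nonneg := fun y v => S.n_nonneg y v
      n_add := fun y v w => S.n_add y v w
      n_smul := fun y c v => S.n_smul y c v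
      m_nonneg := fun x w => S.m_nonneg x w
      K_pos := S.K_pos
      n_le := fun y v => S.n_le y v
      le_n := fun y v => S.le_n y v
      F_le := fun y v => S.F_le y v }
  have H' : BHyp (B := ΛB) (W := W) (rs A hA) (rs A' hA') (fun x => G x) (fun x => G' x)
      (fun x w => m x w) (fun x => EsB x) (fun x => EuB x) cB μB :=
    { c_pos := hcB
      mu_pos := hμB
      mu_lt := hμB1
      compl := fun x => compl x x.2
      inv_s := fun x w hw => inv_s x x.2 w hw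
      inv_s' := fun x w hw => inv_s' x x.2 w hw
      inv_u := fun x w hw => inv_u x x.2 w hw
      inv_u' := fun x w hw => inv_u' x x.2 w hw
      contr_s := fun x w hw k => by
        rw [it_rs, rs_iter]
        exact contr_s x x.2 w hw k
      contr_u := fun x w hw k => by
        rw [it_rs, rs_iter]
        exact contr_u x x.2 w hw k }
  obtain ⟨Es, Eu, c, μ, hc, hμ, hμ1, h1, h2, h3, h4, h5, h6, h7⟩ :=
    P7.exists_splitting (Λ := (univ : Set Λ)) S' H' (fun y _ => mem_univ _) (fun y _ => mem_univ _)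
      hC hκ hκ1 (fun y _ l => by
        have h := hest y y.2 l
        have e : ∏ i ∈ Finset.range l, D (((rs f hΛ)^[i] y : Λ) : M) =
            ∏ i ∈ Finset.range l, D (f^[i] y) :=
          Finset.prod_congr rfl fun i _ => by rw [rs_iter]
        rw [e]
        exact h)
  have ed : ∀ (E : Λ → Submodule ℝ V) (y : M) (hy : y ∈ Λ),
      (if h : y ∈ Λ then E ⟨y, h⟩ else ⊥) = E ⟨y, hy⟩ := fun E y hy => dif_pos hy
  refine ⟨fun y => if h : y ∈ Λ then Es ⟨y, h⟩ else ⊥, fun y => if h : y ∈ Λ then Eu ⟨y, h⟩ else ⊥,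
    c, μ, hc, hμ, hμ1, ?_, ?_, ?_, ?_, ?_, ?_, ?_⟩
  · intro y hy
    beta_reduce
    rw [ed Es y hy, ed Eu y hy]
    exact h1 ⟨y, hy⟩ (mem_univ _)
  · intro y hy v hv
    beta_reduce at hv ⊢
    rw [ed Es y hy] at hv
    rw [ed Es (f y) (hΛ y hy)]
    exact h2 ⟨y, hy⟩ v hv
  · intro y hy v hv
    beta_reduce at hv ⊢
    rw [ed Es y hy] at hv
    rw [ed Es (f' y) (hΛ' y hy)]
    exact h3 ⟨y, hy⟩ v hv
  · intro y hy v hv
    beta_reduce at hv ⊢
    rw [ed Eu y hy] at hv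
    rw [ed Eu (f y) (hΛ y hy)]
    exact h4 ⟨y, hy⟩ v hv
  · intro y hy v hv
    beta_reduce at hv ⊢
    rw [ed Eu y hy] at hv
    rw [ed Eu (f' y) (hΛ' y hy)]
    exact h5 ⟨y, hy⟩ v hv
  · intro y hy v hv k
    beta_reduce at hv
    rw [ed Es y hy] at hv
    have h := h6 ⟨y, hy⟩ (mem_univ _) v hv k
    rw [it_rs, rs_iter] at h
    exact h
  · intro y hy v hv k
    beta_reduce at hv
    rw [ed Eu y hy] at hv
    have h := h7 ⟨y, hy⟩ (mem_univ _) v hv k
    rw [it_rs, rs_iter] at h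
    exact h

end lin

end I_HE

open P7 in
theorem pr_HE : StHE.{u, v} := by
  intro d B M _ _ _ _ _ _ _ _ _ π hb r hr A f hcov γB ΛB EsB EuB cB μB hΛB hA γ D hD0 hDf Λ hΛ
    hπΛ C κ hC hκ0 hκ1 hest
  have hr1 : (1 : ℕ∞ω) ≤ ((r : ℕ∞) : ℕ∞ω) := by exact_mod_cast hr
  have hr0 : ((r : ℕ∞) : ℕ∞ω) ≠ 0 := by
    intro h
    rw [h] at hr1
    exact absurd hr1 (by norm_num)
  have hf : MDifferentiable (𝓡 (d + 1)) (𝓡 (d + 1)) f := f.mdifferentiable hr0
  have hf' : MDifferentiable (𝓡 (d + 1)) (𝓡 (d + 1)) f.symm := f.symm.mdifferentiable hr0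
  have hA1 : MDifferentiable (𝓡 d) (𝓡 d) A := A.mdifferentiable hr0
  have hA1' : MDifferentiable (𝓡 d) (𝓡 d) A.symm := A.symm.mdifferentiable hr0
  have hπ : MDifferentiable (𝓡 (d + 1)) (𝓡 d) π := hb.smooth_proj.mdifferentiable (by simp)
  -- the covering relation for the inverse
  have hcov' : ∀ y, π (f.symm y) = A.symm (π y) := by
    intro y
    have h := hcov (f.symm y)
    rw [f.apply_symm_apply] at h
    rw [h, A.symm_apply_apply]
  -- continuous homogeneous functions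
  have ht1 : Continuous fun v : TangentBundle (𝓡 (d + 1)) M =>
      rnorm γB (π v.1) (mfderiv (𝓡 (d + 1)) (𝓡 d) π v.1 v.2) :=
    (continuous_rnorm γB).comp (hb.smooth_proj.continuous_tangentMap (by simp))
  have ht2 := continuous_om hb γ
  have ht3 : Continuous fun v : TangentBundle (𝓡 (d + 1)) M =>
      rnorm γ (f v.1) (mfderiv (𝓡 (d + 1)) (𝓡 (d + 1)) f v.1 v.2) :=
    (continuous_rnorm γ).comp (f.contMDiff_toFun.continuous_tangentMap hr1)
  have hN : Continuous fun v : TangentBundle (𝓡 (d + 1)) M =>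
      rnorm γB (π v.1) (mfderiv (𝓡 (d + 1)) (𝓡 d) π v.1 v.2) + |om γ v.1 v.2| := ht1.add ht2.abs
  have hNhom : ∀ (x : M) (v : TangentSpace (𝓡 (d + 1)) x) (t : ℝ),
      rnorm γB (π x) (mfderiv (𝓡 (d + 1)) (𝓡 d) π x (t • v)) + |om γ x (t • v)| =
        |t| * (rnorm γB (π x) (mfderiv (𝓡 (d + 1)) (𝓡 d) π x v) + |om γ x v|) := by
    intro x v t
    have e1 : om γ x (t • v) = t * om γ x v := (om γ x).map_smul t v
    rw [map_smul, rnorm_smul, e1, abs_mul]
    ring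
  have omX : ∀ y, om γ y (gen d y) = 1 := by
    intro y
    rw [om_apply]
    exact inv_mul_cancel₀ (γ.pos _ _ (gen_ne_zero hb y)).ne'
  obtain ⟨K1, hK1, hK1'⟩ := exists_bound γ (fun v : TangentBundle (𝓡 (d + 1)) M =>
    rnorm γB (π v.1) (mfderiv (𝓡 (d + 1)) (𝓡 d) π v.1 v.2) + |om γ v.1 v.2|) hN hNhom
  obtain ⟨K2, hK2, hK2'⟩ := exists_bound_below γ (fun v : TangentBundle (𝓡 (d + 1)) M =>
    rnorm γB (π v.1) (mfderiv (𝓡 (d + 1)) (𝓡 d) π v.1 v.2) + |om γ v.1 v.2|) hN hNhom (by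
      intro x v hv
      show 0 < rnorm γB (π x) (mfderiv (𝓡 (d + 1)) (𝓡 d) π x v) + |om γ x v|
      by_cases h : mfderiv (𝓡 (d + 1)) (𝓡 d) π x v = 0
      · obtain ⟨c, hc⟩ := (ker_proj_of_gen_ne_zero hb x (gen_ne_zero hb x) v).mp h
        have hc0 : c ≠ 0 := by
          intro h0
          rw [h0, zero_smul] at hc
          exact hv hc
        have h1 : om γ x v = c := by
          rw [hc]
          exact ((om γ x).map_smul c (gen d x)).trans (by rw [omX, smul_eq_mul, mul_one])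
        rw [h1]
        have := rnorm_nonneg γB (π x) (mfderiv (𝓡 (d + 1)) (𝓡 d) π x v)
        have := abs_pos.mpr hc0
        linarith
      · have h1 : 0 < rnorm γB (π x) (mfderiv (𝓡 (d + 1)) (𝓡 d) π x v) :=
          Real.sqrt_pos.mpr (γB.pos _ _ h)
        have := abs_nonneg (om γ x v)
        linarith)
  obtain ⟨K3, hK3, hK3'⟩ := exists_bound γ (fun v : TangentBundle (𝓡 (d + 1)) M =>
    rnorm γ (f v.1) (mfderiv (𝓡 (d + 1)) (𝓡 (d + 1)) f v.1 v.2)) ht3 (by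
      intro x v t
      show rnorm γ (f x) (mfderiv (𝓡 (d + 1)) (𝓡 (d + 1)) f x (t • v)) = _
      rw [map_smul, rnorm_smul])
  -- chain rules
  have hTF : ∀ (g : M → M) (a : B → B) (hg : MDifferentiable (𝓡 (d + 1)) (𝓡 (d + 1)) g)
      (ha : MDifferentiable (𝓡 d) (𝓡 d) a) (hc : ∀ y, π (g y) = a (π y)) (y : M)
      (v : TangentSpace (𝓡 (d + 1)) y), mfderiv (𝓡 (d + 1)) (𝓡 d) π (g y)
        (mfderiv (𝓡 (d + 1)) (𝓡 (d + 1)) g y v) =
        mfderiv (𝓡 d) (𝓡 d) a (π y) (mfderiv (𝓡 (d + 1)) (𝓡 d) π y v) := by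
    intro g a hg ha hc y v
    have h1 := mfderiv_comp y (hπ (g y)) (hg y)
    have h2 := mfderiv_comp y (ha (π y)) (hπ y)
    have h3 : π ∘ g = a ∘ π := funext hc
    rw [h3] at h1
    rw [h2] at h1
    exact (congrArg (fun T : EuclideanSpace ℝ (Fin (d + 1)) →L[ℝ] EuclideanSpace ℝ (Fin d) => T v)
      h1).symm
  set K := max K1 (max K2 K3) with hK
  have hK1le : K1 ≤ K := le_max_left _ _
  have hK2le : K2 ≤ K := (le_max_left _ _).trans (le_max_right _ _)
  have hK3le : K3 ≤ K := (le_max_right _ _).trans (le_max_right _ _)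
  have S : P7.Setup (M := M) (B := B) (V := EuclideanSpace ℝ (Fin (d + 1)))
      (W := EuclideanSpace ℝ (Fin d)) π f f.symm A A.symm (fun y => gen d y)
      (fun y => (piC π y).toLinearMap)
      (lder f) (lder f.symm) (lder A) (lder A.symm) D (fun y v => rnorm γ y v)
      (fun x w => rnorm γB x w) (om γ) K :=
    { ff' := fun y => f.apply_symm_apply y
      f'f := fun y => f.symm_apply_apply y
      cov := hcov
      cov' := hcov'
      FF' := lder_comp_id f f.symm hf hf' (fun y => f.apply_symm_apply y)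
      F'F := lder_comp_id f.symm f hf' hf (fun y => f.symm_apply_apply y)
      GG' := lder_comp_id A A.symm hA1 hA1' (fun y => A.apply_symm_apply y)
      TF := hTF f A hf hA1 hcov
      TF' := hTF f.symm A.symm hf' hA1' hcov'
      Tsurj := fun y => hb.submersion y
      Tker := fun y v h => (ker_proj_of_gen_ne_zero hb y (gen_ne_zero hb y) v).mp h
      TX := fun y => (ker_proj_of_gen_ne_zero hb y (gen_ne_zero hb y) (gen d y)).mpr ⟨1, (one_smul ℝ _).symm⟩
      FX := hDf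
      D_pos := hD0
      ωX := omX
      n_nonneg := fun y v => rnorm_nonneg γ y v
      n_add := fun y v w => rnorm_add γ y v w
      n_smul := fun y c v => rnorm_smul γ y v c
      m_nonneg := fun x w => rnorm_nonneg γB x w
      K_pos := lt_of_lt_of_le hK1 hK1le
      n_le := fun y v => (hK2' y v).trans (mul_le_mul_of_nonneg_right hK2le
        (add_nonneg (rnorm_nonneg γB _ _) (abs_nonneg _)))
      le_n := fun y v => (hK1' y v).trans (mul_le_mul_of_nonneg_right hK1le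
        (rnorm_nonneg γ _ _))
      F_le := fun y v => (hK3' y v).trans (mul_le_mul_of_nonneg_right hK3le
        (rnorm_nonneg γ _ _)) }
  have hA2 : ∀ x ∈ ΛB, A.symm x ∈ ΛB := fun x hx => by
    rw [← hΛB (A.symm x), A.apply_symm_apply]
    exact hx
  have hΛ1 : ∀ y ∈ Λ, f y ∈ Λ := fun y hy => (hΛ y).mpr hy
  have hΛ2 : ∀ y ∈ Λ, f.symm y ∈ Λ := fun y hy => by
    rw [← hΛ (f.symm y), f.apply_symm_apply]
    exact hy
  obtain ⟨Es, Eu, c, μ, hc, hμ, hμ1, h1, h2, h3, h4, h5, h6, h7⟩ :=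
    I_HE.splitting S (ΛB := ΛB) (EsB := fun x => EsB x) (EuB := fun x => EuB x) hA.c_pos hA.mu_pos
      hA.mu_lt (fun x hx => (hΛB x).mpr hx) hA2 (fun x hx => hA.compl x hx)
      (fun x hx w hw => hA.inv_s x hx w hw) (fun x hx w hw => hA.inv_s' x hx w hw)
      (fun x hx w hw => hA.inv_u x hx w hw) (fun x hx w hw => hA.inv_u' x hx w hw)
      (fun x hx w hw k => by
        rw [it_lder hA1]
        exact hA.contr_s x hx w hw k)
      (fun x hx w hw k => by
        rw [it_lder hA1']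
        exact hA.contr_u x hx w hw k)
      hΛ1 hΛ2 hπΛ hC hκ0 hκ1 hest
  refine ⟨fun y => Es y, fun y => Eu y, c, μ, hc, hμ, hμ1, h1, fun y hy v hv => h2 y hy v hv,
    fun y hy v hv => h3 y hy v hv, fun y hy v hv => h4 y hy v hv,
    fun y hy v hv => h5 y hy v hv, ?_, ?_⟩
  · intro y hy v hv k
    have h := h6 y hy v hv k
    exact (congrArg (fun z : EuclideanSpace ℝ (Fin (d + 1)) => rnorm γ (f^[k] y) z)
      (it_lder hf k y v).symm).trans_le h
  · intro y hy v hv k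
    have h := h7 y hy v hv k
    exact (congrArg (fun z : EuclideanSpace ℝ (Fin (d + 1)) => rnorm γ (f.symm^[k] y) z)
      (it_lder hf' k y v).symm).trans_le h

end Pool.Agent.OmegaStability.OS

end
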