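import Pool.Agent.Work.MP_814647_an.OS.Stmts

/-!
# Item Hil: the Hilbert metric is not expanded
-/

set_option autoImplicit false

open Set Filter Topology Function
open scoped Manifold ContDiff

noncomputable section

namespace Pool.Agent.OmegaStability.OS

theorem pr_Hil (hOsc : StOsc) : StHil := by
  intro κ S G hSG σ hσ F l x r hF hd hlx hxr hrl hFrl hQ
  have hmono : StrictMono F := strictMono_of_deriv_pos hd
  have h1 : F l < F x := hmono hlx
  have h2 : F x < F r := hmono hxr
  have A := (hOsc κ S G hSG σ hσ F l x hF hd hlx (by linarith) (by linarith)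
    (fun y hy => hQ y ⟨hy.1, hy.2.trans hxr.le⟩)).1
  have B := (hOsc κ S G hSG σ hσ F x r hF hd hxr (by linarith) (by linarith)
    (fun y hy => hQ y ⟨hlx.le.trans hy.1, hy.2⟩)).2
  have key : σ * (G (x - l) / S (x - l) + G (r - x) / S (r - x) -
      deriv F x * (G (F x - F l) / S (F x - F l) + G (F r - F x) / S (F r - F x))) =
      (σ * (nlAt F x + 2 * (G (x - l) / S (x - l)) -
        2 * deriv F x * (G (F x - F l) / S (F x - F l))) -
      σ * (nlAt F x - 2 * (G (r - x) / S (r - x)) +
        2 * deriv F x * (G (F r - F x) / S (F r - F x)))) / 2 := by ring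
  rw [key]
  linarith

end Pool.Agent.OmegaStability.OS
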