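import Pool.Agent.Work.MP_814647_an.OS.Stmts

/-!
# Item KC: uniform contraction along contracting periodic orbits
-/

set_option autoImplicit false

open Set Filter Topology Function
open scoped Manifold ContDiff

noncomputable section

namespace Pool.Agent.OmegaStability.OS

open Dens

namespace I_KC

/-- The interval swept by the periodic point, at all times. -/
theorem core (hSw : StSwC) {τ Λ : ℝ} (hτ : 0 < τ) {L : ℕ → ℝ → ℝ} {N : ℕ}
    (hE : OS.Ext L N τ Λ) (hprod : ∏ i ∈ Finset.range N, deriv (L i) 0 < 1) :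
    ∃ l r : ℕ → ℝ, (∀ k, l k + τ / 4 ≤ 0) ∧ (∀ k, 0 + τ / 4 ≤ r k) ∧
      (∀ k, r k - l k ≤ 2 * Real.pi - τ / 4) ∧ (∀ k, l (k + 1) + τ / 4 ≤ L k (l k)) ∧
      (∀ k, L k (r k) + τ / 4 ≤ r (k + 1)) ∧
      ∀ k, ∀ x ∈ Icc (l k) (r k), ∃ s θ : ℝ, |s| < τ ∧ orb L s N θ = θ ∧
        ∏ i ∈ Finset.range N, deriv (L i) (orb L s i θ) < 1 ∧ orb L s k θ = x := by
  obtain ⟨P, hP, hmul, hinc⟩ := hSw L N τ Λ (3 * τ / 4) hE (by linarith) (by linarith) hprod
  have h0 : |(0 : ℝ)| ≤ 3 * τ / 4 := by rw [abs_zero]; linarith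
  have h1 : |τ / 2| ≤ 3 * τ / 4 := by rw [abs_of_pos (by linarith)]; linarith
  have h1' : |-(τ / 2)| ≤ 3 * τ / 4 := by rw [abs_neg]; exact h1
  have h2 : |-(3 * τ / 4)| ≤ 3 * τ / 4 := by rw [abs_neg, abs_of_pos (by linarith)]
  have hp : ∀ k, orb L 0 k (P 0) = 0 := by
    intro k
    rw [hP.zero]
    induction k with
    | zero => rfl
    | succ k ih =>
      show L k (orb L 0 k 0) + 0 = 0
      rw [ih, hE.zero, add_zero]
  refine ⟨fun k => orb L (-(τ / 2)) k (P (-(τ / 2))), fun k => orb L (τ / 2) k (P (τ / 2)),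
    fun k => ?_, fun k => ?_, fun k => ?_, fun k => ?_, fun k => ?_, fun k x hx => ?_⟩
  · have h3 := hinc (-(τ / 2)) 0 h1' h0 (by linarith) k
    rw [hp] at h3
    show orb L (-(τ / 2)) k (P (-(τ / 2))) + τ / 4 ≤ 0
    linarith
  · have h3 := hinc 0 (τ / 2) h0 h1 (by linarith) k
    rw [hp] at h3
    show 0 + τ / 4 ≤ orb L (τ / 2) k (P (τ / 2))
    linarith
  · have h3 := hinc (-(3 * τ / 4)) (-(τ / 2)) h2 h1' (by linarith) k
    have h4 := hP.circ (-(3 * τ / 4)) (τ / 2) h2 h1 k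
    show orb L (τ / 2) k (P (τ / 2)) - orb L (-(τ / 2)) k (P (-(τ / 2))) ≤ 2 * Real.pi - τ / 4
    linarith
  · show L k (orb L (-(τ / 2)) k (P (-(τ / 2)))) + -(τ / 2) + τ / 4 ≤
      L k (orb L (-(τ / 2)) k (P (-(τ / 2))))
    linarith
  · show L k (orb L (τ / 2) k (P (τ / 2))) + τ / 4 ≤
      L k (orb L (τ / 2) k (P (τ / 2))) + τ / 2
    linarith
  · have hle : -(τ / 2) ≤ τ / 2 := by linarith
    have hcont : ContinuousOn (fun s => orb L s k (P s)) (Icc (-(τ / 2)) (τ / 2)) := by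
      have h3 : ContinuousOn (fun s => (s, P s)) (Icc (-(τ / 2)) (τ / 2)) :=
        continuousOn_id.prodMk (hP.cont.mono (Icc_subset_Icc (by linarith) (by linarith)))
      exact (orb_cont (fun j => (hE.smooth j).continuous) k).comp_continuousOn h3
    obtain ⟨s, hs, rfl⟩ := intermediate_value_Icc hle hcont hx
    have hs' : |s| ≤ 3 * τ / 4 := by
      rw [abs_le]
      constructor <;> linarith [hs.1, hs.2]
    exact ⟨s, P s, by linarith, hP.fixed s hs', hmul s hs', rfl⟩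

end I_KC

/-- Item KC. -/
theorem pr_KC (hSw : StSwC) (hCv : StCvx) (hSc : StScC) : StKC := by
  intro K τ Λ hK hτ
  have hδ : 0 < τ / 4 := by linarith
  cases K with
  | up =>
    obtain ⟨C, lam, hC, hlam, hlam1, h⟩ := hCv (τ / 4) hδ
    refine ⟨C, lam, hC, hlam, hlam1, fun L N hE hL hprod hone n => ?_⟩
    obtain ⟨l, r, hl, hr, hrl, hLl, hLr, hx⟩ := I_KC.core hSw hτ hE hprod
    refine h L l (fun _ => 0) r hL hE.dpos hE.zero hl hr (fun k => ?_) hLl hLr
      (Or.inl fun k x hxk => ?_) n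
    · linarith [hrl k]
    · obtain ⟨s, θ, hs, hfix, hmul, rfl⟩ := hx k x hxk
      exact hone s hs θ hfix hmul k
  | down =>
    obtain ⟨C, lam, hC, hlam, hlam1, h⟩ := hCv (τ / 4) hδ
    refine ⟨C, lam, hC, hlam, hlam1, fun L N hE hL hprod hone n => ?_⟩
    obtain ⟨l, r, hl, hr, hrl, hLl, hLr, hx⟩ := I_KC.core hSw hτ hE hprod
    refine h L l (fun _ => 0) r hL hE.dpos hE.zero hl hr (fun k => ?_) hLl hLr
      (Or.inr fun k x hxk => ?_) n
    · linarith [hrl k]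
    · obtain ⟨s, θ, hs, hfix, hmul, rfl⟩ := hx k x hxk
      exact hone s hs θ hfix hmul k
  | sch κ =>
    obtain ⟨C, lam, hC, hlam, hlam1, h⟩ := hSc κ hK (τ / 4) hδ
    refine ⟨C, lam, hC, hlam, hlam1, fun L N hE hL hprod hone n => ?_⟩
    obtain ⟨l, r, hl, hr, hrl, hLl, hLr, hx⟩ := I_KC.core hSw hτ hE hprod
    refine h L l (fun _ => 0) r hL hE.dpos hE.zero hl hr hrl hLl hLr (fun k x hxk => ?_) n
    obtain ⟨s, θ, hs, hfix, hmul, rfl⟩ := hx k x hxk
    have h1 : 0 ≤ 1 * scAt κ (L k) (orb L s k θ) := hone s hs θ hfix hmul k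
    linarith

end Pool.Agent.OmegaStability.OS
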