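import Pool.Agent.Work.MP_814647_an.OS.Stmts

/-!
# Block OS, item KE: uniform expansion along expanding periodic orbits
-/

set_option autoImplicit false

open Set Filter Topology Function
open scoped Manifold ContDiff

noncomputable section

namespace Pool.Agent.OmegaStability.OS

open Dens

namespace I_KE

/-- The position of the moving periodic point. -/
def pos (L : ℕ → ℝ → ℝ) (P : ℝ → ℝ) (k : ℕ) (s : ℝ) : ℝ := orb L s k (P s)

theorem pos_succ (L : ℕ → ℝ → ℝ) (P : ℝ → ℝ) (k : ℕ) (s : ℝ) :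
    pos L P (k + 1) s = L k (pos L P k s) + s := rfl

theorem pos_zero {L : ℕ → ℝ → ℝ} {N : ℕ} {τ Λ : ℝ} (hE : Ext L N τ Λ) {P : ℝ → ℝ}
    (h0 : P 0 = 0) (k : ℕ) : pos L P k 0 = 0 := by
  induction k with
  | zero => exact h0
  | succ k ih => rw [pos_succ, ih, hE.zero k, add_zero]

theorem pos_cont {L : ℕ → ℝ → ℝ} {N : ℕ} {τ Λ : ℝ} (hE : Ext L N τ Λ) {P : ℝ → ℝ} {s₁ : ℝ}
    (hP : ContinuousOn P (Icc (-s₁) s₁)) (k : ℕ) : ContinuousOn (pos L P k) (Icc (-s₁) s₁) := by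
  induction k with
  | zero => exact hP
  | succ k ih =>
    have h1 : Continuous (L k) := (hE.smooth k).continuous
    exact (h1.comp_continuousOn ih).add continuousOn_id

/-- The facts used in all cases. -/
structure Fac (L : ℕ → ℝ → ℝ) (δ : ℝ) (l p r : ℕ → ℝ) (Q : ℕ → ℝ → Prop) : Prop where
  step : ∀ k, L k (p k) = p (k + 1)
  lp : ∀ k, l k + δ ≤ p k
  pr : ∀ k, p k + δ ≤ r k
  rl : ∀ k, r k - l k ≤ 2 * Real.pi - δ
  ll : ∀ k, L k (l k) + δ ≤ l (k + 1)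
  rr : ∀ k, r (k + 1) + δ ≤ L k (r k)
  deg : ∀ k, L k (r k) - L k (l k) < 2 * Real.pi
  q : ∀ k, ∀ x ∈ Icc (l k) (r k), Q k x
  z : ∀ k, p k = 0

theorem exists_fac (hSwE : StSwE) {τ Λ : ℝ} (hτ : 0 < τ) (hΛ : 0 < Λ) {L : ℕ → ℝ → ℝ} {N : ℕ}
    (hE : Ext L N τ Λ) (h1 : 1 < ∏ i ∈ Finset.range N, deriv (L i) 0) {Q : ℕ → ℝ → Prop}
    (hQ : ∀ s, |s| < τ → ∀ θ, orb L s N θ = θ →
      1 < ∏ i ∈ Finset.range N, deriv (L i) (orb L s i θ) → ∀ i, Q i (orb L s i θ)) :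
    ∃ l p r : ℕ → ℝ, Fac L (min (τ / 4) (τ / (4 * Λ))) l p r Q := by
  obtain ⟨P, hP, hmul, hmon⟩ := hSwE L N τ Λ (3 * τ / 4) hE (by linarith) (by linarith) h1
  have a0 : |(0 : ℝ)| ≤ 3 * τ / 4 := by rw [abs_zero]; linarith
  have a1 : |τ / 2| ≤ 3 * τ / 4 := by rw [abs_of_pos (by linarith)]; linarith
  have a2 : |-(τ / 2)| ≤ 3 * τ / 4 := by rw [abs_neg]; exact a1
  have a3 : |3 * τ / 4| ≤ 3 * τ / 4 := by rw [abs_of_pos (by linarith)]
  have hδ1 : min (τ / 4) (τ / (4 * Λ)) ≤ τ / 4 := min_le_left _ _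
  have hδ2 : min (τ / 4) (τ / (4 * Λ)) ≤ τ / (4 * Λ) := min_le_right _ _
  have hδΛ : Λ * (τ / (4 * Λ)) = τ / 4 := by field_simp
  -- from `c ≤ Λ * d`, `τ / 4 ≤ c` to `δ ≤ d`
  have key : ∀ c d : ℝ, τ / 4 ≤ c → c ≤ Λ * d → min (τ / 4) (τ / (4 * Λ)) ≤ d := by
    intro c d hc hd
    refine hδ2.trans ?_
    have h2 : Λ * (τ / (4 * Λ)) ≤ Λ * d := by rw [hδΛ]; linarith
    exact le_of_mul_le_mul_left h2 hΛ
  refine ⟨fun k => pos L P k (τ / 2), fun k => pos L P k 0, fun k => pos L P k (-(τ / 2)), ?_⟩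
  have hlp : ∀ k, pos L P k (τ / 2) + min (τ / 4) (τ / (4 * Λ)) ≤ pos L P k 0 := by
    intro k
    have h2 := (hmon 0 (τ / 2) a0 a1 (by linarith) k).2
    have h3 : τ / 2 - 0 ≤ Λ * (pos L P k 0 - pos L P k (τ / 2)) := h2
    have h4 := key _ _ (by linarith) h3
    linarith
  have hpr : ∀ k, pos L P k 0 + min (τ / 4) (τ / (4 * Λ)) ≤ pos L P k (-(τ / 2)) := by
    intro k
    have h2 := (hmon (-(τ / 2)) 0 a2 a0 (by linarith) k).2
    have h3 : 0 - (-(τ / 2)) ≤ Λ * (pos L P k (-(τ / 2)) - pos L P k 0) := h2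
    have h4 := key _ _ (by linarith) h3
    linarith
  have hrl : ∀ k, pos L P k (-(τ / 2)) - pos L P k (τ / 2) <
      2 * Real.pi - min (τ / 4) (τ / (4 * Λ)) := by
    intro k
    have h2 := (hmon (τ / 2) (3 * τ / 4) a1 a3 (by linarith) k).2
    have h3 : 3 * τ / 4 - τ / 2 ≤ Λ * (pos L P k (τ / 2) - pos L P k (3 * τ / 4)) := h2
    have h4 := key _ _ (by linarith) h3
    have h5 : pos L P k (-(τ / 2)) < pos L P k (3 * τ / 4) + 2 * Real.pi :=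
      hP.circ (3 * τ / 4) (-(τ / 2)) a3 a2 k
    linarith
  have hmin : 0 < min (τ / 4) (τ / (4 * Λ)) := lt_min (by linarith) (by positivity)
  refine ⟨fun k => ?_, hlp, hpr, fun k => (hrl k).le, fun k => ?_, fun k => ?_, fun k => ?_,
    fun k x hx => ?_, fun k => pos_zero hE hP.zero k⟩
  · show L k (pos L P k 0) = pos L P (k + 1) 0
    rw [pos_succ, add_zero]
  · show L k (pos L P k (τ / 2)) + min (τ / 4) (τ / (4 * Λ)) ≤ pos L P (k + 1) (τ / 2)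
    rw [pos_succ]
    linarith
  · show pos L P (k + 1) (-(τ / 2)) + min (τ / 4) (τ / (4 * Λ)) ≤ L k (pos L P k (-(τ / 2)))
    rw [pos_succ]
    linarith
  · show L k (pos L P k (-(τ / 2))) - L k (pos L P k (τ / 2)) < 2 * Real.pi
    have hs : StrictMono (L k) := strictMono_of_deriv_pos (hE.dpos k)
    have h2 : pos L P k (-(τ / 2)) < pos L P k (τ / 2) + 2 * Real.pi := by
      linarith [hrl k]
    have h3 := hs h2
    rw [hE.deg] at h3
    linarith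
  · have hc : ContinuousOn (pos L P k) (Icc (-(τ / 2)) (τ / 2)) := by
      refine (pos_cont hE hP.cont k).mono (Icc_subset_Icc ?_ ?_)
      · linarith
      · linarith
    obtain ⟨s, hs, rfl⟩ := intermediate_value_Icc' (by linarith) hc hx
    have hs1 : |s| ≤ τ / 2 := abs_le.2 hs
    exact hQ s (by linarith) (P s) (hP.fixed s (by linarith)) (hmul s (by linarith)) k

end I_KE

open I_KE in
theorem pr_KE (hSwE : StSwE) (hCvxE : StCvxE) (hScE : StScE) : StKE := by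
  intro K τ Λ hK hτ hΛ
  have hδ : 0 < min (τ / 4) (τ / (4 * Λ)) := lt_min (by linarith) (by positivity)
  have fin : ∀ {L : ℕ → ℝ → ℝ} {p : ℕ → ℝ} (C lam : ℝ), (∀ k, p k = 0) →
      (∀ n, 1 ≤ C * lam ^ n * ∏ i ∈ Finset.range n, deriv (L i) (p i)) →
      ∀ n, 1 ≤ C * lam ^ n * ∏ i ∈ Finset.range n, deriv (L i) 0 := by
    intro L p C lam hz h n
    have h1 := h n
    rwa [Finset.prod_congr rfl (fun i _ => by rw [hz i])] at h1
  cases K with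
  | up =>
    obtain ⟨C, lam, hC, hl, hl1, h⟩ := hCvxE _ hδ
    refine ⟨C, lam, hC, hl, hl1, fun L N hE h3 h1 hQ => ?_⟩
    obtain ⟨l, p, r, hf⟩ := exists_fac hSwE hτ hΛ hE h1 (Q := fun k x => 0 ≤ nlAt (L k) x) hQ
    exact fin C lam hf.z (h L l p r h3 hE.dpos hf.step hf.lp hf.pr
      (fun k => by linarith [hf.rl k]) hf.ll hf.rr (Or.inl hf.q))
  | down =>
    obtain ⟨C, lam, hC, hl, hl1, h⟩ := hCvxE _ hδ
    refine ⟨C, lam, hC, hl, hl1, fun L N hE h3 h1 hQ => ?_⟩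
    obtain ⟨l, p, r, hf⟩ := exists_fac hSwE hτ hΛ hE h1 (Q := fun k x => nlAt (L k) x ≤ 0) hQ
    exact fin C lam hf.z (h L l p r h3 hE.dpos hf.step hf.lp hf.pr
      (fun k => by linarith [hf.rl k]) hf.ll hf.rr (Or.inr hf.q))
  | sch κ =>
    obtain ⟨C, lam, hC, hl, hl1, h⟩ := hScE κ hK _ hδ
    refine ⟨C, lam, hC, hl, hl1, fun L N hE h3 h1 hQ => ?_⟩
    obtain ⟨l, p, r, hf⟩ := exists_fac hSwE hτ hΛ hE h1
      (Q := fun k x => 0 ≤ -1 * scAt κ (L k) x) hQ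
    exact fin C lam hf.z (h L l p r h3 hE.dpos hf.step hf.lp hf.pr hf.rl hf.ll hf.rr hf.deg hf.q)

end Pool.Agent.OmegaStability.OS
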