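import Pool.Agent.Work.MP_814647_an.OS.Stmts

/-!
# Block OS of MP_814647_an, item Osc: the oscillation inequality
-/

set_option autoImplicit false

open Set Filter Topology Function
open scoped Manifold ContDiff

noncomputable section

namespace Pool.Agent.OmegaStability.OS

open Dens

namespace I_Osc

theorem cont_sq_div {p q : ℝ → ℝ} {p' q' a : ℝ} (hp : HasDerivAt p p' a)
    (hq : HasDerivAt q q' a) (hq' : q' ≠ 0) (pa : p a = 0) (qa : q a = 0) :
    ContinuousAt (fun x => p x ^ 2 / q x) a := by
  rw [continuousAt_iff_punctured_nhds]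
  have h1 : Tendsto (fun x => p x / (x - a)) (𝓝[≠] a) (𝓝 p') := by
    refine (hasDerivAt_iff_tendsto_slope.1 hp).congr' ?_
    filter_upwards with x
    rw [slope_def_field, pa, sub_zero]
  have h2 : Tendsto (fun x => q x / (x - a)) (𝓝[≠] a) (𝓝 q') := by
    refine (hasDerivAt_iff_tendsto_slope.1 hq).congr' ?_
    filter_upwards with x
    rw [slope_def_field, qa, sub_zero]
  have h3 : Tendsto p (𝓝[≠] a) (𝓝 0) := by
    have := hp.continuousAt.tendsto
    rw [pa] at this
    exact this.mono_left nhdsWithin_le_nhds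
  have h4 : Tendsto (fun x => p x * ((p x / (x - a)) / (q x / (x - a)))) (𝓝[≠] a)
      (𝓝 (0 * (p' / q'))) := h3.mul (h1.div h2 hq')
  rw [zero_mul] at h4
  have h5 : p a ^ 2 / q a = 0 := by rw [pa]; simp
  rw [h5]
  refine h4.congr' ?_
  filter_upwards [self_mem_nhdsWithin] with x hx
  have hxa : x - a ≠ 0 := sub_ne_zero.2 hx
  rw [div_div_div_cancel_right₀ hxa, mul_div, sq]

theorem derivs {F : ℝ → ℝ} (hF : ContDiff ℝ 3 F) :
    (∀ x, HasDerivAt F (deriv F x) x) ∧ (∀ x, HasDerivAt (deriv F) (iteratedDeriv 2 F x) x) ∧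
      (∀ x, HasDerivAt (iteratedDeriv 2 F) (iteratedDeriv 3 F x) x) := by
  refine ⟨fun x => ?_, fun x => ?_, fun x => ?_⟩
  · exact ((hF.differentiable (by norm_num)) x).hasDerivAt
  · have h1 : Differentiable ℝ (iteratedDeriv 1 F) :=
      hF.differentiable_iteratedDeriv 1 (by norm_cast)
    have h2 := (h1 x).hasDerivAt
    rw [iteratedDeriv_one] at h2
    rw [show (2 : ℕ) = 1 + 1 by norm_num, iteratedDeriv_succ, iteratedDeriv_one]
    exact h2
  · have h1 : Differentiable ℝ (iteratedDeriv 2 F) :=
      hF.differentiable_iteratedDeriv 2 (by norm_cast)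
    have h2 := (h1 x).hasDerivAt
    have h3 : iteratedDeriv 3 F = deriv (iteratedDeriv 2 F) := iteratedDeriv_succ
    rw [h3]
    exact h2

theorem first {κ : ℝ} {S G : ℝ → ℝ} (h : IsSG κ S G) {σ : ℝ} (hσ : σ = 1 ∨ σ = -1)
    {F : ℝ → ℝ} {a b : ℝ} (hF : ContDiff ℝ 3 F) (hpos : ∀ x, 0 < deriv F x) (hab : a < b)
    (hba : b - a < 2 * Real.pi) (hFb : F b - F a < 2 * Real.pi)
    (hQ : ∀ x ∈ Icc a b, 0 ≤ σ * scAt κ F x) :
    0 ≤ σ * (nlAt F b + 2 * (G (b - a) / S (b - a)) -
      2 * deriv F b * (G (F b - F a) / S (F b - F a))) := by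
  obtain ⟨d0, d1, d2⟩ := derivs hF
  have hmono : StrictMono F := strictMono_of_deriv_pos hpos
  -- positivity
  have sp : ∀ x, a < x → x ≤ b → 0 < S (x - a) := fun x h1 h2 =>
    h.pos _ (by linarith) (by linarith)
  have vp : ∀ x, a < x → x ≤ b → 0 < S (F x - F a) := fun x h1 h2 =>
    h.pos _ (by have := hmono h1; linarith) (by have := hmono.monotone h2; linarith)
  -- derivatives
  have ds : ∀ x, HasDerivAt (fun y => S (y - a)) (G (x - a)) x := fun x => by
    have h1 : HasDerivAt (fun y => S (y - a)) (G (x - a) * 1) x :=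
      (h.dS (x - a)).comp x ((hasDerivAt_id x).sub_const a)
    rwa [mul_one] at h1
  have dg : ∀ x, HasDerivAt (fun y => G (y - a)) (-(κ / 2) * S (x - a)) x := fun x => by
    have h1 : HasDerivAt (fun y => G (y - a)) (-(κ / 2) * S (x - a) * 1) x :=
      (h.dG (x - a)).comp x ((hasDerivAt_id x).sub_const a)
    rwa [mul_one] at h1
  have dv : ∀ x, HasDerivAt (fun y => S (F y - F a)) (G (F x - F a) * deriv F x) x := fun x =>
    (h.dS (F x - F a)).comp x ((d0 x).sub_const (F a))
  have dh : ∀ x, HasDerivAt (fun y => G (F y - F a)) (-(κ / 2) * S (F x - F a) * deriv F x) x :=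
    fun x => (h.dG (F x - F a)).comp x ((d0 x).sub_const (F a))
  have dn : ∀ x, HasDerivAt (fun y => nlAt F y)
      ((iteratedDeriv 3 F x * deriv F x - iteratedDeriv 2 F x * iteratedDeriv 2 F x) /
        deriv F x ^ 2) x := fun x => (d2 x).div (d1 x) (hpos x).ne'
  have sa : S (a - a) = 0 := by rw [sub_self, h.S0]
  have va : S (F a - F a) = 0 := by rw [sub_self, h.S0]
  have ga : G (a - a) = 1 := by rw [sub_self, h.G0]
  have ha : G (F a - F a) = 1 := by rw [sub_self, h.G0]
  have cn : Continuous (fun y => nlAt F y) := continuous_iff_continuousAt.2 fun x =>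
    (dn x).continuousAt
  have cs : Continuous (fun y => S (y - a)) := continuous_iff_continuousAt.2 fun x =>
    (ds x).continuousAt
  have cg : Continuous (fun y => G (y - a)) := continuous_iff_continuousAt.2 fun x =>
    (dg x).continuousAt
  have cv : Continuous (fun y => S (F y - F a)) := continuous_iff_continuousAt.2 fun x =>
    (dv x).continuousAt
  have ch : Continuous (fun y => G (F y - F a)) := continuous_iff_continuousAt.2 fun x =>
    (dh x).continuousAt
  have cf : Continuous (deriv F) := continuous_iff_continuousAt.2 fun x =>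
    (d1 x).continuousAt
  have hb1 := sp b hab le_rfl
  have hb2 := vp b hab le_rfl
  have hb3 := hpos b
  rcases hσ with rfl | rfl
  · -- the case 1
    set Φ : ℝ → ℝ := fun x => S (x - a) ^ 2 * nlAt F x + 2 * (S (x - a) * G (x - a)) -
      2 * (deriv F x * G (F x - F a)) * (S (x - a) ^ 2 / S (F x - F a)) with hΦ
    have hcont : ContinuousOn Φ (Icc a b) := by
      intro x hx
      apply ContinuousAt.continuousWithinAt
      have c1 : ContinuousAt (fun y => S (y - a) ^ 2 / S (F y - F a)) x := by
        rcases eq_or_lt_of_le hx.1 with h1 | h1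
        · subst h1
          refine cont_sq_div (ds a) (dv a) ?_ sa va
          rw [ha, one_mul]; exact (hpos a).ne'
        · exact (cs.continuousAt.pow 2).div cv.continuousAt (vp x h1 hx.2).ne'
      exact (((cs.continuousAt.pow 2).mul cn.continuousAt).add
        (continuousAt_const.mul (cs.continuousAt.mul cg.continuousAt))).sub
        ((continuousAt_const.mul (cf.continuousAt.mul ch.continuousAt)).mul c1)
    have hder : ∀ x ∈ interior (Icc a b), HasDerivAt Φ (S (x - a) ^ 2 * (scAt κ F x +
        (nlAt F x + 2 * (G (x - a) / S (x - a)) -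
          2 * deriv F x * (G (F x - F a) / S (F x - F a))) ^ 2 / 2)) x := by
      intro x hx
      rw [interior_Icc] at hx
      have h1 := (sp x hx.1 hx.2.le).ne'
      have h2 := (vp x hx.1 hx.2.le).ne'
      have h3 := (hpos x).ne'
      have hd := ((((ds x).pow 2).mul (dn x)).add (((ds x).mul (dg x)).const_mul 2)).sub
        ((((d1 x).mul (dh x)).const_mul 2).mul (((ds x).pow 2).div (dv x) h2))
      refine HasDerivAt.congr_deriv hd ?_
      simp only [scAt, nlAt, Pi.pow_apply, Pi.mul_apply, Pi.div_apply]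
      field_simp
      ring
    have hm : MonotoneOn Φ (Icc a b) := by
      refine monotoneOn_of_deriv_nonneg (convex_Icc a b) hcont
        (fun x hx => (hder x hx).differentiableAt.differentiableWithinAt) fun x hx => ?_
      rw [(hder x hx).deriv]
      have h1 := hQ x (interior_subset hx)
      rw [one_mul] at h1
      positivity
    have h1 := hm (left_mem_Icc.2 hab.le) (right_mem_Icc.2 hab.le) hab.le
    have h2 : Φ a = 0 := by simp only [hΦ, sa]; ring
    have h3 : Φ b = S (b - a) ^ 2 * (nlAt F b + 2 * (G (b - a) / S (b - a)) -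
          2 * deriv F b * (G (F b - F a) / S (F b - F a))) := by
      simp only [hΦ]
      field_simp
    rw [h2, h3] at h1
    rw [one_mul]
    exact nonneg_of_mul_nonneg_right h1 (by positivity)
  · -- the case - 1
    set Z : ℝ → ℝ := fun x => 2 * (G (F x - F a) * S (F x - F a)) -
      S (F x - F a) ^ 2 * nlAt F x / deriv F x -
      2 * (G (x - a) / deriv F x) * (S (F x - F a) ^ 2 / S (x - a)) with hZ
    have hcont : ContinuousOn Z (Icc a b) := by
      intro x hx
      apply ContinuousAt.continuousWithinAt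
      have c1 : ContinuousAt (fun y => S (F y - F a) ^ 2 / S (y - a)) x := by
        rcases eq_or_lt_of_le hx.1 with h1 | h1
        · subst h1
          refine cont_sq_div (dv a) (ds a) ?_ va sa
          rw [ga]; exact one_ne_zero
        · exact (cv.continuousAt.pow 2).div cs.continuousAt (sp x h1 hx.2).ne'
      exact ((continuousAt_const.mul (ch.continuousAt.mul cv.continuousAt)).sub
        (((cv.continuousAt.pow 2).mul cn.continuousAt).div cf.continuousAt (hpos x).ne')).sub
        ((continuousAt_const.mul (cg.continuousAt.div cf.continuousAt (hpos x).ne')).mul c1)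
    have hder : ∀ x ∈ interior (Icc a b), HasDerivAt Z (S (F x - F a) ^ 2 / deriv F x *
        (-scAt κ F x + (nlAt F x + 2 * (G (x - a) / S (x - a)) -
          2 * deriv F x * (G (F x - F a) / S (F x - F a))) ^ 2 / 2)) x := by
      intro x hx
      rw [interior_Icc] at hx
      have h1 := (sp x hx.1 hx.2.le).ne'
      have h2 := (vp x hx.1 hx.2.le).ne'
      have h3 := (hpos x).ne'
      have hd := (((((dh x).mul (dv x)).const_mul 2).sub
        ((((dv x).pow 2).mul (dn x)).div (d1 x) h3))).sub
        ((((dg x).div (d1 x) h3).const_mul 2).mul (((dv x).pow 2).div (ds x) h1))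
      refine HasDerivAt.congr_deriv hd ?_
      simp only [scAt, nlAt, Pi.pow_apply, Pi.mul_apply, Pi.div_apply]
      field_simp
      ring
    have hm : MonotoneOn Z (Icc a b) := by
      refine monotoneOn_of_deriv_nonneg (convex_Icc a b) hcont
        (fun x hx => (hder x hx).differentiableAt.differentiableWithinAt) fun x hx => ?_
      rw [(hder x hx).deriv]
      have h1 := hQ x (interior_subset hx)
      have h2 : 0 ≤ - scAt κ F x := by linarith
      have h3 := hpos x
      positivity
    have h1 := hm (left_mem_Icc.2 hab.le) (right_mem_Icc.2 hab.le) hab.le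
    have h2 : Z a = 0 := by simp only [hZ, va]; ring
    have h3 : Z b = S (F b - F a) ^ 2 / deriv F b * (-1 * (nlAt F b + 2 * (G (b - a) / S (b - a)) -
          2 * deriv F b * (G (F b - F a) / S (F b - F a)))) := by
      simp only [hZ]
      field_simp
      ring
    rw [h2, h3] at h1
    exact nonneg_of_mul_nonneg_right h1 (by positivity)

end I_Osc

open I_Osc in
theorem pr_Osc : StOsc := by
  intro κ S G h σ hσ F a b hF hpos hab hba hFb hQ
  refine ⟨first h hσ hF hpos hab hba hFb hQ, ?_⟩
  set F' : ℝ → ℝ := fun x => - F (-x) with hF'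
  have e1 : ∀ x, deriv F' x = deriv F (-x) := by
    intro x
    have h1 : HasDerivAt F' (-(deriv F (-x) * -1)) x :=
      (((derivs hF).1 (-x)).comp x (hasDerivAt_neg x)).neg
    rw [h1.deriv]
    ring
  have e2 : ∀ x, iteratedDeriv 2 F' x = - iteratedDeriv 2 F (-x) := by
    intro x
    rw [show (2 : ℕ) = 1 + 1 by norm_num, iteratedDeriv_succ, iteratedDeriv_one,
      show deriv F' = fun y => deriv F (-y) from funext e1]
    have h3 : HasDerivAt (fun y => deriv F (-y)) (iteratedDeriv 2 F (-x) * -1) x :=
      ((derivs hF).2.1 (-x)).comp x (hasDerivAt_neg x)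
    rw [h3.deriv]
    ring
  have e3 : ∀ x, iteratedDeriv 3 F' x = iteratedDeriv 3 F (-x) := by
    intro x
    rw [show (3 : ℕ) = 2 + 1 by norm_num, iteratedDeriv_succ,
      show iteratedDeriv 2 F' = fun y => - iteratedDeriv 2 F (-y) from funext e2]
    have h3 : HasDerivAt (fun y => - iteratedDeriv 2 F (-y)) (-(iteratedDeriv 3 F (-x) * -1)) x :=
      (((derivs hF).2.2 (-x)).comp x (hasDerivAt_neg x)).neg
    rw [h3.deriv]
    ring
  have n1 : ∀ x, nlAt F' x = - nlAt F (-x) := by
    intro x
    rw [nlAt, nlAt, e1, e2, neg_div]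
  have s1 : ∀ x, scAt κ F' x = scAt κ F (-x) := by
    intro x
    rw [scAt, scAt, e1, e3, n1]
    ring
  have hF3 : ContDiff ℝ 3 F' := (hF.comp contDiff_neg).neg
  have h1 := first (F := F') (a := -b) (b := -a) h hσ hF3 (fun x => by rw [e1]; exact hpos _)
    (by linarith) (by linarith) (by simp only [hF', neg_neg]; linarith) (fun x hx => by
      rw [s1]
      exact hQ (-x) ⟨by linarith [hx.2], by linarith [hx.1]⟩)
  rw [n1, e1, neg_neg] at h1
  have h2 : -a - -b = b - a := by ring
  have h3 : F' (-a) - F' (-b) = F b - F a := by simp only [hF', neg_neg]; ring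
  rw [h2, h3] at h1
  linarith

end Pool.Agent.OmegaStability.OS
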