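import Pool.Agent.Work.MP_814647_an.OS.Stmts

/-!
# Item SG: the functions sine and cosine of curvature `κ / 2`
-/

set_option autoImplicit false

open Set Filter Topology Function

noncomputable section

namespace Pool.Agent.OmegaStability.OS

open Dens

namespace I_SG

theorem lin : IsSG 0 (fun x => x) (fun _ => 1) where
  S0 := rfl
  G0 := rfl
  dS := fun x => hasDerivAt_id x
  dG := fun x => by simpa using hasDerivAt_const x (1 : ℝ)
  neg := fun _ => rfl
  neg' := fun _ => rfl
  add := fun x y => by ring
  sq := fun x => by norm_num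
  pos := fun x hx _ => hx

theorem trig (κ w : ℝ) (hw : 0 < w) (hw2 : w ≤ 1 / 2) (hκ : κ / 2 = w ^ 2) :
    IsSG κ (fun x => Real.sin (w * x) / w) (fun x => Real.cos (w * x)) where
  S0 := by simp
  G0 := by simp
  dS := fun x => by
    have h := ((hasDerivAt_id x).const_mul w).sin.div_const w
    refine h.congr_deriv ?_
    simp only [id_eq]
    field_simp
  dG := fun x => by
    have h := ((hasDerivAt_id x).const_mul w).cos
    refine h.congr_deriv ?_
    simp only [id_eq]
    rw [hκ]
    field_simp
  neg := fun x => by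
    rw [mul_neg, Real.sin_neg, neg_div]
  neg' := fun x => by
    rw [mul_neg, Real.cos_neg]
  add := fun x y => by
    rw [mul_add, Real.sin_add]
    field_simp
  sq := fun x => by
    rw [hκ]
    have h := Real.sin_sq_add_cos_sq (w * x)
    field_simp
    linarith
  pos := fun x hx hx2 => by
    apply div_pos _ hw
    apply Real.sin_pos_of_pos_of_lt_pi (by positivity)
    nlinarith [Real.pi_pos]

theorem hyp (κ w : ℝ) (hw : 0 < w) (hκ : κ / 2 = -w ^ 2) :
    IsSG κ (fun x => Real.sinh (w * x) / w) (fun x => Real.cosh (w * x)) where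
  S0 := by simp
  G0 := by simp
  dS := fun x => by
    have h := ((hasDerivAt_id x).const_mul w).sinh.div_const w
    refine h.congr_deriv ?_
    simp only [id_eq]
    field_simp
  dG := fun x => by
    have h := ((hasDerivAt_id x).const_mul w).cosh
    refine h.congr_deriv ?_
    simp only [id_eq]
    rw [hκ]
    field_simp
  neg := fun x => by
    rw [mul_neg, Real.sinh_neg, neg_div]
  neg' := fun x => by
    rw [mul_neg, Real.cosh_neg]
  add := fun x y => by
    rw [mul_add, Real.sinh_add]
    field_simp
  sq := fun x => by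
    rw [hκ]
    have h := Real.cosh_sq (w * x)
    field_simp
    linarith
  pos := fun x hx _ => by
    apply div_pos _ hw
    rw [Real.sinh_pos_iff]
    positivity

end I_SG

/-- SG. -/
theorem pr_SG : StSG := by
  intro κ hκ
  rcases lt_trichotomy κ 0 with h | h | h
  · refine ⟨_, _, I_SG.hyp κ (Real.sqrt (-κ / 2)) (Real.sqrt_pos.mpr (by linarith)) ?_⟩
    rw [Real.sq_sqrt (by linarith)]
    ring
  · subst h
    exact ⟨_, _, I_SG.lin⟩
  · refine ⟨_, _, I_SG.trig κ (Real.sqrt (κ / 2)) (Real.sqrt_pos.mpr (by linarith)) ?_ ?_⟩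
    · rw [show (1 / 2 : ℝ) = Real.sqrt (1 / 4) by
        rw [show (1 / 4 : ℝ) = (1 / 2) ^ 2 by norm_num, Real.sqrt_sq (by norm_num)]]
      exact Real.sqrt_le_sqrt (by linarith)
    · rw [Real.sq_sqrt (by linarith)]

end Pool.Agent.OmegaStability.OS
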