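import Pool.Agent.Work.MP_814647_an.OS.Stmts

/-!
# Block OS, item ScC: the Schwarzian case, contracting
-/

set_option autoImplicit false

open Set Filter Topology Function
open scoped Manifold ContDiff

noncomputable section

namespace Pool.Agent.OmegaStability.OS

open Dens

namespace I_ScC

/-- The comparison of the cotangents. -/
theorem cmp {S G : ℝ → ℝ} {δ c u v : ℝ} (hδ : 0 < δ)
    (H1 : ∀ x : ℝ, 0 < x → x + δ < 2 * Real.pi → G (x + δ) / S (x + δ) + c ≤ G x / S x)
    (H2 : ∀ x y : ℝ, 0 < x → x < y → y < 2 * Real.pi → G y / S y < G x / S x)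
    (hu : 0 < u) (huv : u + δ ≤ v) (hv : v < 2 * Real.pi) : G v / S v + c ≤ G u / S u := by
  have h1 := H1 u hu (by linarith)
  rcases huv.lt_or_eq with h | h
  · have h2 := H2 (u + δ) v (by linarith) h hv
    linarith
  · rw [← h]
    exact h1

end I_ScC

/-- Item ScC. -/
theorem pr_ScC (h1 : StSG) (h2 : StHil) (h3 : StCot) (h4 : StGau) : StScC := by
  intro κ hκ δ hδ
  obtain ⟨S, G, hSG⟩ := h1 κ hκ
  obtain ⟨c, w, W, hc, hw, hwW, H1, H2, H3⟩ := h3 κ S G hSG δ hδ
  obtain ⟨C, lam, hC, hlam, hlam1, hG⟩ := h4 (2 * c) w W (by positivity) hw hwW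
  refine ⟨C, lam, hC, hlam, hlam1, ?_⟩
  intro F l p r hF hd hp hlp hpr hrl hl hr hsc
  have hb : ∀ k, w ≤ G (p k - l k) / S (p k - l k) + G (r k - p k) / S (r k - p k) ∧
      G (p k - l k) / S (p k - l k) + G (r k - p k) / S (r k - p k) ≤ W := by
    intro k
    refine H3 (p k - l k) (r k - p k) ?_ ?_ ?_
    · linarith [hlp k]
    · linarith [hpr k]
    · linarith [hrl k]
  refine (hG (fun k => deriv (F k) (p k))
    (fun k => G (p k - l k) / S (p k - l k) + G (r k - p k) / S (r k - p k))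
    (fun k => hd k (p k)) (fun k => (hb k).1) (fun k => (hb k).2)).1 ?_
  intro k
  have hmono : StrictMono (F k) := strictMono_of_deriv_pos (hd k)
  have e1 : F k (l k) < p (k + 1) := by
    rw [← hp k]
    exact hmono (by linarith [hlp k])
  have e2 : p (k + 1) < F k (r k) := by
    rw [← hp k]
    exact hmono (by linarith [hpr k])
  have h5 := h2 κ S G hSG 1 (Or.inl rfl) (F k) (l k) (p k) (r k) (hF k) (hd k)
    (by linarith [hlp k]) (by linarith [hpr k]) (by linarith [hrl k])
    (by linarith [hl k, hr k, hrl (k + 1)])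
    (fun x hx => by rw [one_mul]; exact hsc k x hx)
  rw [hp k, one_mul] at h5
  have h6 : G (p (k + 1) - l (k + 1)) / S (p (k + 1) - l (k + 1)) + c ≤
      G (p (k + 1) - F k (l k)) / S (p (k + 1) - F k (l k)) :=
    I_ScC.cmp hδ H1 H2 (by linarith) (by linarith [hl k])
      (by linarith [hrl (k + 1), hpr (k + 1)])
  have h7 : G (r (k + 1) - p (k + 1)) / S (r (k + 1) - p (k + 1)) + c ≤
      G (F k (r k) - p (k + 1)) / S (F k (r k) - p (k + 1)) :=
    I_ScC.cmp hδ H1 H2 (by linarith) (by linarith [hr k])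
      (by linarith [hrl (k + 1), hlp (k + 1)])
  have h8 := mul_le_mul_of_nonneg_left (add_le_add h6 h7) (hd k (p k)).le
  show deriv (F k) (p k) * (G (p (k + 1) - l (k + 1)) / S (p (k + 1) - l (k + 1)) +
    G (r (k + 1) - p (k + 1)) / S (r (k + 1) - p (k + 1)) + 2 * c) ≤
      G (p k - l k) / S (p k - l k) + G (r k - p k) / S (r k - p k)
  calc deriv (F k) (p k) * (G (p (k + 1) - l (k + 1)) / S (p (k + 1) - l (k + 1)) +
        G (r (k + 1) - p (k + 1)) / S (r (k + 1) - p (k + 1)) + 2 * c)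
      = deriv (F k) (p k) * (G (p (k + 1) - l (k + 1)) / S (p (k + 1) - l (k + 1)) + c +
        (G (r (k + 1) - p (k + 1)) / S (r (k + 1) - p (k + 1)) + c)) := by ring
    _ ≤ _ := h8
    _ ≤ _ := by linarith

end Pool.Agent.OmegaStability.OS
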