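import Pool.Agent.Work.MP_814647_an.OS.Stmts

/-!
# Item Spd: bounded speeds
-/

set_option autoImplicit false

open Set Filter Topology Function

noncomputable section

namespace Pool.Agent.OmegaStability.OS

namespace I_Spd

lemma unroll (a v : ℕ → ℝ) (hv : ∀ k, v (k + 1) = a k * v k + 1) (n : ℕ) :
    v n = (∏ i ∈ Finset.range n, a i) * v 0 +
      ∑ j ∈ Finset.range n, ∏ i ∈ Finset.range (n - 1 - j), a (j + 1 + i) := by
  induction n with
  | zero => simp
  | succ n ih =>
    rw [hv, ih, Finset.prod_range_succ, Finset.sum_range_succ]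
    have h1 : ∑ j ∈ Finset.range n, ∏ i ∈ Finset.range (n + 1 - 1 - j), a (j + 1 + i) =
        a n * ∑ j ∈ Finset.range n, ∏ i ∈ Finset.range (n - 1 - j), a (j + 1 + i) := by
      rw [Finset.mul_sum]
      refine Finset.sum_congr rfl fun j hj => ?_
      have hj' := Finset.mem_range.1 hj
      rw [show n + 1 - 1 - j = (n - 1 - j) + 1 by omega, Finset.prod_range_succ,
        show j + 1 + (n - 1 - j) = n by omega, mul_comm]
    rw [h1, show n + 1 - 1 - n = 0 by omega, Finset.prod_range_zero]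
    ring

lemma unroll' (a v : ℕ → ℝ) (ha : ∀ k, 0 < a k) (hv : ∀ k, v (k + 1) = a k * v k + 1) (n : ℕ) :
    v 0 = v n / (∏ i ∈ Finset.range n, a i) -
      ∑ j ∈ Finset.range n, 1 / (∏ i ∈ Finset.range (j + 1), a i) := by
  induction n with
  | zero => simp
  | succ n ih =>
    have hP : 0 < ∏ i ∈ Finset.range n, a i := Finset.prod_pos fun i _ => ha i
    have hP' : 0 < ∏ i ∈ Finset.range (n + 1), a i := Finset.prod_pos fun i _ => ha i
    rw [Finset.sum_range_succ, hv]
    have e : (a n * v n + 1) / (∏ i ∈ Finset.range (n + 1), a i) =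
        v n / (∏ i ∈ Finset.range n, a i) + 1 / (∏ i ∈ Finset.range (n + 1), a i) := by
      rw [add_div, Finset.prod_range_succ]
      congr 1
      have := (ha n).ne'
      field_simp
    rw [e]
    linarith [ih]

lemma geom (lam : ℝ) (h0 : 0 < lam) (h1 : lam < 1) (n : ℕ) :
    ∑ j ∈ Finset.range n, lam ^ j ≤ 1 / (1 - lam) := by
  rw [geom_sum_eq h1.ne]
  have h2 : (lam ^ n - 1) / (lam - 1) = (1 - lam ^ n) / (1 - lam) := by
    rw [← neg_div_neg_eq]
    congr 1 <;> ring
  rw [h2]
  have : 0 < 1 - lam := by linarith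
  have h3 : 0 < lam ^ n := pow_pos h0 n
  exact div_le_div_of_nonneg_right (by linarith) this.le

lemma limit {C lam x B : ℝ} (h0 : 0 < lam) (h1 : lam < 1) {N : ℕ} (hN : 0 < N)
    (h : ∀ m : ℕ, x ≤ C * lam ^ (m * N) * x + B) : x ≤ B := by
  have hl : Tendsto (fun m : ℕ => lam ^ (m * N)) atTop (𝓝 0) :=
    (tendsto_pow_atTop_nhds_zero_of_lt_one h0.le h1).comp
      (tendsto_atTop_mono (fun m => Nat.le_mul_of_pos_right m hN) tendsto_id)
  have h2 : Tendsto (fun m : ℕ => C * lam ^ (m * N) * x + B) atTop (𝓝 (C * 0 * x + B)) :=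
    ((hl.const_mul C).mul_const x).add_const B
  have := ge_of_tendsto' h2 h
  simpa using this

end I_Spd

open I_Spd in
/-- Item Spd. -/
theorem pr_Spd : StSpd := by
  intro C lam hC h0 h1 N a v hN ha _ hvp hv hcase
  have hper : ∀ m, v (m * N) = v 0 := by
    intro m
    induction m with
    | zero => rw [Nat.zero_mul]
    | succ m ih => rw [Nat.succ_mul, hvp, ih]
  refine limit (C := C) h0 h1 hN fun m => ?_
  have hg : ∀ n, ∑ j ∈ Finset.range n, C * lam ^ j ≤ C / (1 - lam) := by
    intro n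
    rw [← Finset.mul_sum, div_eq_mul_one_div]
    exact mul_le_mul_of_nonneg_left (geom lam h0 h1 n) hC.le
  rcases hcase with hc | hc
  · have e := unroll a v hv (m * N)
    rw [hper] at e
    have hP : 0 < ∏ i ∈ Finset.range (m * N), a i := Finset.prod_pos fun i _ => ha i
    have hP1 : ∏ i ∈ Finset.range (m * N), a i ≤ C * lam ^ (m * N) := by
      have := hc 0 (m * N)
      simpa using this
    have hS0 : 0 ≤ ∑ j ∈ Finset.range (m * N),
        ∏ i ∈ Finset.range (m * N - 1 - j), a (j + 1 + i) :=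
      Finset.sum_nonneg fun j _ => Finset.prod_nonneg fun i _ => (ha _).le
    have hS : ∑ j ∈ Finset.range (m * N),
        ∏ i ∈ Finset.range (m * N - 1 - j), a (j + 1 + i) ≤ C / (1 - lam) := by
      refine le_trans ?_ (hg (m * N))
      rw [← Finset.sum_range_reflect (fun j => C * lam ^ j)]
      exact Finset.sum_le_sum fun j _ => hc _ _
    calc |v 0| = |(∏ i ∈ Finset.range (m * N), a i) * v 0 + ∑ j ∈ Finset.range (m * N),
          ∏ i ∈ Finset.range (m * N - 1 - j), a (j + 1 + i)| := by rw [← e]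
      _ ≤ |(∏ i ∈ Finset.range (m * N), a i) * v 0| + |∑ j ∈ Finset.range (m * N),
          ∏ i ∈ Finset.range (m * N - 1 - j), a (j + 1 + i)| := abs_add_le _ _
      _ = (∏ i ∈ Finset.range (m * N), a i) * |v 0| + ∑ j ∈ Finset.range (m * N),
          ∏ i ∈ Finset.range (m * N - 1 - j), a (j + 1 + i) := by
          rw [abs_mul, abs_of_pos hP, abs_of_nonneg hS0]
      _ ≤ C * lam ^ (m * N) * |v 0| + C / (1 - lam) :=
          add_le_add (mul_le_mul_of_nonneg_right hP1 (abs_nonneg _)) hS
  · have e := unroll' a v ha hv (m * N)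
    rw [hper] at e
    have hP : ∀ n, 0 < ∏ i ∈ Finset.range n, a i := fun n => Finset.prod_pos fun i _ => ha i
    have hP1 : ∀ n, 1 / (∏ i ∈ Finset.range n, a i) ≤ C * lam ^ n := by
      intro n
      rw [div_le_iff₀ (hP n)]
      have := hc 0 n
      simpa using this
    have hS0 : 0 ≤ ∑ j ∈ Finset.range (m * N), 1 / (∏ i ∈ Finset.range (j + 1), a i) :=
      Finset.sum_nonneg fun j _ => (div_pos one_pos (hP _)).le
    have hS : ∑ j ∈ Finset.range (m * N), 1 / (∏ i ∈ Finset.range (j + 1), a i) ≤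
        C / (1 - lam) := by
      refine le_trans (Finset.sum_le_sum fun j _ => ?_) (hg (m * N))
      refine (hP1 (j + 1)).trans (mul_le_mul_of_nonneg_left ?_ hC.le)
      exact pow_le_pow_of_le_one h0.le h1.le (Nat.le_succ j)
    calc |v 0| = |v 0 / (∏ i ∈ Finset.range (m * N), a i) -
          ∑ j ∈ Finset.range (m * N), 1 / (∏ i ∈ Finset.range (j + 1), a i)| := by rw [← e]
      _ ≤ |v 0 / (∏ i ∈ Finset.range (m * N), a i)| +
          |∑ j ∈ Finset.range (m * N), 1 / (∏ i ∈ Finset.range (j + 1), a i)| := abs_sub _ _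
      _ = 1 / (∏ i ∈ Finset.range (m * N), a i) * |v 0| +
          ∑ j ∈ Finset.range (m * N), 1 / (∏ i ∈ Finset.range (j + 1), a i) := by
          rw [abs_div, abs_of_pos (hP _), abs_of_nonneg hS0]
          ring
      _ ≤ C * lam ^ (m * N) * |v 0| + C / (1 - lam) :=
          add_le_add (mul_le_mul_of_nonneg_right (hP1 _) (abs_nonneg _)) hS

end Pool.Agent.OmegaStability.OS
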