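import Pool.Agent.Work.MP_814647_an.OS.Stmts2

/-!
# Item Uni of block OS
-/

set_option autoImplicit false

open Set Filter Topology Function
open scoped Manifold ContDiff

noncomputable section

namespace Pool.Agent.OmegaStability.OS

open Dens

universe u v

namespace I_Uni

/-- A smaller parameter. -/
theorem ext_mono {L : ℕ → ℝ → ℝ} {N : ℕ} {τ τ' Λ : ℝ} (h : Ext L N τ Λ) (hle : τ' ≤ τ) :
    Ext L N τ' Λ where
  pos := h.pos
  per := h.per
  smooth := h.smooth
  dpos := h.dpos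
  dle := h.dle
  deg := h.deg
  zero := h.zero
  noT := fun t ht => h.noT t (ht.trans_le hle)
  noN := fun t ht => h.noN t (ht.trans_le hle)

/-- The orbit of a point of the circle of `y` under the rotation by `t` more. -/
theorem orbit {M : Type u} [MulAction Circle M] {f : M → M} {ℒ : M → ℝ → ℝ} (hL : NLift f ℒ)
    (s t θ : ℝ) (y : M) (i : ℕ) :
    (rotated f (s + t))^[i] (Circle.exp θ • y) =
      Circle.exp (orb (fun j => ℒ ((rotated f s)^[j] y)) t i θ) • (rotated f s)^[i] y := by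
  induction i with
  | zero => rfl
  | succ i ih =>
    rw [Function.iterate_succ_apply', ih, Function.iterate_succ_apply']
    have h1 : ∀ (η : ℝ) (x : M), rotated f (s + t) (Circle.exp η • x) =
        Circle.exp (ℒ x η + t) • rotated f s x := by
      intro η x
      unfold rotated
      rw [hL.map, smul_smul, smul_smul, ← Circle.exp_add, ← Circle.exp_add]
      congr 2
      ring
    rw [h1]
    rfl

/-- The product over a period starting at `f y` is the product starting at `y`. -/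
theorem prod_shift {M : Type u} (f : M → M) (Dm : M → ℝ) (hpos : ∀ y, 0 < Dm y) (y : M) (n : ℕ)
    (hy : f^[n] y = y) :
    ∏ i ∈ Finset.range n, Dm (f^[i] (f y)) = ∏ i ∈ Finset.range n, Dm (f^[i] y) := by
  have h1 := Finset.prod_range_succ (fun i => Dm (f^[i] y)) n
  have h2 := Finset.prod_range_succ' (fun i => Dm (f^[i] y)) n
  rw [h1, hy] at h2
  simp only [Function.iterate_succ_apply, Function.iterate_zero, id_eq] at h2
  exact (mul_right_cancel₀ (hpos y).ne' h2).symm

theorem prod_iter {M : Type u} (f : M → M) (Dm : M → ℝ) (hpos : ∀ y, 0 < Dm y) (y : M) (n : ℕ)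
    (hy : f^[n] y = y) (i : ℕ) : f^[n] (f^[i] y) = f^[i] y ∧
    ∏ k ∈ Finset.range n, Dm (f^[k] (f^[i] y)) = ∏ k ∈ Finset.range n, Dm (f^[k] y) := by
  induction i with
  | zero => exact ⟨hy, rfl⟩
  | succ i ih =>
    rw [Function.iterate_succ_apply' f i y]
    refine ⟨?_, ?_⟩
    · rw [← Function.iterate_succ_apply, Function.iterate_succ_apply', ih.1]
    · rw [prod_shift f Dm hpos _ n ih.1, ih.2]

/-- The main step, for both kinds of periodic points. -/
theorem core {M : Type u} [MulAction Circle M] {f : M → M} {ℒ : M → ℝ → ℝ} {Dm : M → ℝ}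
    (hL : NLift f ℒ) (hpos : ∀ y, 0 < Dm y)
    (hder : ∀ y θ, deriv (ℒ y) θ = Dm (Circle.exp θ • y)) (Q : ℝ → Prop) (s t θ : ℝ) (y : M)
    (n : ℕ) (hy : (rotated f s)^[n] y = y)
    (hθ : orb (fun j => ℒ ((rotated f s)^[j] y)) t n θ = θ)
    (hQ : Q (∏ i ∈ Finset.range n, deriv (ℒ ((rotated f s)^[i] y))
      (orb (fun j => ℒ ((rotated f s)^[j] y)) t i θ))) (i : ℕ) :
    (rotated f (s + t))^[n] (Circle.exp (orb (fun j => ℒ ((rotated f s)^[j] y)) t i θ) •
        (rotated f s)^[i] y) =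
      Circle.exp (orb (fun j => ℒ ((rotated f s)^[j] y)) t i θ) • (rotated f s)^[i] y ∧
    Q (∏ k ∈ Finset.range n, Dm ((rotated f (s + t))^[k]
      (Circle.exp (orb (fun j => ℒ ((rotated f s)^[j] y)) t i θ) • (rotated f s)^[i] y))) := by
  have h0 : (rotated f (s + t))^[n] (Circle.exp θ • y) = Circle.exp θ • y := by
    rw [orbit hL, hθ, hy]
  have h1 := prod_iter (rotated f (s + t)) Dm hpos (Circle.exp θ • y) n h0 i
  rw [← orbit hL]
  refine ⟨h1.1, ?_⟩
  rw [h1.2]
  have h2 : ∏ k ∈ Finset.range n, Dm ((rotated f (s + t))^[k] (Circle.exp θ • y)) =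
      ∏ i ∈ Finset.range n, deriv (ℒ ((rotated f s)^[i] y))
        (orb (fun j => ℒ ((rotated f s)^[j] y)) t i θ) := by
    refine Finset.prod_congr rfl fun k _ => ?_
    rw [orbit hL, hder]
  rw [h2]
  exact hQ

end I_Uni

open I_Uni

theorem pr_Uni (hCls : StCls.{u}) (hOne : StOne.{u}) (hKC : StKC) (hKE : StKE) : StUni.{u} := by
  intro m M _ _ _ _ _ hact hfree r hr f ℒ Dm τ Λ hF h3 hOS
  obtain ⟨τ', hτ', hP, hP'⟩ := hOS
  obtain ⟨K, hK, hKat⟩ := hOne M f ℒ hF.lift h3 _ 1 hP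
  obtain ⟨K', hK', hKat'⟩ := hOne M f ℒ hF.lift h3 _ (-1) hP'
  have hτ₁ : 0 < min τ τ' / 2 := by
    have := lt_min hF.tau hτ'
    linarith
  set τ₁ : ℝ := min τ τ' / 2 with hτ₁def
  have hle1 : τ₁ ≤ τ / 2 := by
    rw [hτ₁def]
    have := min_le_left τ τ'
    linarith
  have hle2 : τ₁ ≤ τ' / 2 := by
    rw [hτ₁def]
    have := min_le_right τ τ'
    linarith
  obtain ⟨C1, l1, hC1, hl1, hl1', hc⟩ := hKC K τ₁ Λ hK hτ₁
  obtain ⟨C2, l2, hC2, hl2, hl2', he⟩ := hKE K' τ₁ Λ hK' hτ₁ hF.lam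
  have hd0 : ∀ y : M, deriv (ℒ y) 0 = Dm y := by
    intro y
    rw [hF.der, Circle.exp_zero, one_smul]
  refine ⟨max C1 C2, max l1 l2, τ₁, lt_max_of_lt_left hC1, lt_max_of_lt_left hl1,
    max_lt hl1' hl2', hτ₁, ?_⟩
  intro s hs y
  have hs1 : |s| < τ := by linarith [hF.tau]
  have hsum : ∀ t : ℝ, |t| < τ₁ → |s + t| < τ' := by
    intro t ht
    calc |s + t| ≤ |s| + |t| := abs_add_le s t
      _ < τ' := by linarith
  have hpow1 : ∀ n : ℕ, C1 * l1 ^ n ≤ max C1 C2 * max l1 l2 ^ n := fun n =>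
    mul_le_mul (le_max_left _ _) (pow_le_pow_left₀ hl1.le (le_max_left _ _) n) (by positivity)
      (le_trans hC1.le (le_max_left _ _))
  have hpow2 : ∀ n : ℕ, C2 * l2 ^ n ≤ max C1 C2 * max l1 l2 ^ n := fun n =>
    mul_le_mul (le_max_right _ _) (pow_le_pow_left₀ hl2.le (le_max_right _ _) n) (by positivity)
      (le_trans hC1.le (le_max_left _ _))
  constructor
  · intro hy n
    obtain ⟨N, hN, hyN, hprod⟩ := (hCls m M hact hfree r hr f ℒ Dm τ Λ hF s y).1.1 hy
    have hext := ext_mono (hF.ext s y N hs1 hN hyN) (τ' := τ₁) (by linarith)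
    have h1 := hc (fun j => ℒ ((rotated f s)^[j] y)) N hext (fun j => h3 _)
      (by simpa only [hd0] using hprod) ?_ n
    · simp only [hd0] at h1
      exact h1.trans (hpow1 n)
    · intro t ht θ hθ hQ i
      apply hKat
      refine ⟨s + t, hsum t ht, ?_⟩
      rw [(hCls m M hact hfree r hr f ℒ Dm τ Λ hF (s + t) _).1]
      exact ⟨N, hN, core hF.lift hF.pos hF.der (fun c => c < 1) s t θ y N hyN hθ hQ i⟩
  · intro hy n
    obtain ⟨N, hN, hyN, hprod⟩ := (hCls m M hact hfree r hr f ℒ Dm τ Λ hF s y).2.1 hy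
    have hext := ext_mono (hF.ext s y N hs1 hN hyN) (τ' := τ₁) (by linarith)
    have h1 := he (fun j => ℒ ((rotated f s)^[j] y)) N hext (fun j => h3 _)
      (by simpa only [hd0] using hprod) ?_ n
    · simp only [hd0] at h1
      refine h1.trans ?_
      refine mul_le_mul_of_nonneg_right (hpow2 n) ?_
      exact Finset.prod_nonneg fun i _ => (hF.pos _).le
    · intro t ht θ hθ hQ i
      apply hKat'
      refine ⟨s + t, hsum t ht, ?_⟩
      rw [(hCls m M hact hfree r hr f ℒ Dm τ Λ hF (s + t) _).2]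
      exact ⟨N, hN, core hF.lift hF.pos hF.der (fun c => 1 < c) s t θ y N hyN hθ hQ i⟩

end Pool.Agent.OmegaStability.OS
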