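import Pool.Agent.Work.MP_814647_an.OS.I_One
import Pool.Agent.Work.MP_814647_an.OS.I_Uni

/-!
# One-sidedness along every periodic orbit of circles (the kind may depend on the orbit)
-/

set_option autoImplicit false

open Set Filter Topology Function
open scoped Manifold ContDiff

noncomputable section

namespace Pool.Agent.OmegaStability

/-- `f` is one-sided on the set `P` with the sign `σ` and the parameter `κ`: at all points of `P`
the nonlinearity of `f` along the circles is nonnegative, or at all of them it is nonpositive, or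
at all of them the Schwarzian `schwarzian κ` has the sign `σ` or vanishes. -/
def OneSidedAt {M : Type*} [MulAction Circle M] (κ : ℝ) (f : M → M) (P : Set M) (σ : ℝ) : Prop :=
  (∀ y ∈ P, ∀ L, IsCircleLift f y L → 0 ≤ nonlinearity L) ∨
  (∀ y ∈ P, ∀ L, IsCircleLift f y L → nonlinearity L ≤ 0) ∨
  ∀ y ∈ P, ∀ L, IsCircleLift f y L → 0 ≤ σ * schwarzian κ L

/-- The union of the circles over the forward orbit of the circle of `y₀`. -/
def circlesOver {M : Type*} [MulAction Circle M] (f : M → M) (y₀ : M) : Set M :=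
  {y | ∃ (k : ℕ) (z : Circle), y = z • f^[k] y₀}

/-- For every `y₀`, `f` is one-sided on the circle-contracting periodic points of its small
rotations which lie over the orbit of the circle of `y₀`, and (with the opposite sign of the
Schwarzian) on the circle-expanding ones. The kind of one-sidedness may depend on `y₀`. -/
def OneSidedAlongOrbits (E : Type*) [NormedAddCommGroup E] [NormedSpace ℝ E]
    {M : Type*} [MetricSpace M] [ChartedSpace E M] [MulAction Circle M] (f : M → M) : Prop :=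
  ∃ τ κ κ' : ℝ, 0 < τ ∧ κ ≤ 1 / 2 ∧ κ' ≤ 1 / 2 ∧ ∀ y₀ : M,
    OneSidedAt κ f
      {y | y ∈ circlesOver f y₀ ∧ ∃ t : ℝ, |t| < τ ∧ y ∈ CircleContracting E (rotated f t)} 1 ∧
    OneSidedAt κ' f
      {y | y ∈ circlesOver f y₀ ∧ ∃ t : ℝ, |t| < τ ∧ y ∈ CircleExpanding E (rotated f t)} (-1)

end Pool.Agent.OmegaStability

namespace Pool.Agent.OmegaStability.OS

open Dens

universe u v

/-- Item UniP: as Uni, with `OneSidedAlongOrbits`. The constants of KC and KE are the largest ones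
of the three kinds `up`, `down`, `sch κ`; for a circle-contracting `y` of `rotated f s` the kind is
the one of `y₀ = y`, and the points `exp (orb L t i θ) • (rotated f s)^[i] y` lie over the orbit of
the circle of `y`. -/
def StUniP : Prop :=
  ∀ (m : ℕ) (M : Type u) [MetricSpace M] [CompactSpace M]
    [ChartedSpace (EuclideanSpace ℝ (Fin m)) M] [IsManifold (𝓡 m) ∞ M] [MulAction Circle M],
    SmoothCircleAction (EuclideanSpace ℝ (Fin m)) M →
    (∀ (z : Circle) (y : M), z • y = y → z = 1) → ∀ (r : ℕ∞), 1 ≤ r →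
    ∀ (f : Diffeo (EuclideanSpace ℝ (Fin m)) M r) (ℒ : M → ℝ → ℝ) (Dm : M → ℝ) (τ Λ : ℝ),
    FibData f ℒ Dm τ Λ → (∀ y, ContDiff ℝ 3 (ℒ y)) →
    OneSidedAlongOrbits (EuclideanSpace ℝ (Fin m)) f →
    ∃ C lam τ₁ : ℝ, Unif m f Dm C lam τ₁

namespace I_UniP

/-- The posted hypothesis is a special case. -/
theorem of_oneSided {E : Type*} [NormedAddCommGroup E] [NormedSpace ℝ E]
    {M : Type*} [MetricSpace M] [ChartedSpace E M] [MulAction Circle M] {f : M → M}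
    (h : OneSidedNonlinearity E f) : OneSidedAlongOrbits E f := by
  obtain ⟨τ, hτ, h1, h2⟩ := h
  have key : ∀ (P : Set M) (σ : ℝ), OneSidedOn f P σ →
      ∃ κ : ℝ, κ ≤ 1 / 2 ∧ ∀ Q : Set M, Q ⊆ P → OneSidedAt κ f Q σ := by
    intro P σ hP
    rcases hP with h | h | ⟨κ, hκ, h⟩
    · exact ⟨0, by norm_num, fun Q hQ => Or.inl fun y hy => h y (hQ hy)⟩
    · exact ⟨0, by norm_num, fun Q hQ => Or.inr (Or.inl fun y hy => h y (hQ hy))⟩
    · exact ⟨κ, hκ, fun Q hQ => Or.inr (Or.inr fun y hy => h y (hQ hy))⟩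
  obtain ⟨κ, hκ, h3⟩ := key _ _ h1
  obtain ⟨κ', hκ', h4⟩ := key _ _ h2
  exact ⟨τ, κ, κ', hτ, hκ, hκ', fun y₀ => ⟨h3 _ fun y hy => hy.2, h4 _ fun y hy => hy.2⟩⟩

/-- From the notion to the kinds. -/
theorem kind {M : Type u} [MulAction Circle M] {f : M → M} {ℒ : M → ℝ → ℝ} (hL : NLift f ℒ)
    (h3 : ∀ y, ContDiff ℝ 3 (ℒ y)) {κ : ℝ} (P : Set M) (σ : ℝ) (hP : OneSidedAt κ f P σ) :
    ∃ K : Kd, (K = Kd.up ∨ K = Kd.down ∨ K = Kd.sch κ) ∧
      ∀ (y : M) (θ : ℝ), Circle.exp θ • y ∈ P → K.at σ (ℒ y) θ := by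
  have hl := I_One.lift hL fun y => (h3 y).continuous
  rcases hP with h1 | h1 | h1
  · refine ⟨Kd.up, Or.inl rfl, fun y θ hy => ?_⟩
    have := h1 _ hy _ (hl y θ)
    rwa [I_One.nl] at this
  · refine ⟨Kd.down, Or.inr (Or.inl rfl), fun y θ hy => ?_⟩
    have := h1 _ hy _ (hl y θ)
    rwa [I_One.nl] at this
  · refine ⟨Kd.sch κ, Or.inr (Or.inr rfl), fun y θ hy => ?_⟩
    have := h1 _ hy _ (hl y θ)
    rwa [I_One.sc] at this

theorem iter_mem {M : Type u} [MulAction Circle M] {f : M → M} {ℒ : M → ℝ → ℝ} (hL : NLift f ℒ)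
    (s : ℝ) (y : M) (i : ℕ) : ∃ η : ℝ, (rotated f s)^[i] y = Circle.exp η • f^[i] y := by
  induction i with
  | zero => exact ⟨0, by simp⟩
  | succ i ih =>
    obtain ⟨η, hη⟩ := ih
    refine ⟨s + ℒ (f^[i] y) η, ?_⟩
    rw [Function.iterate_succ_apply', Function.iterate_succ_apply', hη]
    unfold rotated
    rw [hL.map, smul_smul, ← Circle.exp_add]

/-- The best constants for finitely many kinds. -/
theorem three {A : ℝ → ℝ → Kd → Prop} {κ : ℝ}
    (hmono : ∀ C C' l l' K, 0 < C → 0 < l → C ≤ C' → l ≤ l' → A C l K → A C' l' K)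
    (h : ∀ K : Kd, (K = Kd.up ∨ K = Kd.down ∨ K = Kd.sch κ) →
      ∃ C lam : ℝ, 0 < C ∧ 0 < lam ∧ lam < 1 ∧ A C lam K) :
    ∃ C lam : ℝ, 0 < C ∧ 0 < lam ∧ lam < 1 ∧
      ∀ K : Kd, (K = Kd.up ∨ K = Kd.down ∨ K = Kd.sch κ) → A C lam K := by
  obtain ⟨C1, l1, hC1, hl1, hl1', h1⟩ := h Kd.up (Or.inl rfl)
  obtain ⟨C2, l2, hC2, hl2, hl2', h2⟩ := h Kd.down (Or.inr (Or.inl rfl))
  obtain ⟨C3, l3, hC3, hl3, hl3', h3⟩ := h (Kd.sch κ) (Or.inr (Or.inr rfl))
  refine ⟨max C1 (max C2 C3), max l1 (max l2 l3), lt_max_of_lt_left hC1, lt_max_of_lt_left hl1,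
    max_lt hl1' (max_lt hl2' hl3'), ?_⟩
  rintro K (rfl | rfl | rfl)
  · exact hmono _ _ _ _ _ hC1 hl1 (le_max_left _ _) (le_max_left _ _) h1
  · exact hmono _ _ _ _ _ hC2 hl2 ((le_max_left _ _).trans (le_max_right _ _))
      ((le_max_left _ _).trans (le_max_right _ _)) h2
  · exact hmono _ _ _ _ _ hC3 hl3 ((le_max_right _ _).trans (le_max_right _ _))
      ((le_max_right _ _).trans (le_max_right _ _)) h3

/-- The estimate of KC for the kind `K`. -/
def AC (τ Λ C lam : ℝ) (K : Kd) : Prop :=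
  ∀ (L : ℕ → ℝ → ℝ) (N : ℕ), Ext L N τ Λ → (∀ j, ContDiff ℝ 3 (L j)) →
    ∏ i ∈ Finset.range N, deriv (L i) 0 < 1 →
    (∀ s, |s| < τ → ∀ θ, orb L s N θ = θ →
      ∏ i ∈ Finset.range N, deriv (L i) (orb L s i θ) < 1 →
        ∀ i, K.at 1 (L i) (orb L s i θ)) →
    ∀ n, ∏ i ∈ Finset.range n, deriv (L i) 0 ≤ C * lam ^ n

/-- The estimate of KE for the kind `K`. -/
def AE (τ Λ C lam : ℝ) (K : Kd) : Prop :=
  ∀ (L : ℕ → ℝ → ℝ) (N : ℕ), Ext L N τ Λ → (∀ j, ContDiff ℝ 3 (L j)) →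
    1 < ∏ i ∈ Finset.range N, deriv (L i) 0 →
    (∀ s, |s| < τ → ∀ θ, orb L s N θ = θ →
      1 < ∏ i ∈ Finset.range N, deriv (L i) (orb L s i θ) →
        ∀ i, K.at (-1) (L i) (orb L s i θ)) →
    ∀ n, 1 ≤ C * lam ^ n * ∏ i ∈ Finset.range n, deriv (L i) 0

theorem pow_le {C C' l l' : ℝ} (hC : 0 < C) (hl : 0 < l) (h1 : C ≤ C') (h2 : l ≤ l') (n : ℕ) :
    C * l ^ n ≤ C' * l' ^ n :=
  mul_le_mul h1 (pow_le_pow_left₀ hl.le h2 n) (by positivity) (hC.le.trans h1)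

end I_UniP

open I_UniP I_Uni

theorem pr_UniP (hCls : StCls.{u}) (hKC : StKC) (hKE : StKE) : StUniP.{u} := by
  intro m M _ _ _ _ _ hact hfree r hr f ℒ Dm τ Λ hF h3 hOS
  obtain ⟨τ', κ, κ', hτ', hκ, hκ', hone⟩ := hOS
  have hτ₁ : 0 < min τ τ' / 2 := by
    have := lt_min hF.tau hτ'
    linarith
  set τ₁ : ℝ := min τ τ' / 2 with hτ₁def
  have hle1 : τ₁ ≤ τ / 2 := by
    rw [hτ₁def]
    have := min_le_left τ τ'
    linarith
  have hle2 : τ₁ ≤ τ' / 2 := by
    rw [hτ₁def]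
    have := min_le_right τ τ'
    linarith
  have hok : ∀ {κ : ℝ}, κ ≤ 1 / 2 → ∀ K : Kd, (K = Kd.up ∨ K = Kd.down ∨ K = Kd.sch κ) →
      K.ok := by
    rintro κ hκ K (rfl | rfl | rfl)
    · trivial
    · trivial
    · exact hκ
  obtain ⟨C1, l1, hC1, hl1, hl1', hc⟩ := three (A := AC τ₁ Λ) (κ := κ)
    (fun C C' l l' K hC hl hCC hll h L N hext h3' hp hat n =>
      (h L N hext h3' hp hat n).trans (pow_le hC hl hCC hll n))
    (fun K hK => hKC K τ₁ Λ (hok hκ K hK) hτ₁)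
  obtain ⟨C2, l2, hC2, hl2, hl2', he⟩ := three (A := AE τ₁ Λ) (κ := κ')
    (fun C C' l l' K hC hl hCC hll h L N hext h3' hp hat n =>
      (h L N hext h3' hp hat n).trans (mul_le_mul_of_nonneg_right (pow_le hC hl hCC hll n)
        (Finset.prod_nonneg fun i _ => (hext.dpos i 0).le)))
    (fun K hK => hKE K τ₁ Λ (hok hκ' K hK) hτ₁ hF.lam)
  have hd0 : ∀ y : M, deriv (ℒ y) 0 = Dm y := by
    intro y
    rw [hF.der, Circle.exp_zero, one_smul]
  refine ⟨max C1 C2, max l1 l2, τ₁, lt_max_of_lt_left hC1, lt_max_of_lt_left hl1,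
    max_lt hl1' hl2', hτ₁, ?_⟩
  intro s hs y
  have hs1 : |s| < τ := by linarith [hF.tau]
  have hsum : ∀ t : ℝ, |t| < τ₁ → |s + t| < τ' := by
    intro t ht
    calc |s + t| ≤ |s| + |t| := abs_add_le s t
      _ < τ' := by linarith
  obtain ⟨hyc, hye⟩ := hone y
  obtain ⟨K, hK, hKat⟩ := kind hF.lift h3 _ 1 hyc
  obtain ⟨K', hK', hKat'⟩ := kind hF.lift h3 _ (-1) hye
  have hover : ∀ (i : ℕ) (θ : ℝ), Circle.exp θ • (rotated f s)^[i] y ∈ circlesOver f y := by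
    intro i θ
    obtain ⟨η, hη⟩ := iter_mem hF.lift s y i
    exact ⟨i, Circle.exp θ * Circle.exp η, by rw [hη, smul_smul]⟩
  constructor
  · intro hy n
    obtain ⟨N, hN, hyN, hprod⟩ := (hCls m M hact hfree r hr f ℒ Dm τ Λ hF s y).1.1 hy
    have hext := ext_mono (hF.ext s y N hs1 hN hyN) (τ' := τ₁) (by linarith)
    have h1 := hc K hK (fun j => ℒ ((rotated f s)^[j] y)) N hext (fun j => h3 _)
      (by simpa only [hd0] using hprod) ?_ n
    · simp only [hd0] at h1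
      exact h1.trans (pow_le hC1 hl1 (le_max_left _ _) (le_max_left _ _) n)
    · intro t ht θ hθ hQ i
      apply hKat
      refine ⟨hover i _, s + t, hsum t ht, ?_⟩
      rw [(hCls m M hact hfree r hr f ℒ Dm τ Λ hF (s + t) _).1]
      exact ⟨N, hN, core hF.lift hF.pos hF.der (fun c => c < 1) s t θ y N hyN hθ hQ i⟩
  · intro hy n
    obtain ⟨N, hN, hyN, hprod⟩ := (hCls m M hact hfree r hr f ℒ Dm τ Λ hF s y).2.1 hy
    have hext := ext_mono (hF.ext s y N hs1 hN hyN) (τ' := τ₁) (by linarith)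
    have h1 := he K' hK' (fun j => ℒ ((rotated f s)^[j] y)) N hext (fun j => h3 _)
      (by simpa only [hd0] using hprod) ?_ n
    · simp only [hd0] at h1
      refine h1.trans ?_
      refine mul_le_mul_of_nonneg_right (pow_le hC2 hl2 (le_max_right _ _) (le_max_right _ _) n) ?_
      exact Finset.prod_nonneg fun i _ => (hF.pos _).le
    · intro t ht θ hθ hQ i
      apply hKat'
      refine ⟨hover i _, s + t, hsum t ht, ?_⟩
      rw [(hCls m M hact hfree r hr f ℒ Dm τ Λ hF (s + t) _).2]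
      exact ⟨N, hN, core hF.lift hF.pos hF.der (fun c => 1 < c) s t θ y N hyN hθ hQ i⟩

end Pool.Agent.OmegaStability.OS
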