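import Pool.Agent.Work.MP_814647_an.OS.Main
import Pool.Agent.Work.MP_814647_an.OS.Per
import Pool.Agent.Work.MP_814647_an.OS.I_SG
import Pool.Agent.Work.MP_814647_an.OS.I_Osc
import Pool.Agent.Work.MP_814647_an.OS.I_Hil
import Pool.Agent.Work.MP_814647_an.OS.I_Cot
import Pool.Agent.Work.MP_814647_an.OS.I_Gau
import Pool.Agent.Work.MP_814647_an.OS.I_Cvx
import Pool.Agent.Work.MP_814647_an.OS.I_CvxE
import Pool.Agent.Work.MP_814647_an.OS.I_ScC
import Pool.Agent.Work.MP_814647_an.OS.I_ScE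
import Pool.Agent.Work.MP_814647_an.OS.I_SwC
import Pool.Agent.Work.MP_814647_an.OS.I_SwE
import Pool.Agent.Work.MP_814647_an.OS.I_KC
import Pool.Agent.Work.MP_814647_an.OS.I_KE
import Pool.Agent.Work.MP_814647_an.OS.I_Dif
import Pool.Agent.Work.MP_814647_an.OS.I_Spd
import Pool.Agent.Work.MP_814647_an.OS.I_Uq
import Pool.Agent.Work.MP_814647_an.OS.I_Br
import Pool.Agent.Work.MP_814647_an.OS.I_Der
import Pool.Agent.Work.MP_814647_an.OS.I_Cls
import Pool.Agent.Work.MP_814647_an.OS.I_Lip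
import Pool.Agent.Work.MP_814647_an.OS.I_Fol
import Pool.Agent.Work.MP_814647_an.OS.I_Clo
import Pool.Agent.Work.MP_814647_an.OS.I_HB
import Pool.Agent.Work.MP_814647_an.OS.I_HE

/-!
# Circle extensions with one-sided nonlinearity: the theorem
-/

set_option autoImplicit false

open Set Filter Topology Function
open scoped Manifold ContDiff

noncomputable section

namespace Pool.Agent.OmegaStability.OS

universe u v

theorem os_final {d : ℕ} {B : Type v} {M : Type u} [MetricSpace B] [CompactSpace B]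
    [ChartedSpace (EuclideanSpace ℝ (Fin d)) B]
    [IsManifold 𝓘(ℝ, EuclideanSpace ℝ (Fin d)) ∞ B]
    [MetricSpace M] [CompactSpace M] [ChartedSpace (EuclideanSpace ℝ (Fin (d + 1))) M]
    [IsManifold 𝓘(ℝ, EuclideanSpace ℝ (Fin (d + 1))) ∞ M] [MulAction Circle M]
    {π : M → B} (hb : IsCircleBundle d π) {r : ℕ∞} (hr : 1 ≤ r)
    (A : Diffeo (EuclideanSpace ℝ (Fin d)) B r) (hA : HyperbolicBase A)
    (f : Diffeo (EuclideanSpace ℝ (Fin (d + 1))) M r) (hcov : ∀ y, π (f y) = A (π y))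
    (hC3 : C3AlongCircles f) (hN : OneSidedAlongOrbits (EuclideanSpace ℝ (Fin (d + 1))) f)
    (hst : OmegaStable f) :
    SatisfiesAxiomA f ∧ HasNoCycles f := by
  have hKC : StKC := pr_KC pr_SwC pr_Cvx (pr_ScC pr_SG (pr_Hil pr_Osc) pr_Cot pr_Gau)
  have hKE : StKE := pr_KE pr_SwE pr_CvxE (pr_ScE pr_SG (pr_Hil pr_Osc) pr_Cot pr_Gau)
  refine os_main (pr_Br pr_Uq) pr_Der (pr_Lip pr_Cls pr_SwC pr_SwE pr_Dif pr_Spd) pr_Fol
    (pr_Clo pr_Cls) pr_HB
    pr_HE hb hr A hA f hcov (circles_of_C3 hC3) hst ?_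
  intro ℒ Dm τ Λ hF h3
  exact pr_UniP pr_Cls hKC hKE (d + 1) M hb.smooth_action hb.free r hr f ℒ Dm τ Λ hF (h3 hC3) hN

end Pool.Agent.OmegaStability.OS
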