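import Pool.Agent.Work.MP_814647_an.OS.StmtsB

/-!
# Circle extensions with one-sided structure functions: item CoB
-/

set_option autoImplicit false

open Set Filter Topology Function
open scoped Manifold ContDiff

noncomputable section

namespace Pool.Agent.OmegaStability.OS

open Dens

universe u v

namespace I_CoB

theorem sin_lb {δ x : ℝ} (hδ : 0 < δ) (h1 : δ ≤ x) (h2 : x ≤ 2 * Real.pi - δ) :
    Real.sin (δ / 2) ≤ Real.sin (x / 2) := by
  rcases le_total (x / 2) (Real.pi / 2) with h | h
  · exact Real.sin_le_sin_of_le_of_le_pi_div_two (by linarith [Real.pi_pos]) h (by linarith)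
  · rw [← Real.sin_pi_sub (x / 2)]
    exact Real.sin_le_sin_of_le_of_le_pi_div_two (by linarith [Real.pi_pos]) (by linarith)
      (by linarith)

theorem wronskian {M : ℝ} {q : ℝ → ℝ} {e e' : ℝ} {S G T U : ℝ → ℝ} (h : IsHill q e M S G)
    (h' : IsHill q e' M T U) (hee : e ≤ e') (he : e' ≤ e + 2 * Real.pi) {x : ℝ}
    (hx1 : e' - 2 * Real.pi ≤ x) (hx2 : x ≤ e + 2 * Real.pi) : S x * U x - G x * T x = S e' := by
  set I : Set ℝ := Icc (e' - 2 * Real.pi) (e + 2 * Real.pi) with hI
  have hd : ∀ y ∈ I, HasDerivWithinAt (fun x => S x * U x - G x * T x) 0 I y := by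
    intro y hy
    have h1 : |y - e| ≤ 2 * Real.pi := abs_le.2 ⟨by linarith [hy.1], by linarith [hy.2]⟩
    have h2 : |y - e'| ≤ 2 * Real.pi := abs_le.2 ⟨by linarith [hy.1], by linarith [hy.2]⟩
    have h3 := ((h.dS y h1).mul (h'.dG y h2)).sub ((h.dG y h1).mul (h'.dS y h2))
    have h4 : G y * U y + S y * (-(q y / 2) * T y) - (-(q y / 2) * S y * T y + G y * U y) = 0 := by
      ring
    rw [h4] at h3
    exact h3.hasDerivWithinAt
  have h5 := (convex_Icc (e' - 2 * Real.pi) (e + 2 * Real.pi)).norm_image_sub_le_of_norm_hasDerivWithin_le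
    (f := fun x => S x * U x - G x * T x) (C := 0) hd (fun y _ => by simp)
    (x := e') (y := x) ⟨by linarith [Real.pi_pos], he⟩ ⟨hx1, hx2⟩
  rw [zero_mul] at h5
  have h6 := norm_le_zero_iff.1 h5
  simp only [h'.S0, h'.G0, mul_one, mul_zero, sub_zero] at h6
  linarith

end I_CoB

open I_CoB

theorem pr_CoB : StCoB := by
  intro M δ hM hδ
  by_cases hδπ : δ ≤ Real.pi
  swap
  · refine ⟨1, 1, 1, one_pos, one_pos, le_rfl, ?_⟩
    intro q e e' S G T U _ _ h1 h2
    exfalso
    linarith
  have hs : 0 < Real.sin (δ / 2) :=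
    Real.sin_pos_of_pos_of_lt_pi (by linarith) (by linarith [Real.pi_pos])
  set s : ℝ := 2 * Real.sin (δ / 2) with hsdef
  have hs0 : 0 < s := by rw [hsdef]; linarith
  refine ⟨s / M ^ 2, s / M ^ 2, max (s / M ^ 2) (M / s ^ 2), by positivity, by positivity,
    le_max_left _ _, ?_⟩
  intro q e e' S G T U h h' h1 h2
  have hpi := Real.pi_pos
  have hSe1 : s ≤ S e' := by
    have e1 := h.pos e' (by linarith) (by linarith)
    have e2 := sin_lb hδ (show δ ≤ e' - e by linarith) (by linarith)
    rw [hsdef]
    linarith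
  have hSe2 : S e' ≤ M := (le_abs_self _).trans (h.bd e' (abs_le.2 ⟨by linarith, by linarith⟩))
  have hbS : ∀ x, e' - 2 * Real.pi ≤ x → x ≤ e + 2 * Real.pi → |S x| ≤ M := fun x a b =>
    h.bd x (abs_le.2 ⟨by linarith, by linarith⟩)
  have hbT : ∀ x, e' - 2 * Real.pi ≤ x → x ≤ e + 2 * Real.pi → |T x| ≤ M := fun x a b =>
    h'.bd x (abs_le.2 ⟨by linarith, by linarith⟩)
  have hW : ∀ x, e' - 2 * Real.pi ≤ x → x ≤ e + 2 * Real.pi → S x * U x - G x * T x = S e' :=
    fun x a b => wronskian h h' (by linarith) (by linarith) a b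
  have hlow : ∀ P : ℝ, 0 < P → P ≤ M ^ 2 → s / M ^ 2 ≤ S e' / P := by
    intro P hP hPM
    calc s / M ^ 2 ≤ s / P := div_le_div_of_nonneg_left hs0.le hP hPM
      _ ≤ S e' / P := div_le_div_of_nonneg_right hSe1 hP.le
  have hprod : ∀ a b : ℝ, |a| ≤ M → |b| ≤ M → a * b ≤ M ^ 2 := by
    intro a b ha hb
    calc a * b ≤ |a * b| := le_abs_self _
      _ = |a| * |b| := abs_mul _ _
      _ ≤ M * M := mul_le_mul ha hb (abs_nonneg _) hM.le
      _ = M ^ 2 := by ring
  refine ⟨?_, ?_, ?_⟩
  · intro x hx1 hx2
    have hSx : 0 < S x := by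
      have e1 := h.pos x (by linarith) hx2
      have e2 := Real.sin_pos_of_pos_of_lt_pi (show 0 < (x - e) / 2 by linarith) (by linarith)
      linarith
    have hTx : 0 < T x := by
      have e1 := h'.pos x hx1 (by linarith)
      have e2 := Real.sin_pos_of_pos_of_lt_pi (show 0 < (x - e') / 2 by linarith) (by linarith)
      linarith
    have e3 := hW x (by linarith) hx2.le
    have e4 : U x / T x - G x / S x = S e' / (S x * T x) := by
      rw [← e3]
      field_simp
    have e5 := hlow (S x * T x) (mul_pos hSx hTx)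
      (hprod _ _ (hbS x (by linarith) hx2.le) (hbT x (by linarith) hx2.le))
    linarith
  · intro x hx1 hx2
    have hSx : S x < 0 := by
      have e1 := h.neg x (by linarith) hx1
      have e2 := Real.sin_neg_of_neg_of_neg_pi_lt (show (x - e) / 2 < 0 by linarith) (by linarith)
      linarith
    have hTx : T x < 0 := by
      have e1 := h'.neg x hx2 (by linarith)
      have e2 := Real.sin_neg_of_neg_of_neg_pi_lt (show (x - e') / 2 < 0 by linarith) (by linarith)
      linarith
    have e3 := hW x hx2.le (by linarith)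
    have e4 : U x / T x - G x / S x = S e' / (S x * T x) := by
      rw [← e3]
      have := hSx.ne
      have := hTx.ne
      field_simp
    have e5 := hlow (S x * T x) (mul_pos_of_neg_of_neg hSx hTx)
      (hprod _ _ (hbS x hx2.le (by linarith)) (hbT x hx2.le (by linarith)))
    linarith
  · intro x hx1 hx2
    have hSx : s ≤ S x := by
      have e1 := h.pos x (by linarith) (by linarith)
      have e2 := sin_lb hδ (show δ ≤ x - e by linarith) (by linarith)
      rw [hsdef]
      linarith
    have hTx : T x ≤ -s := by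
      have e1 := h'.neg x (by linarith) (by linarith)
      have e2 := sin_lb hδ (show δ ≤ e' - x by linarith) (by linarith)
      have e3 : Real.sin ((x - e') / 2) = -Real.sin ((e' - x) / 2) := by
        rw [← Real.sin_neg]
        congr 1
        ring
      rw [e3] at e1
      rw [hsdef]
      linarith
    have hS0 : 0 < S x := by linarith
    have hT0 : T x < 0 := by linarith
    have e3 := hW x (by linarith) (by linarith)
    have e4 : G x / S x - U x / T x = S e' / (S x * (-T x)) := by
      rw [← e3]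
      have := hT0.ne
      field_simp
      ring
    have hbs := hbS x (by linarith) (by linarith)
    have hbt := hbT x (by linarith) (by linarith)
    have e5 := hlow (S x * (-T x)) (mul_pos hS0 (by linarith)) (hprod _ _ hbs (by rwa [abs_neg]))
    rw [e4]
    refine ⟨e5, le_trans ?_ (le_max_right _ _)⟩
    have e6 : s ^ 2 ≤ S x * (-T x) := by
      rw [sq]
      exact mul_le_mul hSx (by linarith) hs0.le hS0.le
    calc S e' / (S x * (-T x)) ≤ S e' / s ^ 2 :=
          div_le_div_of_nonneg_left (by linarith) (by positivity) e6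
      _ ≤ M / s ^ 2 := div_le_div_of_nonneg_right hSe2 (by positivity)

end Pool.Agent.OmegaStability.OS
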