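import Pool.Agent.Work.MP_814647_an.OS.StmtsC
import Pool.Agent.Work.MP_814647_an.ProjMain

/-!
# Circle extensions with one-sided structure functions: item Con, the converse
-/

set_option autoImplicit false

open Set Filter Topology Function
open scoped Manifold ContDiff

noncomputable section

namespace Pool.Agent.OmegaStability.OS

open Dens ProjAsm

universe u v

namespace I_Con

theorem lift_bound {L : ℝ → ℝ} (h1 : ContDiff ℝ 1 L) (h0 : L 0 = 0) {B : ℝ}
    (hB : ∀ x, |deriv L x| ≤ B) (x : ℝ) : |L x| ≤ B * |x| := by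
  have hd : ∀ y, DifferentiableAt ℝ L y := fun y => (h1.differentiable one_ne_zero) y
  have h := Convex.norm_image_sub_le_of_norm_deriv_le (f := L) (C := B) (s := univ)
    (fun y _ => hd y) (fun y _ => by rw [Real.norm_eq_abs]; exact hB y) convex_univ
    (mem_univ 0) (mem_univ x)
  rw [h0, sub_zero, sub_zero, Real.norm_eq_abs, Real.norm_eq_abs] at h
  exact h

theorem exp_neg_smul {M : Type*} [MulAction Circle M] (θ : ℝ) (y : M) :
    Circle.exp (-θ) • Circle.exp θ • y = y := by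
  rw [smul_smul, ← Circle.exp_add, neg_add_cancel, Circle.exp_zero, one_smul]

end I_Con

open I_Con in
theorem pr_Con (hUq : StUq.{u}) (hClo : StClo.{u}) (hNCt : StNCt.{u}) (hLiK : StLiK.{u})
    (hNbh : StNbh.{u}) (hLin : StLin.{u}) (hInv : StInv.{u}) : StCon.{u} := by
  intro m M _ _ _ _ _ hA hfree r hr f ℒ Dm τ Λ F C lam τ₁ U
  have hr1 : (1 : ℕ∞) ≤ r := le_trans (by norm_num) hr
  have hact : Continuous fun p : Circle × M => p.1 • p.2 := hA.continuous
  obtain ⟨c1, c2, c3, c4⟩ := hClo m M hA hfree r hr1 f ℒ Dm τ Λ F C lam τ₁ U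
  obtain ⟨Nf, hNc, hN⟩ := hNCt m M hA hfree r hr f ℒ Dm τ Λ F
  obtain ⟨η, K, hη, hK, hL⟩ := hLiK m M hA hfree r hr1 f ℒ Dm τ Λ F C lam τ₁ U
  obtain ⟨hC, hlam0, hlam1, -, -⟩ := U
  have hff' : ∀ y, f (f.symm y) = y := f.apply_symm_apply
  have hf'f : ∀ y, f.symm (f y) = y := f.symm_apply_apply
  have hfc : Continuous f := f.continuous
  have hfc' : Continuous f.symm := f.symm.continuous
  -- contracting
  obtain ⟨δ, V, C₁, lam₁, hδ, hVc, hC₁, hl₁, hl₁', hV, hV'⟩ :=
    hNbh M hact f ℒ Dm hfc F.lift F.cont F.pos F.smooth F.der _ C lam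
      (isClosed_closure (s := CircleContracting (EuclideanSpace ℝ (Fin m)) f))
      (fun y hy => (c3 y).2 hy) hC hlam0 hlam1 c1
  obtain ⟨a, hac, ha⟩ := hLin M f Nf Dm hfc hNc F.cont F.pos V C₁ lam₁ hVc hC₁ hl₁ hl₁' hV
  -- the inverse
  obtain ⟨ℒ', hℒ', hs', hd'⟩ := hInv M hact f f.symm ℒ Dm hfc hfc' hf'f hff' F.lift F.cont F.pos
    F.smooth F.der
  obtain ⟨D', hD'⟩ : ∃ D' : M → ℝ, D' = fun y => (Dm (f.symm y))⁻¹ := ⟨_, rfl⟩
  have hD'a : ∀ y, D' y = (Dm (f.symm y))⁻¹ := fun y => by rw [hD']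
  have hD'c : Continuous D' := by
    rw [hD']
    exact (F.cont.comp hfc').inv₀ fun y => (F.pos _).ne'
  have hD'p : ∀ y, 0 < D' y := fun y => by
    rw [hD'a]
    exact inv_pos.2 (F.pos _)
  have hprod : ∀ y ∈ closure (CircleExpanding (EuclideanSpace ℝ (Fin m)) f),
      ∀ n, ∏ i ∈ Finset.range n, D' (f.symm^[i] y) ≤ C * lam ^ n := by
    intro y hy n
    have hmem : ∀ k, f.symm^[k] y ∈ closure (CircleExpanding (EuclideanSpace ℝ (Fin m)) f) := by
      intro k
      induction k with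
      | zero => exact hy
      | succ k ih =>
        rw [iterate_succ_apply', ← c4, hff']
        exact ih
    have h1 := prod_inverse (f := f) (f' := f.symm) hff' Dm y 0 n
    simp only [zero_add] at h1
    have h2 : ∏ i ∈ Finset.range n, D' (f.symm^[i] y) =
        (∏ i ∈ Finset.range n, Dm (f^[i] (f.symm^[n] y)))⁻¹ := by
      rw [← h1]
      exact Finset.prod_congr rfl fun i _ => hD'a _
    have h3 := c2 _ (hmem n) n
    have h4 : 0 < ∏ i ∈ Finset.range n, Dm (f^[i] (f.symm^[n] y)) :=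
      Finset.prod_pos fun i _ => F.pos _
    rw [h2, inv_le_iff_one_le_mul₀ h4]
    exact h3
  obtain ⟨δ', V', C₂, lam₂, hδ', hVc', hC₂, hl₂, hl₂', hV2, hV2'⟩ :=
    hNbh M hact f.symm ℒ' D' hfc' hℒ' hD'c hD'p hs' (fun y θ => by rw [hd', hD'a]) _ C lam
      (isClosed_closure (s := CircleExpanding (EuclideanSpace ℝ (Fin m)) f))
      (fun y hy => by rw [← c4, hff']; exact hy) hC hlam0 hlam1 hprod
  obtain ⟨b, hbc, hb⟩ := hLin M f.symm (fun y => -Nf (f.symm y) / Dm (f.symm y)) D' hfc'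
    ((hNc.comp hfc').neg.div (F.cont.comp hfc') fun y => (F.pos _).ne') hD'c hD'p V' C₂ lam₂
    hVc' hC₂ hl₂ hl₂' hV2
  -- a bound of the derivative
  obtain ⟨Λ', hΛ', hΛ⟩ : ∃ Λ' : ℝ, 0 < Λ' ∧ ∀ y, Dm y ≤ Λ' := by
    obtain ⟨B, hB⟩ := (isCompact_range F.cont).bddAbove
    exact ⟨max B 1, lt_max_of_lt_right one_pos, fun y => (hB ⟨y, rfl⟩).trans (le_max_left _ _)⟩
  have hLb : ∀ y x, |ℒ y x| ≤ Λ' * |x| := by
    intro y
    refine lift_bound (F.smooth y) (F.lift.zero y) fun x => ?_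
    rw [F.der, abs_of_pos (F.pos _)]
    exact hΛ _
  -- the defects
  have hdef : ∀ (c : M → ℝ) (y : M), Nf y + c (f y) * Dm y - c y = 0 → ∀ L, IsCircleLift f y L →
      affineDefect f c y L = 0 := by
    intro c y hy L hLift
    have h1 : L = ℒ y := hUq M hfree f y L (ℒ y) hLift
      ⟨F.lift.cont y, F.lift.zero y, F.lift.map y⟩
    have h2 := (hN y).2 0
    have h3 := F.der y 0
    rw [Circle.exp_zero, one_smul] at h2 h3
    unfold nlAt at h2
    unfold affineDefect
    rw [h1, h2, h3]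
    exact hy
  refine ⟨min η (min (δ / K) (δ' / (Λ' * K))), lt_min hη (lt_min (div_pos hδ hK)
    (div_pos hδ' (mul_pos hΛ' hK))), a, b, hac, hbc, fun t ht => ⟨?_, ?_⟩⟩
  · intro y hy
    apply hdef
    have ht1 : |t| < η := ht.trans_le (min_le_left _ _)
    have ht2 : K * |t| ≤ δ := by
      have := ht.le.trans ((min_le_right _ _).trans (min_le_left _ _))
      rw [le_div_iff₀ hK] at this
      linarith
    obtain ⟨θ, hθ, hz⟩ := (hL t ht1 y).1 hy
    have h1 := hV' _ (subset_closure hz) (-θ) (by rw [abs_neg]; exact hθ.trans ht2)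
    rw [exp_neg_smul] at h1
    exact ha y h1.1 h1.2
  · intro y hy
    apply hdef
    have ht1 : |t| < η := ht.trans_le (min_le_left _ _)
    have ht2 : Λ' * (K * |t|) ≤ δ' := by
      have := ht.le.trans ((min_le_right _ _).trans (min_le_right _ _))
      rw [le_div_iff₀ (mul_pos hΛ' hK)] at this
      linarith
    obtain ⟨θ, hθ, hz⟩ := (hL t ht1 y).2 hy
    have hzc := subset_closure hz
    have hfz := (c4 _).2 hzc
    have hw : f y = Circle.exp (ℒ (Circle.exp θ • y) (-θ)) • f (Circle.exp θ • y) := by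
      rw [← F.lift.map, exp_neg_smul]
    have hx : |ℒ (Circle.exp θ • y) (-θ)| ≤ δ' := by
      refine (hLb _ _).trans ?_
      rw [abs_neg]
      exact (mul_le_mul_of_nonneg_left hθ hΛ'.le).trans ht2
    have h1 := hV2' _ hfz _ hx
    rw [← hw, hf'f] at h1
    have h2 := hb (f y) h1.1 (by rw [hf'f]; exact h1.2)
    rw [hD'a, hf'f] at h2
    have hp := F.pos y
    have h3 : -Dm y * (-Nf y / Dm y + b y * (Dm y)⁻¹ - b (f y)) = 0 := by
      rw [h2, mul_zero]
    have h4 : -Dm y * (-Nf y / Dm y + b y * (Dm y)⁻¹ - b (f y)) =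
        Nf y + b (f y) * Dm y - b y := by
      field_simp
      ring
    rw [← h4]
    exact h3

end Pool.Agent.OmegaStability.OS
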