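import Pool.Agent.Work.MP_814647_an.OS.StmtsB
import Pool.Agent.Work.MP_814647_an.OS.I_Cvx

/-!
# Item CvB: affine one-sidedness with structure functions, contracting case
-/

set_option autoImplicit false

open Set Filter Topology Function
open scoped Manifold ContDiff

noncomputable section

namespace Pool.Agent.OmegaStability.OS

open Dens

namespace I_CvB

/-- the primitive of `a` vanishing at `p` -/
def P (a : ℝ → ℝ) (p x : ℝ) : ℝ := ∫ s in p..x, a s

theorem P_self (a : ℝ → ℝ) (p : ℝ) : P a p p = 0 := intervalIntegral.integral_same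

theorem P_deriv {a : ℝ → ℝ} (ha : Continuous a) (p x : ℝ) : HasDerivAt (P a p) (a x) x :=
  (ha.integral_hasStrictDerivAt p x).hasDerivAt

theorem P_cont {a : ℝ → ℝ} (ha : Continuous a) (p : ℝ) : Continuous (P a p) :=
  continuous_iff_continuousAt.2 fun x => (P_deriv ha p x).continuousAt

theorem P_bd {a : ℝ → ℝ} {K : ℝ} (hK : 0 ≤ K) (hb : ∀ x, |a x| ≤ K) {p x : ℝ}
    (hx : |x - p| ≤ 2 * Real.pi) : |P a p x| ≤ K * (2 * Real.pi) := by
  have h1 : ‖∫ s in p..x, a s‖ ≤ K * |x - p| :=
    intervalIntegral.norm_integral_le_of_norm_le_const (fun s _ => hb s)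
  exact h1.trans (mul_le_mul_of_nonneg_left hx hK)

/-- the derivative of the developing map -/
def al (a : ℝ → ℝ) (p x : ℝ) : ℝ := Real.exp (P a p x)

theorem al_cont {a : ℝ → ℝ} (ha : Continuous a) (p : ℝ) : Continuous (al a p) :=
  Real.continuous_exp.comp (P_cont ha p)

theorem al_lo {a : ℝ → ℝ} {K : ℝ} (hK : 0 ≤ K) (hb : ∀ x, |a x| ≤ K) {p x : ℝ}
    (hx : |x - p| ≤ 2 * Real.pi) : Real.exp (-(K * (2 * Real.pi))) ≤ al a p x :=
  Real.exp_le_exp.2 (neg_le_of_abs_le (P_bd hK hb hx))

theorem al_hi {a : ℝ → ℝ} {K : ℝ} (hK : 0 ≤ K) (hb : ∀ x, |a x| ≤ K) {p x : ℝ}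
    (hx : |x - p| ≤ 2 * Real.pi) : al a p x ≤ Real.exp (K * (2 * Real.pi)) :=
  Real.exp_le_exp.2 (le_of_abs_le (P_bd hK hb hx))

theorem int_lo {a : ℝ → ℝ} (ha : Continuous a) {K : ℝ} (hK : 0 ≤ K) (hb : ∀ x, |a x| ≤ K)
    {p u v : ℝ} (huv : u ≤ v) (h : ∀ x ∈ Icc u v, |x - p| ≤ 2 * Real.pi) :
    (v - u) * Real.exp (-(K * (2 * Real.pi))) ≤ ∫ x in u..v, al a p x := by
  have h1 := intervalIntegral.integral_mono_on huv
    (continuous_const.intervalIntegrable (μ := MeasureTheory.volume) u v)
    ((al_cont ha p).intervalIntegrable u v) (fun x hx => al_lo hK hb (h x hx))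
  rwa [intervalIntegral.integral_const, smul_eq_mul] at h1

theorem int_hi {a : ℝ → ℝ} (ha : Continuous a) {K : ℝ} (hK : 0 ≤ K) (hb : ∀ x, |a x| ≤ K)
    {p u v : ℝ} (huv : u ≤ v) (h : ∀ x ∈ Icc u v, |x - p| ≤ 2 * Real.pi) :
    ∫ x in u..v, al a p x ≤ (v - u) * Real.exp (K * (2 * Real.pi)) := by
  have h1 := intervalIntegral.integral_mono_on huv ((al_cont ha p).intervalIntegrable u v)
    (continuous_const.intervalIntegrable (μ := MeasureTheory.volume) u v)
    (fun x hx => al_hi hK hb (h x hx))
  rwa [intervalIntegral.integral_const, smul_eq_mul] at h1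

theorem R_deriv {F a b : ℝ → ℝ} (hF : ContDiff ℝ 2 F) (hF' : ∀ x, 0 < deriv F x)
    (ha : Continuous a) (hb : Continuous b) (p q x : ℝ) :
    HasDerivAt (fun x => P b q (F x) + Real.log (deriv F x) - P a p x) (nlB F a b x) x := by
  have h1 : HasDerivAt F (deriv F x) x :=
    (hF.differentiable (by norm_num)).differentiableAt.hasDerivAt
  have h2 : HasDerivAt (deriv F) (deriv (deriv F) x) x :=
    (hF.differentiable_deriv_two).differentiableAt.hasDerivAt
  have h3 := (P_deriv hb q (F x)).comp x h1
  have h4 := h2.log (hF' x).ne'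
  have h5 := (h3.add h4).sub (P_deriv ha p x)
  have e : nlB F a b x = b (F x) * deriv F x + deriv (deriv F) x / deriv F x - a x := by
    unfold nlB nlAt
    rw [iteratedDeriv_succ, iteratedDeriv_one]
    ring
  rw [e]
  exact h5

theorem low {F a b : ℝ → ℝ} (hF' : ∀ x, 0 < deriv F x) {p q x : ℝ}
    (hR : Real.log (deriv F p) ≤ P b q (F x) + Real.log (deriv F x) - P a p x) :
    deriv F p * al a p x ≤ al b q (F x) * deriv F x := by
  have h := Real.exp_le_exp.2 hR
  rw [Real.exp_log (hF' p), Real.exp_sub, Real.exp_add, Real.exp_log (hF' x),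
    le_div_iff₀ (Real.exp_pos _)] at h
  exact h

theorem intg {F a b : ℝ → ℝ} (hF : ContDiff ℝ 2 F) (ha : Continuous a) (hb : Continuous b)
    {p q u v : ℝ} (huv : u ≤ v)
    (h : ∀ x ∈ Icc u v, deriv F p * al a p x ≤ al b q (F x) * deriv F x) :
    deriv F p * ∫ x in u..v, al a p x ≤ ∫ y in F u..F v, al b q y := by
  have c1 : Continuous (deriv F) := (hF.differentiable_deriv_two).continuous
  have h1 := intervalIntegral.integral_comp_mul_deriv (a := u) (b := v)
    (fun x _ => ((hF.differentiable (by norm_num)).differentiableAt (x := x)).hasDerivAt)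
    c1.continuousOn (al_cont hb q)
  rw [← h1, ← intervalIntegral.integral_const_mul]
  exact intervalIntegral.integral_mono_on huv
    ((continuous_const.mul (al_cont ha p)).intervalIntegrable u v)
    ((((al_cont hb q).comp hF.continuous).mul c1).intervalIntegrable u v) h

/-- one step, case `0 ≤ nlB` -/
theorem up {F a b : ℝ → ℝ} (hF : ContDiff ℝ 2 F) (hF' : ∀ x, 0 < deriv F x)
    (ha : Continuous a) (hb : Continuous b) {l p r : ℝ} (hlp : l ≤ p) (hpr : p ≤ r)
    (h : ∀ x ∈ Icc l r, 0 ≤ nlB F a b x) :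
    deriv F p * ∫ x in p..r, al a p x ≤ ∫ y in F p..F r, al b (F p) y := by
  refine intg hF ha hb hpr fun x hx => low hF' ?_
  have hm : MonotoneOn (fun x => P b (F p) (F x) + Real.log (deriv F x) - P a p x) (Icc p r) := by
    refine monotoneOn_of_deriv_nonneg (convex_Icc _ _)
      (fun y _ => (R_deriv hF hF' ha hb p (F p) y).continuousAt.continuousWithinAt)
      (fun y _ => (R_deriv hF hF' ha hb p (F p) y).differentiableAt.differentiableWithinAt)
      fun y hy => ?_
    rw [(R_deriv hF hF' ha hb p (F p) y).deriv]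
    have hy' := interior_subset hy
    exact h y ⟨hlp.trans hy'.1, hy'.2⟩
  have h1 := hm (left_mem_Icc.2 hpr) hx hx.1
  simp only [P_self, zero_add, sub_zero] at h1
  exact h1

/-- one step, case `nlB ≤ 0` -/
theorem down {F a b : ℝ → ℝ} (hF : ContDiff ℝ 2 F) (hF' : ∀ x, 0 < deriv F x)
    (ha : Continuous a) (hb : Continuous b) {l p r : ℝ} (hlp : l ≤ p) (hpr : p ≤ r)
    (h : ∀ x ∈ Icc l r, nlB F a b x ≤ 0) :
    deriv F p * ∫ x in l..p, al a p x ≤ ∫ y in F l..F p, al b (F p) y := by
  refine intg hF ha hb hlp fun x hx => low hF' ?_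
  have hm : AntitoneOn (fun x => P b (F p) (F x) + Real.log (deriv F x) - P a p x) (Icc l p) := by
    refine antitoneOn_of_deriv_nonpos (convex_Icc _ _)
      (fun y _ => (R_deriv hF hF' ha hb p (F p) y).continuousAt.continuousWithinAt)
      (fun y _ => (R_deriv hF hF' ha hb p (F p) y).differentiableAt.differentiableWithinAt)
      fun y hy => ?_
    rw [(R_deriv hF hF' ha hb p (F p) y).deriv]
    have hy' := interior_subset hy
    exact h y ⟨hy'.1, hy'.2.trans hpr⟩
  have h1 := hm hx (right_mem_Icc.2 hlp) hx.2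
  simp only [P_self, zero_add, sub_zero] at h1
  exact h1

end I_CvB

open I_CvB in
/-- item CvB -/
theorem pr_CvB : StCvB := by
  intro K δ hK hδ
  by_cases hd : δ < 2 * Real.pi
  · set E : ℝ := Real.exp (-(K * (2 * Real.pi))) with hE
    set E' : ℝ := Real.exp (K * (2 * Real.pi)) with hE'
    have hKp : 0 ≤ K * (2 * Real.pi) := by positivity
    have hE0 : 0 < E := Real.exp_pos _
    have hE1 : E ≤ 1 := Real.exp_le_one_iff.2 (by linarith)
    have hE'1 : 1 ≤ E' := Real.one_le_exp hKp
    have hc : 0 < δ * E := mul_pos hδ hE0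
    have hcW : δ * E < 2 * Real.pi * E' := by
      calc δ * E ≤ δ * 1 := mul_le_mul_of_nonneg_left hE1 hδ.le
        _ < 2 * Real.pi * 1 := by linarith
        _ ≤ 2 * Real.pi * E' := mul_le_mul_of_nonneg_left hE'1 (by positivity)
    have hW : 0 < 2 * Real.pi * E' := hc.trans hcW
    refine ⟨2 * Real.pi * E' / (δ * E), 1 - δ * E / (2 * Real.pi * E'), div_pos hW hc, ?_, ?_, ?_⟩
    · rw [sub_pos, div_lt_one hW]
      exact hcW
    · have : 0 < δ * E / (2 * Real.pi * E') := div_pos hc hW
      linarith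
    · intro F a l p r hF hF' ha hab hp hlp hpr hrl hl hr hn n
      have hlp' : ∀ k, l k ≤ p k := fun k => by linarith [hlp k]
      have hpr' : ∀ k, p k ≤ r k := fun k => by linarith [hpr k]
      have hx : ∀ k, ∀ x ∈ Icc (l k) (r k), |x - p k| ≤ 2 * Real.pi := by
        intro k x hx
        rw [abs_le]
        constructor
        · linarith [hx.1, hpr' k, hrl k]
        · linarith [hx.2, hlp' k, hrl k]
      have hmono : ∀ k, Monotone (F k) := fun k => (strictMono_of_deriv_pos (hF' k)).monotone
      have hci : ∀ k u v, IntervalIntegrable (al (a k) (p k)) MeasureTheory.volume u v :=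
        fun k u v => (al_cont (ha k) (p k)).intervalIntegrable u v
      rcases hn with hn | hn
      · refine I_Cvx.tel (fun k => deriv (F k) (p k)) (fun k => ∫ x in p k..r k, al (a k) (p k) x)
          (δ * E) (2 * Real.pi * E') hc hcW (fun k => hF' k _) (fun k => ?_) (fun k => ?_)
          (fun k => ?_) n
        · refine (mul_le_mul_of_nonneg_right ?_ hE0.le).trans (int_lo (ha k) hK (hab k) (hpr' k)
            fun x h => hx k x ⟨(hlp' k).trans h.1, h.2⟩)
          linarith [hpr k]
        · refine (int_hi (ha k) hK (hab k) (hpr' k)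
            fun x h => hx k x ⟨(hlp' k).trans h.1, h.2⟩).trans
            (mul_le_mul_of_nonneg_right ?_ (zero_le_one.trans hE'1))
          linarith [hlp k, hrl k]
        · have h1 := up (hF k) (hF' k) (ha k) (ha (k + 1)) (hlp' k) (hpr' k) (hn k)
          rw [hp k] at h1
          have h2 := int_lo (ha (k + 1)) hK (hab (k + 1)) (p := p (k + 1))
            (u := F k (r k)) (v := r (k + 1)) (by linarith [hr k])
            (fun x h => hx (k + 1) x ⟨?_, h.2⟩)
          · have h3 : δ * E ≤ (r (k + 1) - F k (r k)) * E :=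
              mul_le_mul_of_nonneg_right (by linarith [hr k]) hE0.le
            have h4 := intervalIntegral.integral_add_adjacent_intervals
              (hci (k + 1) (p (k + 1)) (F k (r k))) (hci (k + 1) (F k (r k)) (r (k + 1)))
            show deriv (F k) (p k) * (∫ x in p k..r k, al (a k) (p k) x) + δ * E ≤
              ∫ x in p (k + 1)..r (k + 1), al (a (k + 1)) (p (k + 1)) x
            linarith
          · have h5 := hmono k (hpr' k)
            rw [hp k] at h5
            linarith [h.1, hlp' (k + 1)]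
      · refine I_Cvx.tel (fun k => deriv (F k) (p k)) (fun k => ∫ x in l k..p k, al (a k) (p k) x)
          (δ * E) (2 * Real.pi * E') hc hcW (fun k => hF' k _) (fun k => ?_) (fun k => ?_)
          (fun k => ?_) n
        · refine (mul_le_mul_of_nonneg_right ?_ hE0.le).trans (int_lo (ha k) hK (hab k) (hlp' k)
            fun x h => hx k x ⟨h.1, h.2.trans (hpr' k)⟩)
          linarith [hlp k]
        · refine (int_hi (ha k) hK (hab k) (hlp' k)
            fun x h => hx k x ⟨h.1, h.2.trans (hpr' k)⟩).trans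
            (mul_le_mul_of_nonneg_right ?_ (zero_le_one.trans hE'1))
          linarith [hpr k, hrl k]
        · have h1 := down (hF k) (hF' k) (ha k) (ha (k + 1)) (hlp' k) (hpr' k) (hn k)
          rw [hp k] at h1
          have h2 := int_lo (ha (k + 1)) hK (hab (k + 1)) (p := p (k + 1))
            (u := l (k + 1)) (v := F k (l k)) (by linarith [hl k])
            (fun x h => hx (k + 1) x ⟨h.1, ?_⟩)
          · have h3 : δ * E ≤ (F k (l k) - l (k + 1)) * E :=
              mul_le_mul_of_nonneg_right (by linarith [hl k]) hE0.le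
            have h4 := intervalIntegral.integral_add_adjacent_intervals
              (hci (k + 1) (l (k + 1)) (F k (l k))) (hci (k + 1) (F k (l k)) (p (k + 1)))
            show deriv (F k) (p k) * (∫ x in l k..p k, al (a k) (p k) x) + δ * E ≤
              ∫ x in l (k + 1)..p (k + 1), al (a (k + 1)) (p (k + 1)) x
            linarith
          · have h5 := hmono k (hlp' k)
            rw [hp k] at h5
            linarith [h.2, hpr' (k + 1)]
  · refine ⟨1, 1 / 2, one_pos, by norm_num, by norm_num, ?_⟩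
    intro F a l p r hF hF' ha hab hp hlp hpr hrl hl hr hn n
    exfalso
    have h1 := hlp 0
    have h2 := hpr 0
    have h3 := hrl 0
    linarith

end Pool.Agent.OmegaStability.OS
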