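import Pool.Agent.Work.MP_814647_an.OS.StmtsD
import Pool.Agent.Work.MP_814647_an.OS.I_Cls

/-!
# Uniform exponents along the circles: item Exq
-/

set_option autoImplicit false

open Set Filter Topology Function
open scoped Manifold ContDiff

noncomputable section

namespace Pool.Agent.OmegaStability.OS

open Dens

universe u v

namespace I_Exq

theorem rot_zero {M : Type u} [MulAction Circle M] (f : M → M) : rotated f 0 = f := by
  funext x
  change Circle.exp 0 • f x = f x
  rw [Circle.exp_zero, one_smul]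

theorem prod_eq {M : Type u} {D : M → ℝ} (hD : ∀ y, 0 < D y) (f : M → M) (y : M) (n : ℕ) :
    ∏ i ∈ Finset.range n, D (f^[i] y) =
      Real.exp (∑ i ∈ Finset.range n, Real.log (D (f^[i] y))) := by
  rw [Real.exp_sum]
  exact Finset.prod_congr rfl fun i _ => (Real.exp_log (hD _)).symm

end I_Exq

open I_Exq

theorem pr_Exq (hCls : StCls.{u}) (hRet : StRet.{u}) (hPSh : StPSh.{u}) : StExq.{u} := by
  intro m M _ _ _ _ _ hact hfree r hr f ℒ Dm τ Λ hF hTop hSpl hUE
  obtain ⟨c, hc, hexp⟩ := hUE
  obtain ⟨hΩ, hEx, hSh⟩ := hTop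
  obtain ⟨-, hdisj⟩ := hSpl
  have hpos := hF.pos
  have hlc : Continuous fun y => Real.log (Dm y) := hF.cont.log fun y => (hpos y).ne'
  -- a bound of the logarithm
  obtain ⟨K, hK0, hK⟩ : ∃ K : ℝ, 0 ≤ K ∧ ∀ y, |Real.log (Dm y)| ≤ K := by
    obtain ⟨K, hK⟩ := (isCompact_range hlc.abs).bddAbove
    exact ⟨max 0 K, le_max_left _ _, fun y => (hK ⟨y, rfl⟩).trans (le_max_right _ _)⟩
  obtain ⟨ε₁, hε₁, huc⟩ := Metric.uniformContinuous_iff.1
    (CompactSpace.uniformContinuous_of_continuous hlc) (c / 4) (by positivity)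
  obtain ⟨ε₂, hε₂, hth⟩ := hdisj.exists_thickenings isClosed_closure.isCompact isClosed_closure
  have hfar : ∀ a ∈ closure (CircleContracting (EuclideanSpace ℝ (Fin m)) f),
      ∀ b ∈ closure (CircleExpanding (EuclideanSpace ℝ (Fin m)) f), ε₂ ≤ dist a b := by
    intro a ha b hb
    by_contra hlt
    rw [not_le] at hlt
    refine Set.disjoint_left.1 hth (Metric.self_subset_thickening hε₂ _ ha) ?_
    exact Metric.mem_thickening_iff.2 ⟨b, hb, hlt⟩
  -- the dichotomy for periodic points
  have hper : ∀ (p : M) (N : ℕ), 0 < N → f^[N] p = p →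
      (∑ i ∈ Finset.range N, Real.log (Dm (f^[i] p)) ≤ -(c * N) ∧
        p ∈ CircleContracting (EuclideanSpace ℝ (Fin m)) f) ∨
      (c * N ≤ ∑ i ∈ Finset.range N, Real.log (Dm (f^[i] p)) ∧
        p ∈ CircleExpanding (EuclideanSpace ℝ (Fin m)) f) := by
    intro p N hN hp
    obtain ⟨χ, hχ, hd⟩ := hexp N p hN hp
    have hp' : (rotated f 0)^[N] p = p := by rw [rot_zero]; exact hp
    have h1 := I_Cls.mult hact hr f hF 0 hN hp'
    rw [rot_zero] at h1
    have h2 : (∏ i ∈ Finset.range N, Dm (f^[i] p)) • (vgen m p : EuclideanSpace ℝ (Fin m)) =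
        Real.exp (N * χ) • vgen m p := h1.symm.trans hd
    have h3 : ∏ i ∈ Finset.range N, Dm (f^[i] p) = Real.exp (N * χ) :=
      smul_left_injective ℝ (gen_ne_zero hact hfree p) h2
    have h4 : ∑ i ∈ Finset.range N, Real.log (Dm (f^[i] p)) = N * χ := by
      rw [prod_eq hpos] at h3
      exact Real.exp_injective h3
    have hcl := hCls m M hact hfree r hr f ℒ Dm τ Λ hF 0 p
    rw [rot_zero] at hcl
    have hN' : (0 : ℝ) < N := by exact_mod_cast hN
    rcases lt_trichotomy χ 0 with hneg | hz | hpo
    · left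
      rw [abs_of_neg hneg] at hχ
      refine ⟨by rw [h4]; nlinarith, hcl.1.2 ⟨N, hN, hp, ?_⟩⟩
      rw [h3, Real.exp_lt_one_iff]
      exact mul_neg_of_pos_of_neg hN' hneg
    · rw [hz, abs_zero] at hχ
      linarith
    · right
      rw [abs_of_pos hpo] at hχ
      refine ⟨by rw [h4]; nlinarith, hcl.2.2 ⟨N, hN, hp, ?_⟩⟩
      rw [h3, Real.one_lt_exp_iff]
      exact mul_pos hN' hpo
  set ε : ℝ := min ε₁ ε₂ with hε
  have hε0 : 0 < ε := lt_min hε₁ hε₂
  obtain ⟨δ, hδ, hshad⟩ := hPSh M f (Omega f) hEx hSh ε hε0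
  obtain ⟨T, hT⟩ := hRet M f f.continuous δ hδ
  -- the periodic point near a long orbit segment
  have key : ∀ y ∈ closure (periodicPts f), ∀ n : ℕ, 0 < n → ∃ (p : M) (k : ℕ), k ≤ T ∧
      f^[n + k] p = p ∧ dist y p < ε ∧ (∀ j < n, dist (f^[j] y) (f^[j] p) < ε) := by
    intro y hy n hn
    obtain ⟨k, ch, hk0, hkT, c0, c1, c2, c3⟩ := hT y hy n
    have hyn : ∀ j, f^[j] y ∈ closure (periodicPts f) := by
      intro j
      have h1 : f^[j] y ∈ closure (f^[j] '' periodicPts f) :=
        image_closure_subset_closure_image (f.continuous.iterate j) ⟨y, hy, rfl⟩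
      refine closure_mono ?_ h1
      rintro _ ⟨z, ⟨q, hq, hz⟩, rfl⟩
      have hz' : f^[q] z = z := hz
      refine ⟨q, hq, ?_⟩
      show f^[q] (f^[j] z) = f^[j] z
      rw [← iterate_add_apply, add_comm, iterate_add_apply, hz']
    obtain ⟨p, -, hp, hd⟩ := hshad (n + k) (fun j => if j < n then f^[j] y else ch (j - n))
      (by omega) (fun j hj => by
        rw [hΩ]
        split_ifs with h
        · exact hyn j
        · exact c2 _ (by omega)) (by
        have e1 : ¬ n + k < n := by omega
        simp only [e1, if_false, hn, if_true]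
        rw [Nat.add_sub_cancel_left, c1]
        rfl) (fun j hj => by
        by_cases h1 : j < n
        · rw [if_pos h1]
          by_cases h2 : j + 1 < n
          · rw [if_pos h2, ← iterate_succ_apply' f j y, dist_self]
            exact hδ
          · rw [if_neg h2]
            have h3 : j + 1 = n := by omega
            rw [h3, Nat.sub_self, c0, ← iterate_succ_apply' f j y, ← h3, dist_self]
            exact hδ
        · rw [if_neg h1, if_neg (by omega)]
          have h3 := c3 (j - n) (by omega)
          rwa [show j + 1 - n = j - n + 1 by omega])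
    refine ⟨p, k, hkT, hp, ?_, fun j hj => ?_⟩
    · have h1 := hd 0 (by omega)
      simp only [hn, if_true] at h1
      exact h1
    · have := hd j (by omega)
      simpa only [hj, if_true] using this
  -- comparison of sums
  have hcmp : ∀ (y p : M) (n k : ℕ), (∀ j < n, dist (f^[j] y) (f^[j] p) < ε) → k ≤ T →
      |∑ i ∈ Finset.range n, Real.log (Dm (f^[i] y)) -
        ∑ i ∈ Finset.range (n + k), Real.log (Dm (f^[i] p))| ≤ c / 4 * n + K * T := by
    intro y p n k hd hk
    rw [Finset.sum_range_add, ← sub_sub, ← Finset.sum_sub_distrib]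
    have h1 : |∑ i ∈ Finset.range n, (Real.log (Dm (f^[i] y)) - Real.log (Dm (f^[i] p)))| ≤
        c / 4 * n := by
      refine (Finset.abs_sum_le_sum_abs _ _).trans ?_
      calc ∑ i ∈ Finset.range n, |Real.log (Dm (f^[i] y)) - Real.log (Dm (f^[i] p))|
          ≤ ∑ i ∈ Finset.range n, c / 4 := by
            refine Finset.sum_le_sum fun i hi => ?_
            have := huc ((hd i (Finset.mem_range.1 hi)).trans_le (min_le_left _ _))
            rw [Real.dist_eq] at this
            exact this.le
        _ = c / 4 * n := by rw [Finset.sum_const, Finset.card_range, nsmul_eq_mul, mul_comm]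
    have h2 : |∑ i ∈ Finset.range k, Real.log (Dm (f^[n + i] p))| ≤ K * T := by
      refine (Finset.abs_sum_le_sum_abs _ _).trans ?_
      calc ∑ i ∈ Finset.range k, |Real.log (Dm (f^[n + i] p))|
          ≤ ∑ i ∈ Finset.range k, K := Finset.sum_le_sum fun i _ => hK _
        _ = K * k := by rw [Finset.sum_const, Finset.card_range, nsmul_eq_mul, mul_comm]
        _ ≤ K * T := mul_le_mul_of_nonneg_left (by exact_mod_cast hk) hK0
    exact (abs_sub _ _).trans (add_le_add h1 h2)
  refine ⟨Real.exp (K * T), Real.exp (-(3 / 4 * c)), Real.exp_pos _, Real.exp_pos _,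
    by rw [Real.exp_lt_one_iff]; linarith, ?_, ?_⟩
  · intro y hy n
    have hpow : Real.exp (K * T) * Real.exp (-(3 / 4 * c)) ^ n =
        Real.exp (K * T - 3 / 4 * c * n) := by
      rw [← Real.exp_nat_mul, ← Real.exp_add]
      congr 1
      ring
    rw [hpow, prod_eq hpos, Real.exp_le_exp]
    rcases Nat.eq_zero_or_pos n with rfl | hn
    · simp
      positivity
    have hyP : y ∈ closure (periodicPts f) := by
      obtain ⟨q, hq, hyq, -⟩ := hy
      exact subset_closure ⟨q, hq, hyq⟩
    obtain ⟨p, k, hkT, hp, hd0, hd⟩ := key y hyP n hn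
    have h1 := hcmp y p n k hd hkT
    rcases hper p (n + k) (by omega) hp with ⟨h2, -⟩ | ⟨-, h2⟩
    · have h3 := (abs_le.1 h1).2
      push_cast at h2
      have h4 : 0 ≤ c * k := by positivity
      linarith
    · have h3 := hfar y (subset_closure hy) p (subset_closure h2)
      have h4 := hd0.trans_le (min_le_right _ _)
      linarith
  · intro y hy n
    have hpow : Real.exp (K * T) * Real.exp (-(3 / 4 * c)) ^ n *
        Real.exp (∑ i ∈ Finset.range n, Real.log (Dm (f^[i] y))) =
        Real.exp (K * T - 3 / 4 * c * n + ∑ i ∈ Finset.range n, Real.log (Dm (f^[i] y))) := by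
      rw [← Real.exp_nat_mul, ← Real.exp_add, ← Real.exp_add]
      congr 1
      ring
    rw [prod_eq hpos, hpow, Real.one_le_exp_iff]
    rcases Nat.eq_zero_or_pos n with rfl | hn
    · simp
      positivity
    have hyP : y ∈ closure (periodicPts f) := by
      obtain ⟨q, hq, hyq, -⟩ := hy
      exact subset_closure ⟨q, hq, hyq⟩
    obtain ⟨p, k, hkT, hp, hd0, hd⟩ := key y hyP n hn
    have h1 := hcmp y p n k hd hkT
    rcases hper p (n + k) (by omega) hp with ⟨-, h2⟩ | ⟨h2, -⟩
    · have h3 := hfar p (subset_closure h2) y (subset_closure hy)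
      have h4 := hd0.trans_le (min_le_right _ _)
      rw [dist_comm] at h4
      linarith
    · have h3 := (abs_le.1 h1).1
      push_cast at h2
      have h4 : 0 ≤ c * k := by positivity
      linarith

end Pool.Agent.OmegaStability.OS
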