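import Pool.Agent.Work.MP_814647_an.OS.StmtsB

/-!
# Circle extensions with one-sided structure functions: item HiB
-/

set_option autoImplicit false

open Set Filter Topology Function
open scoped Manifold ContDiff

noncomputable section

namespace Pool.Agent.OmegaStability.OS

open Dens

/-- Item HiB. -/
theorem pr_HiB (h : StRic) : StHiB := by
  intro σ hσ M F q q' l x r S G T U S' G' T' U' hF hpos h1 h2 h3 h4 hlx hxr hlr hF2 hsc
  have hmono : StrictMono F := strictMono_of_deriv_pos hpos
  have a1 := hmono hlx
  have a2 := hmono hxr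
  have e1 := (h σ hσ M F q q' l S G S' G' hF hpos h1 h3 x).1 hlx (by linarith) (by linarith)
    (fun y hy => hsc y ⟨hy.1, hy.2.trans hxr.le⟩)
  have e2 := (h σ hσ M F q q' r T U T' U' hF hpos h2 h4 x).2 hxr (by linarith) (by linarith)
    (fun y hy => hsc y ⟨hlx.le.trans hy.1, hy.2⟩)
  linarith

end Pool.Agent.OmegaStability.OS
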