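import Pool.Agent.Work.MP_814647_an.OS.StmtsB

/-!
# Circle extensions: the solution of Hill's equation
-/

set_option autoImplicit false

open Set Filter Topology Function
open scoped Manifold ContDiff

noncomputable section

namespace Pool.Agent.OmegaStability.OS

open Dens

universe u v

theorem pr_Hl (h1 : StHlE) (h2 : StHlS) : StHl := by
  intro K hK
  obtain ⟨M, hM, h⟩ := h1 K hK
  refine ⟨M, hM, fun q hq hqK hq2 e => ?_⟩
  obtain ⟨S, G, hS, hG, hdS, hdG, hb⟩ := h q hq hqK e
  obtain ⟨h3, h4⟩ := h2 q hq2 e S G hS hG hdS hdG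
  exact ⟨S, G, hS, hG, hdS, hdG, h3, h4, hb⟩

end Pool.Agent.OmegaStability.OS
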