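import Pool.Agent.Work.MP_814647_an.OS.Notions

/-!
# One-sided circle extensions with respect to structure functions: the notions in the statement

`E` is a finite-dimensional real vector space and `M` a closed smooth manifold modelled on `E`
with a free smooth circle action.
-/

open Set Filter Topology
open scoped Manifold ContDiff

noncomputable section

namespace Pool.Agent.OmegaStability

section Circles

variable {M : Type*} [MulAction Circle M]

/-- The affine defect of `f` at `y` with respect to the function `a`; `L` is the lift of `f` on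
the circle of `y`. -/
def affineDefect (f : M → M) (a : M → ℝ) (y : M) (L : ℝ → ℝ) : ℝ :=
  iteratedDeriv 2 L 0 / deriv L 0 + a (f y) * deriv L 0 - a y

/-- The projective defect of `f` at `y` with respect to the function `a`: the Schwarzian
derivative of the lift `L`, plus `a (f y) L' ^ 2 - a y`. -/
def projectiveDefect (f : M → M) (a : M → ℝ) (y : M) (L : ℝ → ℝ) : ℝ :=
  iteratedDeriv 3 L 0 / deriv L 0 - 3 / 2 * (iteratedDeriv 2 L 0 / deriv L 0) ^ 2 +
    a (f y) * deriv L 0 ^ 2 - a y

/-- For some function `a`, bounded by `K` and continuous along the circles, the affine defect of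
`f` is nonnegative at all points of `P`, or it is nonpositive at all points of `P`, or `a ≤ 1 / 2`
and at all points of `P` the projective defect has the sign `σ` or vanishes. -/
def OneSidedFor (f : M → M) (K : ℝ) (P : Set M) (σ : ℝ) : Prop :=
  ∃ a : M → ℝ, (∀ y, |a y| ≤ K) ∧ (∀ y, Continuous fun θ : ℝ => a (Circle.exp θ • y)) ∧
    ((∀ y ∈ P, ∀ L, IsCircleLift f y L → 0 ≤ affineDefect f a y L) ∨
    (∀ y ∈ P, ∀ L, IsCircleLift f y L → affineDefect f a y L ≤ 0) ∨
    ((∀ y, a y ≤ 1 / 2) ∧ ∀ y ∈ P, ∀ L, IsCircleLift f y L →
      ContDiff ℝ 3 L ∧ 0 ≤ σ * projectiveDefect f a y L))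

/-- The union of the circles over the forward orbit of the circle of `y₀`. -/
def circlesAlong (f : M → M) (y₀ : M) : Set M :=
  {y | ∃ (k : ℕ) (z : Circle), y = z • f^[k] y₀}

end Circles

section

variable (E : Type*) [NormedAddCommGroup E] [NormedSpace ℝ E]
  {M : Type*} [MetricSpace M] [ChartedSpace E M] [MulAction Circle M]

/-- For every `y₀`, `f` is one-sided on the circle-contracting periodic points of its small
rotations in the circles along the orbit of `y₀`, and on the circle-expanding ones. -/
def OneSidedAtPeriodicPoints (f : M → M) : Prop :=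
  ∃ τ K : ℝ, 0 < τ ∧ ∀ y₀ : M,
    OneSidedFor f K
      {y | y ∈ circlesAlong f y₀ ∧ ∃ t : ℝ, |t| < τ ∧ y ∈ CircleContracting E (rotated f t)} 1 ∧
    OneSidedFor f K
      {y | y ∈ circlesAlong f y₀ ∧ ∃ t : ℝ, |t| < τ ∧ y ∈ CircleExpanding E (rotated f t)} (-1)

/-- For some continuous functions `a` and `b` on `M`, the affine defect of `f` with respect to `a`
vanishes at all circle-contracting periodic points of the small rotations of `f`, and that with
respect to `b` vanishes at all circle-expanding ones. -/
def AffineAtPeriodicPoints (f : M → M) : Prop :=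
  ∃ τ : ℝ, 0 < τ ∧ ∃ a b : M → ℝ, Continuous a ∧ Continuous b ∧ ∀ t : ℝ, |t| < τ →
    (∀ y ∈ CircleContracting E (rotated f t), ∀ L, IsCircleLift f y L →
      affineDefect f a y L = 0) ∧
    ∀ y ∈ CircleExpanding E (rotated f t), ∀ L, IsCircleLift f y L → affineDefect f b y L = 0

end

end Pool.Agent.OmegaStability
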