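import Pool.Agent.Work.MP_814647_an.OS.Stmts2
import Pool.Agent.Work.MP_814647_an.OS.NotionsB

/-!
# Circle extensions with one-sided structure functions: the items on the real line

Every docstring is the complete proof.
-/

set_option autoImplicit false

open Set Filter Topology Function
open scoped Manifold ContDiff

noncomputable section

namespace Pool.Agent.OmegaStability.OS

open Dens

universe u v

/-- The affine defect of `F` at `θ`, for the functions `a` (source) and `b` (target). -/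
def nlB (F a b : ℝ → ℝ) (θ : ℝ) : ℝ := nlAt F θ + b (F θ) * deriv F θ - a θ

/-- The projective defect of `F` at `θ`. -/
def scB (F a b : ℝ → ℝ) (θ : ℝ) : ℝ :=
  iteratedDeriv 3 F θ / deriv F θ - 3 / 2 * nlAt F θ ^ 2 + b (F θ) * deriv F θ ^ 2 - a θ

/-- The three kinds of one-sidedness. -/
inductive KdB : Type
  | up : KdB
  | down : KdB
  | sch : KdB

/-- The condition at a point. -/
def KdB.at (σ : ℝ) : KdB → (ℝ → ℝ) → (ℝ → ℝ) → (ℝ → ℝ) → ℝ → Prop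
  | .up, F, a, b, θ => 0 ≤ nlB F a b θ
  | .down, F, a, b, θ => nlB F a b θ ≤ 0
  | .sch, F, a, b, θ => 0 ≤ σ * scB F a b θ

/-- The additional requirements. -/
def KdB.ok : KdB → (ℕ → ℝ → ℝ) → (ℕ → ℝ → ℝ) → Prop
  | .up, _, _ => True
  | .down, _, _ => True
  | .sch, L, a => (∀ j, ContDiff ℝ 3 (L j)) ∧ ∀ j θ, a j θ ≤ 1 / 2

/-- The solution `S` of Hill's equation `S'' = - (q / 2) S` with `S e = 0`, `S' e = 1`. -/
structure IsHill (q : ℝ → ℝ) (e M : ℝ) (S G : ℝ → ℝ) : Prop where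
  S0 : S e = 0
  G0 : G e = 1
  dS : ∀ x, |x - e| ≤ 2 * Real.pi → HasDerivAt S (G x) x
  dG : ∀ x, |x - e| ≤ 2 * Real.pi → HasDerivAt G (-(q x / 2) * S x) x
  pos : ∀ x, e < x → x < e + 2 * Real.pi → 2 * Real.sin ((x - e) / 2) ≤ S x
  neg : ∀ x, e - 2 * Real.pi < x → x < e → S x ≤ 2 * Real.sin ((x - e) / 2)
  bd : ∀ x, |x - e| ≤ 2 * Real.pi → |S x| ≤ M

/-- Item CvB (EASY-MEDIUM), affine one-sidedness, contracting; as `StCvx` (I_Cvx.lean) with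
developing maps. Put `ψ k x = ∫_(p k)^x exp (∫_(p k)^s a k) ds`, so `ψ k (p k) = 0`,
`(ψ k)' (p k) = 1`, `(ψ k)' > 0`, `exp (- 2πK) ≤ (ψ k)' ≤ exp (2πK)` on
`[p k - 2π, p k + 2π] ⊇ [l k, r k]`, `(ψ k)'' = a k (ψ k)'`. Let
`ρ x = (ψ (k+1))' (F_k x) F_k' x / (ψ k)' x`; `log ρ` has the derivative
`a (k+1) (F_k x) F_k' x + F_k'' x / F_k' x - a k x = nlB`, and `ρ (p k) = F_k' (p k)`.
Case `0 ≤ nlB`: `ρ ≥ F_k' (p k)` on `[p k, r k]`, so `ψ (k+1) (F_k x) - F_k' (p k) ψ k x`, which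
vanishes at `p k` and has derivative `(ρ x - F_k' (p k)) (ψ k)' x ≥ 0`, is `≥ 0` at `r k`. With
`w k = ψ k (r k) ∈ [δ exp (- 2πK), W]`, `W = 2π exp (2πK)`, and `c = δ exp (- 2πK)`:
`w (k+1) ≥ ψ (k+1) (F_k (r k)) + c ≥ F_k' (p k) w k + c`
(as `p (k+1) ≤ F_k (r k) ≤ r (k+1) - δ`). So
`F_k' (p k) ≤ (w (k+1) - c) / w k ≤ (w (k+1) / w k) (1 - c / W)`; telescope (`c < W` since
`w (k+1) > c`). Case `nlB ≤ 0`: `ρ ≥ F_k' (p k)` on `[l k, p k]`; take `w k = - ψ k (l k)`. -/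
def StCvB : Prop :=
  ∀ K δ : ℝ, 0 ≤ K → 0 < δ → ∃ C lam : ℝ, 0 < C ∧ 0 < lam ∧ lam < 1 ∧
    ∀ (F a : ℕ → ℝ → ℝ) (l p r : ℕ → ℝ), (∀ k, ContDiff ℝ 2 (F k)) → (∀ k x, 0 < deriv (F k) x) →
      (∀ k, Continuous (a k)) → (∀ k x, |a k x| ≤ K) →
      (∀ k, F k (p k) = p (k + 1)) → (∀ k, l k + δ ≤ p k) → (∀ k, p k + δ ≤ r k) →
      (∀ k, r k ≤ l k + 2 * Real.pi) → (∀ k, l (k + 1) + δ ≤ F k (l k)) →
      (∀ k, F k (r k) + δ ≤ r (k + 1)) →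
      ((∀ k, ∀ x ∈ Icc (l k) (r k), 0 ≤ nlB (F k) (a k) (a (k + 1)) x) ∨
        ∀ k, ∀ x ∈ Icc (l k) (r k), nlB (F k) (a k) (a (k + 1)) x ≤ 0) →
      ∀ n, ∏ i ∈ Finset.range n, deriv (F i) (p i) ≤ C * lam ^ n

/-- Item CvBE (EASY-MEDIUM), affine one-sidedness, expanding. As CvB. Case `nlB ≤ 0`:
`ρ ≤ F_k' (p k)` on `[p k, r k]`, so `F_k' (p k) w k ≥ ψ (k+1) (F_k (r k)) ≥
ψ (k+1) (r (k+1) + δ) ≥ w (k+1) + c` with `w k = ψ k (r k)`, `c = δ exp (- K (2π + δ))`. So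
`F_k' (p k) ≥ (w (k+1) / w k) (1 + c / W)`; telescope. Case `0 ≤ nlB`: `ρ ≤ F_k' (p k)` on
`[l k, p k]`; take `w k = - ψ k (l k)`. -/
def StCvBE : Prop :=
  ∀ K δ : ℝ, 0 ≤ K → 0 < δ → ∃ C lam : ℝ, 0 < C ∧ 0 < lam ∧ lam < 1 ∧
    ∀ (F a : ℕ → ℝ → ℝ) (l p r : ℕ → ℝ), (∀ k, ContDiff ℝ 2 (F k)) → (∀ k x, 0 < deriv (F k) x) →
      (∀ k, Continuous (a k)) → (∀ k x, |a k x| ≤ K) →
      (∀ k, F k (p k) = p (k + 1)) → (∀ k, l k + δ ≤ p k) → (∀ k, p k + δ ≤ r k) →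
      (∀ k, r k ≤ l k + 2 * Real.pi) → (∀ k, F k (l k) + δ ≤ l (k + 1)) →
      (∀ k, r (k + 1) + δ ≤ F k (r k)) →
      ((∀ k, ∀ x ∈ Icc (l k) (r k), 0 ≤ nlB (F k) (a k) (a (k + 1)) x) ∨
        ∀ k, ∀ x ∈ Icc (l k) (r k), nlB (F k) (a k) (a (k + 1)) x ≤ 0) →
      ∀ n, 1 ≤ C * lam ^ n * ∏ i ∈ Finset.range n, deriv (F i) (p i)

/-- Item HlE (MEDIUM-HARD), existence of the solution of Hill's equation. A linear system
`(S, G)' = (G, - (q / 2) S)` with continuous bounded coefficients. One way: Mathlib's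
`IsPicardLindelof` (file Analysis/ODE/PicardLindelof, ExistUnique) for the vector field
`(t, X) ↦ A(t) φ(X)` on `[e - 7, e + 7]`, where `φ` is the projection of `ℝ × ℝ` (sup norm:
coordinatewise clamping) to the box of radius `R = exp (7 (1 + K))`: it is Lipschitz with constant
`1 + K` and bounded by `(1 + K) R`; the solution has `|X t| ≤ exp ((1 + K) |t - e|)` by Gronwall
(`norm_le_gronwallBound_of_norm_deriv_right_le`; `|A φ(X)| ≤ (1 + K) |X|`), so it stays in the box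
and solves the linear equation. (`2π < 7`.) The bound is `M = R`. Another way: the Picard iterates
`S_(n+1) x = (x - e) - ∫_e^x (x - s) (q s / 2) S_n s ds` converge, as
`|S_(n+1) - S_n| ≤ (K/2)^(n+1) |x - e|^(2n+3) / (2n+3)!`. -/
def StHlE : Prop :=
  ∀ K : ℝ, 0 ≤ K → ∃ M : ℝ, 0 < M ∧ ∀ q : ℝ → ℝ, Continuous q → (∀ x, |q x| ≤ K) → ∀ e : ℝ,
    ∃ S G : ℝ → ℝ, S e = 0 ∧ G e = 1 ∧
      (∀ x, |x - e| ≤ 2 * Real.pi → HasDerivAt S (G x) x) ∧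
      (∀ x, |x - e| ≤ 2 * Real.pi → HasDerivAt G (-(q x / 2) * S x) x) ∧
      ∀ x, |x - e| ≤ 2 * Real.pi → |S x| ≤ M

/-- Item HlS (MEDIUM), Sturm comparison. Right side: put `u x = 2 sin ((x - e) / 2)`,
`u' = cos ((x - e) / 2)`, `u'' = - u / 4`. As long as `S ≥ 0` on `[e, x]`, `x < e + 2π`, the
function `G u - S u'` has the derivative `(- q / 2 + 1 / 4) S u ≥ 0` and vanishes at `e`, so
`G u - S u' ≥ 0` and `S / u` is nondecreasing on `(e, x]`, with limit `1` at `e` (`S' e = 1`,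
`u' e = 1`), so `S ≥ u`. Let `x₀` be the supremum of the `x < e + 2π` with `S > 0` on `(e, x]`
(nonempty because `S' e = 1`); if `x₀ < e + 2π` then `S x₀ ≥ u x₀ > 0`, and `S > 0` on a larger
interval, a contradiction. (Avoiding the limit at `e`: it suffices to have `S ≥ (1 - ε) u` near
`e` for each `ε > 0`.) Left side: apply this to `x ↦ - S (2 e - x)`, `G (2 e - x)`,
`q (2 e - x)`. -/
def StHlS : Prop :=
  ∀ (q : ℝ → ℝ), (∀ x, q x ≤ 1 / 2) → ∀ (e : ℝ) (S G : ℝ → ℝ), S e = 0 → G e = 1 →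
    (∀ x, |x - e| ≤ 2 * Real.pi → HasDerivAt S (G x) x) →
    (∀ x, |x - e| ≤ 2 * Real.pi → HasDerivAt G (-(q x / 2) * S x) x) →
    (∀ x, e < x → x < e + 2 * Real.pi → 2 * Real.sin ((x - e) / 2) ≤ S x) ∧
      ∀ x, e - 2 * Real.pi < x → x < e → S x ≤ 2 * Real.sin ((x - e) / 2)

/-- Item Hl (EASY): HlE and HlS together. -/
def StHl : Prop :=
  ∀ K : ℝ, 0 ≤ K → ∃ M : ℝ, 0 < M ∧ ∀ q : ℝ → ℝ, Continuous q → (∀ x, |q x| ≤ K) →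
    (∀ x, q x ≤ 1 / 2) → ∀ e : ℝ, ∃ S G : ℝ → ℝ, IsHill q e M S G

/-- Item Ric (MEDIUM), the oscillation inequality; an adaptation of I_Osc.lean. Write `C = G / S`,
`D = G' / S'` (away from the poles), `n = nlAt F`, `Q = scB F q q'`; `C' = - q / 2 - C ^ 2`,
`n' = F''' / F' - n ^ 2`, so `Q = n' - n ^ 2 / 2 + q' (F x) F' ^ 2 - q x`, and
`R x = n x + 2 C x - 2 F' x * D (F x)` satisfies
`R' = n' - q - 2 C ^ 2 - 2 F'' D(F x) + F' ^ 2 (q' (F x) + 2 D(F x) ^ 2) = Q + R ^ 2 / 2 - 2 C R`.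
Case `σ = 1`: `Y = S ^ 2 R = S ^ 2 n + 2 S G - 2 F' G'(F x) S ^ 2 / S'(F x)` has
`Y' = S ^ 2 (Q + R ^ 2 / 2) ≥ 0` and tends to `0` at the pole `e` from both sides (as
`S x / S' (F x) → 1 / F' e`); so `Y b ≥ 0` if `e < b` and `Y b ≤ 0` if `b < e`.
Case `σ = -1`: `Z = - S'(F x) ^ 2 R / F'` has `Z' = S'(F x) ^ 2 / F' * (- Q + R ^ 2 / 2) ≥ 0` (as
in `StOsc`: `(S'(F x) ^ 2 / F')' = S'(F x) ^ 2 / F' * (2 F' D(F x) - n)`) and tends to `0` at `e`;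
so `Z b ≥ 0`, `R b ≤ 0` if `e < b`, and `Z b ≤ 0`, `R b ≥ 0` if `b < e`. -/
def StRic : Prop :=
  ∀ (σ : ℝ), (σ = 1 ∨ σ = -1) → ∀ (M : ℝ) (F q q' : ℝ → ℝ) (e : ℝ) (S G S' G' : ℝ → ℝ),
    ContDiff ℝ 3 F → (∀ x, 0 < deriv F x) → IsHill q e M S G → IsHill q' (F e) M S' G' →
    ∀ b : ℝ,
    (e < b → b - e < 2 * Real.pi → F b - F e < 2 * Real.pi →
      (∀ x ∈ Icc e b, 0 ≤ σ * scB F q q' x) →
      0 ≤ σ * (nlAt F b + 2 * (G b / S b) - 2 * deriv F b * (G' (F b) / S' (F b)))) ∧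
    (b < e → e - b < 2 * Real.pi → F e - F b < 2 * Real.pi →
      (∀ x ∈ Icc b e, 0 ≤ σ * scB F q q' x) →
      σ * (nlAt F b + 2 * (G b / S b) - 2 * deriv F b * (G' (F b) / S' (F b))) ≤ 0)

/-- Item HiB (EASY from Ric): Ric with the pole `l` at the point `x > l`, minus Ric with the pole
`r` at the point `x < r`; `nlAt F x` cancels; divide by `2`. -/
def StHiB : Prop :=
  ∀ (σ : ℝ), (σ = 1 ∨ σ = -1) → ∀ (M : ℝ) (F q q' : ℝ → ℝ) (l x r : ℝ)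
    (S G T U S' G' T' U' : ℝ → ℝ), ContDiff ℝ 3 F → (∀ x, 0 < deriv F x) →
    IsHill q l M S G → IsHill q r M T U → IsHill q' (F l) M S' G' → IsHill q' (F r) M T' U' →
    l < x → x < r → r - l < 2 * Real.pi → F r - F l < 2 * Real.pi →
    (∀ x ∈ Icc l r, 0 ≤ σ * scB F q q' x) →
    0 ≤ σ * ((G x / S x - U x / T x) -
      deriv F x * (G' (F x) / S' (F x) - U' (F x) / T' (F x)))

/-- Item CoB (EASY-MEDIUM), two solutions of the same equation. The Wronskian `S U - G T` has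
derivative `0` on the interval where both equations hold (it contains `[e, e']` and `x`), and its
value at `e'` is `S e'`. So `U / T - G / S = S e' / (S T)` at `x` whenever `S x`, `T x ≠ 0`. By
`pos`: `S e' ≥ 2 sin ((e' - e) / 2) ≥ 2 sin (δ / 2)` since `δ ≤ e' - e ≤ 2π - δ`; `|S|, |T| ≤ M`.
(1) `x > e'`: `S x, T x > 0`; (2) `x < e`: `S x, T x < 0`; so `c = 2 sin (δ / 2) / M ^ 2`.
(3) `e < x < e'`: `S x > 0 > T x`, `G / S - U / T = S e' / (S |T|)`, between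
`2 sin (δ / 2) / M ^ 2` and `M / (2 sin (δ / 2)) ^ 2` (as `S x ≥ 2 sin ((x - e) / 2)` and
`|T x| ≥ 2 sin ((e' - x) / 2)`, with both distances in `[δ, 2π - δ]`). If `δ > π` there are no such
`e, e'`: take any constants. -/
def StCoB : Prop :=
  ∀ M δ : ℝ, 0 < M → 0 < δ → ∃ c w W : ℝ, 0 < c ∧ 0 < w ∧ w ≤ W ∧
    ∀ (q : ℝ → ℝ) (e e' : ℝ) (S G T U : ℝ → ℝ), IsHill q e M S G → IsHill q e' M T U →
      e + δ ≤ e' → e' + δ ≤ e + 2 * Real.pi →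
      (∀ x, e' < x → x < e + 2 * Real.pi → G x / S x + c ≤ U x / T x) ∧
      (∀ x, x < e → e' - 2 * Real.pi < x → G x / S x + c ≤ U x / T x) ∧
      ∀ x, e + δ ≤ x → x + δ ≤ e' → w ≤ G x / S x - U x / T x ∧ G x / S x - U x / T x ≤ W

/-- Item ScCB (MEDIUM), projective one-sidedness, contracting; as I_ScC.lean. For each `k` choose
(Hl) the solutions `(S, G)_k^e` of the equation with `q k` for the poles `e = l k`, `r k` and, for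
`k ≥ 1`, `e = F_(k-1) (l (k-1))`, `F_(k-1) (r (k-1))`; write `C_k^e = G / S`. Put
`w k = C_k^(l k) (p k) - C_k^(r k) (p k) ∈ [w₀, W]` (CoB (3)). HiB (`σ = 1`, at `p k`):
`F_k' (p k) (C^(F l) (p (k+1)) - C^(F r) (p (k+1))) ≤ w k`, with `C = C_(k+1)`. By CoB (1) with
`e = l (k+1)`, `e' = F_k (l k)`: `C^(F l) ≥ C^(l (k+1)) + c` at `p (k+1)`; by CoB (2) with
`e = F_k (r k)`, `e' = r (k+1)`: `C^(F r) + c ≤ C^(r (k+1))`. So
`F_k' (p k) (w (k+1) + 2 c) ≤ w k`; conclude by Gau. (All distance conditions follow from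
`r k - l k ≤ 2π - δ`, `l k + δ ≤ p k ≤ r k - δ` and the monotonicity of `F_k`.) -/
def StScCB : Prop :=
  ∀ K δ : ℝ, 0 ≤ K → 0 < δ → ∃ C lam : ℝ, 0 < C ∧ 0 < lam ∧ lam < 1 ∧
    ∀ (F q : ℕ → ℝ → ℝ) (l p r : ℕ → ℝ), (∀ k, ContDiff ℝ 3 (F k)) → (∀ k x, 0 < deriv (F k) x) →
      (∀ k, Continuous (q k)) → (∀ k x, |q k x| ≤ K) → (∀ k x, q k x ≤ 1 / 2) →
      (∀ k, F k (p k) = p (k + 1)) → (∀ k, l k + δ ≤ p k) → (∀ k, p k + δ ≤ r k) →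
      (∀ k, r k - l k ≤ 2 * Real.pi - δ) → (∀ k, l (k + 1) + δ ≤ F k (l k)) →
      (∀ k, F k (r k) + δ ≤ r (k + 1)) →
      (∀ k, ∀ x ∈ Icc (l k) (r k), 0 ≤ scB (F k) (q k) (q (k + 1)) x) →
      ∀ n, ∏ i ∈ Finset.range n, deriv (F i) (p i) ≤ C * lam ^ n

/-- Item ScEB (MEDIUM), projective one-sidedness, expanding; as ScCB with `σ = -1`: HiB gives
`F_k' (p k) (C^(F l) (p (k+1)) - C^(F r) (p (k+1))) ≥ w k`. CoB (1) with `e = F_k (l k)`,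
`e' = l (k+1)`: `C^(F l) + c ≤ C^(l (k+1))` at `p (k+1)`
(`l (k+1) + δ ≤ p (k+1) < F_k (r k) < F_k (l k) + 2π`); CoB (2) with `e = r (k+1)`,
`e' = F_k (r k)`: `C^(r (k+1)) + c ≤ C^(F r)`
(`F_k (r k) + δ < F_k (l k) + 2π + δ ≤ l (k+1) + 2π ≤ r (k+1) + 2π`). So
`w k ≤ F_k' (p k) (w (k+1) - 2 c)`; conclude by Gau. -/
def StScEB : Prop :=
  ∀ K δ : ℝ, 0 ≤ K → 0 < δ → ∃ C lam : ℝ, 0 < C ∧ 0 < lam ∧ lam < 1 ∧
    ∀ (F q : ℕ → ℝ → ℝ) (l p r : ℕ → ℝ), (∀ k, ContDiff ℝ 3 (F k)) → (∀ k x, 0 < deriv (F k) x) →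
      (∀ k, Continuous (q k)) → (∀ k x, |q k x| ≤ K) → (∀ k x, q k x ≤ 1 / 2) →
      (∀ k, F k (p k) = p (k + 1)) → (∀ k, l k + δ ≤ p k) → (∀ k, p k + δ ≤ r k) →
      (∀ k, r k - l k ≤ 2 * Real.pi - δ) → (∀ k, F k (l k) + δ ≤ l (k + 1)) →
      (∀ k, r (k + 1) + δ ≤ F k (r k)) → (∀ k, F k (r k) - F k (l k) < 2 * Real.pi) →
      (∀ k, ∀ x ∈ Icc (l k) (r k), 0 ≤ -1 * scB (F k) (q k) (q (k + 1)) x) →
      ∀ n, 1 ≤ C * lam ^ n * ∏ i ∈ Finset.range n, deriv (F i) (p i)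

/-- Item KCB (EASY-MEDIUM), the same proof as KC (I_KC.lean), with CvB, ScCB; `τ / 4` in the place
of `δ`. -/
def StKCB : Prop :=
  ∀ (k : KdB) (K τ Λ : ℝ), 0 ≤ K → 0 < τ → ∃ C lam : ℝ, 0 < C ∧ 0 < lam ∧ lam < 1 ∧
    ∀ (L a : ℕ → ℝ → ℝ) (N : ℕ), Ext L N τ Λ → (∀ j, ContDiff ℝ 2 (L j)) → k.ok L a →
      (∀ j, Continuous (a j)) → (∀ j θ, |a j θ| ≤ K) →
      ∏ i ∈ Finset.range N, deriv (L i) 0 < 1 →
      (∀ s, |s| < τ → ∀ θ, orb L s N θ = θ →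
        ∏ i ∈ Finset.range N, deriv (L i) (orb L s i θ) < 1 →
          ∀ i, k.at 1 (L i) (a i) (a (i + 1)) (orb L s i θ)) →
      ∀ n, ∏ i ∈ Finset.range n, deriv (L i) 0 ≤ C * lam ^ n

/-- Item KEB (EASY-MEDIUM), the same proof as KE (I_KE.lean), with CvBE, ScEB. -/
def StKEB : Prop :=
  ∀ (k : KdB) (K τ Λ : ℝ), 0 ≤ K → 0 < τ → 0 < Λ → ∃ C lam : ℝ, 0 < C ∧ 0 < lam ∧ lam < 1 ∧
    ∀ (L a : ℕ → ℝ → ℝ) (N : ℕ), Ext L N τ Λ → (∀ j, ContDiff ℝ 2 (L j)) → k.ok L a →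
      (∀ j, Continuous (a j)) → (∀ j θ, |a j θ| ≤ K) →
      1 < ∏ i ∈ Finset.range N, deriv (L i) 0 →
      (∀ s, |s| < τ → ∀ θ, orb L s N θ = θ →
        1 < ∏ i ∈ Finset.range N, deriv (L i) (orb L s i θ) →
          ∀ i, k.at (-1) (L i) (a i) (a (i + 1)) (orb L s i θ)) →
      ∀ n, 1 ≤ C * lam ^ n * ∏ i ∈ Finset.range n, deriv (L i) 0

end Pool.Agent.OmegaStability.OS
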