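import Mathlib
import Pool.Agent.Work.MP_814647_an.OS.StmtsB

/-!
Block OS2, item HlE: existence of the solution of Hill's equation, in polar coordinates.
-/

set_option autoImplicit false

open Set Filter Topology Function

noncomputable section

namespace Pool.Agent.OmegaStability.OS

namespace I_HlE

/-- the field for the angle -/
def fld (q : ℝ → ℝ) (t θ : ℝ) : ℝ := Real.cos θ ^ 2 + q t / 2 * Real.sin θ ^ 2

theorem fld_lip (K : ℝ) (q : ℝ → ℝ) (hq : ∀ x, |q x| ≤ K) (t x y : ℝ) :
    |fld q t x - fld q t y| ≤ (1 + K) * |x - y| := by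
  have hK : 0 ≤ K := (abs_nonneg _).trans (hq 0)
  have e : fld q t x - fld q t y = (q t / 2 - 1) * (Real.sin (x + y) * Real.sin (x - y)) := by
    unfold fld
    have h1 := Real.sin_sq_add_cos_sq x
    have h2 := Real.sin_sq_add_cos_sq y
    rw [Real.sin_add, Real.sin_sub]
    have h3 : Real.cos x ^ 2 = 1 - Real.sin x ^ 2 := by linarith
    have h4 : Real.cos y ^ 2 = 1 - Real.sin y ^ 2 := by linarith
    linear_combination (1 + (1 - q t / 2) * (-Real.sin y ^ 2)) * h3 +
      (-1 + (1 - q t / 2) * Real.sin x ^ 2) * h4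
  rw [e, abs_mul, abs_mul]
  have h1 : |q t / 2 - 1| ≤ 1 + K := by
    have h2 := abs_le.1 (hq t)
    rw [abs_le]
    constructor <;> linarith [h2.1, h2.2]
  have h2 : |Real.sin (x + y)| ≤ 1 := Real.abs_sin_le_one _
  have h3 : |Real.sin (x - y)| ≤ |x - y| := Real.abs_sin_le_abs
  have h4 : |Real.sin (x + y)| * |Real.sin (x - y)| ≤ 1 * |x - y| :=
    mul_le_mul h2 h3 (abs_nonneg _) zero_le_one
  rw [one_mul] at h4
  exact mul_le_mul h1 h4 (by positivity) (by linarith)

theorem fld_bd (K : ℝ) (q : ℝ → ℝ) (hq : ∀ x, |q x| ≤ K) (t x : ℝ) : |fld q t x| ≤ 1 + K := by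
  have h2 := abs_le.1 (hq t)
  have hK : 0 ≤ K := (abs_nonneg _).trans (hq 0)
  have h3 := Real.sin_sq_add_cos_sq x
  have h4 := sq_nonneg (Real.sin x)
  have h5 := sq_nonneg (Real.cos x)
  have h6 : Real.sin x ^ 2 ≤ 1 := by linarith
  unfold fld
  rw [abs_le]
  constructor
  · nlinarith [h2.1, mul_nonneg h4 (by linarith [h2.1] : (0 : ℝ) ≤ q t + K)]
  · nlinarith [h2.2, mul_nonneg h4 (by linarith [h2.2] : (0 : ℝ) ≤ K - q t)]

theorem angle (K : ℝ) (hK : 0 ≤ K) (q : ℝ → ℝ) (hc : Continuous q) (hq : ∀ x, |q x| ≤ K) (e : ℝ) :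
    ∃ α : ℝ → ℝ, α e = 0 ∧ ∀ t ∈ Icc (e - 7) (e + 7),
      HasDerivWithinAt α (fld q t (α t)) (Icc (e - 7) (e + 7)) t := by
  let Kn : NNReal := ⟨1 + K, by linarith⟩
  have hKn : (Kn : ℝ) = 1 + K := rfl
  have he : e ∈ Icc (e - 7) (e + 7) := ⟨by linarith, by linarith⟩
  have hPL : IsPicardLindelof (fld q) (⟨e, he⟩ : Icc (e - 7) (e + 7)) (0 : ℝ) (Kn * 7) 0 Kn Kn := by
    constructor
    · intro t _
      refine LipschitzWith.lipschitzOnWith (LipschitzWith.of_dist_le_mul fun x y => ?_)
      rw [Real.dist_eq, Real.dist_eq, hKn]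
      exact fld_lip K q hq t x y
    · intro x _
      have : Continuous fun t => fld q t x := by
        unfold fld
        fun_prop
      exact this.continuousOn
    · intro t _ x _
      rw [Real.norm_eq_abs, hKn]
      exact fld_bd K q hq t x
    · have h1 : max (e + 7 - e) (e - (e - 7)) = 7 := by
        rw [show e + 7 - e = 7 by ring, show e - (e - 7) = 7 by ring, max_self]
      show (Kn : ℝ) * max (e + 7 - e) (e - (e - 7)) ≤ ((Kn * 7 : NNReal) : ℝ) - ((0 : NNReal) : ℝ)
      rw [h1]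
      push_cast
      linarith
  exact hPL.exists_eq_forall_mem_Icc_hasDerivWithinAt₀

end I_HlE

open I_HlE in
theorem pr_HlE : StHlE := by
  intro K hK
  refine ⟨Real.exp ((1 + K) * 7), Real.exp_pos _, fun q hc hq e => ?_⟩
  obtain ⟨α, hα0, hα⟩ := angle K hK q hc hq e
  have hle : e - 7 ≤ e + 7 := by linarith
  have hαc : ContinuousOn α (Icc (e - 7) (e + 7)) := fun t ht => (hα t ht).continuousWithinAt
  let β : ℝ → ℝ := IccExtend hle (fun t => α t)
  have hβc : Continuous β := (continuousOn_iff_continuous_domRestrict.1 hαc).Icc_extend'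
  have hβ : ∀ x ∈ Icc (e - 7) (e + 7), β x = α x := fun x hx => IccExtend_of_mem hle _ hx
  let h : ℝ → ℝ := fun s => (1 - q s / 2) * (Real.sin (β s) * Real.cos (β s))
  have hh : Continuous h := by
    show Continuous fun s => (1 - q s / 2) * (Real.sin (β s) * Real.cos (β s))
    fun_prop
  let ρ : ℝ → ℝ := fun x => Real.exp (∫ s in e..x, h s)
  have hρ : ∀ x, HasDerivAt ρ (ρ x * h x) x := by
    intro x
    exact ((hh.integral_hasStrictDerivAt e x).hasDerivAt).exp
  have hin : ∀ x, |x - e| ≤ 2 * Real.pi → x ∈ Ioo (e - 7) (e + 7) := by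
    intro x hx
    have h1 := abs_le.1 hx
    have h2 := Real.pi_lt_d2
    constructor <;> linarith [h1.1, h1.2]
  have hαd : ∀ x, |x - e| ≤ 2 * Real.pi → HasDerivAt α (fld q x (α x)) x := by
    intro x hx
    have h1 := hin x hx
    exact (hα x (Ioo_subset_Icc_self h1)).hasDerivAt (Icc_mem_nhds h1.1 h1.2)
  refine ⟨fun x => ρ x * Real.sin (α x), fun x => ρ x * Real.cos (α x), ?_, ?_, ?_, ?_, ?_⟩
  · show ρ e * Real.sin (α e) = 0
    rw [hα0, Real.sin_zero, mul_zero]
  · show Real.exp (∫ s in e..e, h s) * Real.cos (α e) = 1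
    rw [hα0, Real.cos_zero, intervalIntegral.integral_same, Real.exp_zero, mul_one]
  · intro x hx
    have h1 := (hρ x).mul (hαd x hx).sin
    have h2 : h x = (1 - q x / 2) * (Real.sin (α x) * Real.cos (α x)) := by
      show (1 - q x / 2) * (Real.sin (β x) * Real.cos (β x)) = _
      rw [hβ x (Ioo_subset_Icc_self (hin x hx))]
    have h3 : ρ x * h x * Real.sin (α x) + ρ x * (Real.cos (α x) * fld q x (α x)) =
        ρ x * Real.cos (α x) := by
      rw [h2]
      unfold fld
      have h4 := Real.sin_sq_add_cos_sq (α x)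
      linear_combination (ρ x * Real.cos (α x)) * h4
    rw [h3] at h1
    exact h1
  · intro x hx
    have h1 := (hρ x).mul (hαd x hx).cos
    have h2 : h x = (1 - q x / 2) * (Real.sin (α x) * Real.cos (α x)) := by
      show (1 - q x / 2) * (Real.sin (β x) * Real.cos (β x)) = _
      rw [hβ x (Ioo_subset_Icc_self (hin x hx))]
    have h3 : ρ x * h x * Real.cos (α x) + ρ x * (-Real.sin (α x) * fld q x (α x)) =
        -(q x / 2) * (ρ x * Real.sin (α x)) := by
      rw [h2]
      unfold fld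
      have h4 := Real.sin_sq_add_cos_sq (α x)
      linear_combination (-(q x / 2) * ρ x * Real.sin (α x)) * h4
    rw [h3] at h1
    exact h1
  · intro x hx
    show |ρ x * Real.sin (α x)| ≤ _
    rw [abs_mul]
    have h1 : |ρ x| = ρ x := abs_of_pos (Real.exp_pos _)
    have h2 : ρ x ≤ Real.exp ((1 + K) * 7) := by
      apply Real.exp_le_exp.2
      have h3 : ‖∫ s in e..x, h s‖ ≤ (1 + K) * |x - e| := by
        apply intervalIntegral.norm_integral_le_of_norm_le_const
        intro s _
        rw [Real.norm_eq_abs]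
        show |(1 - q s / 2) * (Real.sin (β s) * Real.cos (β s))| ≤ 1 + K
        rw [abs_mul, abs_mul]
        have h4 : |1 - q s / 2| ≤ 1 + K := by
          have h2 := abs_le.1 (hq s)
          rw [abs_le]
          constructor <;> linarith [h2.1, h2.2]
        have h5 : |Real.sin (β s)| * |Real.cos (β s)| ≤ 1 * 1 :=
          mul_le_mul (Real.abs_sin_le_one _) (Real.abs_cos_le_one _) (abs_nonneg _) zero_le_one
        calc |1 - q s / 2| * (|Real.sin (β s)| * |Real.cos (β s)|) ≤ (1 + K) * (1 * 1) :=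
              mul_le_mul h4 h5 (by positivity) (by linarith)
          _ = 1 + K := by ring
      have h4 : |x - e| ≤ 7 := hx.trans (by linarith [Real.pi_lt_d2])
      calc (∫ s in e..x, h s) ≤ ‖∫ s in e..x, h s‖ := Real.le_norm_self _
        _ ≤ (1 + K) * |x - e| := h3
        _ ≤ (1 + K) * 7 := mul_le_mul_of_nonneg_left h4 (by linarith)
    calc |ρ x| * |Real.sin (α x)| ≤ |ρ x| * 1 :=
          mul_le_mul_of_nonneg_left (Real.abs_sin_le_one _) (abs_nonneg _)
      _ = ρ x := by rw [mul_one, h1]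
      _ ≤ _ := h2

end Pool.Agent.OmegaStability.OS
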