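import Pool.Agent.Work.MP_814647_an.OS.StmtsB

/-!
# Block OS2 of MP_814647_an, item HlS: Sturm comparison
-/

set_option autoImplicit false

open Set Filter Topology Function
open scoped Manifold ContDiff

noncomputable section

namespace Pool.Agent.OmegaStability.OS

open Dens

namespace I_HlS

theorem du (e x : ℝ) : HasDerivAt (fun y => 2 * Real.sin ((y - e) / 2)) (Real.cos ((x - e) / 2)) x := by
  have h1 : HasDerivAt (fun y : ℝ => (y - e) / 2) (1 / 2) x :=
    ((hasDerivAt_id x).sub_const e).div_const 2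
  have h2 := (h1.sin).const_mul 2
  refine h2.congr_deriv ?_
  ring

theorem dc (e x : ℝ) : HasDerivAt (fun y => Real.cos ((y - e) / 2))
    (-(Real.sin ((x - e) / 2)) / 2) x := by
  have h1 : HasDerivAt (fun y : ℝ => (y - e) / 2) (1 / 2) x :=
    ((hasDerivAt_id x).sub_const e).div_const 2
  refine h1.cos.congr_deriv ?_
  ring

theorem right_r {q : ℝ → ℝ} (hq : ∀ x, q x ≤ 1 / 2) {e : ℝ} {S G : ℝ → ℝ} (hS0 : S e = 0)
    (hG0 : G e = 1)
    (dS : ∀ x, |x - e| ≤ 2 * Real.pi → HasDerivAt S (G x) x)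
    (dG : ∀ x, |x - e| ≤ 2 * Real.pi → HasDerivAt G (-(q x / 2) * S x) x)
    {r : ℝ} (hr0 : 0 ≤ r) (hr1 : r < 1) {x : ℝ} (hx0 : e < x) (hx1 : x < e + 2 * Real.pi) :
    r * (2 * Real.sin ((x - e) / 2)) ≤ S x := by
  have hpi := Real.pi_pos
  have hab : ∀ y ∈ Icc e x, |y - e| ≤ 2 * Real.pi := fun y hy => by
    rw [abs_of_nonneg (by linarith [hy.1])]
    linarith [hy.2]
  have hup : ∀ y, e < y → y ≤ x → 0 < 2 * Real.sin ((y - e) / 2) := fun y h1 h2 => by
    have := Real.sin_pos_of_pos_of_lt_pi (x := (y - e) / 2) (by linarith) (by linarith)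
    linarith
  by_contra hcon
  push Not at hcon
  -- near the pole
  have hD : HasDerivAt (fun y => S y - r * (2 * Real.sin ((y - e) / 2))) (1 - r) e := by
    have h1 := (dS e (by simp; positivity)).fun_sub ((du e e).const_mul r)
    refine h1.congr_deriv ?_
    rw [hG0]
    simp
  have hsl : ∀ᶠ y in 𝓝[>] e, 0 < S y - r * (2 * Real.sin ((y - e) / 2)) := by
    have h1 := (hasDerivAt_iff_tendsto_slope.1 hD).mono_left
      (nhdsWithin_mono e (fun y (hy : y ∈ Ioi e) => (ne_of_gt hy : y ≠ e)))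
    have h2 : ∀ᶠ y in 𝓝[>] e, 0 < slope (fun y => S y - r * (2 * Real.sin ((y - e) / 2))) e y :=
      h1.eventually (lt_mem_nhds (by linarith))
    filter_upwards [h2, self_mem_nhdsWithin] with y hy hye
    rw [slope_def_field, hS0] at hy
    simp only [sub_self, zero_div, Real.sin_zero, mul_zero, sub_zero] at hy
    have h3 : 0 < y - e := sub_pos.2 hye
    exact (div_pos_iff_of_pos_right h3).1 hy
  obtain ⟨η, hη0, hη⟩ : ∃ η, e < η ∧ ∀ y, e < y → y ≤ η →
      0 < S y - r * (2 * Real.sin ((y - e) / 2)) := by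
    obtain ⟨b, hb, hsub⟩ := (mem_nhdsGT_iff_exists_Ioc_subset).1 hsl
    exact ⟨b, hb, fun y h1 h2 => hsub ⟨h1, h2⟩⟩
  have hηx : η < x := by
    by_contra hc
    push Not at hc
    have := hη x hx0 hc
    linarith
  have cS : ∀ y ∈ Icc e x, ContinuousAt S y := fun y hy => (dS y (hab y hy)).continuousAt
  -- the first bad point
  have hcp : IsCompact {y | y ∈ Icc η x ∧ S y ≤ r * (2 * Real.sin ((y - e) / 2))} := by
    have h1 : IsClosed {y | y ∈ Icc η x ∧ S y ≤ r * (2 * Real.sin ((y - e) / 2))} := by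
      refine isClosed_Icc.isClosed_le (f := S) (g := fun y => r * (2 * Real.sin ((y - e) / 2)))
        (fun y hy => (cS y ⟨by linarith [hy.1], hy.2⟩).continuousWithinAt) ?_
      fun_prop
    exact isCompact_Icc.of_isClosed_subset h1 fun y hy => hy.1
  obtain ⟨x1, hx1m, hx1l⟩ := hcp.exists_isLeast ⟨x, ⟨hηx.le, le_rfl⟩, hcon.le⟩
  have hx1e : e < x1 := lt_of_lt_of_le hη0 hx1m.1.1
  have hx1x : x1 ≤ x := hx1m.1.2
  have hgood : ∀ y, e < y → y < x1 → r * (2 * Real.sin ((y - e) / 2)) < S y := by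
    intro y h1 h2
    rcases le_or_gt y η with h3 | h3
    · linarith [hη y h1 h3]
    · by_contra hc
      push Not at hc
      have := hx1l (show y ∈ {y | y ∈ Icc η x ∧ S y ≤ r * (2 * Real.sin ((y - e) / 2))} from
        ⟨⟨h3.le, by linarith⟩, hc⟩)
      linarith
  have hηx1 : η < x1 := by
    refine lt_of_le_of_ne hx1m.1.1 ?_
    rintro rfl
    have h1 := hη η hη0 le_rfl
    have h2 := hx1m.2
    linarith
  -- the Wronskian
  have hW : MonotoneOn (fun y => G y * (2 * Real.sin ((y - e) / 2)) -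
      S y * Real.cos ((y - e) / 2)) (Icc e x1) := by
    have hd : ∀ y ∈ Icc e x1, HasDerivAt (fun y => G y * (2 * Real.sin ((y - e) / 2)) -
      S y * Real.cos ((y - e) / 2)) ((1 / 4 - q y / 2) * S y * (2 * Real.sin ((y - e) / 2))) y := by
      intro y hy
      have hy' : y ∈ Icc e x := ⟨hy.1, hy.2.trans hx1x⟩
      have h1 := ((dG y (hab y hy')).fun_mul (du e y)).fun_sub
        ((dS y (hab y hy')).fun_mul (dc e y))
      refine h1.congr_deriv ?_
      ring
    refine monotoneOn_of_deriv_nonneg (convex_Icc e x1)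
      (fun y hy => (hd y hy).continuousAt.continuousWithinAt)
      (fun y hy => (hd y (interior_subset hy)).differentiableAt.differentiableWithinAt)
      fun y hy => ?_
    rw [(hd y (interior_subset hy)).deriv]
    rw [interior_Icc] at hy
    have h1 := hup y hy.1 (hy.2.le.trans hx1x)
    have h2 := hgood y hy.1 hy.2
    have h3 : 0 ≤ r * (2 * Real.sin ((y - e) / 2)) := mul_nonneg hr0 h1.le
    have h4 := hq y
    refine mul_nonneg (mul_nonneg (by linarith) (by linarith)) h1.le
  have hW0 : ∀ y ∈ Icc e x1, 0 ≤ G y * (2 * Real.sin ((y - e) / 2)) -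
      S y * Real.cos ((y - e) / 2) := by
    intro y hy
    have h1 := hW (left_mem_Icc.2 hx1e.le) hy hy.1
    simpa [hS0] using h1
  -- the quotient
  have hQ : MonotoneOn (fun y => S y / (2 * Real.sin ((y - e) / 2))) (Icc η x1) := by
    have hd : ∀ y ∈ Icc η x1, HasDerivAt (fun y => S y / (2 * Real.sin ((y - e) / 2)))
        ((G y * (2 * Real.sin ((y - e) / 2)) - S y * Real.cos ((y - e) / 2)) /
          (2 * Real.sin ((y - e) / 2)) ^ 2) y := by
      intro y hy
      have hy' : y ∈ Icc e x := ⟨by linarith [hy.1], hy.2.trans hx1x⟩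
      exact (dS y (hab y hy')).fun_div (du e y)
        (hup y (by linarith [hy.1]) (hy.2.trans hx1x)).ne'
    refine monotoneOn_of_deriv_nonneg (convex_Icc η x1)
      (fun y hy => (hd y hy).continuousAt.continuousWithinAt)
      (fun y hy => (hd y (interior_subset hy)).differentiableAt.differentiableWithinAt)
      fun y hy => ?_
    rw [(hd y (interior_subset hy)).deriv]
    have hy' := interior_subset hy
    exact div_nonneg (hW0 y ⟨by linarith [hy'.1], hy'.2⟩) (sq_nonneg _)
  have h1 := hQ (left_mem_Icc.2 hηx1.le) (right_mem_Icc.2 hηx1.le) hηx1.le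
  have h2 := hη η hη0 le_rfl
  have h3 : r < S η / (2 * Real.sin ((η - e) / 2)) := by
    rw [lt_div_iff₀ (hup η hη0 hηx.le)]
    linarith
  have h4 : S x1 / (2 * Real.sin ((x1 - e) / 2)) ≤ r := by
    rw [div_le_iff₀ (hup x1 hx1e hx1x)]
    exact hx1m.2
  simp only at h1
  linarith

theorem right {q : ℝ → ℝ} (hq : ∀ x, q x ≤ 1 / 2) {e : ℝ} {S G : ℝ → ℝ} (hS0 : S e = 0)
    (hG0 : G e = 1)
    (dS : ∀ x, |x - e| ≤ 2 * Real.pi → HasDerivAt S (G x) x)
    (dG : ∀ x, |x - e| ≤ 2 * Real.pi → HasDerivAt G (-(q x / 2) * S x) x)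
    {x : ℝ} (hx0 : e < x) (hx1 : x < e + 2 * Real.pi) :
    2 * Real.sin ((x - e) / 2) ≤ S x := by
  have hu : 0 < 2 * Real.sin ((x - e) / 2) := by
    have := Real.sin_pos_of_pos_of_lt_pi (x := (x - e) / 2) (by linarith) (by linarith)
    linarith
  have h0 := right_r hq hS0 hG0 dS dG le_rfl zero_lt_one hx0 hx1
  rw [zero_mul] at h0
  by_contra hc
  push Not at hc
  set u := 2 * Real.sin ((x - e) / 2) with hudef
  have h1 := right_r hq hS0 hG0 dS dG (r := (S x + u) / (2 * u)) (by positivity)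
    (by rw [div_lt_one (by positivity)]; linarith) hx0 hx1
  rw [← hudef] at h1
  have h2 : (S x + u) / (2 * u) * u = (S x + u) / 2 := by
    field_simp
  rw [h2] at h1
  linarith

end I_HlS

open I_HlS in
theorem pr_HlS : StHlS := by
  intro q hq e S G hS0 hG0 dS dG
  refine ⟨fun x h0 h1 => right hq hS0 hG0 dS dG h0 h1, fun x h0 h1 => ?_⟩
  have hab : ∀ y, |y - e| ≤ 2 * Real.pi → |(2 * e - y) - e| ≤ 2 * Real.pi := fun y hy => by
    rwa [show (2 * e - y) - e = -(y - e) by ring, abs_neg]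
  have hr : ∀ y : ℝ, HasDerivAt (fun y => 2 * e - y) (-1) y := fun y => by
    simpa using (hasDerivAt_id y).const_sub (2 * e)
  have h2 := right (q := fun y => q (2 * e - y)) (S := fun y => - S (2 * e - y))
    (G := fun y => G (2 * e - y)) (e := e) (x := 2 * e - x) (fun y => hq _)
    (by simp [two_mul, hS0]) (by simp [two_mul, hG0])
    (fun y hy => by
      have h3 := ((dS (2 * e - y) (hab y hy)).comp y (hr y)).neg
      refine h3.congr_deriv ?_
      ring)
    (fun y hy => by
      have h3 := (dG (2 * e - y) (hab y hy)).comp y (hr y)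
      refine h3.congr_deriv ?_
      ring) (by linarith) (by linarith)
  simp only [sub_sub_cancel] at h2
  have h4 : Real.sin ((2 * e - x - e) / 2) = -Real.sin ((x - e) / 2) := by
    rw [← Real.sin_neg]
    congr 1
    ring
  rw [h4] at h2
  linarith

end Pool.Agent.OmegaStability.OS
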