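import Pool.Agent.Work.MP_814647_an.OS.StmtsC

/-!
# Circle extensions with one-sided structure functions, item HyU: hyperbolicity implies the
# uniform estimates along the circles
-/

set_option autoImplicit false

open Set Filter Topology Function
open scoped Manifold ContDiff

noncomputable section

namespace Pool.Agent.OmegaStability.OS

open Dens

universe u v

namespace I_HyU

open Pool.Agent.OmegaStab (EE)
open Pool.Agent.OmegaStab.FinHyp (der)

variable {d : ℕ} {N : Type*} [MetricSpace N] [ChartedSpace (EE d) N]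

theorem mdiff_iter {g : N → N} (hg : MDifferentiable (𝓡 d) (𝓡 d) g) (n : ℕ) :
    MDifferentiable (𝓡 d) (𝓡 d) g^[n] := OmegaStab.FinHyp.mdiff_iter hg n

/-- The derivatives of inverse maps. -/
theorem der_inv {g g' : N → N} (hg : MDifferentiable (𝓡 d) (𝓡 d) g)
    (hg' : MDifferentiable (𝓡 d) (𝓡 d) g') (h : ∀ y, g' (g y) = y) (n : ℕ) (x : N) (v : EE d) :
    der (d := d) g'^[n] (g^[n] x) (der (d := d) g^[n] x v) = v := by
  have h1 := OmegaStab.FinHyp.der_comp (mdiff_iter hg' n) (mdiff_iter hg n) x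
  have h2 : g'^[n] ∘ g^[n] = id := by
    funext y
    exact (LeftInverse.iterate h n) y
  rw [h2, OmegaStab.FinHyp.der_id] at h1
  exact (DFunLike.congr_fun h1 v).symm

/-- Invariant families are invariant under the iterates. -/
theorem inv_iter {g : N → N} (hg : MDifferentiable (𝓡 d) (𝓡 d) g) {Λ : Set N}
    (hΛ : ∀ x ∈ Λ, g x ∈ Λ) {V : TFamily (EE d) N} (hV : InvariantOver g V Λ) (n : ℕ) :
    ∀ x ∈ Λ, ∀ v ∈ V x, g^[n] x ∈ Λ ∧ der (d := d) g^[n] x v ∈ V (g^[n] x) := by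
  induction n with
  | zero =>
    intro x hx v hv
    refine ⟨hx, ?_⟩
    have : der (d := d) g^[0] x v = v := by
      have := OmegaStab.FinHyp.der_id (d := d) x
      exact DFunLike.congr_fun this v
    rw [this]
    exact hv
  | succ n ih =>
    intro x hx v hv
    obtain ⟨h1, h2⟩ := ih (g x) (hΛ x hx) _ (hV x hx v hv)
    rw [Function.iterate_succ, OmegaStab.FinHyp.der_comp (mdiff_iter hg n) hg]
    exact ⟨h1, h2⟩

/-- The components of an eigenvector are eigenvectors. -/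
theorem split_eig {V : Type*} [NormedAddCommGroup V] [NormedSpace ℝ V] {S U : Submodule ℝ V}
    (h : IsCompl S U) {D : V →L[ℝ] V} {c : ℝ}
    {s u : V} (hs : s ∈ S) (hu : u ∈ U) (hDs : D s ∈ S) (hDu : D u ∈ U)
    (hD : D (s + u) = c • (s + u)) : D s = c • s ∧ D u = c • u := by
  rw [map_add, smul_add] at hD
  have h1 : D s - c • s = c • u - D u := by
    rw [sub_eq_sub_iff_add_eq_add, hD]
    abel
  have h2 : D s - c • s ∈ S := S.sub_mem hDs (S.smul_mem c hs)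
  have h3 : D s - c • s ∈ U := by
    rw [h1]
    exact U.sub_mem (U.smul_mem c hu) hDu
  have h4 : D s - c • s = 0 := by
    have := h.disjoint.le_bot ⟨h2, h3⟩
    simpa using this
  refine ⟨sub_eq_zero.1 h4, ?_⟩
  rw [h4] at h1
  exact (sub_eq_zero.1 h1.symm).symm

theorem zero_of_small {a c q : ℝ} (hq0 : 0 ≤ q) (hq : q < 1) (h : ∀ k : ℕ, a ≤ c * q ^ k * a) :
    a ≤ 0 := by
  have h3 : Tendsto (fun k : ℕ => c * q ^ k * a) atTop (𝓝 (c * 0 * a)) :=
    ((tendsto_pow_atTop_nhds_zero_of_lt_one hq0 hq).const_mul c).mul_const a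
  have h4 := ge_of_tendsto' h3 h
  simpa using h4

theorem rotated_zero {M : Type*} [MulAction Circle M] (f : M → M) : rotated f 0 = f := by
  funext y
  simp [rotated]

theorem per_map {M : Type*} {f : M → M} {n : ℕ} {x : M} (h : f^[n] x = x) :
    f^[n] (f x) = f x := by
  rw [← Function.iterate_succ_apply, Function.iterate_succ_apply', h]

/-- The abstract form of the argument. -/
structure Dat {M V : Type*} [NormedAddCommGroup V] [NormedSpace ℝ V] (f f' : M → M)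
    (D D' : ℕ → M → V →L[ℝ] V) (Es Eu : M → Submodule ℝ V) (R : M → V → ℝ) (g : M → V)
    (Dm : M → ℝ) (c₀ μ a b : ℝ) : Prop where
  inv : ∀ y, f' (f y) = y
  zero : ∀ y v, D 0 y v = v
  add : ∀ n k y v, D (n + k) y v = D n (f^[k] y) (D k y v)
  one : ∀ y, D 1 y (g y) = Dm y • g (f y)
  back : ∀ n y v, D' n (f^[n] y) (D n y v) = v
  sm : ∀ y (t : ℝ) w, R y (t • w) = |t| * R y w
  nn : ∀ y w, 0 ≤ R y w
  nz : ∀ y w, R y w ≤ 0 → w = 0
  pos : ∀ y, 0 < Dm y
  lo : ∀ y, a ≤ R y (g y)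
  up : ∀ y, R y (g y) ≤ b
  cpl : ∀ y, (∃ n > 0, f^[n] y = y) → IsCompl (Es y) (Eu y)
  invs : ∀ n y, (∃ n > 0, f^[n] y = y) → ∀ v ∈ Es y, D n y v ∈ Es (f^[n] y)
  invu : ∀ n y, (∃ n > 0, f^[n] y = y) → ∀ v ∈ Eu y, D n y v ∈ Eu (f^[n] y)
  cs : ∀ n y, (∃ n > 0, f^[n] y = y) → ∀ v ∈ Es y, R (f^[n] y) (D n y v) ≤ c₀ * μ ^ n * R y v
  cu : ∀ n y, (∃ n > 0, f^[n] y = y) → ∀ v ∈ Eu y, R (f'^[n] y) (D' n y v) ≤ c₀ * μ ^ n * R y v

section abs

variable {M V : Type*} [NormedAddCommGroup V] [NormedSpace ℝ V] {f f' : M → M}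
    {D D' : ℕ → M → V →L[ℝ] V} {Es Eu : M → Submodule ℝ V} {R : M → V → ℝ} {g : M → V}
    {Dm : M → ℝ} {c₀ μ a b : ℝ}

theorem Dat.iter (H : Dat f f' D D' Es Eu R g Dm c₀ μ a b) (n : ℕ) (y : M) :
    D n y (g y) = (∏ i ∈ Finset.range n, Dm (f^[i] y)) • g (f^[n] y) := by
  induction n with
  | zero => rw [Finset.prod_range_zero, one_smul, H.zero]; rfl
  | succ n ih =>
    rw [Nat.add_comm n 1, H.add 1 n y, ih, map_smul, H.one, smul_smul, Nat.add_comm 1 n,
      Finset.prod_range_succ, Function.iterate_succ_apply']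

theorem Dat.powr (H : Dat f f' D D' Es Eu R g Dm c₀ μ a b) {n : ℕ} {x : M}
    (hx : f^[n] x = x) {v : V} {c : ℝ} (hv : D n x v = c • v) (k : ℕ) :
    f^[n * k] x = x ∧ D (n * k) x v = c ^ k • v := by
  induction k with
  | zero =>
    refine ⟨rfl, ?_⟩
    rw [pow_zero, one_smul, Nat.mul_zero, H.zero]
  | succ k ih =>
    obtain ⟨h1, h2⟩ := ih
    have e1 : n * (k + 1) = n + n * k := by ring
    refine ⟨?_, ?_⟩
    · rw [e1, Function.iterate_add_apply, h1, hx]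
    · rw [e1, H.add, h1, h2, map_smul, hv, smul_smul, pow_succ]

theorem Dat.prod_pos (H : Dat f f' D D' Es Eu R g Dm c₀ μ a b) (n : ℕ) (y : M) :
    0 < ∏ i ∈ Finset.range n, Dm (f^[i] y) := Finset.prod_pos fun i _ => H.pos _

theorem Dat.split (H : Dat f f' D D' Es Eu R g Dm c₀ μ a b) {y : M} {n : ℕ} (hn : 0 < n)
    (hy : f^[n] y = y) : ∃ s ∈ Es y, ∃ w ∈ Eu y, g y = s + w ∧
      D n y s = (∏ i ∈ Finset.range n, Dm (f^[i] y)) • s ∧
      D n y w = (∏ i ∈ Finset.range n, Dm (f^[i] y)) • w := by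
  have hyP : ∃ n > 0, f^[n] y = y := ⟨n, hn, hy⟩
  have hcy := H.cpl y hyP
  have hv : g y ∈ Es y ⊔ Eu y := hcy.sup_eq_top ▸ Submodule.mem_top
  obtain ⟨s, hs', w, hw', hsw⟩ := Submodule.mem_sup.1 hv
  have h1 := H.invs n y hyP s hs'
  have h2 := H.invu n y hyP w hw'
  have h3 := H.iter n y
  rw [hy] at h1 h2 h3
  rw [← hsw] at h3
  have h4 := split_eig hcy hs' hw' h1 h2 h3
  exact ⟨s, hs', w, hw', hsw.symm, h4.1, h4.2⟩

theorem Dat.contr (H : Dat f f' D D' Es Eu R g Dm c₀ μ a b) (hc₀ : 0 < c₀) (hμ : 0 < μ)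
    (hμ1 : μ < 1) (ha0 : 0 < a) {y : M} {k : ℕ} (hk : 0 < k) (hyk : f^[k] y = y)
    (hprod : ∏ i ∈ Finset.range k, Dm (f^[i] y) < 1) (n : ℕ) :
    ∏ i ∈ Finset.range n, Dm (f^[i] y) ≤ c₀ * b / a * μ ^ n := by
  have hyP : ∃ n > 0, f^[n] y = y := ⟨k, hk, hyk⟩
  obtain ⟨s, hs', w, hw', hsw, -, hDw⟩ := H.split hk hyk
  have hw0 : w = 0 := by
    refine H.nz y w ?_
    have hq : μ ^ k * ∏ i ∈ Finset.range k, Dm (f^[i] y) < 1 := by
      have h1 : μ ^ k ≤ 1 := pow_le_one₀ hμ.le hμ1.le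
      have h2 := H.prod_pos k y
      nlinarith
    refine zero_of_small (c := c₀) (q := μ ^ k * ∏ i ∈ Finset.range k, Dm (f^[i] y))
      (mul_nonneg (pow_nonneg hμ.le _) (H.prod_pos k y).le) hq fun j => ?_
    obtain ⟨h1, h2⟩ := H.powr hyk hDw j
    have h3 := H.cu (k * j) y hyP (((∏ i ∈ Finset.range k, Dm (f^[i] y)) ^ j) • w)
      ((Eu y).smul_mem _ hw')
    have h4 := H.back (k * j) y w
    rw [h2, h1] at h4
    have h5 := (LeftInverse.iterate H.inv (k * j)) y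
    rw [h1] at h5
    rw [h4, h5, H.sm, abs_of_nonneg (pow_nonneg (H.prod_pos k y).le _)] at h3
    refine h3.trans (le_of_eq ?_)
    rw [mul_pow, ← pow_mul]
    ring
  have hv : g y = s := by rw [hsw, hw0, add_zero]
  have h3 := H.cs n y hyP s hs'
  rw [← hv, H.iter n y, H.sm, abs_of_pos (H.prod_pos n y)] at h3
  have h4 := H.prod_pos n y
  have h5 : (∏ i ∈ Finset.range n, Dm (f^[i] y)) * a ≤ c₀ * μ ^ n * b :=
    (mul_le_mul_of_nonneg_left (H.lo (f^[n] y)) h4.le).trans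
      (h3.trans (mul_le_mul_of_nonneg_left (H.up y) (by positivity)))
  rw [← le_div_iff₀ ha0] at h5
  refine h5.trans (le_of_eq ?_)
  ring

theorem Dat.expan (H : Dat f f' D D' Es Eu R g Dm c₀ μ a b) (hc₀ : 0 < c₀) (hμ : 0 < μ)
    (hμ1 : μ < 1) (ha0 : 0 < a) {y : M} {k : ℕ} (hk : 0 < k) (hyk : f^[k] y = y)
    (hprod : 1 < ∏ i ∈ Finset.range k, Dm (f^[i] y)) (n : ℕ) :
    1 ≤ c₀ * b / a * μ ^ n * ∏ i ∈ Finset.range n, Dm (f^[i] y) := by
  have hyP : ∃ n > 0, f^[n] y = y := ⟨k, hk, hyk⟩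
  obtain ⟨s, hs', w, hw', hsw, hDs, -⟩ := H.split hk hyk
  have hs0 : s = 0 := by
    refine H.nz y s ?_
    refine zero_of_small (c := c₀) (q := μ ^ k) (pow_nonneg hμ.le _)
      (pow_lt_one₀ hμ.le hμ1 hk.ne') fun j => ?_
    obtain ⟨h1, h2⟩ := H.powr hyk hDs j
    have h3 := H.cs (k * j) y hyP s hs'
    rw [h2, h1, H.sm, abs_of_nonneg (pow_nonneg (H.prod_pos k y).le _), pow_mul] at h3
    have h7 : 1 ≤ (∏ i ∈ Finset.range k, Dm (f^[i] y)) ^ j := one_le_pow₀ hprod.le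
    have h8 := H.nn y s
    have h9 : R y s ≤ (∏ i ∈ Finset.range k, Dm (f^[i] y)) ^ j * R y s := by
      nlinarith
    exact h9.trans h3
  have hv : g y = w := by rw [hsw, hs0, zero_add]
  have h2 := H.invu n y hyP w hw'
  have hfP : ∃ k > 0, f^[k] (f^[n] y) = f^[n] y :=
    ⟨k, hk, by rw [← Function.iterate_add_apply, Nat.add_comm, Function.iterate_add_apply, hyk]⟩
  have h3 := H.cu n _ hfP _ h2
  rw [H.back, (LeftInverse.iterate H.inv n) y, ← hv, H.iter n y, H.sm,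
    abs_of_pos (H.prod_pos n y)] at h3
  have h8 := H.prod_pos n y
  have h9 : a ≤ c₀ * μ ^ n * ((∏ i ∈ Finset.range n, Dm (f^[i] y)) * b) :=
    (H.lo y).trans (h3.trans (mul_le_mul_of_nonneg_left
      (mul_le_mul_of_nonneg_left (H.up (f^[n] y)) h8.le) (by positivity)))
  have h10 : c₀ * b / a * μ ^ n * ∏ i ∈ Finset.range n, Dm (f^[i] y) =
      c₀ * μ ^ n * ((∏ i ∈ Finset.range n, Dm (f^[i] y)) * b) / a := by
    ring
  rw [h10, le_div_iff₀ ha0, one_mul]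
  exact h9

end abs

end I_HyU

open I_HyU in
open Pool.Agent.OmegaStab.FinHyp (der) in
theorem pr_HyU (hCls : StCls.{u}) (hDer : StDer.{u}) : StHyU.{u} := by
  intro m M _ _ _ _ _ ha hfree r hr f ℒ Dm τ Λ hF hhyp
  obtain ⟨Es, Eu, -, -, hc, hs, hu, γ, c₀, μ, hc₀, hμ, hμ1, hEs, hEu⟩ := hhyp
  have hfd : MDifferentiable (𝓡 m) (𝓡 m) f := OmegaStab.FinHyp.mdiff hr f
  have hfd' : MDifferentiable (𝓡 m) (𝓡 m) f.symm := OmegaStab.FinHyp.mdiff hr f.symm
  have hff : ∀ y, f.symm (f y) = y := fun y => by simp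
  -- periodic points
  have hPΩ : ∀ x, (∃ n > 0, f^[n] x = x) → x ∈ Omega f := by
    rintro x ⟨n, hn, hper⟩ U hU
    exact ⟨n, hn, x, ⟨x, mem_of_mem_nhds hU, hper⟩, mem_of_mem_nhds hU⟩
  have hPf : ∀ x ∈ {x | ∃ n > 0, f^[n] x = x}, f x ∈ {x | ∃ n > 0, f^[n] x = x} :=
    fun x ⟨n, hn, hx⟩ => ⟨n, hn, per_map hx⟩
  have hsP : InvariantOver f Es {x | ∃ n > 0, f^[n] x = x} :=
    fun x hx v hv => hs x (hPΩ x hx) v hv
  have huP : InvariantOver f Eu {x | ∃ n > 0, f^[n] x = x} :=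
    fun x hx v hv => hu x (hPΩ x hx) v hv
  -- the norm of the generator
  have hgp : ∀ y : M, 0 < rnorm γ y (vgen m y) := fun y =>
    Real.sqrt_pos.2 (γ.pos y _ (gen_ne_zero ha hfree y))
  have hgc : Continuous fun y : M => rnorm γ y (vgen m y) :=
    (continuous_rnorm γ).comp (continuous_vgen ha)
  obtain ⟨a, b, ha0, hb0, hab⟩ : ∃ a b : ℝ, 0 < a ∧ 0 < b ∧
      ∀ y, a ≤ rnorm γ y (vgen m y) ∧ rnorm γ y (vgen m y) ≤ b := by
    rcases isEmpty_or_nonempty M with h | h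
    · exact ⟨1, 1, one_pos, one_pos, fun y => (h.false y).elim⟩
    · obtain ⟨y₀, -, h0⟩ := isCompact_univ.exists_isMinOn (univ_nonempty (α := M)) hgc.continuousOn
      obtain ⟨y₁, -, h1⟩ := isCompact_univ.exists_isMaxOn (univ_nonempty (α := M)) hgc.continuousOn
      exact ⟨_, _, hgp y₀, hgp y₁, fun y => ⟨h0 (mem_univ y), h1 (mem_univ y)⟩⟩
  have H : Dat (V := EuclideanSpace ℝ (Fin m)) f f.symm (fun n y => der (d := m) f^[n] y)
      (fun n y => der (d := m) f.symm^[n] y) Es Eu (fun y w => rnorm γ y w) (fun y => vgen m y)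
      Dm c₀ μ a b :=
    { inv := hff
      zero := fun y v => DFunLike.congr_fun (OmegaStab.FinHyp.der_id (d := m) y) v
      add := fun n k y v => by
        have h := OmegaStab.FinHyp.der_comp (mdiff_iter hfd n) (mdiff_iter hfd k) y
        rw [← Function.iterate_add] at h
        exact DFunLike.congr_fun h v
      one := fun y => hDer m M ha r hr f ℒ Dm τ Λ hF y
      back := fun n y v => der_inv hfd hfd' hff n y v
      sm := fun y t w => rnorm_smul' γ y w t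
      nn := fun y w => Real.sqrt_nonneg _
      nz := fun y w hw => by
        by_contra h0
        exact absurd (Real.sqrt_pos.2 (γ.pos y w h0)) (not_lt.2 hw)
      pos := hF.pos
      lo := fun y => (hab y).1
      up := fun y => (hab y).2
      cpl := fun y hy => hc y (hPΩ y hy)
      invs := fun n y hy v hv => (inv_iter hfd hPf hsP n y hy v hv).2
      invu := fun n y hy v hv => (inv_iter hfd hPf huP n y hy v hv).2
      cs := fun n y hy v hv => hEs y (hPΩ y hy) v hv n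
      cu := fun n y hy v hv => hEu y (hPΩ y hy) v hv n }
  have hC := hCls m M ha hfree r hr f ℒ Dm τ Λ hF 0
  rw [rotated_zero] at hC
  refine ⟨c₀ * b / a, μ, by positivity, hμ, hμ1, ?_, ?_⟩
  · intro y hy n
    obtain ⟨k, hk, hyk, hprod⟩ := (hC y).1.1 hy
    exact H.contr hc₀ hμ hμ1 ha0 hk hyk hprod n
  · intro y hy n
    obtain ⟨k, hk, hyk, hprod⟩ := (hC y).2.1 hy
    exact H.expan hc₀ hμ hμ1 ha0 hk hyk hprod n

end Pool.Agent.OmegaStability.OS
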