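import Pool.Agent.Work.MP_814647_an.OS.StmtsC

/-!
# Item Imp: an affine structure function is a one-sided structure function
-/

set_option autoImplicit false

open Set Filter Topology Function
open scoped Manifold ContDiff

noncomputable section

namespace Pool.Agent.OmegaStability.OS

open Dens

universe u

namespace I_Imp

lemma bound {M : Type u} [MetricSpace M] [CompactSpace M] (a : M → ℝ) (ha : Continuous a) :
    ∃ K : ℝ, ∀ y, |a y| ≤ K := by
  obtain ⟨K, hK⟩ := (isCompact_univ (X := M)).exists_bound_of_continuousOn ha.continuousOn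
  exact ⟨K, fun y => by simpa [Real.norm_eq_abs] using hK y (mem_univ y)⟩

lemma circ {M : Type u} [MetricSpace M] [MulAction Circle M]
    (hc : Continuous fun p : Circle × M => p.1 • p.2) (a : M → ℝ) (ha : Continuous a) (y : M) :
    Continuous fun θ : ℝ => a (Circle.exp θ • y) := by
  have h1 : Continuous fun θ : ℝ => ((Circle.exp θ, y) : Circle × M) :=
    (ContinuousMap.continuous Circle.exp).prodMk continuous_const
  exact ha.comp (hc.comp h1)

end I_Imp

theorem pr_Imp : StImp := by
  intro m M _ _ _ _ _ hc f hA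
  obtain ⟨τ, hτ, a, b, ha, hb, h⟩ := hA
  obtain ⟨Ka, hKa⟩ := I_Imp.bound a ha
  obtain ⟨Kb, hKb⟩ := I_Imp.bound b hb
  refine ⟨τ, max Ka Kb, hτ, fun y₀ => ⟨⟨a, fun y => (hKa y).trans (le_max_left _ _),
    I_Imp.circ hc a ha, Or.inl ?_⟩, ⟨b, fun y => (hKb y).trans (le_max_right _ _),
    I_Imp.circ hc b hb, Or.inl ?_⟩⟩⟩
  · rintro y ⟨-, t, ht, hy⟩ L hL
    exact le_of_eq ((h t ht).1 y hy L hL).symm
  · rintro y ⟨-, t, ht, hy⟩ L hL
    exact le_of_eq ((h t ht).2 y hy L hL).symm

end Pool.Agent.OmegaStability.OS
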