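import Pool.Agent.Work.MP_814647_an.OS.StmtsB
import Pool.Agent.Work.MP_814647_an.OS.I_KC

/-!
# Item KCB: uniform contraction along contracting periodic orbits, with structure functions
-/

set_option autoImplicit false

open Set Filter Topology Function
open scoped Manifold ContDiff

noncomputable section

namespace Pool.Agent.OmegaStability.OS

open Dens

/-- Item KCB. -/
theorem pr_KCB (hSw : StSwC) (hCv : StCvB) (hSc : StScCB) : StKCB := by
  intro k K τ Λ hK hτ
  have hδ : 0 < τ / 4 := by linarith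
  cases k with
  | up =>
    obtain ⟨C, lam, hC, hlam, hlam1, h⟩ := hCv K (τ / 4) hK hδ
    refine ⟨C, lam, hC, hlam, hlam1, fun L a N hE hL hk ha haK hprod hone n => ?_⟩
    obtain ⟨l, r, hl, hr, hrl, hLl, hLr, hx⟩ := I_KC.core hSw hτ hE hprod
    refine h L a l (fun _ => 0) r hL hE.dpos ha haK hE.zero hl hr (fun k => ?_) hLl hLr
      (Or.inl fun k x hxk => ?_) n
    · linarith [hrl k]
    · obtain ⟨s, θ, hs, hfix, hmul, rfl⟩ := hx k x hxk
      exact hone s hs θ hfix hmul k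
  | down =>
    obtain ⟨C, lam, hC, hlam, hlam1, h⟩ := hCv K (τ / 4) hK hδ
    refine ⟨C, lam, hC, hlam, hlam1, fun L a N hE hL hk ha haK hprod hone n => ?_⟩
    obtain ⟨l, r, hl, hr, hrl, hLl, hLr, hx⟩ := I_KC.core hSw hτ hE hprod
    refine h L a l (fun _ => 0) r hL hE.dpos ha haK hE.zero hl hr (fun k => ?_) hLl hLr
      (Or.inr fun k x hxk => ?_) n
    · linarith [hrl k]
    · obtain ⟨s, θ, hs, hfix, hmul, rfl⟩ := hx k x hxk
      exact hone s hs θ hfix hmul k
  | sch =>
    obtain ⟨C, lam, hC, hlam, hlam1, h⟩ := hSc K (τ / 4) hK hδ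
    refine ⟨C, lam, hC, hlam, hlam1, fun L a N hE hL hk ha haK hprod hone n => ?_⟩
    obtain ⟨l, r, hl, hr, hrl, hLl, hLr, hx⟩ := I_KC.core hSw hτ hE hprod
    refine h L a l (fun _ => 0) r hk.1 hE.dpos ha haK hk.2 hE.zero hl hr hrl hLl hLr
      (fun k x hxk => ?_) n
    obtain ⟨s, θ, hs, hfix, hmul, rfl⟩ := hx k x hxk
    have h1 : 0 ≤ 1 * scB (L k) (a k) (a (k + 1)) (orb L s k θ) := hone s hs θ hfix hmul k
    linarith

end Pool.Agent.OmegaStability.OS
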