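import Pool.Agent.Work.MP_814647_an.OS.StmtsB
import Pool.Agent.Work.MP_814647_an.OS.I_KE

/-!
# Block OS2, item KEB: uniform expansion along expanding periodic orbits, structure functions
-/

set_option autoImplicit false

open Set Filter Topology Function
open scoped Manifold ContDiff

noncomputable section

namespace Pool.Agent.OmegaStability.OS

open Dens

open I_KE in
theorem pr_KEB (hSwE : StSwE) (hCvBE : StCvBE) (hScEB : StScEB) : StKEB := by
  intro k K τ Λ hK hτ hΛ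
  have hδ : 0 < min (τ / 4) (τ / (4 * Λ)) := lt_min (by linarith) (by positivity)
  have fin : ∀ {L : ℕ → ℝ → ℝ} {p : ℕ → ℝ} (C lam : ℝ), (∀ k, p k = 0) →
      (∀ n, 1 ≤ C * lam ^ n * ∏ i ∈ Finset.range n, deriv (L i) (p i)) →
      ∀ n, 1 ≤ C * lam ^ n * ∏ i ∈ Finset.range n, deriv (L i) 0 := by
    intro L p C lam hz h n
    have h1 := h n
    rwa [Finset.prod_congr rfl (fun i _ => by rw [hz i])] at h1
  cases k with
  | up =>
    obtain ⟨C, lam, hC, hl, hl1, h⟩ := hCvBE K _ hK hδ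
    refine ⟨C, lam, hC, hl, hl1, fun L a N hE h2 _ hac haK h1 hQ => ?_⟩
    obtain ⟨l, p, r, hf⟩ := exists_fac hSwE hτ hΛ hE h1
      (Q := fun k x => 0 ≤ nlB (L k) (a k) (a (k + 1)) x) hQ
    exact fin C lam hf.z (h L a l p r h2 hE.dpos hac haK hf.step hf.lp hf.pr
      (fun k => by linarith [hf.rl k]) hf.ll hf.rr (Or.inl hf.q))
  | down =>
    obtain ⟨C, lam, hC, hl, hl1, h⟩ := hCvBE K _ hK hδ
    refine ⟨C, lam, hC, hl, hl1, fun L a N hE h2 _ hac haK h1 hQ => ?_⟩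
    obtain ⟨l, p, r, hf⟩ := exists_fac hSwE hτ hΛ hE h1
      (Q := fun k x => nlB (L k) (a k) (a (k + 1)) x ≤ 0) hQ
    exact fin C lam hf.z (h L a l p r h2 hE.dpos hac haK hf.step hf.lp hf.pr
      (fun k => by linarith [hf.rl k]) hf.ll hf.rr (Or.inr hf.q))
  | sch =>
    obtain ⟨C, lam, hC, hl, hl1, h⟩ := hScEB K _ hK hδ
    refine ⟨C, lam, hC, hl, hl1, fun L a N hE h2 hok hac haK h1 hQ => ?_⟩
    obtain ⟨l, p, r, hf⟩ := exists_fac hSwE hτ hΛ hE h1
      (Q := fun k x => 0 ≤ -1 * scB (L k) (a k) (a (k + 1)) x) hQ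
    exact fin C lam hf.z (h L a l p r hok.1 hE.dpos hac haK hok.2 hf.step hf.lp hf.pr
      hf.rl hf.ll hf.rr hf.deg hf.q)

end Pool.Agent.OmegaStability.OS
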