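import Pool.Agent.Work.MP_814647_an.OS.Stmts2

/-!
# Circle extensions with one-sided nonlinearity: item Lip
-/

set_option autoImplicit false

open Set Filter Topology Function
open scoped Manifold ContDiff

noncomputable section

namespace Pool.Agent.OmegaStability.OS

open Dens

universe u v

namespace I_Lip

section orbits

variable {M : Type u} [MulAction Circle M]

theorem step {f : M → M} {ℒ : M → ℝ → ℝ} (hL : NLift f ℒ) (s t : ℝ) (y : M) (θ : ℝ) (k : ℕ) :
    rotated f (s + t) (Circle.exp θ • (rotated f s)^[k] y) =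
      Circle.exp (ℒ ((rotated f s)^[k] y) θ + t) • (rotated f s)^[k + 1] y := by
  change Circle.exp (s + t) • f (Circle.exp θ • (rotated f s)^[k] y) = _
  rw [hL.map, Function.iterate_succ_apply']
  change _ = Circle.exp (ℒ ((rotated f s)^[k] y) θ + t) • (Circle.exp s • f ((rotated f s)^[k] y))
  rw [smul_smul, smul_smul, Circle.exp_add, Circle.exp_add]
  congr 1
  ac_rfl

/-- the orbit of the moved point -/
theorem iter {f : M → M} {ℒ : M → ℝ → ℝ} (hL : NLift f ℒ) (s t : ℝ) (y : M) (θ : ℝ) (j i : ℕ) :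
    (rotated f (s + t))^[i] (Circle.exp (orb (fun j => ℒ ((rotated f s)^[j] y)) t j θ) •
      (rotated f s)^[j] y) =
      Circle.exp (orb (fun j => ℒ ((rotated f s)^[j] y)) t (j + i) θ) •
        (rotated f s)^[j + i] y := by
  induction i with
  | zero => rfl
  | succ i ih =>
    rw [Function.iterate_succ_apply', ih, step hL]
    rfl

theorem orb_zero (L : ℕ → ℝ → ℝ) (h : ∀ j, L j 0 = 0) (i : ℕ) : orb L 0 i 0 = 0 := by
  induction i with
  | zero => rfl
  | succ i ih =>
    change L i (orb L 0 i 0) + 0 = 0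
    rw [ih, h, add_zero]

theorem orb_per (L : ℕ → ℝ → ℝ) (N : ℕ) (h : ∀ j, L (j + N) = L j) (t θ : ℝ)
    (hθ : orb L t N θ = θ) (k : ℕ) : orb L t (k + N) θ = orb L t k θ := by
  induction k with
  | zero => rw [Nat.zero_add]; exact hθ
  | succ k ih =>
    rw [Nat.succ_add]
    change L (k + N) (orb L t (k + N) θ) + t = L k (orb L t k θ) + t
    rw [ih, h]

theorem prod_per (a : ℕ → ℝ) (N : ℕ) (hpos : ∀ k, 0 < a k) (hper : ∀ k, a (k + N) = a k) (j : ℕ) :
    ∏ i ∈ Finset.range N, a (j + i) = ∏ i ∈ Finset.range N, a i := by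
  induction j with
  | zero => simp
  | succ j ih =>
    rw [← ih]
    have h1 : ∏ i ∈ Finset.range (N + 1), a (j + i) =
        (∏ i ∈ Finset.range N, a (j + i)) * a (j + N) := Finset.prod_range_succ _ _
    have h2 : ∏ i ∈ Finset.range (N + 1), a (j + i) =
        (∏ i ∈ Finset.range N, a (j + (i + 1))) * a (j + 0) := Finset.prod_range_succ' _ _
    rw [h1, add_zero, hper] at h2
    have h3 := mul_right_cancel₀ (hpos j).ne' h2
    rw [h3]
    refine Finset.prod_congr rfl fun i _ => ?_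
    congr 1
    omega

end orbits

section main

variable {M : Type u} [MetricSpace M] [MulAction Circle M]

/-- the common part of the two cases -/
theorem core (hDif : StDif) (hSpd : StSpd) {f : M → M} {ℒ : M → ℝ → ℝ} {Dm : M → ℝ} {τ Λ : ℝ}
    (hF : FibData f ℒ Dm τ Λ) {C lam τ₁ : ℝ} (hC : 0 < C) (h0 : 0 < lam) (h1 : lam < 1)
    {s : ℝ} {n : ℕ} {y : M} (hn : 0 < n) (hy : (rotated f s)^[n] y = y)
    {s₁ : ℝ} (hs₁ : 0 < s₁) (hs₁τ : s₁ < τ - |s|) (hss : |s| < s₁) (hsum : |s| + s₁ < τ₁)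
    (hE : Ext (fun j => ℒ ((rotated f s)^[j] y)) n (τ - |s|) Λ) (P : ℝ → ℝ)
    (hP : Swp (fun j => ℒ ((rotated f s)^[j] y)) n s₁ P)
    (hblock : ∀ t, |t| < s₁ → |s + t| < τ₁ → ∀ z : ℕ → M,
      (∀ j i, (rotated f (s + t))^[i] (z j) = z (j + i)) → (∀ j, z (j + n) = z j) →
      (∏ i ∈ Finset.range n, Dm (z i) =
        ∏ i ∈ Finset.range n, deriv (ℒ ((rotated f s)^[i] y))
          (orb (fun j => ℒ ((rotated f s)^[j] y)) t i (P t))) →
      (∀ j, ∏ i ∈ Finset.range n, Dm (z (j + i)) = ∏ i ∈ Finset.range n, Dm (z i)) →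
      (∀ j k, ∏ i ∈ Finset.range k, Dm (z (j + i)) ≤ C * lam ^ k) ∨
        ∀ j k, 1 ≤ C * lam ^ k * ∏ i ∈ Finset.range k, Dm (z (j + i))) :
    ∃ θ : ℝ, |θ| ≤ C / (1 - lam) * |s| ∧ f^[n] (Circle.exp θ • y) = Circle.exp θ • y := by
  set L : ℕ → ℝ → ℝ := fun j => ℒ ((rotated f s)^[j] y) with hL
  have hspeed : ∀ t, |t| < s₁ → ∃ v0 : ℝ, HasDerivAt P v0 t ∧ |v0| ≤ C / (1 - lam) := by
    intro t ht
    obtain ⟨v, hv1, hv2, hv3⟩ := hDif L n (τ - |s|) Λ s₁ P hE hs₁ hs₁τ hP t ht
    refine ⟨v 0, hv1 0, ?_⟩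
    have hfix : orb L t n (P t) = P t := hP.fixed t ht.le
    set z : ℕ → M := fun k => Circle.exp (orb L t k (P t)) • (rotated f s)^[k] y with hz
    have hz1 : ∀ j i, (rotated f (s + t))^[i] (z j) = z (j + i) := fun j i =>
      iter hF.lift s t y (P t) j i
    have hgper : ∀ k, (rotated f s)^[k + n] y = (rotated f s)^[k] y := by
      intro k
      rw [Function.iterate_add_apply, hy]
    have horb : ∀ k, orb L t (k + n) (P t) = orb L t k (P t) :=
      orb_per L n hE.per t (P t) hfix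
    have hz2 : ∀ j, z (j + n) = z j := by
      intro j
      simp only [hz]
      rw [horb, hgper]
    have ha : ∀ k, Dm (z k) = deriv (L k) (orb L t k (P t)) := fun k =>
      (hF.der ((rotated f s)^[k] y) (orb L t k (P t))).symm
    have hapos : ∀ k, 0 < Dm (z k) := fun k => hF.pos _
    have haper : ∀ k, Dm (z (k + n)) = Dm (z k) := fun k => by rw [hz2]
    have hvper : ∀ k, v (k + n) = v k := by
      intro k
      induction k with
      | zero => rw [Nat.zero_add]; exact hv3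
      | succ k ih =>
        rw [Nat.succ_add]
        have e1 := hv2 (k + n)
        rw [← ha, ih, haper, ha, ← hv2 k] at e1
        exact e1
    refine hSpd C lam hC h0 h1 n (fun k => Dm (z k)) v hn hapos haper hvper ?_ ?_
    · intro k
      rw [hv2 k, ha]
    · refine hblock t ht ?_ z hz1 hz2 ?_ (prod_per (fun k => Dm (z k)) n hapos haper)
      · calc |s + t| ≤ |s| + |t| := abs_add_le _ _
          _ < τ₁ := by linarith
      · exact Finset.prod_congr rfl fun i _ => ha i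
  have hconv : Convex ℝ (Ioo (-s₁) s₁) := convex_Ioo _ _
  have hmem : ∀ t ∈ Ioo (-s₁) s₁, |t| < s₁ := fun t ht => abs_lt.2 ht
  have hlip : ‖P (-s) - P 0‖ ≤ C / (1 - lam) * ‖-s - 0‖ := by
    refine Convex.norm_image_sub_le_of_norm_deriv_le (s := Ioo (-s₁) s₁) ?_ ?_ hconv ?_ ?_
    · intro t ht
      obtain ⟨v0, e1, -⟩ := hspeed t (hmem t ht)
      exact e1.differentiableAt
    · intro t ht
      obtain ⟨v0, e1, e2⟩ := hspeed t (hmem t ht)
      rw [e1.deriv, Real.norm_eq_abs]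
      exact e2
    · exact ⟨by linarith, hs₁⟩
    · have := abs_lt.1 hss
      exact ⟨by linarith, by linarith⟩
  refine ⟨P (-s), ?_, ?_⟩
  · rw [hP.zero, sub_zero, sub_zero, norm_neg, Real.norm_eq_abs, Real.norm_eq_abs] at hlip
    exact hlip
  · have e1 := iter hF.lift s (-s) y (P (-s)) 0 n
    have e2 : rotated f (s + -s) = f := by
      funext x
      change Circle.exp (s + -s) • f x = f x
      rw [add_neg_cancel, Circle.exp_zero, one_smul]
    have e3 : orb L (-s) n (P (-s)) = P (-s) := hP.fixed (-s) (by rw [abs_neg]; exact hss.le)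
    rw [e2, Nat.zero_add, hy] at e1
    rw [show orb (fun j => ℒ ((rotated f s)^[j] y)) (-s) n (P (-s)) = P (-s) from e3] at e1
    exact e1

end main

end I_Lip

theorem pr_Lip (hCls : StCls.{u}) (hSwC : StSwC) (hSwE : StSwE) (hDif : StDif) (hSpd : StSpd) :
    StLip.{u} := by
  intro m M _ _ _ _ _ hact hfree r hr f ℒ Dm τ Λ hF C lam τ₁ hU
  obtain ⟨hC, h0, h1, hτ₁, hU⟩ := hU
  have hτ := hF.tau
  have hρ : 0 < min τ τ₁ := lt_min hτ hτ₁
  refine ⟨min τ τ₁ / 4, C / (1 - lam), by positivity, div_pos hC (by linarith), ?_⟩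
  intro s hs n y hn hy
  have hρ1 : min τ τ₁ ≤ τ := min_le_left _ _
  have hρ2 : min τ τ₁ ≤ τ₁ := min_le_right _ _
  have hsτ : |s| < τ := by linarith
  have hE := hF.ext s y n hsτ hn hy
  have hs₁ : 0 < min τ τ₁ / 2 := by positivity
  have hs₁τ : min τ τ₁ / 2 < τ - |s| := by linarith
  have hss : |s| < min τ τ₁ / 2 := by linarith
  have hsum : |s| + min τ τ₁ / 2 < τ₁ := by linarith
  have hcls := hCls m M hact hfree r hr f ℒ Dm τ Λ hF
  have hne : ∏ i ∈ Finset.range n, deriv (ℒ ((rotated f s)^[i] y)) 0 ≠ 1 := by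
    have e1 := hE.noN 0 (by rw [abs_zero]; linarith) 0
      (I_Lip.orb_zero _ hE.zero n)
    simp only [I_Lip.orb_zero _ hE.zero] at e1
    exact e1
  rcases lt_or_gt_of_ne hne with hlt | hgt
  · obtain ⟨P, hP, hmul, -⟩ := hSwC _ n (τ - |s|) Λ (min τ τ₁ / 2) hE hs₁ hs₁τ hlt
    refine I_Lip.core hDif hSpd hF hC h0 h1 hn hy hs₁ hs₁τ hss hsum hE P hP ?_
    intro t ht hst z hz1 hz2 hz3 hz4
    left
    intro j k
    have e1 : z j ∈ CircleContracting (EuclideanSpace ℝ (Fin m)) (rotated f (s + t)) := by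
      rw [(hcls (s + t) (z j)).1]
      refine ⟨n, hn, by rw [hz1, hz2], ?_⟩
      simp only [hz1]
      rw [hz4, hz3]
      exact hmul t ht.le
    have e2 := (hU (s + t) hst (z j)).1 e1 k
    simp only [hz1] at e2
    exact e2
  · obtain ⟨P, hP, hmul, -⟩ := hSwE _ n (τ - |s|) Λ (min τ τ₁ / 2) hE hs₁ hs₁τ hgt
    refine I_Lip.core hDif hSpd hF hC h0 h1 hn hy hs₁ hs₁τ hss hsum hE P hP ?_
    intro t ht hst z hz1 hz2 hz3 hz4
    right
    intro j k
    have e1 : z j ∈ CircleExpanding (EuclideanSpace ℝ (Fin m)) (rotated f (s + t)) := by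
      rw [(hcls (s + t) (z j)).2]
      refine ⟨n, hn, by rw [hz1, hz2], ?_⟩
      simp only [hz1]
      rw [hz4, hz3]
      exact hmul t ht.le
    have e2 := (hU (s + t) hst (z j)).2 e1 k
    simp only [hz1] at e2
    exact e2

end Pool.Agent.OmegaStability.OS
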