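import Pool.Agent.Work.MP_814647_an.OS.StmtsC
import Pool.Agent.Work.MP_814647_an.OS.I_Lip

/-!
# Circle extensions with one-sided structure functions: item LiK
-/

set_option autoImplicit false

open Set Filter Topology Function
open scoped Manifold ContDiff

noncomputable section

namespace Pool.Agent.OmegaStability.OS

open Dens

universe u v

namespace I_LiK

section main

variable {M : Type u} [MetricSpace M] [MulAction Circle M]

/-- the common part of the two cases -/
theorem bound (hDif : StDif) (hSpd : StSpd) {f : M → M} {ℒ : M → ℝ → ℝ} {Dm : M → ℝ} {τ Λ : ℝ}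
    (hF : FibData f ℒ Dm τ Λ) {C lam τ₁ : ℝ} (hC : 0 < C) (h0 : 0 < lam) (h1 : lam < 1)
    {s : ℝ} {n : ℕ} {y : M} (hn : 0 < n) (hy : (rotated f s)^[n] y = y)
    {s₁ : ℝ} (hs₁ : 0 < s₁) (hs₁τ : s₁ < τ - |s|) (hss : |s| < s₁) (hsum : |s| + s₁ < τ₁)
    (hE : Ext (fun j => ℒ ((rotated f s)^[j] y)) n (τ - |s|) Λ) (P : ℝ → ℝ)
    (hP : Swp (fun j => ℒ ((rotated f s)^[j] y)) n s₁ P)
    (hblock : ∀ t, |t| < s₁ → |s + t| < τ₁ → ∀ z : ℕ → M,
      (∀ j i, (rotated f (s + t))^[i] (z j) = z (j + i)) → (∀ j, z (j + n) = z j) →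
      (∏ i ∈ Finset.range n, Dm (z i) =
        ∏ i ∈ Finset.range n, deriv (ℒ ((rotated f s)^[i] y))
          (orb (fun j => ℒ ((rotated f s)^[j] y)) t i (P t))) →
      (∀ j, ∏ i ∈ Finset.range n, Dm (z (j + i)) = ∏ i ∈ Finset.range n, Dm (z i)) →
      (∀ j k, ∏ i ∈ Finset.range k, Dm (z (j + i)) ≤ C * lam ^ k) ∨
        ∀ j k, 1 ≤ C * lam ^ k * ∏ i ∈ Finset.range k, Dm (z (j + i))) :
    |P (-s)| ≤ C / (1 - lam) * |s| := by
  set L : ℕ → ℝ → ℝ := fun j => ℒ ((rotated f s)^[j] y) with hL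
  have hspeed : ∀ t, |t| < s₁ → ∃ v0 : ℝ, HasDerivAt P v0 t ∧ |v0| ≤ C / (1 - lam) := by
    intro t ht
    obtain ⟨v, hv1, hv2, hv3⟩ := hDif L n (τ - |s|) Λ s₁ P hE hs₁ hs₁τ hP t ht
    refine ⟨v 0, hv1 0, ?_⟩
    have hfix : orb L t n (P t) = P t := hP.fixed t ht.le
    set z : ℕ → M := fun k => Circle.exp (orb L t k (P t)) • (rotated f s)^[k] y with hz
    have hz1 : ∀ j i, (rotated f (s + t))^[i] (z j) = z (j + i) := fun j i =>
      I_Lip.iter hF.lift s t y (P t) j i
    have hgper : ∀ k, (rotated f s)^[k + n] y = (rotated f s)^[k] y := by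
      intro k
      rw [Function.iterate_add_apply, hy]
    have horb : ∀ k, orb L t (k + n) (P t) = orb L t k (P t) :=
      I_Lip.orb_per L n hE.per t (P t) hfix
    have hz2 : ∀ j, z (j + n) = z j := by
      intro j
      simp only [hz]
      rw [horb, hgper]
    have ha : ∀ k, Dm (z k) = deriv (L k) (orb L t k (P t)) := fun k =>
      (hF.der ((rotated f s)^[k] y) (orb L t k (P t))).symm
    have hapos : ∀ k, 0 < Dm (z k) := fun k => hF.pos _
    have haper : ∀ k, Dm (z (k + n)) = Dm (z k) := fun k => by rw [hz2]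
    have hvper : ∀ k, v (k + n) = v k := by
      intro k
      induction k with
      | zero => rw [Nat.zero_add]; exact hv3
      | succ k ih =>
        rw [Nat.succ_add]
        have e1 := hv2 (k + n)
        rw [← ha, ih, haper, ha, ← hv2 k] at e1
        exact e1
    refine hSpd C lam hC h0 h1 n (fun k => Dm (z k)) v hn hapos haper hvper ?_ ?_
    · intro k
      rw [hv2 k, ha]
    · refine hblock t ht ?_ z hz1 hz2 ?_ (I_Lip.prod_per (fun k => Dm (z k)) n hapos haper)
      · calc |s + t| ≤ |s| + |t| := abs_add_le _ _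
          _ < τ₁ := by linarith
      · exact Finset.prod_congr rfl fun i _ => ha i
  have hconv : Convex ℝ (Ioo (-s₁) s₁) := convex_Ioo _ _
  have hmem : ∀ t ∈ Ioo (-s₁) s₁, |t| < s₁ := fun t ht => abs_lt.2 ht
  have hlip : ‖P (-s) - P 0‖ ≤ C / (1 - lam) * ‖-s - 0‖ := by
    refine Convex.norm_image_sub_le_of_norm_deriv_le (s := Ioo (-s₁) s₁) ?_ ?_ hconv ?_ ?_
    · intro t ht
      obtain ⟨v0, e1, -⟩ := hspeed t (hmem t ht)
      exact e1.differentiableAt
    · intro t ht
      obtain ⟨v0, e1, e2⟩ := hspeed t (hmem t ht)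
      rw [e1.deriv, Real.norm_eq_abs]
      exact e2
    · exact ⟨by linarith, hs₁⟩
    · have := abs_lt.1 hss
      exact ⟨by linarith, by linarith⟩
  rw [hP.zero, sub_zero, sub_zero, norm_neg, Real.norm_eq_abs, Real.norm_eq_abs] at hlip
  exact hlip

end main

end I_LiK

theorem pr_LiK (hCls : StCls.{u}) (hSwC : StSwC) (hSwE : StSwE) (hDif : StDif) (hSpd : StSpd) :
    StLiK.{u} := by
  intro m M _ _ _ _ _ hact hfree r hr f ℒ Dm τ Λ hF C lam τ₁ hU
  obtain ⟨hC, h0, h1, hτ₁, hU⟩ := hU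
  have hτ := hF.tau
  have hρ : 0 < min τ τ₁ := lt_min hτ hτ₁
  refine ⟨min τ τ₁ / 4, C / (1 - lam), by positivity, div_pos hC (by linarith), ?_⟩
  intro s hs y
  have hρ1 : min τ τ₁ ≤ τ := min_le_left _ _
  have hρ2 : min τ τ₁ ≤ τ₁ := min_le_right _ _
  have hsτ : |s| < τ := by linarith
  have hs₁ : 0 < min τ τ₁ / 2 := by positivity
  have hs₁τ : min τ τ₁ / 2 < τ - |s| := by linarith
  have hss : |s| < min τ τ₁ / 2 := by linarith
  have hsum : |s| + min τ τ₁ / 2 < τ₁ := by linarith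
  have hcls := hCls m M hact hfree r hr f ℒ Dm τ Λ hF
  have hrots : rotated f (s + -s) = f := by
    funext x
    change Circle.exp (s + -s) • f x = f x
    rw [add_neg_cancel, Circle.exp_zero, one_smul]
  have habs : |(-s)| ≤ min τ τ₁ / 2 := by rw [abs_neg]; exact hss.le
  -- the orbit of `f`
  have key : ∀ n, 0 < n → (rotated f s)^[n] y = y → ∀ P : ℝ → ℝ,
      Swp (fun j => ℒ ((rotated f s)^[j] y)) n (min τ τ₁ / 2) P →
      Ext (fun j => ℒ ((rotated f s)^[j] y)) n (τ - |s|) Λ →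
      f^[n] (Circle.exp (P (-s)) • y) = Circle.exp (P (-s)) • y ∧
      ∏ i ∈ Finset.range n, Dm (f^[i] (Circle.exp (P (-s)) • y)) =
        ∏ i ∈ Finset.range n, deriv (ℒ ((rotated f s)^[i] y))
          (orb (fun j => ℒ ((rotated f s)^[j] y)) (-s) i (P (-s))) := by
    intro n hn hy P hP hE
    have e1 : ∀ i, f^[i] (Circle.exp (P (-s)) • y) =
        Circle.exp (orb (fun j => ℒ ((rotated f s)^[j] y)) (-s) i (P (-s))) •
          (rotated f s)^[i] y := by
      intro i
      have := I_Lip.iter hF.lift s (-s) y (P (-s)) 0 i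
      rw [hrots, Nat.zero_add] at this
      exact this
    constructor
    · rw [e1, hP.fixed (-s) habs, hy]
    · refine Finset.prod_congr rfl fun i _ => ?_
      rw [e1, hF.der]
  constructor
  · intro hyc
    obtain ⟨n, hn, hy, hprod⟩ := (hcls s y).1.1 hyc
    have hE := hF.ext s y n hsτ hn hy
    have hprod' : ∏ i ∈ Finset.range n, deriv (ℒ ((rotated f s)^[i] y)) 0 < 1 := by
      simpa only [hF.der, Circle.exp_zero, one_smul] using hprod
    obtain ⟨P, hP, hmul, -⟩ := hSwC _ n (τ - |s|) Λ (min τ τ₁ / 2) hE hs₁ hs₁τ hprod'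
    obtain ⟨k1, k2⟩ := key n hn hy P hP hE
    refine ⟨P (-s), ?_, ?_⟩
    · refine I_LiK.bound hDif hSpd hF hC h0 h1 hn hy hs₁ hs₁τ hss hsum hE P hP ?_
      intro t ht hst z hz1 hz2 hz3 hz4
      left
      intro j k
      have e1 : z j ∈ CircleContracting (EuclideanSpace ℝ (Fin m)) (rotated f (s + t)) := by
        rw [(hcls (s + t) (z j)).1]
        refine ⟨n, hn, by rw [hz1, hz2], ?_⟩
        simp only [hz1]
        rw [hz4, hz3]
        exact hmul t ht.le
      have e2 := (hU (s + t) hst (z j)).1 e1 k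
      simp only [hz1] at e2
      exact e2
    · have e0 := (hcls (s + -s) (Circle.exp (P (-s)) • y)).1
      rw [hrots] at e0
      rw [e0]
      refine ⟨n, hn, k1, ?_⟩
      rw [k2]
      exact hmul (-s) habs
  · intro hye
    obtain ⟨n, hn, hy, hprod⟩ := (hcls s y).2.1 hye
    have hE := hF.ext s y n hsτ hn hy
    have hprod' : 1 < ∏ i ∈ Finset.range n, deriv (ℒ ((rotated f s)^[i] y)) 0 := by
      simpa only [hF.der, Circle.exp_zero, one_smul] using hprod
    obtain ⟨P, hP, hmul, -⟩ := hSwE _ n (τ - |s|) Λ (min τ τ₁ / 2) hE hs₁ hs₁τ hprod'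
    obtain ⟨k1, k2⟩ := key n hn hy P hP hE
    refine ⟨P (-s), ?_, ?_⟩
    · refine I_LiK.bound hDif hSpd hF hC h0 h1 hn hy hs₁ hs₁τ hss hsum hE P hP ?_
      intro t ht hst z hz1 hz2 hz3 hz4
      right
      intro j k
      have e1 : z j ∈ CircleExpanding (EuclideanSpace ℝ (Fin m)) (rotated f (s + t)) := by
        rw [(hcls (s + t) (z j)).2]
        refine ⟨n, hn, by rw [hz1, hz2], ?_⟩
        simp only [hz1]
        rw [hz4, hz3]
        exact hmul t ht.le
      have e2 := (hU (s + t) hst (z j)).2 e1 k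
      simp only [hz1] at e2
      exact e2
    · have e0 := (hcls (s + -s) (Circle.exp (P (-s)) • y)).2
      rw [hrots] at e0
      rw [e0]
      refine ⟨n, hn, k1, ?_⟩
      rw [k2]
      exact hmul (-s) habs

end Pool.Agent.OmegaStability.OS
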