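import Pool.Agent.Work.MP_814647_an.OS.StmtsC

/-!
# Item Lin: linearisation of the nonlinearity
-/

set_option autoImplicit false

open Set Filter Topology Function
open scoped Manifold ContDiff

noncomputable section

namespace Pool.Agent.OmegaStability.OS

open Dens

universe u v

namespace I_Lin

/-- the terms of the series -/
def tm {M : Type u} (f : M → M) (N D : M → ℝ) (n : ℕ) (y : M) : ℝ :=
  N (f^[n] y) * ∏ i ∈ Finset.range n, D (f^[i] y)

lemma tm_cont {M : Type u} [TopologicalSpace M] {f : M → M} {N D : M → ℝ} (hf : Continuous f)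
    (hN : Continuous N) (hD : Continuous D) (n : ℕ) : Continuous (tm f N D n) := by
  unfold tm
  refine (hN.comp (hf.iterate n)).mul ?_
  exact continuous_finsetProd _ fun i _ => hD.comp (hf.iterate i)

lemma tm_succ {M : Type u} (f : M → M) (N D : M → ℝ) (n : ℕ) (y : M) :
    tm f N D (n + 1) y = D y * tm f N D n (f y) := by
  unfold tm
  rw [Finset.prod_range_succ']
  simp only [Function.iterate_succ_apply, Function.iterate_zero, id_eq]
  ring

end I_Lin

open I_Lin in
theorem pr_Lin : StLin.{u} := by
  intro M _ _ f N D hf hN hD hpos V C lam hV hC hl0 hl1 hprod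
  obtain ⟨B, hB⟩ := isCompact_univ.exists_bound_of_continuousOn (f := N) hN.continuousOn
  have hbd : ∀ (n : ℕ) (y : M), y ∈ V → ‖tm f N D n y‖ ≤ B * (C * lam ^ n) := by
    intro n y hy
    have hp : 0 ≤ ∏ i ∈ Finset.range n, D (f^[i] y) :=
      Finset.prod_nonneg fun i _ => (hpos _).le
    have h1 := hB (f^[n] y) (mem_univ _)
    have hB0 : 0 ≤ B := (norm_nonneg _).trans h1
    unfold tm
    rw [norm_mul, Real.norm_of_nonneg hp]
    exact mul_le_mul h1 (hprod y hy n) hp hB0
  have hsum : Summable fun n : ℕ => B * (C * lam ^ n) :=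
    ((summable_geometric_of_lt_one hl0.le hl1).mul_left C).mul_left B
  have hcont : ContinuousOn (fun y => ∑' n, tm f N D n y) V :=
    continuousOn_tsum (fun n => (tm_cont hf hN hD n).continuousOn) hsum hbd
  let g0 : C(V, ℝ) := ⟨V.restrict fun y => ∑' n, tm f N D n y, hcont.restrict⟩
  obtain ⟨g, hg⟩ := ContinuousMap.exists_restrict_eq hV g0
  have hgV : ∀ y ∈ V, g y = ∑' n, tm f N D n y := by
    intro y hy
    have := congrArg (fun h : C(V, ℝ) => h ⟨y, hy⟩) hg
    exact this
  have hsm : ∀ y ∈ V, Summable fun n => tm f N D n y := fun y hy =>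
    Summable.of_norm_bounded hsum fun n => hbd n y hy
  refine ⟨g, g.continuous, ?_⟩
  intro y hy hfy
  rw [hgV y hy, hgV (f y) hfy, (hsm y hy).tsum_eq_zero_add]
  simp only [tm_succ, tsum_mul_left]
  have h0 : tm f N D 0 y = N y := by simp [tm]
  rw [h0]
  ring

end Pool.Agent.OmegaStability.OS
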