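import Pool.Agent.Work.MP_814647_an.OS.StmtsC
import Pool.Agent.Work.MP_814647_an.OS.I_Der

/-!
# Circle extensions: the nonlinearity is continuous for `r ≥ 2`

The generator of the action is a smooth vector field, so `y ↦ D f (vgen y) = Dm y • vgen (f y)` and
`y ↦ vgen (f y)` are of class `C^1` as maps to the tangent bundle; hence `Dm` is of class `C^1`, and
its derivative in the direction of the generator is continuous.
-/

set_option autoImplicit false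

open Set Filter Topology Function
open scoped Manifold ContDiff

noncomputable section

namespace Pool.Agent.OmegaStability.OS

open Dens

universe u v

namespace I_NCt

variable {m : ℕ} {M : Type u} [MetricSpace M] [ChartedSpace (EuclideanSpace ℝ (Fin m)) M]
  [IsManifold (𝓡 m) ∞ M] [MulAction Circle M]

/-- the generator is a vector field of class `C^1` -/
theorem contMDiff_vgen (ha : SmoothCircleAction (EuclideanSpace ℝ (Fin m)) M) :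
    ContMDiff (𝓡 m) (𝓡 m).tangent 1
      (fun y : M => (⟨y, vgen m y⟩ : TangentBundle (𝓡 m) M)) := by
  have h1 : ContMDiff (𝓘(ℝ, ℝ).prod (𝓡 m)).tangent (𝓡 m).tangent 1
      (tangentMap (𝓘(ℝ, ℝ).prod (𝓡 m)) (𝓡 m)
      (fun p : ℝ × M => Circle.exp p.1 • p.2)) :=
    (flow_smooth ha).contMDiff_tangentMap (by
      have h2 : (1 : ℕ∞ω) + 1 = ((2 : ℕ∞) : ℕ∞ω) := by norm_num
      rw [h2]
      exact_mod_cast le_top)
  have h2 : ContMDiff (𝓡 m) (𝓘(ℝ, ℝ).tangent.prod (𝓡 m).tangent) 1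
      (fun y : M => ((⟨(0 : ℝ), (1 : ℝ)⟩ : TangentBundle 𝓘(ℝ, ℝ) ℝ),
      (⟨y, 0⟩ : TangentBundle (𝓡 m) M))) := by
    refine contMDiff_const.prodMk ?_
    exact Bundle.contMDiff_zeroSection (IB := 𝓡 m)
      (F := EuclideanSpace ℝ (Fin m)) ℝ
      (TangentSpace (𝓡 m) : M → Type _) (n := 1)
  have h3 := contMDiff_equivTangentBundleProd_symm (I := 𝓘(ℝ, ℝ)) (I' := 𝓡 m)
    (M := ℝ) (M' := M) (n := 1)
  have h4 := (h1.comp h3).comp h2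
  refine h4.congr fun y => ?_
  have h0 : Circle.exp 0 • y = y := by simp
  have h5 : HasMFDerivAt 𝓘(ℝ, ℝ) (𝓘(ℝ, ℝ).prod (𝓡 m)) (fun s : ℝ => (s, y)) (0 : ℝ)
      ((ContinuousLinearMap.id ℝ ℝ).prod (0 : ℝ →L[ℝ] EuclideanSpace ℝ (Fin m))) :=
    (hasMFDerivAt_id (0 : ℝ)).prodMk (hasMFDerivAt_const y (0 : ℝ))
  have h6 : HasMFDerivAt (𝓘(ℝ, ℝ).prod (𝓡 m)) (𝓡 m)
      (fun p : ℝ × M => Circle.exp p.1 • p.2) ((0 : ℝ), y)
      (mfderiv (𝓘(ℝ, ℝ).prod (𝓡 m)) (𝓡 m)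
        (fun p : ℝ × M => Circle.exp p.1 • p.2) ((0 : ℝ), y)) :=
    ((flow_smooth ha).mdifferentiableAt (by simp)).hasMFDerivAt
  have h7 := HasMFDerivAt.comp (0 : ℝ) h6 h5
  have h8 : mfderiv (𝓘(ℝ, ℝ).prod (𝓡 m)) (𝓡 m)
        (fun p : ℝ × M => Circle.exp p.1 • p.2) ((0 : ℝ), y) ((1 : ℝ), 0) = vgen m y :=
    (DFunLike.congr_fun h7.mfderiv (1 : ℝ)).symm
  symm
  exact Bundle.TotalSpace.ext h0 (heq_of_eq h8)

/-- the fibre derivative is of class `C^1` -/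
theorem contMDiff_Dm (ha : SmoothCircleAction (EuclideanSpace ℝ (Fin m)) M)
    (hfree : ∀ (z : Circle) (y : M), z • y = y → z = 1) (r : ℕ∞) (hr : 2 ≤ r)
    (f : Diffeo (EuclideanSpace ℝ (Fin m)) M r) (Dm : M → ℝ)
    (hder : ∀ y, mfderiv (𝓡 m) (𝓡 m) (f : M → M) y (vgen m y) = Dm y • vgen m (f y)) :
    ContMDiff (𝓡 m) 𝓘(ℝ, ℝ) 1 Dm := by
  have hr1 : (1 : ℕ∞ω) ≤ ((r : ℕ∞) : ℕ∞ω) := by
    have h1 : (1 : ℕ∞) ≤ r := le_trans (by norm_num) hr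
    exact_mod_cast h1
  have hr2 : (1 : ℕ∞ω) + 1 ≤ ((r : ℕ∞) : ℕ∞ω) := by
    have h2 : (1 : ℕ∞ω) + 1 = ((2 : ℕ∞) : ℕ∞ω) := by norm_num
    rw [h2]
    exact_mod_cast hr
  have hA : ContMDiff (𝓡 m) (𝓡 m).tangent 1
      (fun y : M => (⟨f y, Dm y • vgen m (f y)⟩ : TangentBundle (𝓡 m) M)) := by
    have h1 := (f.contMDiff.contMDiff_tangentMap hr2).comp (contMDiff_vgen ha)
    refine h1.congr fun y => ?_
    exact Bundle.TotalSpace.ext rfl (heq_of_eq (hder y).symm)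
  have hB : ContMDiff (𝓡 m) (𝓡 m).tangent 1
      (fun y : M => (⟨f y, vgen m (f y)⟩ : TangentBundle (𝓡 m) M)) :=
    (contMDiff_vgen ha).comp (f.contMDiff.of_le hr1)
  intro y₀
  set e := trivializationAt (EuclideanSpace ℝ (Fin m)) (TangentSpace (𝓡 m) : M → Type _) (f y₀)
    with he
  have hA' : ContMDiffAt (𝓡 m) 𝓘(ℝ, EuclideanSpace ℝ (Fin m)) 1
      (fun y : M => (e (⟨f y, Dm y • vgen m (f y)⟩ : TangentBundle (𝓡 m) M)).2) y₀ :=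
    (Bundle.contMDiffAt_totalSpace.1 (hA y₀)).2
  have hB' : ContMDiffAt (𝓡 m) 𝓘(ℝ, EuclideanSpace ℝ (Fin m)) 1
      (fun y : M => (e (⟨f y, vgen m (f y)⟩ : TangentBundle (𝓡 m) M)).2) y₀ :=
    (Bundle.contMDiffAt_totalSpace.1 (hB y₀)).2
  have hmem : f y₀ ∈ e.baseSet := FiberBundle.mem_baseSet_trivializationAt' (f y₀)
  have hb0 : (e (⟨f y₀, vgen m (f y₀)⟩ : TangentBundle (𝓡 m) M)).2 ≠ 0 := by
    intro h0
    have h1 : e.continuousLinearEquivAt ℝ (f y₀) hmem (vgen m (f y₀)) = 0 := h0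
    exact gen_ne_zero ha hfree (f y₀)
      ((e.continuousLinearEquivAt ℝ (f y₀) hmem).map_eq_zero_iff.1 h1)
  obtain ⟨ℓ, hℓ⟩ := SeparatingDual.exists_eq_one (R := ℝ) hb0
  have hℓA : ContMDiffAt (𝓡 m) 𝓘(ℝ, ℝ) 1
      (fun y : M => ℓ (e (⟨f y, Dm y • vgen m (f y)⟩ : TangentBundle (𝓡 m) M)).2) y₀ :=
    ℓ.contMDiff.contMDiffAt.comp y₀ hA'
  have hℓB : ContMDiffAt (𝓡 m) 𝓘(ℝ, ℝ) 1
      (fun y : M => ℓ (e (⟨f y, vgen m (f y)⟩ : TangentBundle (𝓡 m) M)).2) y₀ :=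
    ℓ.contMDiff.contMDiffAt.comp y₀ hB'
  have hne : ℓ (e (⟨f y₀, vgen m (f y₀)⟩ : TangentBundle (𝓡 m) M)).2 ≠ 0 := by
    rw [hℓ]
    exact one_ne_zero
  have hquot := hℓA.div₀ hℓB hne
  refine hquot.congr_of_eventuallyEq ?_
  have hnb : ∀ᶠ y in 𝓝 y₀, f y ∈ e.baseSet :=
    f.continuous.continuousAt.preimage_mem_nhds (e.open_baseSet.mem_nhds hmem)
  have hnb2 : ∀ᶠ y in 𝓝 y₀, ℓ (e (⟨f y, vgen m (f y)⟩ : TangentBundle (𝓡 m) M)).2 ≠ 0 :=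
    hℓB.continuousAt.eventually_ne hne
  filter_upwards [hnb, hnb2] with y hy hy2
  have h1 : (e (⟨f y, Dm y • vgen m (f y)⟩ : TangentBundle (𝓡 m) M)).2 =
      Dm y • (e (⟨f y, vgen m (f y)⟩ : TangentBundle (𝓡 m) M)).2 :=
    (e.linear ℝ hy).map_smul (Dm y) (vgen m (f y))
  show Dm y = ℓ (e (⟨f y, Dm y • vgen m (f y)⟩ : TangentBundle (𝓡 m) M)).2 /
    ℓ (e (⟨f y, vgen m (f y)⟩ : TangentBundle (𝓡 m) M)).2
  rw [h1, map_smul, smul_eq_mul, mul_div_cancel_right₀ _ hy2]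

/-- the derivative in the direction of the generator -/
def N1 (m : ℕ) {M : Type u} [MetricSpace M] [ChartedSpace (EuclideanSpace ℝ (Fin m)) M]
    [MulAction Circle M] (Dm : M → ℝ) (y : M) : ℝ :=
  mfderiv (𝓡 m) 𝓘(ℝ, ℝ) Dm y (vgen m y)

theorem hasDerivAt_curve (ha : SmoothCircleAction (EuclideanSpace ℝ (Fin m)) M) (Dm : M → ℝ)
    (hD : ContMDiff (𝓡 m) 𝓘(ℝ, ℝ) 1 Dm) (y : M) (θ : ℝ) :
    HasDerivAt (fun s : ℝ => Dm (Circle.exp s • y)) (N1 m Dm (Circle.exp θ • y)) θ := by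
  have h1 : HasMFDerivAt (𝓡 m) 𝓘(ℝ, ℝ) Dm (Circle.exp θ • y)
      (mfderiv (𝓡 m) 𝓘(ℝ, ℝ) Dm (Circle.exp θ • y)) :=
    (hD.mdifferentiableAt (by norm_num)).hasMFDerivAt
  have h2 := HasMFDerivAt.comp θ h1 (curve_mdiff ha y θ).hasMFDerivAt
  have key : ∀ (F : ℝ → ℝ) (A : ℝ →L[ℝ] ℝ) (d : ℝ), HasFDerivAt F A θ → A 1 = d →
      HasDerivAt F d θ := by
    intro F A d h h'
    rw [← h']
    exact h.hasDerivAt
  refine key _ _ _ h2.hasFDerivAt ?_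
  show mfderiv (𝓡 m) 𝓘(ℝ, ℝ) Dm (Circle.exp θ • y)
    (mfderiv 𝓘(ℝ, ℝ) (𝓡 m) (fun θ : ℝ => Circle.exp θ • y) θ (1 : ℝ)) = _
  rw [mfderiv_curve ha y θ]
  rfl

theorem continuous_N1 (ha : SmoothCircleAction (EuclideanSpace ℝ (Fin m)) M) (Dm : M → ℝ)
    (hD : ContMDiff (𝓡 m) 𝓘(ℝ, ℝ) 1 Dm) : Continuous (N1 m Dm) := by
  have h1 : Continuous (tangentMap (𝓡 m) 𝓘(ℝ, ℝ) Dm) := hD.continuous_tangentMap le_rfl
  have h2 := h1.comp (continuous_vgen ha)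
  have h3 := (tangentBundleModelSpaceHomeomorph 𝓘(ℝ, ℝ)).continuous.comp h2
  exact h3.snd

end I_NCt

open I_NCt

theorem pr_NCt : StNCt.{u} := by
  intro m M _ _ _ _ _ ha hfree r hr f ℒ Dm τ Λ hF
  have hr1 : 1 ≤ r := le_trans (by norm_num) hr
  have hder : ∀ y, mfderiv (𝓡 m) (𝓡 m) (f : M → M) y (vgen m y) = Dm y • vgen m (f y) :=
    fun y => pr_Der m M ha r hr1 f ℒ Dm τ Λ hF y
  have hD := contMDiff_Dm ha hfree r hr f Dm hder
  refine ⟨fun y => N1 m Dm y / Dm y, (continuous_N1 ha Dm hD).div hF.cont fun y => (hF.pos y).ne',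
    fun y => ?_⟩
  have hfun : deriv (ℒ y) = fun θ => Dm (Circle.exp θ • y) := funext (hF.der y)
  have hC1 : ContDiff ℝ 1 (fun θ : ℝ => Dm (Circle.exp θ • y)) :=
    contMDiff_iff_contDiff.1 (hD.comp ((curve_smooth ha y).of_le (by exact_mod_cast le_top)))
  constructor
  · have h2 : (2 : ℕ∞ω) = 1 + 1 := by norm_num
    rw [h2, contDiff_succ_iff_deriv]
    refine ⟨(hF.smooth y).differentiable (by norm_num), fun h => ?_, ?_⟩
    · exact absurd h (by simp)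
    · rw [hfun]
      exact hC1
  · intro θ
    unfold nlAt
    rw [iteratedDeriv_succ, iteratedDeriv_one, hfun, (hasDerivAt_curve ha Dm hD y θ).deriv]

end Pool.Agent.OmegaStability.OS
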