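import Pool.Agent.Work.MP_814647_an.OS.StmtsC
import Pool.Agent.Work.MP_814647_an.OS.I_Lip

/-!
# Circle extensions with one-sided structure functions: item UU
-/

set_option autoImplicit false

open Set Filter Topology Function
open scoped Manifold ContDiff

noncomputable section

namespace Pool.Agent.OmegaStability.OS

open Dens

universe u v

namespace I_UU

/-- Small motions along the circles change `Dm` by a factor close to one. -/
theorem unif {M : Type u} [MetricSpace M] [CompactSpace M] [MulAction Circle M]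
    (hact : Continuous fun p : Circle × M => p.1 • p.2) {Dm : M → ℝ} (hc : Continuous Dm)
    (hpos : ∀ y, 0 < Dm y) {c : ℝ} (hc1 : 1 < c) :
    ∃ δ > 0, ∀ (x : ℝ) (z : M), |x| ≤ δ →
      Dm (Circle.exp x • z) ≤ c * Dm z ∧ Dm z ≤ c * Dm (Circle.exp x • z) := by
  have hε : 0 < Real.log c := Real.log_pos hc1
  set φ : ℝ × M → ℝ := fun p => Real.log (Dm (Circle.exp p.1 • p.2)) with hφ
  have hφc : Continuous φ := by
    refine Continuous.log ?_ fun p => (hpos _).ne'
    exact hc.comp (hact.comp ((Circle.exp.continuous.comp continuous_fst).prodMk continuous_snd))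
  have hK : IsCompact (Icc (-1 : ℝ) 1 ×ˢ (univ : Set M)) := isCompact_Icc.prod isCompact_univ
  have hu := hK.uniformContinuousOn_of_continuous hφc.continuousOn
  rw [Metric.uniformContinuousOn_iff] at hu
  obtain ⟨δ, hδ, h⟩ := hu (Real.log c) hε
  refine ⟨min 1 (δ / 2), by positivity, fun x z hx => ?_⟩
  have hx1 : |x| ≤ 1 := hx.trans (min_le_left _ _)
  have hx2 : |x| ≤ δ / 2 := hx.trans (min_le_right _ _)
  have h1 := h (x, z) ⟨abs_le.1 hx1, mem_univ _⟩ (0, z) ⟨⟨by norm_num, by norm_num⟩, mem_univ _⟩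
    (by
      rw [Prod.dist_eq, dist_self, Real.dist_eq, sub_zero]
      exact max_lt (by linarith) hδ)
  rw [Real.dist_eq] at h1
  simp only [hφ, Circle.exp_zero, one_smul] at h1
  have h2 := abs_lt.1 h1
  have hc0 : 0 < c := by linarith
  constructor
  · rw [← Real.log_le_log_iff (hpos _) (by have := hpos z; positivity),
      Real.log_mul hc0.ne' (hpos _).ne']
    linarith
  · rw [← Real.log_le_log_iff (hpos _) (by have := hpos (Circle.exp x • z); positivity),
      Real.log_mul hc0.ne' (hpos _).ne']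
    linarith

section line

/-- The product of a subsequence. -/
theorem prod_bound_le {a b : ℕ → ℝ} {C lam lam' : ℝ} (hlam : 0 < lam)
    (ha : ∀ k, 0 < a k) (hab : ∀ k, a k ≤ lam' / lam * b k)
    (hb : ∀ j k, ∏ i ∈ Finset.range k, b (j + i) ≤ C * lam ^ k) (hl : 0 < lam') (j k : ℕ) :
    ∏ i ∈ Finset.range k, a (j + i) ≤ C * lam' ^ k := by
  calc ∏ i ∈ Finset.range k, a (j + i) ≤ ∏ i ∈ Finset.range k, (lam' / lam * b (j + i)) :=
        Finset.prod_le_prod (fun i _ => (ha _).le) fun i _ => hab _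
    _ = (lam' / lam) ^ k * ∏ i ∈ Finset.range k, b (j + i) := by
        rw [Finset.prod_mul_distrib, Finset.prod_const, Finset.card_range]
    _ ≤ (lam' / lam) ^ k * (C * lam ^ k) :=
        mul_le_mul_of_nonneg_left (hb j k) (by positivity)
    _ = C * lam' ^ k := by
        rw [div_pow]
        field_simp

theorem prod_bound_ge {a b : ℕ → ℝ} {C lam lam' : ℝ} (hC : 0 < C) (hlam : 0 < lam)
    (hb0 : ∀ k, 0 < b k) (hab : ∀ k, b k ≤ lam' / lam * a k)
    (hb : ∀ j k, 1 ≤ C * lam ^ k * ∏ i ∈ Finset.range k, b (j + i)) (j k : ℕ) :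
    1 ≤ C * lam' ^ k * ∏ i ∈ Finset.range k, a (j + i) := by
  have h1 : ∏ i ∈ Finset.range k, b (j + i) ≤
      (lam' / lam) ^ k * ∏ i ∈ Finset.range k, a (j + i) := by
    calc ∏ i ∈ Finset.range k, b (j + i) ≤ ∏ i ∈ Finset.range k, (lam' / lam * a (j + i)) :=
          Finset.prod_le_prod (fun i _ => (hb0 _).le) fun i _ => hab _
      _ = _ := by rw [Finset.prod_mul_distrib, Finset.prod_const, Finset.card_range]
  calc (1 : ℝ) ≤ C * lam ^ k * ∏ i ∈ Finset.range k, b (j + i) := hb j k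
    _ ≤ C * lam ^ k * ((lam' / lam) ^ k * ∏ i ∈ Finset.range k, a (j + i)) :=
        mul_le_mul_of_nonneg_left h1 (by positivity)
    _ = C * lam' ^ k * ∏ i ∈ Finset.range k, a (j + i) := by
        rw [div_pow]
        field_simp

end line

section main

variable {M : Type u} [MetricSpace M] [MulAction Circle M]

/-- The bootstrap along the continuation: the periodic orbit of `rotated f s` stays close to the
periodic orbit of `f`. -/
theorem boot (hDif : StDif) (hSpd : StSpd) {f : M → M} {ℒ : M → ℝ → ℝ} {Dm : M → ℝ} {τ Λ : ℝ}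
    (hF : FibData f ℒ Dm τ Λ) {C lam lam' δ₀ : ℝ} (hC : 0 < C) (hlam : 0 < lam)
    (hlam' : 0 < lam') (hlam1 : lam' < 1) (hδ₀ : 0 < δ₀)
    (hδ : ∀ (x : ℝ) (z : M), |x| ≤ δ₀ →
      Dm (Circle.exp x • z) ≤ lam' / lam * Dm z ∧ Dm z ≤ lam' / lam * Dm (Circle.exp x • z))
    {s : ℝ} {n : ℕ} {y : M} (hn : 0 < n) (hy : (rotated f s)^[n] y = y)
    {s₁ : ℝ} (hs₁ : 0 < s₁) (hs₁τ : s₁ < τ - |s|) (hss : |s| < s₁)
    (hsmall : |s| * (C / (1 - lam')) < δ₀ / 2)
    (hE : Ext (fun j => ℒ ((rotated f s)^[j] y)) n (τ - |s|) Λ) (P : ℝ → ℝ)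
    (hP : Swp (fun j => ℒ ((rotated f s)^[j] y)) n s₁ P)
    (hblock : (∀ j k, ∏ i ∈ Finset.range k, Dm (Circle.exp
        (orb (fun j => ℒ ((rotated f s)^[j] y)) (-s) (j + i) (P (-s))) •
          (rotated f s)^[j + i] y) ≤ C * lam ^ k) ∨
      ∀ j k, 1 ≤ C * lam ^ k * ∏ i ∈ Finset.range k, Dm (Circle.exp
        (orb (fun j => ℒ ((rotated f s)^[j] y)) (-s) (j + i) (P (-s))) •
          (rotated f s)^[j + i] y)) :
    ∀ k, |orb (fun j => ℒ ((rotated f s)^[j] y)) (-s) k (P (-s))| ≤ δ₀ := by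
  set L : ℕ → ℝ → ℝ := fun j => ℒ ((rotated f s)^[j] y) with hL
  set z : ℕ → M := fun k => Circle.exp (orb L (-s) k (P (-s))) • (rotated f s)^[k] y with hz
  have hgper : ∀ k, (rotated f s)^[k + n] y = (rotated f s)^[k] y := by
    intro k
    rw [Function.iterate_add_apply, hy]
  have habs : |(-s)| ≤ s₁ := by rw [abs_neg]; exact hss.le
  have hz2 : ∀ j, z (j + n) = z j := by
    intro j
    simp only [hz]
    rw [I_Lip.orb_per L n hE.per (-s) (P (-s)) (hP.fixed (-s) habs), hgper]
  -- the difference of the orbits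
  set h : ℕ → ℝ → ℝ := fun k t => orb L t k (P t) - orb L (-s) k (P (-s)) with hh
  have hhper : ∀ t, |t| ≤ s₁ → ∀ k, h (k + n) t = h k t := by
    intro t ht k
    simp only [hh]
    rw [I_Lip.orb_per L n hE.per t (P t) (hP.fixed t ht),
      I_Lip.orb_per L n hE.per (-s) (P (-s)) (hP.fixed (-s) habs)]
  have hall : ∀ t, |t| ≤ s₁ → (∀ k < n, |h k t| ≤ δ₀) → ∀ k, |h k t| ≤ δ₀ := by
    intro t ht hk k
    have h1 : ∀ q k, h (k + q * n) t = h k t := by
      intro q
      induction q with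
      | zero => intro k; simp
      | succ q ih => intro k; rw [Nat.succ_mul, ← add_assoc, hhper t ht, ih]
    rw [← Nat.mod_add_div k n, mul_comm, h1]
    exact hk _ (Nat.mod_lt _ hn)
  have hDz : ∀ t k, deriv (L k) (orb L t k (P t)) = Dm (Circle.exp (h k t) • z k) := by
    intro t k
    have e1 : deriv (L k) (orb L t k (P t)) = Dm (Circle.exp (orb L t k (P t)) •
      (rotated f s)^[k] y) := hF.der ((rotated f s)^[k] y) (orb L t k (P t))
    rw [e1]
    simp only [hz, hh]
    rw [smul_smul, ← Circle.exp_add, sub_add_cancel]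
  -- the speeds
  have hspeed : ∀ t, |t| < s₁ → (∀ k, |h k t| ≤ δ₀) → ∃ v : ℕ → ℝ,
      (∀ k, HasDerivAt (h k) (v k) t) ∧ ∀ k, |v k| ≤ C / (1 - lam') := by
    intro t ht hk
    obtain ⟨v, hv1, hv2, hv3⟩ := hDif L n (τ - |s|) Λ s₁ P hE hs₁ hs₁τ hP t ht
    refine ⟨v, fun k => (hv1 k).sub_const _, fun k => ?_⟩
    set a : ℕ → ℝ := fun k => deriv (L k) (orb L t k (P t)) with ha
    have hapos : ∀ k, 0 < a k := fun k => by
      simp only [ha]
      rw [hDz]
      exact hF.pos _
    have horb : ∀ k, orb L t (k + n) (P t) = orb L t k (P t) :=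
      I_Lip.orb_per L n hE.per t (P t) (hP.fixed t ht.le)
    have haper : ∀ k, a (k + n) = a k := fun k => by
      simp only [ha]
      rw [horb]
      exact congrArg (fun F : ℝ → ℝ => deriv F (orb L t k (P t))) (hE.per k)
    have hvper : ∀ k, v (k + n) = v k := by
      intro k
      induction k with
      | zero => rw [Nat.zero_add]; exact hv3
      | succ k ih =>
        rw [Nat.succ_add, hv2 (k + n), hv2 k, ih]
        have := haper k
        simp only [ha] at this
        rw [this]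
    have hb : (∀ j l, ∏ i ∈ Finset.range l, a (j + i) ≤ C * lam' ^ l) ∨
        ∀ j l, 1 ≤ C * lam' ^ l * ∏ i ∈ Finset.range l, a (j + i) := by
      rcases hblock with hb | hb
      · left
        refine prod_bound_le (b := fun k => Dm (z k)) hlam hapos (fun k => ?_) hb hlam'
        simp only [ha]
        rw [hDz]
        exact (hδ _ _ (hk k)).1
      · right
        refine prod_bound_ge (b := fun k => Dm (z k)) hC hlam (fun k => hF.pos _) (fun k => ?_) hb
        simp only [ha]
        rw [hDz]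
        exact (hδ _ _ (hk k)).2
    have h1 := hSpd C lam' hC hlam' hlam1 n (fun i => a (k + i)) (fun i => v (k + i)) hn
      (fun i => hapos _) (fun i => by rw [← add_assoc, haper]) (fun i => by rw [← add_assoc, hvper])
      (fun i => by rw [← add_assoc]; exact hv2 (k + i)) (by
        rcases hb with hb | hb
        · left
          intro j l
          simpa only [add_assoc] using hb (k + j) l
        · right
          intro j l
          simpa only [add_assoc] using hb (k + j) l)
    simpa using h1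
  -- the path
  set T : ℝ → ℝ := fun u => -s + s * u with hT
  have hTabs : ∀ u ∈ Icc (0 : ℝ) 1, |T u| < s₁ := by
    intro u hu
    have e1 : T u = -(s * (1 - u)) := by simp only [hT]; ring
    rw [e1, abs_neg, abs_mul, abs_of_nonneg (by linarith [hu.2] : (0 : ℝ) ≤ 1 - u)]
    calc |s| * (1 - u) ≤ |s| * 1 := mul_le_mul_of_nonneg_left (by linarith [hu.1]) (abs_nonneg _)
      _ < s₁ := by rw [mul_one]; exact hss
  have hcont : ∀ k, ContinuousOn (h k) (Icc (-s₁) s₁) := by
    intro k
    have e1 : ∀ k, ContinuousOn (fun t => orb L t k (P t)) (Icc (-s₁) s₁) := by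
      intro k
      induction k with
      | zero => exact hP.cont
      | succ k ih =>
        show ContinuousOn (fun t => L k (orb L t k (P t)) + t) (Icc (-s₁) s₁)
        exact ((hE.smooth k).continuous.comp_continuousOn ih).add continuousOn_id
    exact (e1 k).sub continuousOn_const
  have hmain : ∀ u ∈ Icc (0 : ℝ) 1, ‖(fun k : Fin n => h k (T u))‖ ≤ δ₀ / 2 * u := by
    have hbd : ∀ u ∈ Icc (0 : ℝ) 1, ‖(fun k : Fin n => h k (T u))‖ ≤ δ₀ / 2 * u →
        ∀ k, |h k (T u)| ≤ δ₀ := by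
      intro u hu hn1
      refine hall (T u) (hTabs u hu).le fun k hk => ?_
      have e1 : ‖h k (T u)‖ ≤ ‖(fun k : Fin n => h k (T u))‖ :=
        norm_le_pi_norm (fun k : Fin n => h k (T u)) ⟨k, hk⟩
      rw [Real.norm_eq_abs] at e1
      have : δ₀ / 2 * u ≤ δ₀ := by nlinarith [hu.2, hu.1]
      linarith
    have hex : ∀ u : ℝ, ∃ w : Fin n → ℝ, (u ∈ Ico (0 : ℝ) 1 →
        ‖(fun k : Fin n => h k (T u))‖ = δ₀ / 2 * u → ‖w‖ < δ₀ / 2) ∧
        (u ∈ Ico (0 : ℝ) 1 → HasDerivWithinAt (fun u => fun k : Fin n => h k (T u)) w (Ici u) u) := by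
      intro u
      by_cases hu : u ∈ Ico (0 : ℝ) 1
      · have hu' : u ∈ Icc (0 : ℝ) 1 := ⟨hu.1, hu.2.le⟩
        obtain ⟨v, hv1, -, -⟩ := hDif L n (τ - |s|) Λ s₁ P hE hs₁ hs₁τ hP (T u) (hTabs u hu')
        have hTd : HasDerivAt T s u := by
          have e0 : HasDerivAt (fun u : ℝ => -s + s * u) (s * 1) u :=
            ((hasDerivAt_id' u).const_mul s).const_add (-s)
          rw [mul_one] at e0
          exact e0
        have hd : HasDerivAt (fun u => fun k : Fin n => h k (T u)) (fun k : Fin n => v k * s) u := by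
          rw [hasDerivAt_pi]
          intro k
          exact ((hv1 k).sub_const (orb L (-s) k (P (-s)))).comp u hTd
        refine ⟨fun k : Fin n => v k * s, fun _ hnorm => ?_, fun _ => hd.hasDerivWithinAt⟩
        obtain ⟨v', hv1', hv2'⟩ := hspeed (T u) (hTabs u hu') (hbd u hu' hnorm.le)
        have hvv : ∀ k, v k = v' k := fun k =>
          ((hv1 k).sub_const (orb L (-s) k (P (-s)))).unique (hv1' k)
        have h0 : 0 ≤ C / (1 - lam') := (abs_nonneg _).trans (hv2' 0)
        refine lt_of_le_of_lt ((pi_norm_le_iff_of_nonneg (by positivity)).2 fun k => ?_) hsmall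
        rw [Real.norm_eq_abs, abs_mul, hvv, mul_comm]
        exact mul_le_mul_of_nonneg_left (hv2' k) (abs_nonneg _)
      · exact ⟨0, fun h => absurd h hu, fun h => absurd h hu⟩
    choose w hw1 hw2 using hex
    intro u hu
    refine image_norm_le_of_norm_deriv_right_lt_deriv_boundary (a := 0) (b := 1)
      (f := fun u => fun k : Fin n => h k (T u)) (f' := w) (B := fun u => δ₀ / 2 * u)
      (B' := fun _ => δ₀ / 2) ?_ hw2 ?_ ?_ (fun x hx => hw1 x hx) hu
    · rw [continuousOn_pi]
      intro k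
      refine (hcont k).comp (by fun_prop) fun u hu => ?_
      exact abs_le.1 (hTabs u hu).le
    · have e1 : (fun k : Fin n => h k (T 0)) = 0 := by
        funext k
        simp only [hh, hT, mul_zero, add_zero, sub_self, Pi.zero_apply]
      rw [e1]
      simp
    · intro x
      have := (hasDerivAt_id x).const_mul (δ₀ / 2)
      simpa using this
  have h1 := hmain 1 ⟨zero_le_one, le_rfl⟩
  have hT1 : T 1 = 0 := by simp only [hT]; ring
  have h2 : ∀ k, |h k 0| ≤ δ₀ := by
    refine hall 0 (by rw [abs_zero]; exact hs₁.le) fun k hk => ?_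
    rw [hT1] at h1
    have e1 : ‖h k 0‖ ≤ ‖(fun k : Fin n => h k 0)‖ :=
      norm_le_pi_norm (fun k : Fin n => h k 0) ⟨k, hk⟩
    rw [Real.norm_eq_abs] at e1
    linarith
  intro k
  have h3 := h2 k
  simp only [hh] at h3
  rw [hP.zero, I_Lip.orb_zero L hE.zero, zero_sub, abs_neg] at h3
  exact h3

end main

end I_UU

theorem pr_UU (hCls : StCls.{u}) (hSwC : StSwC) (hSwE : StSwE) (hDif : StDif) (hSpd : StSpd) :
    StUU.{u} := by
  intro m M _ _ _ _ _ hact hfree r hr f ℒ Dm τ Λ hF C lam hU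
  obtain ⟨hC, h0, h1, hUc, hUe⟩ := hU
  have hactc : Continuous fun p : Circle × M => p.1 • p.2 := ContMDiff.continuous hact
  have hτ := hF.tau
  set lam' : ℝ := (lam + 1) / 2 with hlam'
  have hl1 : lam < lam' := by rw [hlam']; linarith
  have hl2 : lam' < 1 := by rw [hlam']; linarith
  have hl0 : 0 < lam' := h0.trans hl1
  have hratio : 1 < lam' / lam := (one_lt_div h0).2 hl1
  obtain ⟨δ₀, hδ₀, hδ⟩ := I_UU.unif hactc hF.cont hF.pos hratio
  set K' : ℝ := C / (1 - lam') with hK'
  have hK'0 : 0 < K' := div_pos hC (by linarith)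
  set τ₁ : ℝ := min (τ / 4) (δ₀ / (4 * K')) with hτ₁
  have hτ₁0 : 0 < τ₁ := by rw [hτ₁]; positivity
  have hτ₁1 : τ₁ ≤ τ / 4 := min_le_left _ _
  have hτ₁2 : τ₁ ≤ δ₀ / (4 * K') := min_le_right _ _
  have hcls := hCls m M hact hfree r hr f ℒ Dm τ Λ hF
  have hrot0 : rotated f 0 = f := by
    funext x
    change Circle.exp 0 • f x = f x
    rw [Circle.exp_zero, one_smul]
  refine ⟨C, lam', τ₁, hC, hl0, hl2, hτ₁0, ?_⟩
  intro s hs y
  have hsτ : |s| < τ := by linarith
  have hs₁ : 0 < τ / 2 := by linarith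
  have hs₁τ : τ / 2 < τ - |s| := by linarith
  have hss : |s| < τ / 2 := by linarith
  have hsmall : |s| * K' < δ₀ / 2 := by
    have e1 : |s| * K' ≤ δ₀ / (4 * K') * K' :=
      mul_le_mul_of_nonneg_right (hs.le.trans hτ₁2) hK'0.le
    have e2 : δ₀ / (4 * K') * K' = δ₀ / 4 := by field_simp
    linarith
  have hrots : rotated f (s + -s) = f := by rw [add_neg_cancel, hrot0]
  have habs : |(-s)| ≤ τ / 2 := by rw [abs_neg]; exact hss.le
  -- the orbit of `f`
  have key : ∀ n, 0 < n → (rotated f s)^[n] y = y → ∀ P : ℝ → ℝ,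
      Swp (fun j => ℒ ((rotated f s)^[j] y)) n (τ / 2) P →
      Ext (fun j => ℒ ((rotated f s)^[j] y)) n (τ - |s|) Λ →
      ∀ z : ℕ → M, (∀ k, z k = Circle.exp
        (orb (fun j => ℒ ((rotated f s)^[j] y)) (-s) k (P (-s))) • (rotated f s)^[k] y) →
      (∀ j i, f^[i] (z j) = z (j + i)) ∧ (∀ j, z (j + n) = z j) ∧
      (∀ j, ∏ i ∈ Finset.range n, Dm (z (j + i)) =
        ∏ i ∈ Finset.range n, deriv (ℒ ((rotated f s)^[i] y))
          (orb (fun j => ℒ ((rotated f s)^[j] y)) (-s) i (P (-s)))) := by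
    intro n hn hy P hP hE z hz
    have hz1 : ∀ j i, f^[i] (z j) = z (j + i) := by
      intro j i
      have := I_Lip.iter hF.lift s (-s) y (P (-s)) j i
      rw [hrots] at this
      rw [hz, hz, this]
    have hz2 : ∀ j, z (j + n) = z j := by
      intro j
      rw [hz, hz, I_Lip.orb_per _ n hE.per (-s) (P (-s)) (hP.fixed (-s) habs),
        Function.iterate_add_apply, hy]
    refine ⟨hz1, hz2, fun j => ?_⟩
    rw [I_Lip.prod_per (fun k => Dm (z k)) n (fun k => hF.pos _) (fun k => by rw [hz2]) j]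
    refine Finset.prod_congr rfl fun i _ => ?_
    rw [hz, hF.der]
  have fin : ∀ n, 0 < n → (rotated f s)^[n] y = y → ∀ P : ℝ → ℝ,
      ∀ z : ℕ → M, (∀ k, z k = Circle.exp
        (orb (fun j => ℒ ((rotated f s)^[j] y)) (-s) k (P (-s))) • (rotated f s)^[k] y) →
      (∀ k, |orb (fun j => ℒ ((rotated f s)^[j] y)) (-s) k (P (-s))| ≤ δ₀) →
      ∀ k, Dm ((rotated f s)^[k] y) ≤ lam' / lam * Dm (z k) ∧
        Dm (z k) ≤ lam' / lam * Dm ((rotated f s)^[k] y) := by
    intro n hn hy P z hz hb k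
    have e1 := hδ _ ((rotated f s)^[k] y) (hb k)
    rw [← hz k] at e1
    exact ⟨e1.2, e1.1⟩
  constructor
  · intro hyc k
    obtain ⟨n, hn, hy, hprod⟩ := (hcls s y).1.1 hyc
    have hE := hF.ext s y n hsτ hn hy
    have hprod' : ∏ i ∈ Finset.range n, deriv (ℒ ((rotated f s)^[i] y)) 0 < 1 := by
      simpa only [hF.der, Circle.exp_zero, one_smul] using hprod
    obtain ⟨P, hP, hmul, -⟩ := hSwC _ n (τ - |s|) Λ (τ / 2) hE hs₁ hs₁τ hprod'
    set z : ℕ → M := fun k => Circle.exp
        (orb (fun j => ℒ ((rotated f s)^[j] y)) (-s) k (P (-s))) • (rotated f s)^[k] y with hz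
    obtain ⟨hz1, hz2, hz3⟩ := key n hn hy P hP hE z fun k => rfl
    have hzb : ∀ j k, ∏ i ∈ Finset.range k, Dm (z (j + i)) ≤ C * lam ^ k := by
      intro j k
      have e1 : z j ∈ CircleContracting (EuclideanSpace ℝ (Fin m)) f := by
        have e0 := (hcls 0 (z j)).1
        rw [hrot0] at e0
        rw [e0]
        refine ⟨n, hn, by rw [hz1, hz2], ?_⟩
        simp only [hz1]
        rw [hz3]
        exact hmul (-s) habs
      have e2 := hUc _ e1 k
      simpa only [hz1] using e2
    have hb := I_UU.boot hDif hSpd hF hC h0 hl0 hl2 hδ₀ hδ hn hy hs₁ hs₁τ hss hsmall hE P hP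
      (Or.inl hzb)
    have hf := fin n hn hy P z (fun k => rfl) hb
    have := I_UU.prod_bound_le (a := fun k => Dm ((rotated f s)^[k] y)) (b := fun k => Dm (z k)) h0
      (fun k => hF.pos _) (fun k => (hf k).1) hzb hl0 0 k
    simpa using this
  · intro hye k
    obtain ⟨n, hn, hy, hprod⟩ := (hcls s y).2.1 hye
    have hE := hF.ext s y n hsτ hn hy
    have hprod' : 1 < ∏ i ∈ Finset.range n, deriv (ℒ ((rotated f s)^[i] y)) 0 := by
      simpa only [hF.der, Circle.exp_zero, one_smul] using hprod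
    obtain ⟨P, hP, hmul, -⟩ := hSwE _ n (τ - |s|) Λ (τ / 2) hE hs₁ hs₁τ hprod'
    set z : ℕ → M := fun k => Circle.exp
        (orb (fun j => ℒ ((rotated f s)^[j] y)) (-s) k (P (-s))) • (rotated f s)^[k] y with hz
    obtain ⟨hz1, hz2, hz3⟩ := key n hn hy P hP hE z fun k => rfl
    have hzb : ∀ j k, 1 ≤ C * lam ^ k * ∏ i ∈ Finset.range k, Dm (z (j + i)) := by
      intro j k
      have e1 : z j ∈ CircleExpanding (EuclideanSpace ℝ (Fin m)) f := by
        have e0 := (hcls 0 (z j)).2
        rw [hrot0] at e0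
        rw [e0]
        refine ⟨n, hn, by rw [hz1, hz2], ?_⟩
        simp only [hz1]
        rw [hz3]
        exact hmul (-s) habs
      have e2 := hUe _ e1 k
      simpa only [hz1] using e2
    have hb := I_UU.boot hDif hSpd hF hC h0 hl0 hl2 hδ₀ hδ hn hy hs₁ hs₁τ hss hsmall hE P hP
      (Or.inr hzb)
    have hf := fin n hn hy P z (fun k => rfl) hb
    have := I_UU.prod_bound_ge (a := fun k => Dm ((rotated f s)^[k] y)) (b := fun k => Dm (z k)) hC
      h0 (fun k => hF.pos _) (fun k => (hf k).2) hzb 0 k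
    simpa using this

end Pool.Agent.OmegaStability.OS
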