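import Pool.Agent.Work.MP_814647_an.OS.StmtsC
import Pool.Agent.Work.MP_814647_an.OS.I_UU

/-!
# Circle extensions with one-sided structure functions: item Nbh
-/

set_option autoImplicit false

open Set Filter Topology Function
open scoped Manifold ContDiff

noncomputable section

namespace Pool.Agent.OmegaStability.OS

open Dens

universe u v

namespace I_Nbh

/-- One step. -/
theorem step {M : Type u} [MulAction Circle M] {f : M → M} {ℒ : M → ℝ → ℝ} {Dm : M → ℝ}
    (hL : NLift f ℒ) (hpos : ∀ y, 0 < Dm y) (hsm : ∀ y, ContDiff ℝ 1 (ℒ y))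
    (hder : ∀ y θ, deriv (ℒ y) θ = Dm (Circle.exp θ • y)) {c δ₀ : ℝ}
    (hδ : ∀ (x : ℝ) (z : M), |x| ≤ δ₀ → Dm (Circle.exp x • z) ≤ c * Dm z) (z : M) (x : ℝ)
    (hx : |x| ≤ δ₀) : |ℒ z x| ≤ c * Dm z * |x| := by
  have h1 : ‖ℒ z x - ℒ z 0‖ ≤ c * Dm z * ‖x - 0‖ := by
    refine Convex.norm_image_sub_le_of_norm_deriv_le (s := Icc (-|x|) |x|)
      (fun t _ => ((hsm z).differentiable (by norm_num)) t) ?_ (convex_Icc _ _)
      ⟨by linarith [abs_nonneg x], abs_nonneg x⟩ ⟨neg_abs_le x, le_abs_self x⟩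
    intro t ht
    rw [hder, Real.norm_eq_abs, abs_of_pos (hpos _)]
    exact hδ t z ((abs_le.2 ht).trans hx)
  rwa [hL.zero, sub_zero, sub_zero, Real.norm_eq_abs, Real.norm_eq_abs] at h1

end I_Nbh

theorem pr_Nbh : StNbh.{u} := by
  intro M _ _ _ hact f ℒ Dm hfc hL hDc hpos hsm hder Z C lam hZ hZf hC h0 h1 hprod
  set lam' : ℝ := (lam + 1) / 2 with hlam'
  have hl1 : lam < lam' := by rw [hlam']; linarith
  have hl2 : lam' < 1 := by rw [hlam']; linarith
  have hl0 : 0 < lam' := h0.trans hl1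
  have hratio : 1 < lam' / lam := (one_lt_div h0).2 hl1
  have hc0 : 0 < lam' / lam := by linarith
  obtain ⟨δ₀, hδ₀, hδ⟩ := I_UU.unif hact hDc hpos hratio
  set C₁ : ℝ := max C 1 with hC₁
  have hC₁1 : 1 ≤ C₁ := le_max_right _ _
  have hCC₁ : C ≤ C₁ := le_max_left _ _
  have hC₁0 : 0 < C₁ := by linarith
  set δ₁ : ℝ := δ₀ / C₁ with hδ₁
  have hδ₁0 : 0 < δ₁ := div_pos hδ₀ hC₁0
  have hδ₁C : C₁ * δ₁ = δ₀ := by rw [hδ₁]; field_simp
  have hZit : ∀ z ∈ Z, ∀ k, f^[k] z ∈ Z := by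
    intro z hz k
    induction k with
    | zero => exact hz
    | succ k ih => rw [iterate_succ_apply']; exact hZf _ ih
  have hpow : ∀ k, lam' ^ k ≤ 1 := fun k => pow_le_one₀ hl0.le hl2.le
  -- the orbits of nearby points
  have hA : ∀ z ∈ Z, ∀ x : ℝ, |x| ≤ δ₁ → ∀ k, ∃ x' : ℝ,
      f^[k] (Circle.exp x • z) = Circle.exp x' • f^[k] z ∧ |x'| ≤ C * lam' ^ k * |x| ∨
      (k = 0 ∧ x' = x ∧ f^[k] (Circle.exp x • z) = Circle.exp x' • f^[k] z) := by
    intro z hz x hx k
    have hgen : ∀ k, ∃ x' : ℝ, f^[k] (Circle.exp x • z) = Circle.exp x' • f^[k] z ∧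
        |x'| ≤ (∏ i ∈ Finset.range k, Dm (f^[i] z)) * (lam' / lam) ^ k * |x| ∧ |x'| ≤ δ₀ := by
      intro k
      induction k with
      | zero =>
        refine ⟨x, rfl, by simp, hx.trans ?_⟩
        rw [← hδ₁C]
        nlinarith
      | succ k ih =>
        obtain ⟨x', e1, e2, e3⟩ := ih
        have e4 := I_Nbh.step hL hpos hsm hder (fun x z hx => (hδ x z hx).1) (f^[k] z) x' e3
        have e5 : |ℒ (f^[k] z) x'| ≤
            (∏ i ∈ Finset.range (k + 1), Dm (f^[i] z)) * (lam' / lam) ^ (k + 1) * |x| := by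
          refine e4.trans ?_
          have := mul_le_mul_of_nonneg_left e2
            (by have := hpos (f^[k] z); positivity : 0 ≤ lam' / lam * Dm (f^[k] z))
          refine this.trans (le_of_eq ?_)
          rw [Finset.prod_range_succ]
          ring
        refine ⟨ℒ (f^[k] z) x', ?_, e5, ?_⟩
        · rw [iterate_succ_apply', e1, hL.map, iterate_succ_apply']
        · refine e5.trans ?_
          have e6 := hprod z hz (k + 1)
          calc (∏ i ∈ Finset.range (k + 1), Dm (f^[i] z)) * (lam' / lam) ^ (k + 1) * |x|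
              ≤ (C * lam ^ (k + 1)) * (lam' / lam) ^ (k + 1) * |x| := by
                gcongr
            _ = C * lam' ^ (k + 1) * |x| := by
                rw [div_pow]
                field_simp
            _ ≤ C₁ * 1 * δ₁ := by
                gcongr
                exact hpow _
            _ = δ₀ := by rw [mul_one, hδ₁C]
    obtain ⟨x', e1, e2, e3⟩ := hgen k
    refine ⟨x', Or.inl ⟨e1, e2.trans ?_⟩⟩
    have e6 := hprod z hz k
    calc (∏ i ∈ Finset.range k, Dm (f^[i] z)) * (lam' / lam) ^ k * |x|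
        ≤ (C * lam ^ k) * (lam' / lam) ^ k * |x| := by
          gcongr
      _ = C * lam' ^ k * |x| := by
          rw [div_pow]
          field_simp
  have hA' : ∀ z ∈ Z, ∀ x : ℝ, |x| ≤ δ₁ → ∀ k, ∃ x' : ℝ,
      f^[k] (Circle.exp x • z) = Circle.exp x' • f^[k] z ∧ |x'| ≤ C₁ * |x| := by
    intro z hz x hx k
    obtain ⟨x', ⟨e1, e2⟩ | ⟨-, e2, e3⟩⟩ := hA z hz x hx k
    · refine ⟨x', e1, e2.trans ?_⟩
      calc C * lam' ^ k * |x| ≤ C₁ * 1 * |x| := by
            gcongr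
            exact hpow _
        _ = C₁ * |x| := by rw [mul_one]
    · refine ⟨x', e3, ?_⟩
      rw [e2]
      nlinarith [abs_nonneg x]
  set V : Set M := (fun p : ℝ × M => Circle.exp p.1 • p.2) '' (Icc (-δ₁) δ₁ ×ˢ Z) with hV
  have hmemV : ∀ z ∈ Z, ∀ x : ℝ, |x| ≤ δ₁ → Circle.exp x • z ∈ V := fun z hz x hx =>
    ⟨(x, z), ⟨abs_le.1 hx, hz⟩, rfl⟩
  refine ⟨δ₁ / (1 + C₁), V, C, lam', by positivity, ?_, hC, hl0, hl2, ?_, ?_⟩
  · have hcont : Continuous fun p : ℝ × M => Circle.exp p.1 • p.2 :=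
      hact.comp ((Circle.exp.continuous.comp continuous_fst).prodMk continuous_snd)
    exact ((isCompact_Icc.prod hZ.isCompact).image hcont).isClosed
  · rintro _ ⟨⟨x, z⟩, ⟨hx, hz⟩, rfl⟩ n
    have hx' : |x| ≤ δ₁ := abs_le.2 hx
    have e1 := I_UU.prod_bound_le (a := fun k => Dm (f^[k] (Circle.exp x • z)))
      (b := fun k => Dm (f^[k] z)) (C := C) (lam := lam) (lam' := lam') h0 (fun k => hpos _)
      (fun k => ?_) (fun j k => ?_) hl0 0 n
    · simpa using e1
    · obtain ⟨x', e2, e3⟩ := hA' z hz x hx' k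
      show Dm (f^[k] (Circle.exp x • z)) ≤ _
      rw [e2]
      refine (hδ x' (f^[k] z) (e3.trans ?_)).1
      rw [← hδ₁C]
      gcongr
    · have e4 := hprod (f^[j] z) (hZit z hz j) k
      refine le_trans (le_of_eq (Finset.prod_congr rfl fun i _ => ?_)) e4
      rw [← iterate_add_apply, add_comm]
  · intro z hz θ hθ
    have hθ1 : |θ| ≤ δ₁ := hθ.trans (div_le_self hδ₁0.le (by linarith))
    refine ⟨hmemV z hz θ hθ1, ?_⟩
    obtain ⟨x', e1, e2⟩ := hA' z hz θ hθ1 1
    have e3 : f (Circle.exp θ • z) = Circle.exp x' • f z := e1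
    rw [e3]
    refine hmemV (f z) (hZf z hz) x' (e2.trans ?_)
    calc C₁ * |θ| ≤ C₁ * (δ₁ / (1 + C₁)) := by gcongr
      _ = δ₁ * (C₁ / (1 + C₁)) := by ring
      _ ≤ δ₁ * 1 := by
          gcongr
          rw [div_le_one (by positivity)]
          linarith
      _ = δ₁ := mul_one _

end Pool.Agent.OmegaStability.OS
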