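import Pool.Agent.Work.MP_814647_an.OS.StmtsC

/-!
# Circle extensions with one-sided structure functions: item OnB
-/

set_option autoImplicit false

open Set Filter Topology Function
open scoped Manifold ContDiff

noncomputable section

namespace Pool.Agent.OmegaStability.OS

open Dens

universe u

namespace I_OnB

/-- the lift on the circle of `exp θ • y` -/
def sh (L : ℝ → ℝ) (θ : ℝ) (η : ℝ) : ℝ := L (θ + η) - L θ

theorem iter_succ (L : ℝ → ℝ) (θ : ℝ) (n : ℕ) :
    iteratedDeriv (n + 1) (sh L θ) 0 = iteratedDeriv (n + 1) L θ := by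
  have h1 : deriv (sh L θ) = fun η => deriv L (θ + η) := by
    funext η
    unfold sh
    rw [deriv_sub_const_fun, deriv_comp_const_add]
  rw [iteratedDeriv_succ', iteratedDeriv_succ', h1, iteratedDeriv_comp_const_add]
  simp

theorem der (L : ℝ → ℝ) (θ : ℝ) : deriv (sh L θ) 0 = deriv L θ := by
  have := iter_succ L θ 0
  simpa [iteratedDeriv_one] using this

theorem lift {M : Type u} [MulAction Circle M] {f : M → M} {ℒ : M → ℝ → ℝ} (h : NLift f ℒ)
    (y : M) (θ : ℝ) : IsCircleLift f (Circle.exp θ • y) (sh (ℒ y) θ) := by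
  refine ⟨?_, ?_, fun η => ?_⟩
  · unfold sh
    exact ((h.cont y).comp (continuous_const.add continuous_id)).sub continuous_const
  · simp [sh]
  · rw [← mul_smul, ← Circle.exp_add, h.map, h.map y θ, ← mul_smul, ← Circle.exp_add]
    unfold sh
    rw [add_comm η θ, sub_add_cancel]

theorem aff {M : Type u} [MulAction Circle M] {f : M → M} {ℒ : M → ℝ → ℝ} (h : NLift f ℒ)
    (a : M → ℝ) (y : M) (θ : ℝ) :
    affineDefect f a (Circle.exp θ • y) (sh (ℒ y) θ) =
      nlB (ℒ y) (fun η => a (Circle.exp η • y)) (fun η => a (Circle.exp η • f y)) θ := by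
  unfold affineDefect nlB nlAt
  rw [iter_succ, der, h.map y θ]

theorem proj {M : Type u} [MulAction Circle M] {f : M → M} {ℒ : M → ℝ → ℝ} (h : NLift f ℒ)
    (a : M → ℝ) (y : M) (θ : ℝ) :
    projectiveDefect f a (Circle.exp θ • y) (sh (ℒ y) θ) =
      scB (ℒ y) (fun η => a (Circle.exp η • y)) (fun η => a (Circle.exp η • f y)) θ := by
  unfold projectiveDefect scB nlAt
  rw [iter_succ, iter_succ, der, h.map y θ]

theorem smooth {L : ℝ → ℝ} {θ : ℝ} (h : ContDiff ℝ 3 (sh L θ)) : ContDiff ℝ 3 L := by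
  have h1 : L = fun x => sh L θ (x - θ) + L θ := by
    funext x
    unfold sh
    rw [add_sub_cancel, sub_add_cancel]
  rw [h1]
  exact (h.comp (contDiff_id.sub contDiff_const)).add contDiff_const

end I_OnB

open I_OnB in
theorem pr_OnB : StOnB.{u} := by
  intro M _ f ℒ h K P σ hP
  obtain ⟨a, ha, hc, h1 | h1 | ⟨h2, h1⟩⟩ := hP
  · refine ⟨a, KdB.up, ha, hc, fun y θ hy => ?_, fun hk => KdB.noConfusion hk⟩
    have := h1 _ hy _ (lift h y θ)
    rwa [aff h] at this
  · refine ⟨a, KdB.down, ha, hc, fun y θ hy => ?_, fun hk => KdB.noConfusion hk⟩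
    have := h1 _ hy _ (lift h y θ)
    rwa [aff h] at this
  · refine ⟨a, KdB.sch, ha, hc, fun y θ hy => ?_, fun _ => ⟨h2, fun y θ hy => ?_⟩⟩
    · have := (h1 _ hy _ (lift h y θ)).2
      rwa [proj h] at this
    · exact smooth (h1 _ hy _ (lift h y θ)).1

end Pool.Agent.OmegaStability.OS
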