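import Pool.Agent.Work.MP_814647_an.OS.StmtsD

/-!
# Uniform exponents along the circles: item PSh
-/

set_option autoImplicit false

open Set Filter Topology Function
open scoped Manifold ContDiff

noncomputable section

namespace Pool.Agent.OmegaStability.OS

open Dens

universe u v

namespace I_PSh

/-- A full orbit from time zero. -/
theorem orbit_nat {M : Type u} {f : M → M} {y : ℤ → M} (hy : ∀ j, y (j + 1) = f (y j)) (j : ℕ) :
    y j = f^[j] (y 0) := by
  induction j with
  | zero => rfl
  | succ j ih =>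
    rw [iterate_succ_apply', ← ih, ← hy]
    push_cast
    rfl

/-- Extension of a periodic sequence to the integers. -/
def ext {M : Type u} (n : ℕ) (x : ℕ → M) (j : ℤ) : M := x (j % n).toNat

theorem ext_nat {M : Type u} {n : ℕ} (x : ℕ → M) {j : ℕ} (hj : j < n) : ext n x j = x j := by
  unfold ext
  congr 1
  rw [Int.emod_eq_of_lt (by positivity) (by exact_mod_cast hj)]
  simp

theorem ext_succ {M : Type u} {n : ℕ} (hn : 0 < n) (x : ℕ → M) (hx : x n = x 0) (j : ℤ) :
    ext n x (j + 1) = x ((j % n).toNat + 1) := by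
  unfold ext
  have hn' : (0 : ℤ) < n := by exact_mod_cast hn
  have h0 := Int.emod_nonneg j hn'.ne'
  have h1 := Int.emod_lt_of_pos j hn'
  obtain ⟨i, hi⟩ := Int.eq_ofNat_of_zero_le h0
  have hi1 : i < n := by
    rw [hi] at h1
    exact_mod_cast h1
  have h2 : (j + 1) % n = ((i : ℤ) + 1) % n := by
    rw [Int.add_emod, hi]
    simp [Int.add_emod]
  rw [h2, hi]
  by_cases h3 : i + 1 < n
  · rw [Int.emod_eq_of_lt (by positivity) (by exact_mod_cast h3)]
    simp
  · have h4 : i + 1 = n := by omega
    have h5 : ((i : ℤ) + 1) = n := by exact_mod_cast h4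
    rw [h5, Int.emod_self]
    simp only [Int.toNat_zero, Int.toNat_natCast]
    rw [h4, hx]

theorem ext_per {M : Type u} (n : ℕ) (x : ℕ → M) (j : ℤ) : ext n x (j + n) = ext n x j := by
  unfold ext
  rw [Int.add_emod_right]

end I_PSh

theorem pr_PSh : StPSh.{u} := by
  intro M _ f S hexp hsh ε hε
  obtain ⟨κ, hκ, hexp⟩ := hexp
  obtain ⟨δ, hδ, hsh⟩ := hsh (min ε (κ / 2)) (by positivity)
  refine ⟨δ, hδ, ?_⟩
  intro n x hn hxS hxn hjump
  have hn' : (0 : ℤ) < n := by exact_mod_cast hn
  have hlt : ∀ j : ℤ, (j % n).toNat < n := by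
    intro j
    have h1 := Int.emod_lt_of_pos j hn'
    have h0 := Int.emod_nonneg j hn'.ne'
    omega
  obtain ⟨y, hyS, hy, hd⟩ := hsh (I_PSh.ext n x) (fun j => hxS _ (hlt j).le) (fun j => by
    rw [I_PSh.ext_succ hn x hxn]
    exact hjump _ (hlt j))
  have h1 : y 0 = y (0 + n) := by
    refine hexp y (fun j => y (j + n)) hyS (fun j => hyS _) hy (fun j => ?_) (fun j => ?_)
    · show y (j + 1 + n) = f (y (j + n))
      rw [← hy]
      congr 1
      ring
    · have e1 := hd j
      have e2 := hd (j + n)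
      rw [I_PSh.ext_per] at e2
      have e3 : min ε (κ / 2) ≤ κ / 2 := min_le_right _ _
      calc dist (y j) (y (j + n)) ≤ dist (y j) (I_PSh.ext n x j) +
            dist (I_PSh.ext n x j) (y (j + n)) := dist_triangle _ _ _
        _ ≤ κ := by
            rw [dist_comm (y j)]
            linarith
  refine ⟨y 0, hyS 0, ?_, fun j hj => ?_⟩
  · rw [← I_PSh.orbit_nat hy n]
    rw [zero_add] at h1
    exact h1.symm
  · rw [← I_PSh.orbit_nat hy j, ← I_PSh.ext_nat x hj]
    exact (hd j).trans_le (min_le_left _ _)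

end Pool.Agent.OmegaStability.OS
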