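import Pool.Agent.Work.MP_814647_an.OS.StmtsD

/-!
# Uniform exponents along the circles: item Ret
-/

set_option autoImplicit false

open Set Filter Topology Function
open scoped Manifold ContDiff

noncomputable section

namespace Pool.Agent.OmegaStability.OS

open Dens

universe u v

namespace I_Ret

variable {M : Type u} [MetricSpace M]

/-- A chain in `P` with jumps `< η`, of length `k`. -/
def Ch (f : M → M) (P : Set M) (η : ℝ) (a b : M) (k : ℕ) : Prop :=
  ∃ c : ℕ → M, c 0 = a ∧ c k = b ∧ (∀ j ≤ k, c j ∈ P) ∧ ∀ j < k, dist (f (c j)) (c (j + 1)) < η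

theorem Ch.ends {f : M → M} {P : Set M} {η₁ η₂ : ℝ} {a b a' b' : M} {k : ℕ} (hη : 0 ≤ η₂)
    (h : Ch f P η₁ a b k) (hk : 2 ≤ k) (ha' : a' ∈ P) (hb' : b' ∈ P)
    (hd1 : dist (f a') (f a) ≤ η₂) (hd2 : dist b b' ≤ η₂) : Ch f P (η₁ + η₂) a' b' k := by
  obtain ⟨c, h0, h1, h2, h3⟩ := h
  refine ⟨fun j => if j = 0 then a' else if j = k then b' else c j, by simp, ?_, ?_, ?_⟩
  · have : k ≠ 0 := by omega
    simp [this]
  · intro j hj
    simp only []
    split_ifs
    · exact ha'
    · exact hb'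
    · exact h2 j hj
  · intro j hj
    have hj1 : j ≠ k := by omega
    have hj2 : j + 1 ≠ 0 := by omega
    simp only [hj1, hj2, if_false]
    rcases Nat.eq_zero_or_pos j with rfl | hj0
    · have e1 : (0 + 1 : ℕ) ≠ k := by omega
      simp only [if_true, e1, if_false]
      have e2 := h3 0 hj
      rw [h0] at e2
      calc dist (f a') (c (0 + 1)) ≤ dist (f a') (f a) + dist (f a) (c (0 + 1)) :=
            dist_triangle _ _ _
        _ < η₁ + η₂ := by linarith
    · have e0 : j ≠ 0 := by omega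
      simp only [e0, if_false]
      have e2 := h3 j hj
      split_ifs with e3
      · rw [e3, h1] at e2
        calc dist (f (c j)) b' ≤ dist (f (c j)) b + dist b b' := dist_triangle _ _ _
          _ < η₁ + η₂ := by linarith
      · linarith

theorem iter_mem {f : M → M} (hf : Continuous f) {x : M} (hx : x ∈ closure (periodicPts f))
    (n : ℕ) : f^[n] x ∈ closure (periodicPts f) := by
  have h1 : f^[n] x ∈ closure (f^[n] '' periodicPts f) :=
    image_closure_subset_closure_image (hf.iterate n) ⟨x, hx, rfl⟩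
  refine closure_mono ?_ h1
  rintro _ ⟨y, ⟨m, hm, hy⟩, rfl⟩
  have hy' : f^[m] y = y := hy
  refine ⟨m, hm, ?_⟩
  show f^[m] (f^[n] y) = f^[n] y
  rw [← iterate_add_apply, add_comm, iterate_add_apply, hy']

/-- Part (a). -/
theorem back {f : M → M} (hf : Continuous f) {x : M} (hx : x ∈ closure (periodicPts f)) (n : ℕ)
    {η : ℝ} (hη : 0 < η) : ∃ k, 2 ≤ k ∧ Ch f (closure (periodicPts f)) η (f^[n] x) x k := by
  have hc : Tendsto f^[n + 1] (𝓝 x) (𝓝 (f^[n + 1] x)) := (hf.iterate (n + 1)).tendsto x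
  have hU : {p | dist p x < η ∧ dist (f^[n + 1] p) (f^[n + 1] x) < η} ∈ 𝓝 x := by
    refine Filter.inter_mem (Metric.ball_mem_nhds x hη) ?_
    exact hc (Metric.ball_mem_nhds _ hη)
  obtain ⟨p, hpU, hp⟩ := mem_closure_iff_nhds.1 hx _ hU
  obtain ⟨hp1, hp2⟩ := hpU
  obtain ⟨N, hN, hpN⟩ := hp
  have hpN' : f^[N] p = p := hpN
  have hm : f^[(n + 3) * N] p = p := by
    rw [mul_comm, iterate_mul]
    exact iterate_fixed hpN' _
  have hmN : n + 3 ≤ (n + 3) * N := Nat.le_mul_of_pos_right _ hN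
  obtain ⟨k, hk⟩ := Nat.exists_eq_add_of_le (show n ≤ (n + 3) * N by omega)
  have hk3 : 3 ≤ k := by omega
  have hpP : ∀ i, f^[i] p ∈ closure (periodicPts f) := fun i =>
    iter_mem hf (subset_closure ⟨N, hN, hpN⟩) i
  refine ⟨k, by omega, fun j => if j = 0 then f^[n] x else if j = k then x else f^[n + j] p,
    by simp, ?_, ?_, ?_⟩
  · have : k ≠ 0 := by omega
    simp [this]
  · intro j hj
    simp only []
    split_ifs
    · exact iter_mem hf hx n
    · exact hx
    · exact hpP _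
  · intro j hj
    have hj1 : j ≠ k := by omega
    have hj2 : j + 1 ≠ 0 := by omega
    simp only [hj1, hj2, if_false]
    rcases Nat.eq_zero_or_pos j with rfl | hj0
    · have e1 : (0 + 1 : ℕ) ≠ k := by omega
      simp only [if_true, e1, if_false]
      rw [dist_comm, ← iterate_succ_apply' f n x]
      exact hp2
    · have e0 : j ≠ 0 := by omega
      simp only [e0, if_false]
      split_ifs with e3
      · rw [← iterate_succ_apply' f (n + j) p, show (n + j).succ = (n + 3) * N by omega, hm]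
        exact hp1
      · rw [← iterate_succ_apply' f (n + j) p, show (n + j).succ = n + (j + 1) by omega, dist_self]
        exact hη

end I_Ret

open I_Ret

theorem pr_Ret : StRet.{u} := by
  intro M _ _ f hf δ hδ
  set P : Set M := closure (periodicPts f) with hP
  have hPc : IsCompact P := isClosed_closure.isCompact
  obtain ⟨δ₁, hδ₁, huc⟩ := Metric.uniformContinuous_iff.1
    (CompactSpace.uniformContinuous_of_continuous hf) (δ / 3) (by positivity)
  set δ' : ℝ := min δ₁ (δ / 3) with hδ'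
  have hδ'0 : 0 < δ' := by positivity
  obtain ⟨F, hFP, hFf, hFc⟩ := hPc.finite_cover_balls hδ'0
  have hex : ∀ a b : M, ∃ k, (∃ k', 2 ≤ k' ∧ Ch f P (δ / 3 + δ / 3) a b k') →
      (2 ≤ k ∧ Ch f P (δ / 3 + δ / 3) a b k) := by
    intro a b
    by_cases h : ∃ k', 2 ≤ k' ∧ Ch f P (δ / 3 + δ / 3) a b k'
    · obtain ⟨k', hk'⟩ := h
      exact ⟨k', fun _ => hk'⟩
    · exact ⟨0, fun h' => absurd h' h⟩
  choose K hK using hex
  refine ⟨(hFf.toFinset ×ˢ hFf.toFinset).sup fun p => K p.1 p.2, ?_⟩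
  intro x hx n
  have hnx : f^[n] x ∈ P := iter_mem hf hx n
  obtain ⟨a, haF, ha⟩ : ∃ a ∈ F, dist (f^[n] x) a < δ' := by
    have := hFc hnx
    simp only [mem_iUnion, Metric.mem_ball] at this
    obtain ⟨a, ha, hd⟩ := this
    exact ⟨a, ha, hd⟩
  obtain ⟨b, hbF, hb⟩ : ∃ b ∈ F, dist x b < δ' := by
    have := hFc hx
    simp only [mem_iUnion, Metric.mem_ball] at this
    obtain ⟨b, hb, hd⟩ := this
    exact ⟨b, hb, hd⟩
  have hle1 : δ' ≤ δ₁ := min_le_left _ _
  have hle2 : δ' ≤ δ / 3 := min_le_right _ _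
  obtain ⟨k, hk2, hk⟩ := back hf hx n (show 0 < δ / 3 by positivity)
  have hfa : dist (f (f^[n] x)) (f a) < δ / 3 := huc (ha.trans_le hle1)
  have h1 : Ch f P (δ / 3 + δ / 3) a b k :=
    hk.ends (by positivity) hk2 (hFP haF) (hFP hbF) (by rw [dist_comm]; exact hfa.le)
      (hb.le.trans hle2)
  obtain ⟨h2, h3⟩ := hK a b ⟨k, hk2, h1⟩
  have h4 : Ch f P (δ / 3 + δ / 3 + δ / 3) (f^[n] x) x (K a b) :=
    h3.ends (by positivity) h2 hnx hx hfa.le (by rw [dist_comm]; exact hb.le.trans hle2)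
  obtain ⟨c, c0, c1, c2, c3⟩ := h4
  refine ⟨K a b, c, by omega, ?_, c0, c1, c2, fun j hj => ?_⟩
  · exact Finset.le_sup (f := fun p : M × M => K p.1 p.2) (b := (a, b))
      (Finset.mem_product.2 ⟨hFf.mem_toFinset.2 haF, hFf.mem_toFinset.2 hbF⟩)
  · have := c3 j hj
    linarith

end Pool.Agent.OmegaStability.OS
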