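import Pool.Agent.Work.MP_814647_an.OS.StmtsB

/-!
# Block OS2 of MP_814647_an, item Ric: the oscillation inequality for Hill's equation
-/

set_option autoImplicit false

open Set Filter Topology Function
open scoped Manifold ContDiff

noncomputable section

namespace Pool.Agent.OmegaStability.OS

open Dens

namespace I_Ric

theorem cont_sq_div {p q : ℝ → ℝ} {p' q' a : ℝ} (hp : HasDerivAt p p' a)
    (hq : HasDerivAt q q' a) (hq' : q' ≠ 0) (pa : p a = 0) (qa : q a = 0) :
    ContinuousAt (fun x => p x ^ 2 / q x) a := by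
  rw [continuousAt_iff_punctured_nhds]
  have h1 : Tendsto (fun x => p x / (x - a)) (𝓝[≠] a) (𝓝 p') := by
    refine (hasDerivAt_iff_tendsto_slope.1 hp).congr' ?_
    filter_upwards with x
    rw [slope_def_field, pa, sub_zero]
  have h2 : Tendsto (fun x => q x / (x - a)) (𝓝[≠] a) (𝓝 q') := by
    refine (hasDerivAt_iff_tendsto_slope.1 hq).congr' ?_
    filter_upwards with x
    rw [slope_def_field, qa, sub_zero]
  have h3 : Tendsto p (𝓝[≠] a) (𝓝 0) := by
    have := hp.continuousAt.tendsto
    rw [pa] at this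
    exact this.mono_left nhdsWithin_le_nhds
  have h4 : Tendsto (fun x => p x * ((p x / (x - a)) / (q x / (x - a)))) (𝓝[≠] a)
      (𝓝 (0 * (p' / q'))) := h3.mul (h1.div h2 hq')
  rw [zero_mul] at h4
  have h5 : p a ^ 2 / q a = 0 := by rw [pa]; simp
  rw [h5]
  refine h4.congr' ?_
  filter_upwards [self_mem_nhdsWithin] with x hx
  have hxa : x - a ≠ 0 := sub_ne_zero.2 hx
  rw [div_div_div_cancel_right₀ hxa, mul_div, sq]

theorem derivs {F : ℝ → ℝ} (hF : ContDiff ℝ 3 F) :
    (∀ x, HasDerivAt F (deriv F x) x) ∧ (∀ x, HasDerivAt (deriv F) (iteratedDeriv 2 F x) x) ∧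
      (∀ x, HasDerivAt (iteratedDeriv 2 F) (iteratedDeriv 3 F x) x) := by
  refine ⟨fun x => ?_, fun x => ?_, fun x => ?_⟩
  · exact ((hF.differentiable (by norm_num)) x).hasDerivAt
  · have h1 : Differentiable ℝ (iteratedDeriv 1 F) :=
      hF.differentiable_iteratedDeriv 1 (by norm_cast)
    have h2 := (h1 x).hasDerivAt
    rw [iteratedDeriv_one] at h2
    rw [show (2 : ℕ) = 1 + 1 by norm_num, iteratedDeriv_succ, iteratedDeriv_one]
    exact h2
  · have h1 : Differentiable ℝ (iteratedDeriv 2 F) :=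
      hF.differentiable_iteratedDeriv 2 (by norm_cast)
    have h2 := (h1 x).hasDerivAt
    have h3 : iteratedDeriv 3 F = deriv (iteratedDeriv 2 F) := iteratedDeriv_succ
    rw [h3]
    exact h2

/-- The difference of the logarithmic derivatives. -/
def RR (F S G S' G' : ℝ → ℝ) (x : ℝ) : ℝ :=
  nlAt F x + 2 * (G x / S x) - 2 * deriv F x * (G' (F x) / S' (F x))

theorem core {σ : ℝ} (hσ : σ = 1 ∨ σ = -1) {F q q' S G S' G' : ℝ → ℝ} {e u v : ℝ}
    (hF : ContDiff ℝ 3 F) (hpos : ∀ x, 0 < deriv F x) (he : e = u ∨ e = v)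
    (ds : ∀ x ∈ Icc u v, HasDerivAt S (G x) x)
    (dg : ∀ x ∈ Icc u v, HasDerivAt G (-(q x / 2) * S x) x)
    (ds' : ∀ x ∈ Icc u v, HasDerivAt S' (G' (F x)) (F x))
    (dg' : ∀ x ∈ Icc u v, HasDerivAt G' (-(q' (F x) / 2) * S' (F x)) (F x))
    (sa : S e = 0) (ga : G e = 1) (va : S' (F e) = 0) (ha : G' (F e) = 1)
    (sp : ∀ x ∈ Icc u v, x ≠ e → S x ≠ 0) (vp : ∀ x ∈ Icc u v, x ≠ e → S' (F x) ≠ 0)
    (hQ : ∀ x ∈ Icc u v, 0 ≤ σ * scB F q q' x) :
    ∃ Ψ : ℝ → ℝ, MonotoneOn Ψ (Icc u v) ∧ Ψ e = 0 ∧
      ∀ x ∈ Icc u v, x ≠ e → ∃ c : ℝ, 0 < c ∧ Ψ x = c * (σ * RR F S G S' G' x) := by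
  obtain ⟨d0, d1, d2⟩ := derivs hF
  have hin : ∀ x ∈ interior (Icc u v), x ∈ Icc u v ∧ x ≠ e := by
    intro x hx
    refine ⟨interior_subset hx, ?_⟩
    rw [interior_Icc] at hx
    rcases he with rfl | rfl
    · exact hx.1.ne'
    · exact hx.2.ne
  have dv : ∀ x ∈ Icc u v, HasDerivAt (fun y => S' (F y)) (G' (F x) * deriv F x) x :=
    fun x hx => (ds' x hx).comp x (d0 x)
  have dh : ∀ x ∈ Icc u v,
      HasDerivAt (fun y => G' (F y)) (-(q' (F x) / 2) * S' (F x) * deriv F x) x :=
    fun x hx => (dg' x hx).comp x (d0 x)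
  have dn : ∀ x, HasDerivAt (fun y => nlAt F y)
      ((iteratedDeriv 3 F x * deriv F x - iteratedDeriv 2 F x * iteratedDeriv 2 F x) /
        deriv F x ^ 2) x := fun x => (d2 x).div (d1 x) (hpos x).ne'
  rcases hσ with rfl | rfl
  · -- the case 1
    set Φ : ℝ → ℝ := fun x => S x ^ 2 * nlAt F x + 2 * (S x * G x) -
      2 * (deriv F x * G' (F x)) * (S x ^ 2 / S' (F x)) with hΦ
    have hcont : ContinuousOn Φ (Icc u v) := by
      intro x hx
      apply ContinuousAt.continuousWithinAt
      have c1 : ContinuousAt (fun y => S y ^ 2 / S' (F y)) x := by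
        rcases eq_or_ne x e with h1 | h1
        · subst h1
          refine cont_sq_div (ds x hx) (dv x hx) ?_ sa va
          rw [ha, one_mul]; exact (hpos x).ne'
        · exact ((ds x hx).continuousAt.pow 2).div (dv x hx).continuousAt (vp x hx h1)
      exact ((((ds x hx).continuousAt.pow 2).mul (dn x).continuousAt).add
        (continuousAt_const.mul ((ds x hx).continuousAt.mul (dg x hx).continuousAt))).sub
        ((continuousAt_const.mul ((d1 x).continuousAt.mul (dh x hx).continuousAt)).mul c1)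
    have hder : ∀ x ∈ interior (Icc u v), HasDerivAt Φ (S x ^ 2 * (scB F q q' x +
        RR F S G S' G' x ^ 2 / 2)) x := by
      intro x hx'
      obtain ⟨hx, hxe⟩ := hin x hx'
      have h1 := sp x hx hxe
      have h2 := vp x hx hxe
      have h3 := (hpos x).ne'
      have hd := ((((ds x hx).pow 2).mul (dn x)).add (((ds x hx).mul (dg x hx)).const_mul 2)).sub
        ((((d1 x).mul (dh x hx)).const_mul 2).mul (((ds x hx).pow 2).div (dv x hx) h2))
      refine HasDerivAt.congr_deriv hd ?_
      simp only [scB, RR, nlAt, Pi.pow_apply, Pi.mul_apply, Pi.div_apply]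
      field_simp
      ring
    have hm : MonotoneOn Φ (Icc u v) := by
      refine monotoneOn_of_deriv_nonneg (convex_Icc u v) hcont
        (fun x hx => (hder x hx).differentiableAt.differentiableWithinAt) fun x hx => ?_
      rw [(hder x hx).deriv]
      have h1 := hQ x (interior_subset hx)
      rw [one_mul] at h1
      positivity
    refine ⟨Φ, hm, ?_, ?_⟩
    · simp only [hΦ, sa]
      ring
    · intro x hx hxe
      have h1 := sp x hx hxe
      have h2 := vp x hx hxe
      refine ⟨S x ^ 2, by positivity, ?_⟩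
      simp only [hΦ, RR]
      field_simp
  · -- the case - 1
    set Z : ℝ → ℝ := fun x => 2 * (G' (F x) * S' (F x)) -
      S' (F x) ^ 2 * nlAt F x / deriv F x -
      2 * (G x / deriv F x) * (S' (F x) ^ 2 / S x) with hZ
    have hcont : ContinuousOn Z (Icc u v) := by
      intro x hx
      apply ContinuousAt.continuousWithinAt
      have c1 : ContinuousAt (fun y => S' (F y) ^ 2 / S y) x := by
        rcases eq_or_ne x e with h1 | h1
        · subst h1
          refine cont_sq_div (dv x hx) (ds x hx) ?_ va sa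
          rw [ga]; exact one_ne_zero
        · exact ((dv x hx).continuousAt.pow 2).div (ds x hx).continuousAt (sp x hx h1)
      exact ((continuousAt_const.mul ((dh x hx).continuousAt.mul (dv x hx).continuousAt)).sub
        ((((dv x hx).continuousAt.pow 2).mul (dn x).continuousAt).div (d1 x).continuousAt
          (hpos x).ne')).sub
        ((continuousAt_const.mul ((dg x hx).continuousAt.div (d1 x).continuousAt
          (hpos x).ne')).mul c1)
    have hder : ∀ x ∈ interior (Icc u v), HasDerivAt Z (S' (F x) ^ 2 / deriv F x *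
        (-scB F q q' x + RR F S G S' G' x ^ 2 / 2)) x := by
      intro x hx'
      obtain ⟨hx, hxe⟩ := hin x hx'
      have h1 := sp x hx hxe
      have h2 := vp x hx hxe
      have h3 := (hpos x).ne'
      have hd := (((((dh x hx).mul (dv x hx)).const_mul 2).sub
        ((((dv x hx).pow 2).mul (dn x)).div (d1 x) h3))).sub
        ((((dg x hx).div (d1 x) h3).const_mul 2).mul (((dv x hx).pow 2).div (ds x hx) h1))
      refine HasDerivAt.congr_deriv hd ?_
      simp only [scB, RR, nlAt, Pi.pow_apply, Pi.mul_apply, Pi.div_apply]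
      field_simp
      ring
    have hm : MonotoneOn Z (Icc u v) := by
      refine monotoneOn_of_deriv_nonneg (convex_Icc u v) hcont
        (fun x hx => (hder x hx).differentiableAt.differentiableWithinAt) fun x hx => ?_
      rw [(hder x hx).deriv]
      have h1 := hQ x (interior_subset hx)
      have h2 : 0 ≤ - scB F q q' x := by linarith
      have h3 := hpos x
      positivity
    refine ⟨Z, hm, ?_, ?_⟩
    · simp only [hZ, va]
      ring
    · intro x hx hxe
      have h1 := sp x hx hxe
      have h2 := vp x hx hxe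
      have h3 := hpos x
      refine ⟨S' (F x) ^ 2 / deriv F x, by positivity, ?_⟩
      simp only [hZ, RR]
      field_simp
      ring

end I_Ric

open I_Ric in
theorem pr_Ric : StRic := by
  intro σ hσ M F q q' e S G S' G' hF hpos hS hS' b
  have hmono : StrictMono F := strictMono_of_deriv_pos hpos
  refine ⟨fun heb hb hFb hQ => ?_, fun hbe hb hFb hQ => ?_⟩
  · have hx1 : ∀ x ∈ Icc e b, |x - e| ≤ 2 * Real.pi := fun x hx => by
      rw [abs_of_nonneg (by linarith [hx.1])]
      linarith [hx.2]
    have hx2 : ∀ x ∈ Icc e b, |F x - F e| ≤ 2 * Real.pi := fun x hx => by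
      have h1 := hmono.monotone hx.1
      have h2 := hmono.monotone hx.2
      rw [abs_of_nonneg (by linarith)]
      linarith
    obtain ⟨Ψ, hm, h0, hx⟩ := core (u := e) (v := b) hσ hF hpos (Or.inl rfl)
      (fun x hx => hS.dS x (hx1 x hx)) (fun x hx => hS.dG x (hx1 x hx))
      (fun x hx => hS'.dS (F x) (hx2 x hx)) (fun x hx => hS'.dG (F x) (hx2 x hx))
      hS.S0 hS.G0 hS'.S0 hS'.G0
      (fun x hx hxe => by
        have h1 : e < x := lt_of_le_of_ne hx.1 (Ne.symm hxe)
        have h2 := hS.pos x h1 (by linarith [hx.2])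
        have h3 : 0 < Real.sin ((x - e) / 2) :=
          Real.sin_pos_of_pos_of_lt_pi (by linarith) (by linarith [hx.2])
        exact (by linarith : (0 : ℝ) < S x).ne')
      (fun x hx hxe => by
        have h1 : F e < F x := hmono (lt_of_le_of_ne hx.1 (Ne.symm hxe))
        have h4 := hmono.monotone hx.2
        have h2 := hS'.pos (F x) h1 (by linarith)
        have h3 : 0 < Real.sin ((F x - F e) / 2) :=
          Real.sin_pos_of_pos_of_lt_pi (by linarith) (by linarith)
        exact (by linarith : (0 : ℝ) < S' (F x)).ne')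
      hQ
    have h1 := hm (left_mem_Icc.2 heb.le) (right_mem_Icc.2 heb.le) heb.le
    obtain ⟨c, hc, h2⟩ := hx b (right_mem_Icc.2 heb.le) heb.ne'
    rw [h0, h2] at h1
    exact nonneg_of_mul_nonneg_right h1 hc
  · have hx1 : ∀ x ∈ Icc b e, |x - e| ≤ 2 * Real.pi := fun x hx => by
      rw [abs_of_nonpos (by linarith [hx.2])]
      linarith [hx.1]
    have hx2 : ∀ x ∈ Icc b e, |F x - F e| ≤ 2 * Real.pi := fun x hx => by
      have h1 := hmono.monotone hx.1
      have h2 := hmono.monotone hx.2
      rw [abs_of_nonpos (by linarith)]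
      linarith
    obtain ⟨Ψ, hm, h0, hx⟩ := core (u := b) (v := e) hσ hF hpos (Or.inr rfl)
      (fun x hx => hS.dS x (hx1 x hx)) (fun x hx => hS.dG x (hx1 x hx))
      (fun x hx => hS'.dS (F x) (hx2 x hx)) (fun x hx => hS'.dG (F x) (hx2 x hx))
      hS.S0 hS.G0 hS'.S0 hS'.G0
      (fun x hx hxe => by
        have h1 : x < e := lt_of_le_of_ne hx.2 hxe
        have h2 := hS.neg x (by linarith [hx.1]) h1
        have h3 : Real.sin ((x - e) / 2) < 0 :=
          Real.sin_neg_of_neg_of_neg_pi_lt (by linarith) (by linarith [hx.1])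
        exact (by linarith : S x < (0 : ℝ)).ne)
      (fun x hx hxe => by
        have h1 : F x < F e := hmono (lt_of_le_of_ne hx.2 hxe)
        have h4 := hmono.monotone hx.1
        have h2 := hS'.neg (F x) (by linarith) h1
        have h3 : Real.sin ((F x - F e) / 2) < 0 :=
          Real.sin_neg_of_neg_of_neg_pi_lt (by linarith) (by linarith)
        exact (by linarith : S' (F x) < (0 : ℝ)).ne)
      hQ
    have h1 := hm (left_mem_Icc.2 hbe.le) (right_mem_Icc.2 hbe.le) hbe.le
    obtain ⟨c, hc, h2⟩ := hx b (left_mem_Icc.2 hbe.le) hbe.ne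
    rw [h0, h2] at h1
    exact nonpos_of_mul_nonpos_right h1 hc

end Pool.Agent.OmegaStability.OS
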