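import Pool.Agent.Work.MP_814647_an.OS.StmtsB

/-!
# Item ScEB: projective one-sidedness, expanding
-/

set_option autoImplicit false

open Set Filter Topology Function
open scoped Manifold ContDiff

noncomputable section

namespace Pool.Agent.OmegaStability.OS

open Dens

/-- Item ScEB. -/
theorem pr_ScEB (h1 : StHl) (h2 : StHiB) (h3 : StCoB) (h4 : StGau) : StScEB := by
  intro K δ hK hδ
  obtain ⟨M, hM, hH⟩ := h1 K hK
  obtain ⟨c, w, W, hc, hw, hwW, hco⟩ := h3 M δ hM hδ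
  obtain ⟨C, lam, hC, hl0, hl1, hg⟩ := h4 (2 * c) w W (by linarith) hw hwW
  refine ⟨C, lam, hC, hl0, hl1, ?_⟩
  intro F q l p r hF hF' hqc hqK hqh hp hlp hpr hrl hFl hFr hFd hsc
  have hex : ∀ (k : ℕ) (e : ℝ), ∃ S G : ℝ → ℝ, IsHill (q k) e M S G := fun k e =>
    hH (q k) (hqc k) (hqK k) (hqh k) e
  choose S G hS using hex
  have hB : ∀ k, w ≤ G k (l k) (p k) / S k (l k) (p k) - G k (r k) (p k) / S k (r k) (p k) ∧
      G k (l k) (p k) / S k (l k) (p k) - G k (r k) (p k) / S k (r k) (p k) ≤ W := by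
    intro k
    refine (hco (q k) (l k) (r k) _ _ _ _ (hS k (l k)) (hS k (r k)) ?_ ?_).2.2 (p k) (hlp k) (hpr k)
    · linarith [hlp k, hpr k]
    · linarith [hrl k]
  refine (hg (fun k => deriv (F k) (p k))
    (fun k => G k (l k) (p k) / S k (l k) (p k) - G k (r k) (p k) / S k (r k) (p k))
    (fun k => hF' k _) (fun k => (hB k).1) (fun k => (hB k).2)).2 ?_
  intro k
  have e1 := h2 (-1) (Or.inr rfl) M (F k) (q k) (q (k + 1)) (l k) (p k) (r k) _ _ _ _ _ _ _ _
    (hF k) (hF' k) (hS k (l k)) (hS k (r k)) (hS (k + 1) (F k (l k))) (hS (k + 1) (F k (r k)))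
    (by linarith [hlp k]) (by linarith [hpr k]) (by linarith [hrl k]) (hFd k) (hsc k)
  rw [hp k] at e1
  have k1 := hlp (k + 1)
  have k2 := hpr (k + 1)
  have k3 := hFl k
  have k4 := hFr k
  have k5 := hFd k
  have e2 := (hco (q (k + 1)) (F k (l k)) (l (k + 1)) _ _ _ _ (hS (k + 1) (F k (l k)))
    (hS (k + 1) (l (k + 1))) k3 (by linarith)).1 (p (k + 1)) (by linarith) (by linarith)
  have e3 := (hco (q (k + 1)) (r (k + 1)) (F k (r k)) _ _ _ _ (hS (k + 1) (r (k + 1)))
    (hS (k + 1) (F k (r k))) k4 (by linarith)).2.1 (p (k + 1)) (by linarith) (by linarith)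
  have e4 : G k (l k) (p k) / S k (l k) (p k) - G k (r k) (p k) / S k (r k) (p k) ≤
      deriv (F k) (p k) *
        (G (k + 1) (F k (l k)) (p (k + 1)) / S (k + 1) (F k (l k)) (p (k + 1)) -
        G (k + 1) (F k (r k)) (p (k + 1)) / S (k + 1) (F k (r k)) (p (k + 1))) := by linarith
  refine e4.trans (mul_le_mul_of_nonneg_left ?_ (hF' k _).le)
  linarith

end Pool.Agent.OmegaStability.OS
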