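import Pool.Agent.Work.MP_814647_an.OS.StmtsC
import Pool.Agent.Work.MP_814647_an.OS.Per

/-!
# Item U0: uniform estimates for the periodic points, with structure functions
-/

set_option autoImplicit false

open Set Filter Topology Function
open scoped Manifold ContDiff

noncomputable section

namespace Pool.Agent.OmegaStability.OS

open Dens

universe u v

namespace I_U0

theorem rot0 {M : Type u} [MulAction Circle M] (f : M → M) : rotated f 0 = f := by
  funext y
  unfold rotated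
  rw [Circle.exp_zero, one_smul]

theorem orb0 {L : ℕ → ℝ → ℝ} (h : ∀ j, L j 0 = 0) (k : ℕ) : orb L 0 k 0 = 0 := by
  induction k with
  | zero => rfl
  | succ k ih =>
    show L k (orb L 0 k 0) + 0 = 0
    rw [ih, h, add_zero]

/-- The best constants for the three kinds. -/
theorem three {A : ℝ → ℝ → KdB → Prop}
    (hmono : ∀ C C' l l' K, 0 < C → 0 < l → C ≤ C' → l ≤ l' → A C l K → A C' l' K)
    (h : ∀ K : KdB, ∃ C lam : ℝ, 0 < C ∧ 0 < lam ∧ lam < 1 ∧ A C lam K) :
    ∃ C lam : ℝ, 0 < C ∧ 0 < lam ∧ lam < 1 ∧ ∀ K : KdB, A C lam K := by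
  obtain ⟨C1, l1, hC1, hl1, hl1', h1⟩ := h KdB.up
  obtain ⟨C2, l2, hC2, hl2, hl2', h2⟩ := h KdB.down
  obtain ⟨C3, l3, hC3, hl3, hl3', h3⟩ := h KdB.sch
  refine ⟨max C1 (max C2 C3), max l1 (max l2 l3), lt_max_of_lt_left hC1, lt_max_of_lt_left hl1,
    max_lt hl1' (max_lt hl2' hl3'), ?_⟩
  intro K
  cases K with
  | up => exact hmono _ _ _ _ _ hC1 hl1 (le_max_left _ _) (le_max_left _ _) h1
  | down =>
    exact hmono _ _ _ _ _ hC2 hl2 ((le_max_left _ _).trans (le_max_right _ _))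
      ((le_max_left _ _).trans (le_max_right _ _)) h2
  | sch =>
    exact hmono _ _ _ _ _ hC3 hl3 ((le_max_right _ _).trans (le_max_right _ _))
      ((le_max_right _ _).trans (le_max_right _ _)) h3

/-- The estimate of KCB for the kind `k`. -/
def AC (K τ Λ C lam : ℝ) (k : KdB) : Prop :=
  ∀ (L a : ℕ → ℝ → ℝ) (N : ℕ), Ext L N τ Λ → (∀ j, ContDiff ℝ 2 (L j)) → k.ok L a →
    (∀ j, Continuous (a j)) → (∀ j θ, |a j θ| ≤ K) →
    ∏ i ∈ Finset.range N, deriv (L i) 0 < 1 →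
    (∀ s, |s| < τ → ∀ θ, orb L s N θ = θ →
      ∏ i ∈ Finset.range N, deriv (L i) (orb L s i θ) < 1 →
        ∀ i, k.at 1 (L i) (a i) (a (i + 1)) (orb L s i θ)) →
    ∀ n, ∏ i ∈ Finset.range n, deriv (L i) 0 ≤ C * lam ^ n

/-- The estimate of KEB for the kind `k`. -/
def AE (K τ Λ C lam : ℝ) (k : KdB) : Prop :=
  ∀ (L a : ℕ → ℝ → ℝ) (N : ℕ), Ext L N τ Λ → (∀ j, ContDiff ℝ 2 (L j)) → k.ok L a →
    (∀ j, Continuous (a j)) → (∀ j θ, |a j θ| ≤ K) →
    1 < ∏ i ∈ Finset.range N, deriv (L i) 0 →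
    (∀ s, |s| < τ → ∀ θ, orb L s N θ = θ →
      1 < ∏ i ∈ Finset.range N, deriv (L i) (orb L s i θ) →
        ∀ i, k.at (-1) (L i) (a i) (a (i + 1)) (orb L s i θ)) →
    ∀ n, 1 ≤ C * lam ^ n * ∏ i ∈ Finset.range n, deriv (L i) 0

end I_U0

open I_U0 I_Uni

theorem pr_U0 (hCls : StCls.{u}) (hKC : StKCB) (hKE : StKEB) (hOn : StOnB.{u}) : StU0.{u} := by
  intro m M _ _ _ _ _ hact hfree r hr f ℒ Dm τ Λ hF h2 hOS
  obtain ⟨τ', K, hτ', hone⟩ := hOS
  rcases isEmpty_or_nonempty M with hM | ⟨⟨y00⟩⟩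
  · exact ⟨1, 1 / 2, by norm_num, by norm_num, by norm_num, fun y => hM.elim y,
      fun y => hM.elim y⟩
  have hK : 0 ≤ K := by
    obtain ⟨⟨a, ha, -⟩, -⟩ := hone y00
    exact (abs_nonneg _).trans (ha y00)
  set τ₁ : ℝ := min τ τ' with hτ₁def
  have hτ₁ : 0 < τ₁ := lt_min hF.tau hτ'
  obtain ⟨C1, l1, hC1, hl1, hl1', hc⟩ := three (A := AC K τ₁ Λ)
    (fun C C' l l' k hC hl hCC hll h L a N hext h2' hok hac haK hp hat n =>
      (h L a N hext h2' hok hac haK hp hat n).trans (I_UniP.pow_le hC hl hCC hll n))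
    (fun k => hKC k K τ₁ Λ hK hτ₁)
  obtain ⟨C2, l2, hC2, hl2, hl2', he⟩ := three (A := AE K τ₁ Λ)
    (fun C C' l l' k hC hl hCC hll h L a N hext h2' hok hac haK hp hat n =>
      (h L a N hext h2' hok hac haK hp hat n).trans (mul_le_mul_of_nonneg_right
        (I_UniP.pow_le hC hl hCC hll n) (Finset.prod_nonneg fun i _ => (hext.dpos i 0).le)))
    (fun k => hKE k K τ₁ Λ hK hτ₁ hF.lam)
  have hd0 : ∀ y : M, deriv (ℒ y) 0 = Dm y := by
    intro y
    rw [hF.der, Circle.exp_zero, one_smul]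
  have h00 : rotated (f : M → M) 0 = (f : M → M) := rot0 _
  have hsucc : ∀ (y : M) (i : ℕ), (rotated (f : M → M) 0)^[i + 1] y =
      (f : M → M) ((rotated (f : M → M) 0)^[i] y) := by
    intro y i
    rw [Function.iterate_succ_apply']
    exact congrFun h00 _
  have hover : ∀ (y : M) (i : ℕ) (θ : ℝ),
      Circle.exp θ • (rotated (f : M → M) 0)^[i] y ∈ circlesAlong (f : M → M) y := by
    intro y i θ
    exact ⟨i, Circle.exp θ, by rw [h00]⟩
  refine ⟨max C1 C2, max l1 l2, lt_max_of_lt_left hC1, lt_max_of_lt_left hl1,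
    max_lt hl1' hl2', ?_, ?_⟩
  · intro y hy n
    obtain ⟨hyc, -⟩ := hone y
    obtain ⟨a, k, haK, hac, hat, hsch⟩ := hOn M f ℒ hF.lift K _ 1 hyc
    rw [← h00] at hy
    obtain ⟨N, hN, hyN, hprod⟩ := (hCls m M hact hfree r hr f ℒ Dm τ Λ hF 0 y).1.1 hy
    have hext := ext_mono (hF.ext 0 y N (by rw [abs_zero]; exact hF.tau) hN hyN) (τ' := τ₁)
      (by rw [abs_zero, sub_zero]; exact min_le_left τ τ')
    have hP : ∀ t, |t| < τ₁ → ∀ θ, orb (fun j => ℒ ((rotated f 0)^[j] y)) t N θ = θ →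
        ∏ i ∈ Finset.range N, deriv (ℒ ((rotated f 0)^[i] y))
          (orb (fun j => ℒ ((rotated f 0)^[j] y)) t i θ) < 1 → ∀ i,
        Circle.exp (orb (fun j => ℒ ((rotated f 0)^[j] y)) t i θ) • (rotated f 0)^[i] y ∈
          {y' | y' ∈ circlesAlong (f : M → M) y ∧ ∃ t : ℝ, |t| < τ' ∧
            y' ∈ CircleContracting (EuclideanSpace ℝ (Fin m)) (rotated f t)} := by
      intro t ht θ hθ hQ i
      refine ⟨hover y i _, t, ht.trans_le (min_le_right _ _), ?_⟩
      rw [(hCls m M hact hfree r hr f ℒ Dm τ Λ hF t _).1]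
      have h3 := core hF.lift hF.pos hF.der (fun c => c < 1) 0 t θ y N hyN hθ hQ i
      rw [zero_add] at h3
      exact ⟨N, hN, h3⟩
    have h1 := hc k (fun j => ℒ ((rotated f 0)^[j] y))
      (fun j η => a (Circle.exp η • (rotated f 0)^[j] y)) N hext (fun j => h2 _) ?_
      (fun j => hac _) (fun j θ => haK _) (by simpa only [hd0] using hprod) ?_ n
    · simp only [hd0, h00] at h1
      exact h1.trans (I_UniP.pow_le hC1 hl1 (le_max_left _ _) (le_max_left _ _) n)
    · cases k with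
      | up => trivial
      | down => trivial
      | sch =>
        refine ⟨fun j => ?_, fun j θ => (hsch rfl).1 _⟩
        have hmem := hP 0 (by rw [abs_zero]; exact hτ₁) 0 (orb0 hext.zero N) ?_ j
        · exact (hsch rfl).2 _ _ hmem
        · have h4 : ∀ i, orb (fun j => ℒ ((rotated f 0)^[j] y)) 0 i 0 = 0 := orb0 hext.zero
          simp only [h4, hd0]
          exact hprod
    · intro t ht θ hθ hQ i
      have h5 := hat _ _ (hP t ht θ hθ hQ i)
      simp only [hsucc]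
      exact h5
  · intro y hy n
    obtain ⟨-, hyc⟩ := hone y
    obtain ⟨a, k, haK, hac, hat, hsch⟩ := hOn M f ℒ hF.lift K _ (-1) hyc
    rw [← h00] at hy
    obtain ⟨N, hN, hyN, hprod⟩ := (hCls m M hact hfree r hr f ℒ Dm τ Λ hF 0 y).2.1 hy
    have hext := ext_mono (hF.ext 0 y N (by rw [abs_zero]; exact hF.tau) hN hyN) (τ' := τ₁)
      (by rw [abs_zero, sub_zero]; exact min_le_left τ τ')
    have hP : ∀ t, |t| < τ₁ → ∀ θ, orb (fun j => ℒ ((rotated f 0)^[j] y)) t N θ = θ →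
        1 < ∏ i ∈ Finset.range N, deriv (ℒ ((rotated f 0)^[i] y))
          (orb (fun j => ℒ ((rotated f 0)^[j] y)) t i θ) → ∀ i,
        Circle.exp (orb (fun j => ℒ ((rotated f 0)^[j] y)) t i θ) • (rotated f 0)^[i] y ∈
          {y' | y' ∈ circlesAlong (f : M → M) y ∧ ∃ t : ℝ, |t| < τ' ∧
            y' ∈ CircleExpanding (EuclideanSpace ℝ (Fin m)) (rotated f t)} := by
      intro t ht θ hθ hQ i
      refine ⟨hover y i _, t, ht.trans_le (min_le_right _ _), ?_⟩
      rw [(hCls m M hact hfree r hr f ℒ Dm τ Λ hF t _).2]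
      have h3 := core hF.lift hF.pos hF.der (fun c => 1 < c) 0 t θ y N hyN hθ hQ i
      rw [zero_add] at h3
      exact ⟨N, hN, h3⟩
    have h1 := he k (fun j => ℒ ((rotated f 0)^[j] y))
      (fun j η => a (Circle.exp η • (rotated f 0)^[j] y)) N hext (fun j => h2 _) ?_
      (fun j => hac _) (fun j θ => haK _) (by simpa only [hd0] using hprod) ?_ n
    · simp only [hd0, h00] at h1
      refine h1.trans ?_
      refine mul_le_mul_of_nonneg_right
        (I_UniP.pow_le hC2 hl2 (le_max_right _ _) (le_max_right _ _) n) ?_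
      exact Finset.prod_nonneg fun i _ => (hF.pos _).le
    · cases k with
      | up => trivial
      | down => trivial
      | sch =>
        refine ⟨fun j => ?_, fun j θ => (hsch rfl).1 _⟩
        have hmem := hP 0 (by rw [abs_zero]; exact hτ₁) 0 (orb0 hext.zero N) ?_ j
        · exact (hsch rfl).2 _ _ hmem
        · have h4 : ∀ i, orb (fun j => ℒ ((rotated f 0)^[j] y)) 0 i 0 = 0 := orb0 hext.zero
          simp only [h4, hd0]
          exact hprod
    · intro t ht θ hθ hQ i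
      have h5 := hat _ _ (hP t ht θ hθ hQ i)
      simp only [hsucc]
      exact h5

end Pool.Agent.OmegaStability.OS
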