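import Pool.Agent.Work.MP_814647_an.OS.StmtsD
import Pool.Agent.Work.MP_814647_an.OS.I_Cls

/-!
# Uniform exponents along the circles, item Unx: the estimates imply uniform exponents
-/

set_option autoImplicit false

open Set Filter Topology Function
open scoped Manifold ContDiff

noncomputable section

namespace Pool.Agent.OmegaStability.OS

open Dens

universe u v

namespace I_Unx

/-- powers bounded by a constant -/
lemma le_one_of_pow {a C : ℝ} (h : ∀ k : ℕ, a ^ k ≤ C) : a ≤ 1 := by
  by_contra hlt
  push Not at hlt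
  obtain ⟨k, hk⟩ := pow_unbounded_of_one_lt C hlt
  exact absurd (h k) (not_le.2 hk)

/-- the product along `k` periods -/
lemma prod_period {M : Type u} (f : M → M) (D : M → ℝ) {n : ℕ} {y : M} (hy : f^[n] y = y)
    (k : ℕ) : ∏ i ∈ Finset.range (k * n), D (f^[i] y) =
      (∏ i ∈ Finset.range n, D (f^[i] y)) ^ k := by
  have hk : ∀ k : ℕ, f^[k * n] y = y := fun k => by
    have h1 : IsPeriodicPt f n y := hy
    exact h1.const_mul k
  induction k with
  | zero => simp
  | succ k ih =>
    rw [add_mul, one_mul, Finset.prod_range_add, ih, pow_succ]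
    congr 1
    refine Finset.prod_congr rfl fun i _ => ?_
    rw [add_comm, iterate_add_apply, hk k]

end I_Unx

open I_Unx in
theorem pr_Unx : StUnx := by
  intro m M _ _ _ _ _ ha hfree r hr f ℒ Dm τ Λ hF C lam hU
  obtain ⟨hC, hl0, hl1, hcon, hexp⟩ := hU
  have hrot : rotated (f : M → M) 0 = f := by
    funext y
    unfold rotated
    rw [Circle.exp_zero, one_smul]
  have hlog : Real.log lam < 0 := Real.log_neg hl0 hl1
  refine ⟨-Real.log lam, by linarith, ?_⟩
  intro n y hn hy
  have hy0 : (rotated (f : M → M) 0)^[n] y = y := by rw [hrot]; exact hy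
  set q : ℝ := ∏ i ∈ Finset.range n, Dm ((f : M → M)^[i] y) with hq
  have hq0 : 0 < q := Finset.prod_pos fun i _ => hF.pos _
  have hmult : (mfderiv (𝓡 m) (𝓡 m) (f : M → M)^[n] y (vgen m y) : EuclideanSpace ℝ (Fin m)) =
      q • vgen m y := by
    have h1 := I_Cls.mult ha hr f hF 0 hn hy0
    rw [hrot] at h1
    exact h1
  have hq1 : q ≠ 1 := by
    have hE := hF.ext 0 y n (by rw [abs_zero]; exact hF.tau) hn hy0
    have hℒ : NLift (rotated (f : M → M) 0) ℒ := I_Cls.nlift_rot hF.lift 0
    have h00 : ∀ i, orb (fun j => ℒ ((rotated (f : M → M) 0)^[j] y)) 0 i 0 = 0 := fun i =>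
      orb_zero_zero hℒ y i
    have h1 := hE.noN 0 (by rw [abs_zero, sub_zero]; exact hF.tau) 0 (h00 n)
    intro h2
    apply h1
    rw [← h2, hq]
    refine Finset.prod_congr rfl fun i _ => ?_
    rw [h00 i, hF.der, Circle.exp_zero, one_smul, hrot]
  have hn0 : (0 : ℝ) < n := by exact_mod_cast hn
  have hln : 0 < lam ^ n := pow_pos hl0 n
  refine ⟨Real.log q / n, ?_, ?_⟩
  · rcases lt_or_gt_of_ne hq1 with h | h
    · have hyc : y ∈ CircleContracting (EuclideanSpace ℝ (Fin m)) (f : M → M) :=
        ⟨n, hn, hy, q, by rwa [abs_of_pos hq0], hmult⟩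
      have h1 : q / lam ^ n ≤ 1 := by
        apply le_one_of_pow (C := C)
        intro k
        have h2 := hcon y hyc (k * n)
        rw [prod_period (f : M → M) Dm hy k] at h2
        rw [div_pow, div_le_iff₀ (pow_pos hln k), ← pow_mul, mul_comm n k]
        exact h2
      have h2 : q ≤ lam ^ n := by
        rw [div_le_one hln] at h1
        exact h1
      have h3 : Real.log q ≤ n * Real.log lam := by
        have := Real.log_le_log hq0 h2
        rwa [Real.log_pow] at this
      have h4 : Real.log q / n ≤ Real.log lam := by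
        rw [div_le_iff₀ hn0]
        linarith
      rw [abs_of_neg (by linarith)]
      linarith
    · have hye : y ∈ CircleExpanding (EuclideanSpace ℝ (Fin m)) (f : M → M) :=
        ⟨n, hn, hy, q, by rwa [abs_of_pos hq0], hmult⟩
      have hlq : 0 < lam ^ n * q := mul_pos hln hq0
      have h1 : (lam ^ n * q)⁻¹ ≤ 1 := by
        apply le_one_of_pow (C := C)
        intro k
        have h2 := hexp y hye (k * n)
        rw [prod_period (f : M → M) Dm hy k] at h2
        rw [inv_pow, inv_le_iff_one_le_mul₀ (pow_pos hlq k), mul_pow, ← pow_mul, mul_comm n k,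
          ← mul_assoc]
        exact h2
      have h2 : 1 ≤ lam ^ n * q := by
        rw [inv_le_one₀ hlq] at h1
        exact h1
      have h3 : 0 ≤ n * Real.log lam + Real.log q := by
        have := Real.log_nonneg h2
        rwa [Real.log_mul hln.ne' hq0.ne', Real.log_pow] at this
      have h4 : -Real.log lam ≤ Real.log q / n := by
        rw [le_div_iff₀ hn0]
        linarith
      rw [abs_of_pos (by linarith)]
      exact h4
  · have h1 : Real.exp (n * (Real.log q / n)) = q := by
      rw [mul_div_cancel₀ _ hn0.ne', Real.exp_log hq0]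
    rw [h1]
    exact hmult

end Pool.Agent.OmegaStability.OS
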