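import Pool.Agent.Work.MP_814647_an.OS.MainD
import Pool.Agent.Work.MP_814647_an.OS.I_Hl
import Pool.Agent.Work.MP_814647_an.OS.I_HlE
import Pool.Agent.Work.MP_814647_an.OS.I_HlS
import Pool.Agent.Work.MP_814647_an.OS.I_Ric
import Pool.Agent.Work.MP_814647_an.OS.I_HiB
import Pool.Agent.Work.MP_814647_an.OS.I_CoB
import Pool.Agent.Work.MP_814647_an.OS.I_ScCB
import Pool.Agent.Work.MP_814647_an.OS.I_ScEB
import Pool.Agent.Work.MP_814647_an.OS.I_CvB
import Pool.Agent.Work.MP_814647_an.OS.I_CvBE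
import Pool.Agent.Work.MP_814647_an.OS.I_KCB
import Pool.Agent.Work.MP_814647_an.OS.I_KEB
import Pool.Agent.Work.MP_814647_an.OS.I_NCt
import Pool.Agent.Work.MP_814647_an.OS.I_OnB
import Pool.Agent.Work.MP_814647_an.OS.I_U0
import Pool.Agent.Work.MP_814647_an.OS.I_UU
import Pool.Agent.Work.MP_814647_an.OS.I_LiK
import Pool.Agent.Work.MP_814647_an.OS.I_HyU
import Pool.Agent.Work.MP_814647_an.OS.I_Nbh
import Pool.Agent.Work.MP_814647_an.OS.I_Lin
import Pool.Agent.Work.MP_814647_an.OS.I_Inv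
import Pool.Agent.Work.MP_814647_an.OS.I_Con
import Pool.Agent.Work.MP_814647_an.OS.I_Imp
import Pool.Agent.Work.MP_814647_an.OS.I_Ret
import Pool.Agent.Work.MP_814647_an.OS.I_PSh
import Pool.Agent.Work.MP_814647_an.OS.I_Exq
import Pool.Agent.Work.MP_814647_an.OS.I_Unx
import Pool.Agent.Work.MP_814647_an.OS.I_Gau
import Pool.Agent.Work.MP_814647_an.OS.I_SwC
import Pool.Agent.Work.MP_814647_an.OS.I_SwE
import Pool.Agent.Work.MP_814647_an.OS.I_Dif
import Pool.Agent.Work.MP_814647_an.OS.I_Spd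
import Pool.Agent.Work.MP_814647_an.OS.I_Uq
import Pool.Agent.Work.MP_814647_an.OS.I_Br
import Pool.Agent.Work.MP_814647_an.OS.I_Der
import Pool.Agent.Work.MP_814647_an.OS.I_Cls
import Pool.Agent.Work.MP_814647_an.OS.I_Lip
import Pool.Agent.Work.MP_814647_an.OS.I_Fol
import Pool.Agent.Work.MP_814647_an.OS.I_Clo
import Pool.Agent.Work.MP_814647_an.OS.I_HB
import Pool.Agent.Work.MP_814647_an.OS.I_HE

/-!
# A criterion for Axiom A of Omega-stable circle extensions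
-/

set_option autoImplicit false

open Set Filter Topology Function
open scoped Manifold ContDiff

noncomputable section

namespace Pool.Agent.OmegaStability.OS

universe u v

theorem os_finalD {d : ℕ} {B : Type v} {M : Type u} [MetricSpace B] [CompactSpace B]
    [ChartedSpace (EuclideanSpace ℝ (Fin d)) B]
    [IsManifold 𝓘(ℝ, EuclideanSpace ℝ (Fin d)) ∞ B]
    [MetricSpace M] [CompactSpace M] [ChartedSpace (EuclideanSpace ℝ (Fin (d + 1))) M]
    [IsManifold 𝓘(ℝ, EuclideanSpace ℝ (Fin (d + 1))) ∞ M] [MulAction Circle M]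
    {π : M → B} (hb : IsCircleBundle d π) {r : ℕ∞} (hr : 2 ≤ r)
    (A : Diffeo (EuclideanSpace ℝ (Fin d)) B r) (hA : HyperbolicBase A)
    (f : Diffeo (EuclideanSpace ℝ (Fin (d + 1))) M r) (hcov : ∀ y, π (f y) = A (π y))
    (hcirc : PreservesOrientedCircles f) (hst : OmegaStable f) :
    [SatisfiesAxiomA f ∧ HasNoCycles f,
      UniformCircleExponents (EuclideanSpace ℝ (Fin (d + 1))) f,
      OneSidedAtPeriodicPoints (EuclideanSpace ℝ (Fin (d + 1))) f,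
      AffineAtPeriodicPoints (EuclideanSpace ℝ (Fin (d + 1))) f].TFAE := by
  have hHl : StHl := pr_Hl pr_HlE pr_HlS
  have hHiB : StHiB := pr_HiB pr_Ric
  have hKC : StKCB := pr_KCB pr_SwC pr_CvB (pr_ScCB hHl hHiB pr_CoB pr_Gau)
  have hKE : StKEB := pr_KEB pr_SwE pr_CvBE (pr_ScEB hHl hHiB pr_CoB pr_Gau)
  have hLiK : StLiK.{u} := pr_LiK pr_Cls pr_SwC pr_SwE pr_Dif pr_Spd
  have hLip : StLip.{u} := pr_Lip pr_Cls pr_SwC pr_SwE pr_Dif pr_Spd
  have hUU : StUU.{u} := pr_UU pr_Cls pr_SwC pr_SwE pr_Dif pr_Spd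
  exact os_mainD (pr_Br pr_Uq) pr_Der hLip pr_Fol (pr_Clo pr_Cls) pr_HB pr_HE pr_NCt
    (pr_U0 pr_Cls hKC hKE pr_OnB) hUU (pr_HyU pr_Cls pr_Der)
    (pr_Con pr_Uq (pr_Clo pr_Cls) pr_NCt hLiK pr_Nbh pr_Lin pr_Inv) pr_Imp
    (pr_Exq pr_Cls pr_Ret pr_PSh) pr_Unx hb hr A hA f hcov hcirc hst

end Pool.Agent.OmegaStability.OS
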