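import Pool.Agent.Work.MP_814647_an.OS.StmtsB

/-!
# Item CvBE: affine one-sidedness, expanding
-/

set_option autoImplicit false

open Set Filter Topology Function
open scoped Manifold ContDiff

noncomputable section

namespace Pool.Agent.OmegaStability.OS

open Dens

namespace I_CvBE

lemma tele (w₀ W c : ℝ) (hw₀ : 0 < w₀) (hW₀ : 0 < W) (hc : 0 < c) (a w : ℕ → ℝ)
    (ha : ∀ k, 0 < a k) (hw : ∀ k, w₀ ≤ w k)
    (hW : ∀ k, w k ≤ W) (h : ∀ k, w (k + 1) + c ≤ a k * w k) (n : ℕ) :
    1 ≤ W / w₀ * ((1 + c / W)⁻¹) ^ n * ∏ i ∈ Finset.range n, a i := by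
  set q : ℝ := 1 + c / W with hq
  have hq0 : 0 < q := by positivity
  have key : ∀ n : ℕ, w n * q ^ n ≤ w 0 * ∏ i ∈ Finset.range n, a i := by
    intro n
    induction n with
    | zero => simp
    | succ n ih =>
      have h1 : w (n + 1) * q ≤ a n * w n := by
        refine le_trans ?_ (h n)
        have h2 : w (n + 1) * (c / W) ≤ c := by
          rw [← mul_div_assoc, div_le_iff₀ hW₀, mul_comm c]
          exact mul_le_mul_of_nonneg_right (hW (n + 1)) hc.le
        rw [hq, mul_add, mul_one]
        linarith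
      rw [Finset.prod_range_succ, pow_succ]
      calc w (n + 1) * (q ^ n * q) = (w (n + 1) * q) * q ^ n := by ring
        _ ≤ (a n * w n) * q ^ n := mul_le_mul_of_nonneg_right h1 (by positivity)
        _ = a n * (w n * q ^ n) := by ring
        _ ≤ a n * (w 0 * ∏ i ∈ Finset.range n, a i) :=
          mul_le_mul_of_nonneg_left ih (ha n).le
        _ = w 0 * ((∏ i ∈ Finset.range n, a i) * a n) := by ring
  have hP : 0 < ∏ i ∈ Finset.range n, a i := Finset.prod_pos fun i _ => ha i
  have h3 : w₀ * q ^ n ≤ W * ∏ i ∈ Finset.range n, a i :=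
    calc w₀ * q ^ n ≤ w n * q ^ n := mul_le_mul_of_nonneg_right (hw n) (by positivity)
      _ ≤ w 0 * ∏ i ∈ Finset.range n, a i := key n
      _ ≤ W * ∏ i ∈ Finset.range n, a i := mul_le_mul_of_nonneg_right (hW 0) hP.le
  have h4 : W / w₀ * (q⁻¹) ^ n * ∏ i ∈ Finset.range n, a i =
      (W * ∏ i ∈ Finset.range n, a i) / (w₀ * q ^ n) := by
    rw [inv_pow]
    field_simp
  rw [h4, le_div_iff₀ (by positivity), one_mul]
  exact h3

/-- the density of the developing map -/
def Ed (a : ℝ → ℝ) (p x : ℝ) : ℝ := Real.exp (∫ t in p..x, a t)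

/-- the developing map -/
def ps (a : ℝ → ℝ) (p x : ℝ) : ℝ := ∫ s in p..x, Ed a p s

variable {a : ℝ → ℝ} (ha : Continuous a) (p : ℝ)

include ha in
lemma Ed_deriv (x : ℝ) : HasDerivAt (Ed a p) (a x * Ed a p x) x := by
  have h := ((ha.integral_hasStrictDerivAt p x).hasDerivAt).exp
  unfold Ed
  rw [mul_comm]
  exact h

lemma Ed_pos (x : ℝ) : 0 < Ed a p x := Real.exp_pos _

lemma Ed_self : Ed a p p = 1 := by unfold Ed; simp

include ha in
lemma Ed_cont : Continuous (Ed a p) :=
  continuous_iff_continuousAt.2 fun x => (Ed_deriv ha p x).continuousAt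

include ha in
lemma ps_deriv (x : ℝ) : HasDerivAt (ps a p) (Ed a p x) x :=
  ((Ed_cont ha p).integral_hasStrictDerivAt p x).hasDerivAt

lemma ps_self : ps a p p = 0 := by unfold ps; simp

lemma Ed_bd {K : ℝ} (hK : ∀ x, |a x| ≤ K) {R x : ℝ} (hx : |x - p| ≤ R) (hK0 : 0 ≤ K) :
    Real.exp (-(K * R)) ≤ Ed a p x ∧ Ed a p x ≤ Real.exp (K * R) := by
  have h1 : |∫ t in p..x, a t| ≤ K * R := by
    have := intervalIntegral.norm_integral_le_of_norm_le_const (a := p) (b := x) (C := K)
      (f := a) (fun t _ => hK t)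
    rw [Real.norm_eq_abs] at this
    exact this.trans (mul_le_mul_of_nonneg_left hx hK0)
  rw [abs_le] at h1
  exact ⟨Real.exp_le_exp.2 h1.1, Real.exp_le_exp.2 h1.2⟩

include ha in
lemma ps_lower {K : ℝ} (hK : ∀ x, |a x| ≤ K) (hK0 : 0 ≤ K) {R x y : ℝ} (hxy : x ≤ y)
    (h : ∀ z ∈ Icc x y, |z - p| ≤ R) : Real.exp (-(K * R)) * (y - x) ≤ ps a p y - ps a p x := by
  have hd : Differentiable ℝ (ps a p) := fun z => (ps_deriv ha p z).differentiableAt
  refine Convex.mul_sub_le_image_sub_of_le_deriv (convex_Icc x y) hd.continuous.continuousOn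
    hd.differentiableOn ?_ x (left_mem_Icc.2 hxy) y (right_mem_Icc.2 hxy) hxy
  intro z hz
  rw [(ps_deriv ha p z).deriv]
  exact (Ed_bd p hK (h z (interior_subset hz)) hK0).1

include ha in
lemma ps_upper {K : ℝ} (hK : ∀ x, |a x| ≤ K) (hK0 : 0 ≤ K) {R x y : ℝ} (hxy : x ≤ y)
    (h : ∀ z ∈ Icc x y, |z - p| ≤ R) : ps a p y - ps a p x ≤ Real.exp (K * R) * (y - x) := by
  have hd : Differentiable ℝ (ps a p) := fun z => (ps_deriv ha p z).differentiableAt
  refine Convex.image_sub_le_mul_sub_of_deriv_le (convex_Icc x y) hd.continuous.continuousOn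
    hd.differentiableOn ?_ x (left_mem_Icc.2 hxy) y (right_mem_Icc.2 hxy) hxy
  intro z hz
  rw [(ps_deriv ha p z).deriv]
  exact (Ed_bd p hK (h z (interior_subset hz)) hK0).2

include ha in
lemma ps_mono : Monotone (ps a p) := by
  refine monotone_of_deriv_nonneg (fun z => (ps_deriv ha p z).differentiableAt) ?_
  intro z
  rw [(ps_deriv ha p z).deriv]
  exact (Ed_pos p z).le

/-- the quotient of the densities -/
def rho (F a b : ℝ → ℝ) (p x : ℝ) : ℝ := Ed b (F p) (F x) * deriv F x / Ed a p x

lemma dd (F : ℝ → ℝ) (hp : ∀ x, 0 < deriv F x) (x : ℝ) :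
    deriv (deriv F) x = nlAt F x * deriv F x := by
  have h : iteratedDeriv 2 F = deriv (deriv F) := by
    rw [iteratedDeriv_succ, iteratedDeriv_one]
  rw [nlAt, h, div_mul_cancel₀ _ (hp x).ne']

lemma dF (F : ℝ → ℝ) (hF : ContDiff ℝ 2 F) : Differentiable ℝ (deriv F) := by
  have h : ContDiff ℝ 1 (deriv F) := by
    have h' : ContDiff ℝ (1 + 1) F := by
      refine hF.of_le ?_
      norm_num
    exact (contDiff_succ_iff_deriv.1 h').2.2
  exact h.differentiable (by norm_num)

include ha in
lemma rho_deriv (F b : ℝ → ℝ) (hb : Continuous b) (hF : ContDiff ℝ 2 F)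
    (hp : ∀ x, 0 < deriv F x) (x : ℝ) :
    HasDerivAt (rho F a b p) (rho F a b p x * nlB F a b x) x := by
  have h1 : HasDerivAt F (deriv F x) x := (hF.differentiable (by norm_num) x).hasDerivAt
  have h2 : HasDerivAt (fun y => Ed b (F p) (F y)) (b (F x) * Ed b (F p) (F x) * deriv F x) x :=
    (Ed_deriv hb (F p) (F x)).comp x h1
  have h3 : HasDerivAt (deriv F) (nlAt F x * deriv F x) x := by
    rw [← dd F hp x]
    exact (dF F hF x).hasDerivAt
  have h4 := (h2.mul h3).div (Ed_deriv ha p x) (Ed_pos p x).ne'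
  have e : rho F a b p x * nlB F a b x =
      ((b (F x) * Ed b (F p) (F x) * deriv F x * deriv F x +
        Ed b (F p) (F x) * (nlAt F x * deriv F x)) * Ed a p x -
        (Ed b (F p) (F x) * deriv F x) * (a x * Ed a p x)) / Ed a p x ^ 2 := by
    have h5 := (Ed_pos (a := a) p x).ne'
    unfold rho nlB
    field_simp
    ring
  rw [e]
  exact h4

lemma rho_self (F b : ℝ → ℝ) : rho F a b p p = deriv F p := by
  unfold rho
  rw [Ed_self, Ed_self, one_mul, div_one]

include ha in
/-- the comparison function is monotone -/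
lemma core (F b : ℝ → ℝ) (hb : Continuous b) (hF : ContDiff ℝ 2 F) {x y : ℝ} (hxy : x ≤ y)
    (h : ∀ z ∈ Icc x y, rho F a b p z ≤ deriv F p) :
    deriv F p * ps a p x - ps b (F p) (F x) ≤ deriv F p * ps a p y - ps b (F p) (F y) := by
  have hd : ∀ z, HasDerivAt (fun z => deriv F p * ps a p z - ps b (F p) (F z))
      (deriv F p * Ed a p z - Ed b (F p) (F z) * deriv F z) z := by
    intro z
    have h1 : HasDerivAt F (deriv F z) z := (hF.differentiable (by norm_num) z).hasDerivAt
    exact ((ps_deriv ha p z).const_mul _).sub ((ps_deriv hb (F p) (F z)).comp z h1)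
  have hm : MonotoneOn (fun z => deriv F p * ps a p z - ps b (F p) (F z)) (Icc x y) := by
    refine monotoneOn_of_deriv_nonneg (convex_Icc x y)
      (fun z _ => (hd z).continuousAt.continuousWithinAt)
      (fun z _ => (hd z).differentiableAt.differentiableWithinAt) ?_
    intro z hz
    rw [(hd z).deriv]
    have h2 := h z (interior_subset hz)
    unfold rho at h2
    rw [div_le_iff₀ (Ed_pos p z)] at h2
    linarith
  exact hm (left_mem_Icc.2 hxy) (right_mem_Icc.2 hxy) hxy

include ha in
lemma down (F b : ℝ → ℝ) (hb : Continuous b) (hF : ContDiff ℝ 2 F) (hp : ∀ x, 0 < deriv F x)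
    {r : ℝ} (hr : p ≤ r) (h : ∀ x ∈ Icc p r, nlB F a b x ≤ 0) :
    ps b (F p) (F r) ≤ deriv F p * ps a p r := by
  have hE : ∀ z, 0 < rho F a b p z := fun z =>
    div_pos (mul_pos (Ed_pos _ _) (hp z)) (Ed_pos _ _)
  have hm : AntitoneOn (rho F a b p) (Icc p r) := by
    refine antitoneOn_of_deriv_nonpos (convex_Icc p r)
      (fun z _ => (rho_deriv ha p F b hb hF hp z).continuousAt.continuousWithinAt)
      (fun z _ => (rho_deriv ha p F b hb hF hp z).differentiableAt.differentiableWithinAt) ?_
    intro z hz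
    rw [(rho_deriv ha p F b hb hF hp z).deriv]
    exact mul_nonpos_of_nonneg_of_nonpos (hE z).le (h z (interior_subset hz))
  have h1 := core ha p F b hb hF hr (fun z hz => by
    rw [← rho_self (a := a) p F b]
    exact hm (left_mem_Icc.2 hr) hz hz.1)
  rw [ps_self, ps_self, mul_zero, sub_zero] at h1
  linarith

include ha in
lemma up (F b : ℝ → ℝ) (hb : Continuous b) (hF : ContDiff ℝ 2 F) (hp : ∀ x, 0 < deriv F x)
    {l : ℝ} (hl : l ≤ p) (h : ∀ x ∈ Icc l p, 0 ≤ nlB F a b x) :
    -ps b (F p) (F l) ≤ deriv F p * -ps a p l := by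
  have hE : ∀ z, 0 < rho F a b p z := fun z =>
    div_pos (mul_pos (Ed_pos _ _) (hp z)) (Ed_pos _ _)
  have hm : MonotoneOn (rho F a b p) (Icc l p) := by
    refine monotoneOn_of_deriv_nonneg (convex_Icc l p)
      (fun z _ => (rho_deriv ha p F b hb hF hp z).continuousAt.continuousWithinAt)
      (fun z _ => (rho_deriv ha p F b hb hF hp z).differentiableAt.differentiableWithinAt) ?_
    intro z hz
    rw [(rho_deriv ha p F b hb hF hp z).deriv]
    exact mul_nonneg (hE z).le (h z (interior_subset hz))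
  have h1 := core ha p F b hb hF hl (fun z hz => by
    rw [← rho_self (a := a) p F b]
    exact hm hz (right_mem_Icc.2 hl) hz.2)
  rw [ps_self, ps_self, mul_zero, sub_zero] at h1
  linarith

end I_CvBE

open I_CvBE in
/-- Item CvBE. -/
theorem pr_CvBE : StCvBE := by
  intro K δ hK hδ
  have hpi : 0 < 2 * Real.pi := by positivity
  set R : ℝ := 2 * Real.pi + δ with hR
  set c : ℝ := Real.exp (-(K * R)) * δ with hc
  set W : ℝ := Real.exp (K * R) * (2 * Real.pi) with hW
  have hc0 : 0 < c := by positivity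
  have hW0 : 0 < W := by positivity
  refine ⟨W / c, (1 + c / W)⁻¹, by positivity, by positivity,
    inv_lt_one_of_one_lt₀ (by have : 0 < c / W := by positivity
                              linarith), ?_⟩
  intro F a l p r hF hpos ha haK hFp hlp hpr hrl hFl hFr hcase n
  rcases hcase with hup | hdown
  · refine tele c W c hc0 hW0 hc0 (fun i => deriv (F i) (p i)) (fun k => -ps (a k) (p k) (l k))
      (fun k => hpos k _) (fun k => ?_) (fun k => ?_) (fun k => ?_) n
    · have h1 := ps_lower (ha k) (p k) (haK k) hK (R := R) (x := l k) (y := p k)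
        (by linarith [hlp k]) (fun z hz => by
          rw [abs_le]; constructor
          · linarith [hz.1, hpr k, hrl k]
          · linarith [hz.2])
      rw [ps_self] at h1
      have h2 : c ≤ Real.exp (-(K * R)) * (p k - l k) :=
        mul_le_mul_of_nonneg_left (by linarith [hlp k]) (Real.exp_pos _).le
      show c ≤ -ps (a k) (p k) (l k)
      linarith
    · have h1 := ps_upper (ha k) (p k) (haK k) hK (R := R) (x := l k) (y := p k)
        (by linarith [hlp k]) (fun z hz => by
          rw [abs_le]; constructor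
          · linarith [hz.1, hpr k, hrl k]
          · linarith [hz.2])
      rw [ps_self] at h1
      have h2 : Real.exp (K * R) * (p k - l k) ≤ W :=
        mul_le_mul_of_nonneg_left (by linarith [hpr k, hrl k]) (Real.exp_pos _).le
      show -ps (a k) (p k) (l k) ≤ W
      linarith
    · have h1 := up (ha k) (p k) (F k) (a (k + 1)) (ha (k + 1)) (hF k) (hpos k)
        (l := l k) (by linarith [hlp k]) (fun x hx => hup k x ⟨hx.1, by linarith [hx.2, hpr k]⟩)
      rw [hFp k] at h1
      have h2 := ps_lower (ha (k + 1)) (p (k + 1)) (haK (k + 1)) hK (R := R)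
        (x := l (k + 1) - δ) (y := l (k + 1)) (by linarith) (fun z hz => by
          rw [abs_le]; constructor
          · linarith [hz.1, hpr (k + 1), hrl (k + 1)]
          · linarith [hz.2, hlp (k + 1)])
      have h3 := ps_mono (ha (k + 1)) (p (k + 1)) (show F k (l k) ≤ l (k + 1) - δ by
        linarith [hFl k])
      have h4 : Real.exp (-(K * R)) * (l (k + 1) - (l (k + 1) - δ)) = c := by
        rw [hc]; ring
      show -ps (a (k + 1)) (p (k + 1)) (l (k + 1)) + c ≤
        deriv (F k) (p k) * -ps (a k) (p k) (l k)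
      linarith
  · refine tele c W c hc0 hW0 hc0 (fun i => deriv (F i) (p i)) (fun k => ps (a k) (p k) (r k))
      (fun k => hpos k _) (fun k => ?_) (fun k => ?_) (fun k => ?_) n
    · have h1 := ps_lower (ha k) (p k) (haK k) hK (R := R) (x := p k) (y := r k)
        (by linarith [hpr k]) (fun z hz => by
          rw [abs_le]; constructor
          · linarith [hz.1]
          · linarith [hz.2, hlp k, hrl k])
      rw [ps_self] at h1
      have h2 : c ≤ Real.exp (-(K * R)) * (r k - p k) :=
        mul_le_mul_of_nonneg_left (by linarith [hpr k]) (Real.exp_pos _).le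
      show c ≤ ps (a k) (p k) (r k)
      linarith
    · have h1 := ps_upper (ha k) (p k) (haK k) hK (R := R) (x := p k) (y := r k)
        (by linarith [hpr k]) (fun z hz => by
          rw [abs_le]; constructor
          · linarith [hz.1]
          · linarith [hz.2, hlp k, hrl k])
      rw [ps_self] at h1
      have h2 : Real.exp (K * R) * (r k - p k) ≤ W :=
        mul_le_mul_of_nonneg_left (by linarith [hlp k, hrl k]) (Real.exp_pos _).le
      show ps (a k) (p k) (r k) ≤ W
      linarith
    · have h1 := down (ha k) (p k) (F k) (a (k + 1)) (ha (k + 1)) (hF k) (hpos k)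
        (r := r k) (by linarith [hpr k])
        (fun x hx => hdown k x ⟨by linarith [hx.1, hlp k], hx.2⟩)
      rw [hFp k] at h1
      have h2 := ps_lower (ha (k + 1)) (p (k + 1)) (haK (k + 1)) hK (R := R)
        (x := r (k + 1)) (y := r (k + 1) + δ) (by linarith) (fun z hz => by
          rw [abs_le]; constructor
          · linarith [hz.1, hpr (k + 1)]
          · linarith [hz.2, hlp (k + 1), hrl (k + 1)])
      have h3 := ps_mono (ha (k + 1)) (p (k + 1)) (show r (k + 1) + δ ≤ F k (r k) by
        linarith [hFr k])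
      have h4 : Real.exp (-(K * R)) * (r (k + 1) + δ - r (k + 1)) = c := by
        rw [hc]; ring
      show ps (a (k + 1)) (p (k + 1)) (r (k + 1)) + c ≤
        deriv (F k) (p k) * ps (a k) (p k) (r k)
      linarith

end Pool.Agent.OmegaStability.OS
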