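import Pool.Agent.Work.MP_814647_an.OS.StmtsC

set_option autoImplicit false

open Set Filter Topology Function
open scoped Manifold ContDiff

noncomputable section

namespace Pool.Agent.OmegaStability.OS

open Dens

universe u

namespace I_Inv

theorem per_nat {L : ℝ → ℝ} (hper : ∀ θ, L (θ + 2 * Real.pi) = L θ + 2 * Real.pi) (n : ℕ)
    (θ : ℝ) : L (θ + n * (2 * Real.pi)) = L θ + n * (2 * Real.pi) := by
  induction n with
  | zero => simp
  | succ n ih =>
    have e1 : θ + ((n + 1 : ℕ) : ℝ) * (2 * Real.pi) =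
        (θ + n * (2 * Real.pi)) + 2 * Real.pi := by
      push_cast
      ring
    rw [e1, hper, ih]
    push_cast
    ring

theorem surj {L : ℝ → ℝ} (hc : Continuous L) (hm : StrictMono L)
    (hper : ∀ θ, L (θ + 2 * Real.pi) = L θ + 2 * Real.pi) : Surjective L := by
  have hpi : 0 < 2 * Real.pi := by positivity
  refine hc.surjective ?_ ?_
  · refine tendsto_atTop_atTop_of_monotone hm.monotone fun b => ?_
    obtain ⟨n, hn⟩ := exists_nat_ge ((b - L 0) / (2 * Real.pi))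
    refine ⟨0 + n * (2 * Real.pi), ?_⟩
    rw [per_nat hper]
    rw [div_le_iff₀ hpi] at hn
    linarith
  · refine tendsto_atBot_atBot_of_monotone hm.monotone fun b => ?_
    obtain ⟨n, hn⟩ := exists_nat_ge ((L 0 - b) / (2 * Real.pi))
    refine ⟨0 - n * (2 * Real.pi), ?_⟩
    have h1 := per_nat hper n (0 - n * (2 * Real.pi))
    rw [sub_add_cancel] at h1
    rw [div_le_iff₀ hpi] at hn
    linarith

theorem exists_inv {L : ℝ → ℝ} (hc : Continuous L) (hm : StrictMono L)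
    (hper : ∀ θ, L (θ + 2 * Real.pi) = L θ + 2 * Real.pi) :
    ∃ L' : ℝ → ℝ, Continuous L' ∧ StrictMono L' ∧ (∀ θ, L (L' θ) = θ) ∧ ∀ θ, L' (L θ) = θ := by
  let e : ℝ ≃o ℝ := StrictMono.orderIsoOfSurjective L hm (surj hc hm hper)
  have he : ∀ θ, e θ = L θ := fun θ => rfl
  refine ⟨e.symm, e.symm.continuous, e.symm.strictMono, fun θ => ?_, fun θ => ?_⟩
  · rw [← he, OrderIso.apply_symm_apply]
  · rw [← he, OrderIso.symm_apply_apply]

end I_Inv

theorem pr_Inv : StInv.{u} := by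
  intro M _ _ _ hact f f' ℒ Dm hf hf' hl hr hℒ hDm hDm0 hC1 hder
  choose ℒ' hc hm h1 h2 using fun y => I_Inv.exists_inv (hℒ.cont (f' y)) (hℒ.mono (f' y))
    (hℒ.per (f' y))
  have hmap : ∀ y (θ : ℝ), f' (Circle.exp θ • y) = Circle.exp (ℒ' y θ) • f' y := by
    intro y θ
    have e1 : f (Circle.exp (ℒ' y θ) • f' y) = Circle.exp θ • y := by
      rw [hℒ.map, h1, hr]
    rw [← e1, hl]
  have hD : ∀ y θ, HasDerivAt (ℒ' y) (Dm (f' (Circle.exp θ • y)))⁻¹ θ := by
    intro y θ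
    have e1 : HasDerivAt (ℒ (f' y)) (Dm (Circle.exp (ℒ' y θ) • f' y)) (ℒ' y θ) := by
      rw [← hder]
      exact ((hC1 (f' y)).differentiable (by norm_num) _).hasDerivAt
    rw [← hmap] at e1
    exact HasDerivAt.of_local_left_inverse (hc y).continuousAt e1 (hDm0 _).ne'
      (Eventually.of_forall fun t => h1 y t)
  have hderiv : ∀ y θ, deriv (ℒ' y) θ = (Dm (f' (Circle.exp θ • y)))⁻¹ := fun y θ =>
    (hD y θ).deriv
  refine ⟨ℒ', ⟨hc, hm, fun y => ?_, fun y θ => ?_, hmap⟩, fun y => ?_, hderiv⟩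
  · have e1 := h2 y 0
    rwa [hℒ.zero] at e1
  · apply (hℒ.mono (f' y)).injective
    rw [h1, hℒ.per, h1]
  · rw [contDiff_one_iff_deriv]
    refine ⟨fun θ => (hD y θ).differentiableAt, ?_⟩
    have e1 : deriv (ℒ' y) = fun θ : ℝ => (Dm (f' (Circle.exp θ • y)))⁻¹ := funext (hderiv y)
    rw [e1]
    refine Continuous.inv₀ ?_ fun θ => (hDm0 _).ne'
    refine hDm.comp (hf'.comp ?_)
    exact hact.comp (Circle.exp.continuous.prodMk continuous_const)

end Pool.Agent.OmegaStability.OS
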