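import Pool.Agent.Work.MP_814647_an.OS.Stmts2

/-!
# Circle extensions with one-sided nonlinearity: item One
-/

set_option autoImplicit false

open Set Filter Topology Function
open scoped Manifold ContDiff

noncomputable section

namespace Pool.Agent.OmegaStability.OS

open Dens

universe u

namespace I_One

/-- the lift on the circle of `exp θ • y` -/
def sh (L : ℝ → ℝ) (θ : ℝ) (η : ℝ) : ℝ := L (θ + η) - L θ

theorem iter_succ (L : ℝ → ℝ) (θ : ℝ) (n : ℕ) :
    iteratedDeriv (n + 1) (sh L θ) 0 = iteratedDeriv (n + 1) L θ := by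
  have h1 : deriv (sh L θ) = fun η => deriv L (θ + η) := by
    funext η
    unfold sh
    rw [deriv_sub_const_fun, deriv_comp_const_add]
  rw [iteratedDeriv_succ', iteratedDeriv_succ', h1, iteratedDeriv_comp_const_add]
  simp

theorem der (L : ℝ → ℝ) (θ : ℝ) : deriv (sh L θ) 0 = deriv L θ := by
  have := iter_succ L θ 0
  simpa [iteratedDeriv_one] using this

theorem nl (L : ℝ → ℝ) (θ : ℝ) : nonlinearity (sh L θ) = nlAt L θ := by
  unfold nonlinearity nlAt
  rw [iter_succ, der]

theorem sc (κ : ℝ) (L : ℝ → ℝ) (θ : ℝ) : schwarzian κ (sh L θ) = scAt κ L θ := by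
  unfold schwarzian scAt
  rw [iter_succ, der, nl]

theorem lift {M : Type u} [MulAction Circle M] {f : M → M} {ℒ : M → ℝ → ℝ} (h : NLift f ℒ)
    (hc : ∀ y, Continuous (ℒ y)) (y : M) (θ : ℝ) :
    IsCircleLift f (Circle.exp θ • y) (sh (ℒ y) θ) := by
  refine ⟨?_, ?_, fun η => ?_⟩
  · unfold sh
    exact ((hc y).comp (continuous_const.add continuous_id)).sub continuous_const
  · simp [sh]
  · rw [← mul_smul, ← Circle.exp_add, h.map, h.map y θ, ← mul_smul, ← Circle.exp_add]
    unfold sh
    rw [add_comm η θ, sub_add_cancel]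

end I_One

open I_One in
theorem pr_One : StOne.{u} := by
  intro M _ f ℒ h hs P σ hP
  have hl := lift h fun y => (hs y).continuous
  rcases hP with h1 | h1 | ⟨κ, hκ, h1⟩
  · refine ⟨Kd.up, trivial, fun y θ hy => ?_⟩
    have := h1 _ hy _ (hl y θ)
    rwa [nl] at this
  · refine ⟨Kd.down, trivial, fun y θ hy => ?_⟩
    have := h1 _ hy _ (hl y θ)
    rwa [nl] at this
  · refine ⟨Kd.sch κ, hκ, fun y θ hy => ?_⟩
    have := h1 _ hy _ (hl y θ)
    rwa [sc] at this

end Pool.Agent.OmegaStability.OS
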