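import Pool.Agent.Work.MP_814647_an.OS.Stmts

/-!
# Item ScE: the Schwarzian case, expanding
-/

set_option autoImplicit false

open Set Filter Topology Function
open scoped Manifold ContDiff

noncomputable section

namespace Pool.Agent.OmegaStability.OS

open Dens

namespace I_ScE

/-- One side: the value of the decreasing function `C` at `y ≥ x + δ`. -/
lemma side {C : ℝ → ℝ} {δ c x y : ℝ} (hδ : 0 < δ)
    (h1 : ∀ x : ℝ, 0 < x → x + δ < 2 * Real.pi → C (x + δ) + c ≤ C x)
    (h2 : ∀ x y : ℝ, 0 < x → x < y → y < 2 * Real.pi → C y < C x)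
    (hx : 0 < x) (hxy : x + δ ≤ y) (hy : y < 2 * Real.pi) : C y + c ≤ C x := by
  have h3 := h1 x hx (by linarith)
  rcases hxy.eq_or_lt with h | h
  · rw [← h]; exact h3
  · have h4 := h2 (x + δ) y (by linarith) h hy
    linarith

end I_ScE

/-- Item ScE. -/
theorem pr_ScE (h1 : StSG) (h2 : StHil) (h3 : StCot) (h4 : StGau) : StScE := by
  intro κ hκ δ hδ
  obtain ⟨S, G, hSG⟩ := h1 κ hκ
  obtain ⟨c, w, W, hc, hw, hwW, hc1, hc2, hc3⟩ := h3 κ S G hSG δ hδ
  obtain ⟨C, lam, hC, hl0, hl1, hg⟩ := h4 (2 * c) w W (by linarith) hw hwW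
  refine ⟨C, lam, hC, hl0, hl1, ?_⟩
  intro F l p r hF hF' hp hlp hpr hrl hFl hFr hFd hsc
  have hB : ∀ k, w ≤ G (p k - l k) / S (p k - l k) + G (r k - p k) / S (r k - p k) ∧
      G (p k - l k) / S (p k - l k) + G (r k - p k) / S (r k - p k) ≤ W := by
    intro k
    refine hc3 _ _ ?_ ?_ ?_
    · linarith [hlp k]
    · linarith [hpr k]
    · linarith [hrl k]
  refine (hg (fun k => deriv (F k) (p k))
    (fun k => G (p k - l k) / S (p k - l k) + G (r k - p k) / S (r k - p k))
    (fun k => hF' k _) (fun k => (hB k).1) (fun k => (hB k).2)).2 ?_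
  intro k
  have e1 := h2 κ S G hSG (-1) (Or.inr rfl) (F k) (l k) (p k) (r k) (hF k) (hF' k)
    (by linarith [hlp k]) (by linarith [hpr k]) (by linarith [hrl k]) (hFd k) (hsc k)
  rw [hp k] at e1
  have k1 := hlp (k + 1)
  have k2 := hpr (k + 1)
  have k3 := hFl k
  have k4 := hFr k
  have k5 := hFd k
  have e2 : G (p (k + 1) - F k (l k)) / S (p (k + 1) - F k (l k)) + c ≤
      G (p (k + 1) - l (k + 1)) / S (p (k + 1) - l (k + 1)) :=
    I_ScE.side (C := fun x => G x / S x) hδ hc1 hc2 (by linarith) (by linarith) (by linarith)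
  have e3 : G (F k (r k) - p (k + 1)) / S (F k (r k) - p (k + 1)) + c ≤
      G (r (k + 1) - p (k + 1)) / S (r (k + 1) - p (k + 1)) :=
    I_ScE.side (C := fun x => G x / S x) hδ hc1 hc2 (by linarith) (by linarith) (by linarith)
  have e4 : G (p k - l k) / S (p k - l k) + G (r k - p k) / S (r k - p k) ≤
      deriv (F k) (p k) * (G (p (k + 1) - F k (l k)) / S (p (k + 1) - F k (l k)) +
        G (F k (r k) - p (k + 1)) / S (F k (r k) - p (k + 1))) := by linarith
  refine e4.trans (mul_le_mul_of_nonneg_left ?_ (hF' k _).le)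
  linarith

end Pool.Agent.OmegaStability.OS
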