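import Pool.Agent.Work.MP_814647_an.OS.Stmts2
import Pool.Agent.Work.MP_814647_an.ProjMain
import Pool.Agent.Work.MP_814647_an.TH.Final

/-!
# Circle extensions with one-sided nonlinearity: the assembly
-/

set_option autoImplicit false

open Set Filter Topology Function
open scoped Manifold ContDiff

noncomputable section

namespace Pool.Agent.OmegaStability.OS

open Dens ProjAsm

universe u v

theorem closure_inv {X : Type*} [TopologicalSpace X] {f f' : X → X} (hf : Continuous f)
    (hf' : Continuous f') (h1 : ∀ x, f' (f x) = x) {S : Set X} (hS : ∀ x, f x ∈ S ↔ x ∈ S)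
    (h2 : ∀ x, f (f' x) = x) (x : X) : f x ∈ closure S ↔ x ∈ closure S := by
  constructor
  · intro hx
    have h3 : f' (f x) ∈ closure (f' '' S) := by
      have := image_closure_subset_closure_image hf' (s := S)
      exact this ⟨f x, hx, rfl⟩
    rw [h1] at h3
    refine closure_mono ?_ h3
    rintro _ ⟨y, hy, rfl⟩
    rw [← hS, h2]
    exact hy
  · intro hx
    have h3 : f x ∈ closure (f '' S) := image_closure_subset_closure_image hf (s := S) ⟨x, hx, rfl⟩
    refine closure_mono ?_ h3
    rintro _ ⟨y, hy, rfl⟩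
    exact (hS y).2 hy

theorem periodic_iff {X : Type*} {f f' : X → X} (h1 : ∀ x, f' (f x) = x) (x : X) :
    f x ∈ periodicPts f ↔ x ∈ periodicPts f := by
  constructor
  · rintro ⟨n, hn, hx⟩
    refine ⟨n, hn, ?_⟩
    have h2 : f^[n] (f x) = f x := hx
    rw [← iterate_succ_apply, iterate_succ_apply'] at h2
    have h3 := congrArg f' h2
    rw [h1, h1] at h3
    exact h3
  · rintro ⟨n, hn, hx⟩
    refine ⟨n, hn, ?_⟩
    have h2 : f^[n] x = x := hx
    show f^[n] (f x) = f x
    rw [← iterate_succ_apply, iterate_succ_apply', h2]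

theorem circles_of_C3 {M : Type*} [MulAction Circle M] {f : M → M} (h : C3AlongCircles f) :
    PreservesOrientedCircles f := by
  intro y
  obtain ⟨L, ⟨h1, -, h3⟩, -, h5⟩ := h y
  exact ⟨L, h1, strictMono_of_deriv_pos h5, h3⟩

/-- The assembly, from the uniform estimates. -/
theorem os_main (iBr : StBr.{u}) (iDer : StDer.{u}) (iLip : StLip.{u})
    (iFol : StFol.{u, v}) (iClo : StClo.{u}) (iHB : StHB.{v}) (iHE : StHE.{u, v})
    {d : ℕ} {B : Type v} {M : Type u} [MetricSpace B] [CompactSpace B]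
    [ChartedSpace (EuclideanSpace ℝ (Fin d)) B]
    [IsManifold 𝓘(ℝ, EuclideanSpace ℝ (Fin d)) ∞ B]
    [MetricSpace M] [CompactSpace M] [ChartedSpace (EuclideanSpace ℝ (Fin (d + 1))) M]
    [IsManifold 𝓘(ℝ, EuclideanSpace ℝ (Fin (d + 1))) ∞ M] [MulAction Circle M]
    {π : M → B} (hb : IsCircleBundle d π) {r : ℕ∞} (hr : 1 ≤ r)
    (A : Diffeo (EuclideanSpace ℝ (Fin d)) B r) (hA : HyperbolicBase A)
    (f : Diffeo (EuclideanSpace ℝ (Fin (d + 1))) M r) (hcov : ∀ y, π (f y) = A (π y))
    (hcirc : PreservesOrientedCircles f) (hst : OmegaStable f)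
    (hest : ∀ (ℒ : M → ℝ → ℝ) (Dm : M → ℝ) (τ Λ : ℝ), FibData f ℒ Dm τ Λ →
      (C3AlongCircles f → ∀ y, ContDiff ℝ 3 (ℒ y)) →
      ∃ C lam τ₁ : ℝ, Unif (d + 1) f Dm C lam τ₁) :
    SatisfiesAxiomA f ∧ HasNoCycles f := by
  have hF : FreeCircleAction (EuclideanSpace ℝ (Fin (d + 1))) π :=
    ⟨hb.smooth_action, hb.free, hb.smooth_proj.continuous, hb.surjective, hb.fibre⟩
  have hact : Continuous fun p : Circle × M => p.1 • p.2 := hb.smooth_action.continuous
  obtain ⟨ℒ, Dm, τ, Λ, hD, h3⟩ := iBr (d + 1) M hb.smooth_action hb.free r hr f hcirc hst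
  obtain ⟨C, lam, τ₁, hU⟩ := hest ℒ Dm τ Λ hD h3
  obtain ⟨hc1, hc2, hc3, hc4⟩ :=
    iClo (d + 1) M hb.smooth_action hb.free r hr f ℒ Dm τ Λ hD C lam τ₁ hU
  have hder := iDer (d + 1) M hb.smooth_action r hr f ℒ Dm τ Λ hD
  have hC := hU.1
  have hlam0 := hU.2.1
  have hlam1 := hU.2.2.1
  obtain ⟨hΩ, hdis⟩ := index_main hF hr hA.shadowing hA.expansive f hcov hcirc hst
  have hff' : ∀ y, f (f.symm y) = y := f.apply_symm_apply
  have hf'f : ∀ y, f.symm (f y) = y := f.symm_apply_apply
  have hAA' : ∀ y, A (A.symm y) = y := A.apply_symm_apply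
  have hA'A : ∀ y, A.symm (A y) = y := A.symm_apply_apply
  have hcov' : ∀ y, π (f.symm y) = A.symm (π y) := by
    intro y
    rw [← hA'A (π (f.symm y)), ← hcov, hff']
  have hD0 := hD.pos
  -- the base
  have hBinv : ∀ x, A x ∈ closure (periodicPts A) ↔ x ∈ closure (periodicPts A) :=
    closure_inv A.continuous A.symm.continuous hA'A (periodic_iff hA'A) hAA'
  have hBinv' : ∀ x, A.symm x ∈ closure (periodicPts A) ↔ x ∈ closure (periodicPts A) := by
    intro x
    rw [← hBinv (A.symm x), hAA']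
  obtain ⟨γB, EsB, EuB, cB, μB, hAB⟩ := iHB d B r hr A _ hBinv hA.hyperbolic
  have hAB' : HypEst A.symm A.symm.symm γB (closure (periodicPts A)) EuB EsB cB μB :=
    ⟨hAB.c_pos, hAB.mu_pos, hAB.mu_lt, fun x hx => (hAB.compl x hx).symm, hAB.inv_u', hAB.inv_u,
      hAB.inv_s', hAB.inv_s, hAB.contr_u, hAB.contr_s⟩
  have hper : ∀ S : Set M, S ⊆ periodicPts f → ∀ y ∈ closure S, π y ∈ closure (periodicPts A) := by
    intro S hS y hy
    have h4 : π y ∈ closure (π '' S) :=
      image_closure_subset_closure_image hF.continuous_proj ⟨y, hy, rfl⟩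
    refine closure_mono ?_ h4
    rintro _ ⟨z, hz, rfl⟩
    obtain ⟨n, hn, hzn⟩ := hS hz
    have hzn' : f^[n] z = z := hzn
    refine ⟨n, hn, ?_⟩
    show A^[n] (π z) = π z
    have h5 : ∀ k, π (f^[k] z) = A^[k] (π z) := by
      intro k
      induction k with
      | zero => rfl
      | succ k ih => rw [iterate_succ_apply', iterate_succ_apply', hcov, ih]
    rw [← h5, hzn']
  have hCCper : CircleContracting (EuclideanSpace ℝ (Fin (d + 1))) f ⊆ periodicPts f := by
    rintro y ⟨n, hn, hy, -⟩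
    exact ⟨n, hn, hy⟩
  have hCEper : CircleExpanding (EuclideanSpace ℝ (Fin (d + 1))) f ⊆ periodicPts f := by
    rintro y ⟨n, hn, hy, -⟩
    exact ⟨n, hn, hy⟩
  have hdense : Omega f ⊆ closure (periodicPts f) := by
    rw [hΩ]
    exact union_subset (closure_mono hCCper) (closure_mono hCEper)
  have hΩ' : Omega f = closure (periodicPts f) :=
    hdense.antisymm (closure_periodic_subset_Omega f)
  refine ⟨⟨?_, hdense⟩, ?_⟩
  · -- hyperbolicity
    rw [hΩ]
    obtain ⟨γ⟩ := OmegaStab.exists_metric (d + 1) M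
    obtain ⟨Es₁, Eu₁, c₁, μ₁, h₁⟩ := iHE d B M π hb r hr A f hcov γB _ EsB EuB cB μB hBinv hAB γ Dm
      hD0 hder (closure (CircleContracting (EuclideanSpace ℝ (Fin (d + 1))) f)) hc3
      (hper _ hCCper) C lam hC hlam0 hlam1 hc1
    obtain ⟨Eu₂, Es₂, c₂, μ₂, h₂⟩ := iHE d B M π hb r hr A.symm f.symm hcov' γB _ EuB EsB cB μB
      hBinv' hAB' γ (fun y => (Dm (f.symm y))⁻¹) (fun y => inv_pos.2 (hD0 _)) (fun y => by
        obtain ⟨z, rfl⟩ := f.surjective y
        have h1 := inverse_gen hr f z (hD0 z) (hder z)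
        refine h1.trans ?_
        exact congrArg (fun w : M => ((Dm w)⁻¹ • gen d w : EuclideanSpace ℝ (Fin (d + 1))))
          (hf'f z).symm)
      (closure (CircleExpanding (EuclideanSpace ℝ (Fin (d + 1))) f)) (fun y => by
        have h1 := hc4 (f.symm y)
        rw [hff'] at h1
        exact h1.symm)
      (hper _ hCEper) C lam hC hlam0 hlam1 (fun y hy l => by
        have h3 := prod_inverse (f := f) (f' := f.symm) hff' Dm y 0 l
        simp only [zero_add] at h3
        rw [h3]
        have hy' : f.symm^[l] y ∈ closure (CircleExpanding (EuclideanSpace ℝ (Fin (d + 1))) f) := by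
          clear h3
          induction l with
          | zero => exact hy
          | succ l ih =>
            rw [iterate_succ_apply', ← hc4, hff']
            exact ih
        exact prod_le_of (Finset.prod_pos fun i _ => hD0 _) (hc2 _ hy' l))
    have h₂' : HypEst f f.symm γ (closure (CircleExpanding (EuclideanSpace ℝ (Fin (d + 1))) f))
        Es₂ Eu₂ c₂ μ₂ :=
      ⟨h₂.c_pos, h₂.mu_pos, h₂.mu_lt, fun x hx => (h₂.compl x hx).symm, h₂.inv_u', h₂.inv_u,
        h₂.inv_s', h₂.inv_s, h₂.contr_u, h₂.contr_s⟩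
    exact hyperbolicStructure_union hr f h₁ h₂' isClosed_closure isClosed_closure hdis hc3 hc4
  · -- no cycles
    obtain ⟨ρ, hρ, hsep⟩ := separation_main hF hr f hcirc hst
    have hps : PeriodicShadowing f := by
      refine TH.prf_Shadow M B π A f ρ hF.continuous_proj f.continuous hcov hF.fibre ?_ ?_ ?_
        hA.shadowing hρ hsep ?_
      · intro n ε hε e c hc hstep hn
        exact exists_close hF.free hcirc hε e c hc hstep hn
      · intro ε hε
        exact exists_small_rotation hact hF.free hε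
      · intro ε hε
        exact exists_near_fibre hact hF.continuous_proj hF.surjective hF.fibre hε
      · exact iFol M B π f hact hF.fibre
          (iLip (d + 1) M hb.smooth_action hb.free r hr f ℒ Dm τ Λ hD C lam τ₁
            hU)
    exact (TH.prf_NoCyc TH.prf_ChTr TH.prf_Rev) M f f.symm f.continuous f.symm.continuous hf'f hff'
      hps hΩ'

end Pool.Agent.OmegaStability.OS
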