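import Pool.Agent.Work.MP_814647_an.OS.StmtsB

/-!
# Circle extensions with one-sided structure functions: the items on the manifold

Every docstring is the complete proof.
-/

set_option autoImplicit false

open Set Filter Topology Function
open scoped Manifold ContDiff

noncomputable section

namespace Pool.Agent.OmegaStability.OS

open Dens

universe u v

/-- Uniform estimates for `f` itself. -/
def Unif0 (m : ℕ) {M : Type u} [MetricSpace M] [ChartedSpace (EuclideanSpace ℝ (Fin m)) M]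
    [MulAction Circle M] (f : M → M) (Dm : M → ℝ) (C lam : ℝ) : Prop :=
  0 < C ∧ 0 < lam ∧ lam < 1 ∧
    (∀ y ∈ CircleContracting (EuclideanSpace ℝ (Fin m)) f,
      ∀ n, ∏ i ∈ Finset.range n, Dm (f^[i] y) ≤ C * lam ^ n) ∧
    ∀ y ∈ CircleExpanding (EuclideanSpace ℝ (Fin m)) f,
      ∀ n, 1 ≤ C * lam ^ n * ∏ i ∈ Finset.range n, Dm (f^[i] y)

/-- Item NCt (MEDIUM-HARD), the nonlinearity is continuous for `r ≥ 2`. Local formula: fix `y₀`,
let `φ` be the chart at `f y₀` and `ℓ` a linear functional with `ℓ (Dφ (v (f y₀))) ≠ 0`, where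
`v = vgen m` (nonzero: `gen_ne_zero`). The functions `h (θ, y) = ℓ (φ (f (exp θ • y)))` (near
`(0, y₀)`) and `g (θ, w) = ℓ (φ (exp θ • w))` (near `(0, f y₀)`) are of class `C^2`. Their partial
derivatives in `θ` at `θ = 0`, `h₁ y = ∂h (0, y)` and `g₁ w = ∂g (0, w)`, are `C^1`
(`ContMDiffAt.mfderiv`, or a local argument in charts), `g₁ (f y₀) ≠ 0`, and
`h₁ y = Dm y * g₁ (f y)` (as `f (exp θ • y) = exp (ℒ y θ) • f y`, `deriv (ℒ y) 0 = Dm y`). So `Dm`
is of class `C^1` near `y₀`, and `(θ, y) ↦ Dm (exp θ • y)` is of class `C^1` on `ℝ × M`. Hence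
`deriv (ℒ y) = fun θ => Dm (exp θ • y)` is of class `C^1`, `ℒ y` of class `C^2`, and
`iteratedDeriv 2 (ℒ y) θ = d/dη Dm (exp η • exp θ • y)` at `η = 0`. Put
`Nf y = (d/dη Dm (exp η • y) at η = 0) / Dm y`; it is continuous (the partial derivative in the
first variable of a `C^1` function on `ℝ × M`). -/
def StNCt : Prop :=
  ∀ (m : ℕ) (M : Type u) [MetricSpace M] [CompactSpace M]
    [ChartedSpace (EuclideanSpace ℝ (Fin m)) M] [IsManifold (𝓡 m) ∞ M] [MulAction Circle M],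
    SmoothCircleAction (EuclideanSpace ℝ (Fin m)) M →
    (∀ (z : Circle) (y : M), z • y = y → z = 1) → ∀ (r : ℕ∞), 2 ≤ r →
    ∀ (f : Diffeo (EuclideanSpace ℝ (Fin m)) M r) (ℒ : M → ℝ → ℝ) (Dm : M → ℝ) (τ Λ : ℝ),
    FibData f ℒ Dm τ Λ →
    ∃ Nf : M → ℝ, Continuous Nf ∧ ∀ y, ContDiff ℝ 2 (ℒ y) ∧
      ∀ θ, nlAt (ℒ y) θ = Nf (Circle.exp θ • y)

/-- Item OnB (EASY), as I_One.lean: `η ↦ ℒ y (θ + η) - ℒ y θ` is the lift of `f` on the circle of
`w = exp θ • y`, its derivatives at `0` are those of `ℒ y` at `θ`, and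
`a (f w) = a (exp (ℒ y θ) • f y)`. If the lift at `w` is of class `C^3` then so is `ℒ y`. -/
def StOnB : Prop :=
  ∀ (M : Type u) [MulAction Circle M] (f : M → M) (ℒ : M → ℝ → ℝ), NLift f ℒ →
    ∀ (K : ℝ) (P : Set M) (σ : ℝ), OneSidedFor f K P σ →
    ∃ (a : M → ℝ) (k : KdB), (∀ y, |a y| ≤ K) ∧
      (∀ y, Continuous fun θ : ℝ => a (Circle.exp θ • y)) ∧
      (∀ (y : M) (θ : ℝ), Circle.exp θ • y ∈ P →
        k.at σ (ℒ y) (fun η => a (Circle.exp η • y)) (fun η => a (Circle.exp η • f y)) θ) ∧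
      (k = KdB.sch → (∀ y, a y ≤ 1 / 2) ∧
        ∀ (y : M) (θ : ℝ), Circle.exp θ • y ∈ P → ContDiff ℝ 3 (ℒ y))

/-- Item U0 (MEDIUM), as `pr_UniP` (OS/Per.lean) for `s = 0`. Let `τ', K` be the numbers in
`OneSidedAtPeriodicPoints` (`K ≥ 0` since `|a y| ≤ K`; if `M` is empty there is nothing to prove),
`τ₁ = min τ τ'`; constants: the largest of those of KCB, KEB for the three kinds, `K`, `τ₁`, `Λ`.
Let `y ∈ CircleContracting f`, `f^[n] y = y`, product `< 1` (Cls at `s = 0`,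
`rotated f 0 = f`), `L j = ℒ (f^[j] y)`, `Ext L n τ₁ Λ` (FibData.ext for `s = 0`); take `a`, `k`
from OnB for `y₀ = y` and put `a_j η = a (exp η • f^[j] y)`. Let `|t| < τ₁`,
`orb L t n θ = θ`, product at `θ` `< 1`: the points `z i = exp (orb L t i θ) • f^[i] y` form the
orbit of a circle-contracting periodic point of `rotated f t` in `circlesAlong f y`, so
`k.at 1 (L i) (a_i) (a_(i+1)) (orb L t i θ)`; for `t = 0`, `θ = 0` this shows that
`f^[i] y` is in the set, so `ContDiff ℝ 3 (L i)` if `k = sch`. So KCB applies. Expanding: the same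
with KEB. -/
def StU0 : Prop :=
  ∀ (m : ℕ) (M : Type u) [MetricSpace M] [CompactSpace M]
    [ChartedSpace (EuclideanSpace ℝ (Fin m)) M] [IsManifold (𝓡 m) ∞ M] [MulAction Circle M],
    SmoothCircleAction (EuclideanSpace ℝ (Fin m)) M →
    (∀ (z : Circle) (y : M), z • y = y → z = 1) → ∀ (r : ℕ∞), 1 ≤ r →
    ∀ (f : Diffeo (EuclideanSpace ℝ (Fin m)) M r) (ℒ : M → ℝ → ℝ) (Dm : M → ℝ) (τ Λ : ℝ),
    FibData f ℒ Dm τ Λ → (∀ y, ContDiff ℝ 2 (ℒ y)) →
    OneSidedAtPeriodicPoints (EuclideanSpace ℝ (Fin m)) f →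
    ∃ C lam : ℝ, Unif0 m f Dm C lam

/-- Item UU (MEDIUM-HARD), the estimates for `f` imply those for its small rotations. Fix
`lam < lam' < 1`, `ε = log (lam' / lam)`; by compactness and continuity of `log Dm` there is
`δ₀ > 0` with `Dm (exp x • z) ≤ exp ε * Dm z` and `Dm z ≤ exp ε * Dm (exp x • z)` for
`|x| ≤ δ₀` and all `z` (`exists_smul_close`-type uniformity: `(x, z) ↦ log Dm (exp x • z)` is
uniformly continuous on `[-1, 1] × M`). Let `K' = C / (1 - lam')`, and `τ₁` so small that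
`τ₁ ≤ τ / 4` and `(K' + 1) τ₁ ≤ δ₀ / 2`. Let `|s| < τ₁`, `g = rotated f s`,
`y ∈ CircleContracting g`, `g^[n] y = y`, `L j = ℒ (g^[j] y)`, `Ext L n (τ - |s|) Λ`, and `P` from
SwC with `s₁ = τ / 2`. Put `h_k t = orb L t k (P t)`; `h_k 0 = 0`. The points
`z_k = exp (h_k (-s)) • g^[k] y` form the orbit of a circle-contracting periodic point of
`rotated g (-s) = f` (Cls), so their block products are `≤ C lam ^ l`. Let `t` be between `-s` and
`0`, with `|h_k t - h_k (-s)| ≤ δ₀` for all `k`. Then `a_k = deriv (L k) (h_k t) =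
Dm (exp (h_k t - h_k (-s)) • z_k) ≤ exp ε * Dm (z_k)`, the block products of the `a_k` are
`≤ C lam' ^ l`, and by Dif and Spd (applied to the shifted sequences) the speeds are
`|v_k| ≤ K'`. The vector function `H t = (h_k t - h_k (-s))_(k < n)` (sup norm on `Fin n → ℝ`)
vanishes at `-s` and `‖H' t‖ ≤ K' < K' + 1` whenever `‖H t‖ = (K' + 1) |t + s| ≤ δ₀`; by
`image_norm_le_of_norm_deriv_right_lt_deriv_boundary` (after `t ↦ -t` if `s < 0`)
`‖H t‖ ≤ (K' + 1) |t + s| ≤ δ₀` up to `t = 0`. At `t = 0` (`h_k 0 = 0`) the block products of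
`Dm (g^[k] y)` are `≤ C lam' ^ l`. Expanding: the same with SwE (block products
`≥ 1 / (C lam' ^ l)`). -/
def StUU : Prop :=
  ∀ (m : ℕ) (M : Type u) [MetricSpace M] [CompactSpace M]
    [ChartedSpace (EuclideanSpace ℝ (Fin m)) M] [IsManifold (𝓡 m) ∞ M] [MulAction Circle M],
    SmoothCircleAction (EuclideanSpace ℝ (Fin m)) M →
    (∀ (z : Circle) (y : M), z • y = y → z = 1) → ∀ (r : ℕ∞), 1 ≤ r →
    ∀ (f : Diffeo (EuclideanSpace ℝ (Fin m)) M r) (ℒ : M → ℝ → ℝ) (Dm : M → ℝ) (τ Λ : ℝ),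
    FibData f ℒ Dm τ Λ → ∀ C lam : ℝ, Unif0 m f Dm C lam →
    ∃ C' lam' τ₁ : ℝ, Unif m f Dm C' lam' τ₁

/-- Item LiK (EASY-MEDIUM), an adaptation of I_Lip.lean: there the fixed point `exp (P (-s)) • y` of
the iterate of `f` has a product `< 1` if `y` is circle-contracting for `rotated f s` (SwC, second
conclusion), so by Cls it is circle-contracting for `f`; and `> 1` (SwE) if `y` is
circle-expanding. -/
def StLiK : Prop :=
  ∀ (m : ℕ) (M : Type u) [MetricSpace M] [CompactSpace M]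
    [ChartedSpace (EuclideanSpace ℝ (Fin m)) M] [IsManifold (𝓡 m) ∞ M] [MulAction Circle M],
    SmoothCircleAction (EuclideanSpace ℝ (Fin m)) M →
    (∀ (z : Circle) (y : M), z • y = y → z = 1) → ∀ (r : ℕ∞), 1 ≤ r →
    ∀ (f : Diffeo (EuclideanSpace ℝ (Fin m)) M r) (ℒ : M → ℝ → ℝ) (Dm : M → ℝ) (τ Λ : ℝ),
    FibData f ℒ Dm τ Λ → ∀ C lam τ₁ : ℝ, Unif m f Dm C lam τ₁ →
    ∃ η K : ℝ, 0 < η ∧ 0 < K ∧ ∀ s : ℝ, |s| < η → ∀ y : M,
      (y ∈ CircleContracting (EuclideanSpace ℝ (Fin m)) (rotated f s) → ∃ θ : ℝ, |θ| ≤ K * |s| ∧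
        Circle.exp θ • y ∈ CircleContracting (EuclideanSpace ℝ (Fin m)) f) ∧
      (y ∈ CircleExpanding (EuclideanSpace ℝ (Fin m)) (rotated f s) → ∃ θ : ℝ, |θ| ≤ K * |s| ∧
        Circle.exp θ • y ∈ CircleExpanding (EuclideanSpace ℝ (Fin m)) f)

/-- Item HyU (MEDIUM), hyperbolicity implies the estimates. Periodic points are in `Omega f`. Let
`y ∈ CircleContracting f`; by Cls `f^[N] y = y` with product `c < 1`, `c > 0`, and
`D f^[N] v = c v` for `v = vgen m y` (Der, iterated: `D f^[n] (vgen y) = (∏ i < n, Dm (f^[i] y)) •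
vgen (f^[n] y)`). Write `v = v_s + v_u`, `v_s ∈ Es y`, `v_u ∈ Eu y`. The derivative of `f^[N]` maps
`Es y`, `Eu y` into themselves, so `D f^[N] v_u = c v_u` and `D f^[k N] v_u = c ^ k v_u`. As
`D f.symm^[k N] (D f^[k N] v_u) = v_u`, contraction of `Eu` by `f.symm` gives
`‖v_u‖ ≤ c₀ μ ^ (k N) c ^ k ‖v_u‖` for all `k`, hence `v_u = 0` and `v ∈ Es y`. So
`(∏ i < n, Dm (f^[i] y)) ‖vgen (f^[n] y)‖ = ‖D f^[n] v‖ ≤ c₀ μ ^ n ‖vgen y‖`, and the norm of
`vgen` is between two positive constants (compactness, continuity, `gen_ne_zero`). Let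
`y ∈ CircleExpanding f`, product `c > 1`: `D f^[k N] v_s = c ^ k v_s`, so
`c ^ k ‖v_s‖ ≤ c₀ μ ^ (k N) ‖v_s‖` and `v_s = 0`; `v ∈ Eu y`, and `vgen (f^[n] y) ∈ Eu (f^[n] y)`
(it is a multiple of `D f^[n] v`), so `‖vgen y‖ / ∏ = ‖D f.symm^[n] vgen (f^[n] y)‖ ≤
c₀ μ ^ n ‖vgen (f^[n] y)‖`. (`HypEst`-type lemmas in Bd/B02 and ProjMain: `inverse_gen`,
`rnorm_smul`, `continuous_rnorm`, `mdiff_iter`.) -/
def StHyU : Prop :=
  ∀ (m : ℕ) (M : Type u) [MetricSpace M] [CompactSpace M]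
    [ChartedSpace (EuclideanSpace ℝ (Fin m)) M] [IsManifold (𝓡 m) ∞ M] [MulAction Circle M],
    SmoothCircleAction (EuclideanSpace ℝ (Fin m)) M →
    (∀ (z : Circle) (y : M), z • y = y → z = 1) → ∀ (r : ℕ∞), 1 ≤ r →
    ∀ (f : Diffeo (EuclideanSpace ℝ (Fin m)) M r) (ℒ : M → ℝ → ℝ) (Dm : M → ℝ) (τ Λ : ℝ),
    FibData f ℒ Dm τ Λ → HyperbolicStructure (EuclideanSpace ℝ (Fin m)) f f.symm (Omega f) →
    ∃ C lam : ℝ, Unif0 m f Dm C lam

/-- Item Nbh (MEDIUM), a neighbourhood in the circles. Fix `lam < lam' < 1`, `ε = log (lam' / lam)`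
and `0 < δ₀` with `Dm (exp x • z) ≤ exp ε * Dm z` for `|x| ≤ δ₀` and all `z` (compactness). Let
`C₁ = max C 1`, `δ₁ = δ₀ / C₁`, `V = {exp x • z | z ∈ Z, |x| ≤ δ₁}` (the image of a compact set).
For `y = exp x • z ∈ V` one has `f^[k] y = exp (x_k) • f^[k] z` with `x_0 = x`,
`x_(k+1) = ℒ (f^[k] z) (x_k)`, and by the mean value theorem and induction
`|x_k| ≤ (∏ i < k, Dm (f^[i] z)) exp (ε k) |x| ≤ C lam' ^ k |x| ≤ δ₀`. So
`∏ i < n, Dm (f^[i] y) ≤ exp (ε n) ∏ i < n, Dm (f^[i] z) ≤ C lam' ^ n`. With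
`δ = δ₁ / (1 + C₁)`: `exp x • z` and `f (exp x • z) = exp (x_1) • f z` are in `V` for `|x| ≤ δ`
(`|x_1| ≤ C₁ |x| ≤ δ₁`). -/
def StNbh : Prop :=
  ∀ (M : Type u) [MetricSpace M] [CompactSpace M] [MulAction Circle M],
    (Continuous fun p : Circle × M => p.1 • p.2) →
    ∀ (f : M → M) (ℒ : M → ℝ → ℝ) (Dm : M → ℝ), Continuous f → NLift f ℒ → Continuous Dm →
    (∀ y, 0 < Dm y) → (∀ y, ContDiff ℝ 1 (ℒ y)) →
    (∀ y θ, deriv (ℒ y) θ = Dm (Circle.exp θ • y)) →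
    ∀ (Z : Set M) (C lam : ℝ), IsClosed Z → (∀ y ∈ Z, f y ∈ Z) → 0 < C → 0 < lam → lam < 1 →
    (∀ y ∈ Z, ∀ n, ∏ i ∈ Finset.range n, Dm (f^[i] y) ≤ C * lam ^ n) →
    ∃ (δ : ℝ) (V : Set M) (C' lam' : ℝ), 0 < δ ∧ IsClosed V ∧ 0 < C' ∧ 0 < lam' ∧ lam' < 1 ∧
      (∀ y ∈ V, ∀ n, ∏ i ∈ Finset.range n, Dm (f^[i] y) ≤ C' * lam' ^ n) ∧
      ∀ z ∈ Z, ∀ θ : ℝ, |θ| ≤ δ → Circle.exp θ • z ∈ V ∧ f (Circle.exp θ • z) ∈ V

/-- Item Lin (EASY-MEDIUM), linearisation. On `V` put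
`a y = Σ_n N (f^[n] y) * ∏ i < n, D (f^[i] y)`: the terms are continuous and bounded by
`B C lam ^ n`, `B = sup |N|`, so `a` is continuous on `V` (`continuousOn_tsum`), and
`a y = N y + D y * a (f y)` if `y` and `f y` are in `V` (`Finset.prod_range_succ'`,
`tsum_eq_zero_add`). Extend `a` from the closed set `V` to `M` by Tietze
(`ContinuousMap.exists_restrict_eq` or `exists_extension_..`). -/
def StLin : Prop :=
  ∀ (M : Type u) [MetricSpace M] [CompactSpace M] (f : M → M) (N D : M → ℝ), Continuous f →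
    Continuous N → Continuous D → (∀ y, 0 < D y) → ∀ (V : Set M) (C lam : ℝ), IsClosed V →
    0 < C → 0 < lam → lam < 1 →
    (∀ y ∈ V, ∀ n, ∏ i ∈ Finset.range n, D (f^[i] y) ≤ C * lam ^ n) →
    ∃ a : M → ℝ, Continuous a ∧ ∀ y ∈ V, f y ∈ V → N y + a (f y) * D y - a y = 0

/-- Item Inv (EASY-MEDIUM), the lifts of the inverse map. `ℒ (f' y)` is an increasing bijection of
`ℝ` (continuous, strictly increasing, commutes with `θ ↦ θ + 2π`); let `ℒ' y` be its inverse. It is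
continuous, strictly increasing, `ℒ' y 0 = 0`, commutes with `θ ↦ θ + 2π`, and
`f (exp (ℒ' y θ) • f' y) = exp (ℒ (f' y) (ℒ' y θ)) • y = exp θ • y` gives
`f' (exp θ • y) = exp (ℒ' y θ) • f' y`. Its derivative at `θ` is
`1 / Dm (exp (ℒ' y θ) • f' y) = 1 / Dm (f' (exp θ • y))` (`HasDerivAt.of_local_left_inverse`, or
`HasStrictDerivAt` inverse function theorem), a continuous function of `θ`. -/
def StInv : Prop :=
  ∀ (M : Type u) [MetricSpace M] [CompactSpace M] [MulAction Circle M],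
    (Continuous fun p : Circle × M => p.1 • p.2) →
    ∀ (f f' : M → M) (ℒ : M → ℝ → ℝ) (Dm : M → ℝ), Continuous f → Continuous f' →
    (∀ x, f' (f x) = x) → (∀ x, f (f' x) = x) → NLift f ℒ → Continuous Dm → (∀ y, 0 < Dm y) →
    (∀ y, ContDiff ℝ 1 (ℒ y)) → (∀ y θ, deriv (ℒ y) θ = Dm (Circle.exp θ • y)) →
    ∃ ℒ' : M → ℝ → ℝ, NLift f' ℒ' ∧ (∀ y, ContDiff ℝ 1 (ℒ' y)) ∧
      ∀ y θ, deriv (ℒ' y) θ = (Dm (f' (Circle.exp θ • y)))⁻¹

/-- Item Con (MEDIUM), the converse. Write `CC`, `CE` for the circle-contracting and -expanding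
periodic points of `f`. Contracting: `Z = closure CC` satisfies the product bound (Clo) and is
invariant (Clo); Nbh gives `δ`, `V`; Lin with `N = Nf` (NCt), `D = Dm` gives `a`. LiK gives `η`, `K`;
let `|t| < min η (δ / K) / (1 + Λ)`-small. For `y ∈ CircleContracting (rotated f t)` there is `θ`
with `|θ| ≤ K |t| ≤ δ` and `z = exp θ • y ∈ CC`; `y = exp (-θ) • z`, so `y ∈ V`, `f y ∈ V` and
`Nf y + a (f y) * Dm y - a y = 0`. A lift `L` of `f` on the circle of `y` is `ℒ y` (Uq), so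
`affineDefect f a y L = nlAt (ℒ y) 0 + a (f y) * deriv (ℒ y) 0 - a y` is this number
(`nlAt (ℒ y) 0 = Nf y`, `deriv (ℒ y) 0 = Dm y`). Expanding: `f' = f.symm`,
`D' y = (Dm (f' y))⁻¹`, `Z = closure CE`, `f'`-invariant (Clo), and the products of `D'` along
`f'`-orbits in `Z` are `≤ C lam ^ n` (Clo at the point `f'^[n] y`, and `prod_inverse`,
`prod_le_of` of ProjMain, as in Main.lean); Inv gives the lifts of `f'`; Nbh gives `δ'`, `V'`; Lin
with `f'`, `N' y = - Nf (f' y) / Dm (f' y)`, `D'` gives `b` with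
`N' w + b (f' w) * D' w - b w = 0` if `w`, `f' w ∈ V'`. For
`y ∈ CircleExpanding (rotated f t)`: `z = exp θ • y ∈ CE`, `y = exp (-θ) • z`,
`w = f y = exp (ℒ z (-θ)) • f z` with `f z ∈ CE`, `|ℒ z (-θ)| ≤ Λ' |θ| ≤ δ'` (`Λ'` a bound of
`Dm`), so `w`, `f' w = y ∈ V'`; multiply the relation at `w` by `- Dm y`:
`Nf y + b (f y) * Dm y - b y = 0`. -/
def StCon : Prop :=
  ∀ (m : ℕ) (M : Type u) [MetricSpace M] [CompactSpace M]
    [ChartedSpace (EuclideanSpace ℝ (Fin m)) M] [IsManifold (𝓡 m) ∞ M] [MulAction Circle M],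
    SmoothCircleAction (EuclideanSpace ℝ (Fin m)) M →
    (∀ (z : Circle) (y : M), z • y = y → z = 1) → ∀ (r : ℕ∞), 2 ≤ r →
    ∀ (f : Diffeo (EuclideanSpace ℝ (Fin m)) M r) (ℒ : M → ℝ → ℝ) (Dm : M → ℝ) (τ Λ : ℝ),
    FibData f ℒ Dm τ Λ → ∀ C lam τ₁ : ℝ, Unif m f Dm C lam τ₁ →
    AffineAtPeriodicPoints (EuclideanSpace ℝ (Fin m)) f

/-- Item Imp (EASY): a continuous function on the compact `M` is bounded; take the same `a` (`b`)
for all `y₀`, first alternative. -/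
def StImp : Prop :=
  ∀ (m : ℕ) (M : Type u) [MetricSpace M] [CompactSpace M]
    [ChartedSpace (EuclideanSpace ℝ (Fin m)) M] [IsManifold (𝓡 m) ∞ M] [MulAction Circle M],
    (Continuous fun p : Circle × M => p.1 • p.2) → ∀ f : M → M,
    AffineAtPeriodicPoints (EuclideanSpace ℝ (Fin m)) f →
    OneSidedAtPeriodicPoints (EuclideanSpace ℝ (Fin m)) f

end Pool.Agent.OmegaStability.OS
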