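import Pool.Agent.Work.MP_814647_an.OS.Main
import Pool.Agent.Work.MP_814647_an.OS.StmtsC

/-!
# Circle extensions with one-sided structure functions: the assembly
-/

set_option autoImplicit false

open Set Filter Topology Function
open scoped Manifold ContDiff

noncomputable section

namespace Pool.Agent.OmegaStability.OS

open Dens ProjAsm

universe u v

theorem os_mainB (iBr : StBr.{u}) (iDer : StDer.{u}) (iLip : StLip.{u})
    (iFol : StFol.{u, v}) (iClo : StClo.{u}) (iHB : StHB.{v}) (iHE : StHE.{u, v})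
    (iNCt : StNCt.{u}) (iU0 : StU0.{u}) (iUU : StUU.{u}) (iHyU : StHyU.{u}) (iCon : StCon.{u})
    (iImp : StImp.{u})
    {d : ℕ} {B : Type v} {M : Type u} [MetricSpace B] [CompactSpace B]
    [ChartedSpace (EuclideanSpace ℝ (Fin d)) B]
    [IsManifold 𝓘(ℝ, EuclideanSpace ℝ (Fin d)) ∞ B]
    [MetricSpace M] [CompactSpace M] [ChartedSpace (EuclideanSpace ℝ (Fin (d + 1))) M]
    [IsManifold 𝓘(ℝ, EuclideanSpace ℝ (Fin (d + 1))) ∞ M] [MulAction Circle M]
    {π : M → B} (hb : IsCircleBundle d π) {r : ℕ∞} (hr : 2 ≤ r)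
    (A : Diffeo (EuclideanSpace ℝ (Fin d)) B r) (hA : HyperbolicBase A)
    (f : Diffeo (EuclideanSpace ℝ (Fin (d + 1))) M r) (hcov : ∀ y, π (f y) = A (π y))
    (hcirc : PreservesOrientedCircles f) (hst : OmegaStable f) :
    [SatisfiesAxiomA f ∧ HasNoCycles f,
      OneSidedAtPeriodicPoints (EuclideanSpace ℝ (Fin (d + 1))) f,
      AffineAtPeriodicPoints (EuclideanSpace ℝ (Fin (d + 1))) f].TFAE := by
  have hr1 : 1 ≤ r := le_trans (by norm_num) hr
  have hact : Continuous fun p : Circle × M => p.1 • p.2 := hb.smooth_action.continuous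
  tfae_have 2 → 1 := by
    intro h
    refine os_main iBr iDer iLip iFol iClo iHB iHE hb hr1 A hA f hcov hcirc hst ?_
    intro ℒ Dm τ Λ hF _
    obtain ⟨Nf, -, h2⟩ := iNCt (d + 1) M hb.smooth_action hb.free r hr f ℒ Dm τ Λ hF
    obtain ⟨C, lam, h0⟩ := iU0 (d + 1) M hb.smooth_action hb.free r hr1 f ℒ Dm τ Λ hF
      (fun y => (h2 y).1) h
    exact iUU (d + 1) M hb.smooth_action hb.free r hr1 f ℒ Dm τ Λ hF C lam h0
  tfae_have 1 → 3 := by
    rintro ⟨⟨h, -⟩, -⟩
    obtain ⟨ℒ, Dm, τ, Λ, hF, -⟩ := iBr (d + 1) M hb.smooth_action hb.free r hr1 f hcirc hst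
    obtain ⟨C, lam, h0⟩ := iHyU (d + 1) M hb.smooth_action hb.free r hr1 f ℒ Dm τ Λ hF h
    obtain ⟨C', lam', τ₁, hU⟩ := iUU (d + 1) M hb.smooth_action hb.free r hr1 f ℒ Dm τ Λ hF C lam h0
    exact iCon (d + 1) M hb.smooth_action hb.free r hr f ℒ Dm τ Λ hF C' lam' τ₁ hU
  tfae_have 3 → 2 := iImp (d + 1) M hact f
  tfae_finish

end Pool.Agent.OmegaStability.OS
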