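import Pool.Agent.Work.MP_814647_an.OS.NotionsB

/-!
# Uniform exponents along the circles
-/

open Set Filter Topology
open scoped Manifold ContDiff

noncomputable section

namespace Pool.Agent.OmegaStability

variable (E : Type*) [NormedAddCommGroup E] [NormedSpace ℝ E]
  {M : Type*} [MetricSpace M] [ChartedSpace E M] [MulAction Circle M]

/-- The exponents along the circles of the periodic points of `f` are bounded away from zero: for
some `c > 0`, whenever `f^[n] y = y` with `n > 0`, the derivative of `f^[n]` at `y` multiplies the
velocity of the circle action by `exp (n χ)` with `|χ| ≥ c`. -/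
def UniformCircleExponents (f : M → M) : Prop :=
  ∃ c : ℝ, 0 < c ∧ ∀ (n : ℕ) (y : M), 0 < n → f^[n] y = y → ∃ χ : ℝ, c ≤ |χ| ∧
    mfderiv 𝓘(ℝ, E) 𝓘(ℝ, E) f^[n] y (circleVector E y) =
      Real.exp (n * χ) • circleVector E y

end Pool.Agent.OmegaStability
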