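import Pool.Agent.Work.MP_814647_an.OS.StmtsC
import Pool.Agent.Work.MP_814647_an.OS.NotionsD

/-!
# Uniform exponents along the circles: the items

Every docstring is the complete proof.
-/

set_option autoImplicit false

open Set Filter Topology Function
open scoped Manifold ContDiff

noncomputable section

namespace Pool.Agent.OmegaStability.OS

open Dens

universe u v

/-- Item Ret (MEDIUM), returns of bounded length. Let `P = closure (periodicPts f)`, compact.
(a) For `x ∈ P`, `n` and any `η > 0` there is a chain in `P` with jumps `< η` from `f^[n] x` to `x`: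
choose a periodic point `p`, `f^[N] p = p`, with `dist p x < η` and
`dist (f^[n+1] p) (f^[n+1] x) < η`, and a multiple `q N > n + 1`; the chain is
`f^[n] x, f^[n+1] p, f^[n+2] p, ..., f^[q N - 1] p, x` (`f (f^[q N - 1] p) = p`).
(b) Let `0 < δ' ≤ δ / 3` with `dist a b < δ' → dist (f a) (f b) < δ / 3`, and let `F` be a finite
`δ'`-net of `P` contained in `P`. For each pair `(a, b) ∈ F × F` for which there is a chain in `P`
with jumps `< 2 δ / 3` from `a` to `b` choose one; let `T` be the largest of their lengths (and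
`T ≥ 1`). For `x ∈ P` and `n` take `a, b ∈ F` with `dist a (f^[n] x) < δ'`, `dist b x < δ'`. A chain
as in (a) with `η = δ / 3`, with its first point replaced by `a` and its last by `b`, has jumps
`< 2 δ / 3`: first jump `dist (f a) (c 1) < δ / 3 + δ / 3`, last jump
`dist (f (c (k-1))) b < δ / 3 + δ'` (if the chain has length one both replacements concern the
same jump: use in (a) `q N > n + 2`, so that the chain has length at least `2`). So the chosen chain
from `a` to `b` exists; replace its ends by `f^[n] x` and `x`: jumps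
`< 2 δ / 3 + δ / 3 = δ`, if its length is at least `2` (choose only chains of length `≥ 2`). -/
def StRet : Prop :=
  ∀ (M : Type u) [MetricSpace M] [CompactSpace M] (f : M → M), Continuous f → ∀ δ > 0,
    ∃ T : ℕ, ∀ x ∈ closure (periodicPts f), ∀ n : ℕ, ∃ (k : ℕ) (c : ℕ → M), 0 < k ∧ k ≤ T ∧
      c 0 = f^[n] x ∧ c k = x ∧ (∀ j ≤ k, c j ∈ closure (periodicPts f)) ∧
      ∀ j < k, dist (f (c j)) (c (j + 1)) < δ

/-- Item PSh (EASY-MEDIUM), periodic shadowing in `S`. Let `κ` be the constant of `ExpansiveOn`,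
`ε' = min ε (κ / 2)` and `δ` that of `ShadowingOn` for `ε'`. Extend the periodic pseudo-orbit to
`ℤ` (`x (j mod n)`); let `y` be a full orbit in `S` with `dist (x j) (y j) < ε'`. The shifted orbit
`y (j + n)` shadows the same pseudo-orbit, so `dist (y j) (y (j + n)) ≤ κ` for all `j` and
`y 0 = y n = f^[n] (y 0)`. Take `p = y 0`. -/
def StPSh : Prop :=
  ∀ (M : Type u) [MetricSpace M] (f : M → M) (S : Set M), ExpansiveOn f S → ShadowingOn f S →
    ∀ ε > 0, ∃ δ > 0, ∀ (n : ℕ) (x : ℕ → M), 0 < n → (∀ j ≤ n, x j ∈ S) → x n = x 0 →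
      (∀ j < n, dist (f (x j)) (x (j + 1)) < δ) →
      ∃ p ∈ S, f^[n] p = p ∧ ∀ j < n, dist (x j) (f^[j] p) < ε

/-- Item Exq (MEDIUM), uniform exponents imply the estimates. Let `c` be the constant of
`UniformCircleExponents`; for a periodic point `p` of period `N` the product
`∏ i < N, Dm (f^[i] p)` equals `exp (N χ)` (both multiply `circleVector p = vgen m p ≠ 0` under the
derivative of `f^[N]`: Der iterated, or I_Cls.mult, `gen_ne_zero`), so it is `≤ exp (- c N)` or
`≥ exp (c N)`; it is `< 1` if `p ∈ CircleContracting f` and `> 1` if `p ∈ CircleExpanding f`, and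
one of the two holds (Cls, `s = 0`). Let `K ≥ |log Dm|` (compactness), let `ε > 0` be such that
`dist a b < ε → |log (Dm a) - log (Dm b)| ≤ c / 4` and that points of the two closures are at
distance `≥ ε` (disjoint compact sets, `SplitsByCircleIndex`). Let `δ` be that of PSh for `ε`,
`S = Omega f`, and `T` that of Ret for `δ`. Let `y ∈ CircleContracting f`, `n ≥ 1`. The closed
pseudo-orbit `y, f y, ..., f^[n-1] y, f^[n] y = c 0, c 1, ..., c k = y` of length `N = n + k`,
`k ≤ T`, is shadowed by `p`, `f^[N] p = p`, `dist (f^[j] y) (f^[j] p) < ε` for `j < n`; as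
`dist y p < ε`, `p` is not circle-expanding, so `∏ i < N, Dm (f^[i] p) ≤ exp (- c N)`. Hence
`∏ i < n, Dm (f^[i] y) ≤ exp (c n / 4) ∏ i < n, Dm (f^[i] p) ≤ exp (c n / 4) exp (- c N) exp (K T)
≤ exp (K T) exp (- 3 c / 4) ^ n`. Expanding: `∏ i < n, Dm (f^[i] y) ≥
exp (- c n / 4) exp (c N) exp (- K T)`. So `C = exp (K T)`, `lam = exp (- 3 c / 4)`. -/
def StExq : Prop :=
  ∀ (m : ℕ) (M : Type u) [MetricSpace M] [CompactSpace M]
    [ChartedSpace (EuclideanSpace ℝ (Fin m)) M] [IsManifold (𝓡 m) ∞ M] [MulAction Circle M],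
    SmoothCircleAction (EuclideanSpace ℝ (Fin m)) M →
    (∀ (z : Circle) (y : M), z • y = y → z = 1) → ∀ (r : ℕ∞), 1 ≤ r →
    ∀ (f : Diffeo (EuclideanSpace ℝ (Fin m)) M r) (ℒ : M → ℝ → ℝ) (Dm : M → ℝ) (τ Λ : ℝ),
    FibData f ℒ Dm τ Λ → TopologicallyHyperbolic f →
    SplitsByCircleIndex (EuclideanSpace ℝ (Fin m)) f →
    UniformCircleExponents (EuclideanSpace ℝ (Fin m)) f → ∃ C lam : ℝ, Unif0 m f Dm C lam

/-- Item Unx (EASY-MEDIUM), the estimates imply uniform exponents. Let `f^[n] y = y`, `n > 0`,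
`q = ∏ i < n, Dm (f^[i] y) > 0`; `q ≠ 1` (`Ext.noN` for `s = 0` at `t = 0`, `θ = 0`:
`FibData.ext`), so `y` is circle-contracting or circle-expanding (Cls, `s = 0`). If contracting
then `q ^ k = ∏ i < k n, .. ≤ C (lam ^ n) ^ k` for all `k`, so `q ≤ lam ^ n`; if expanding then
`1 ≤ C (lam ^ n q) ^ k` for all `k`, so `lam ^ n q ≥ 1`. Put `χ = log q / n`, `c = - log lam`. The
derivative of `f^[n]` at `y` multiplies `circleVector y` by `q` (I_Cls.mult or Der iterated). -/
def StUnx : Prop :=
  ∀ (m : ℕ) (M : Type u) [MetricSpace M] [CompactSpace M]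
    [ChartedSpace (EuclideanSpace ℝ (Fin m)) M] [IsManifold (𝓡 m) ∞ M] [MulAction Circle M],
    SmoothCircleAction (EuclideanSpace ℝ (Fin m)) M →
    (∀ (z : Circle) (y : M), z • y = y → z = 1) → ∀ (r : ℕ∞), 1 ≤ r →
    ∀ (f : Diffeo (EuclideanSpace ℝ (Fin m)) M r) (ℒ : M → ℝ → ℝ) (Dm : M → ℝ) (τ Λ : ℝ),
    FibData f ℒ Dm τ Λ → ∀ C lam : ℝ, Unif0 m f Dm C lam →
    UniformCircleExponents (EuclideanSpace ℝ (Fin m)) f

end Pool.Agent.OmegaStability.OS
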