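import Pool.Agent.Work.MP_814647_an.TopStatement

/-!
# Circle extensions with one-sided nonlinearity: the notions in the statement

`E` is a finite-dimensional real vector space and `M` a closed smooth manifold modelled on `E`
with a free smooth circle action.
-/

open Set Filter Topology
open scoped Manifold ContDiff

noncomputable section

namespace Pool.Agent.OmegaStability

section Circles

variable {M : Type*} [MulAction Circle M]

/-- The map `f` followed by the rotation by the angle `t` along the circles. -/
def rotated (f : M → M) (t : ℝ) : M → M := fun y => Circle.exp t • f y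

/-- `L` is the lift of `f` on the circle of `y`: it is continuous, `L 0 = 0`, and `f` sends
`exp θ • y` to `exp (L θ) • f y`. -/
def IsCircleLift (f : M → M) (y : M) (L : ℝ → ℝ) : Prop :=
  Continuous L ∧ L 0 = 0 ∧ ∀ θ : ℝ, f (Circle.exp θ • y) = Circle.exp (L θ) • f y

/-- The map `f` sends circle orbits to circle orbits, preserves their orientation, and is of
class `C^3` with positive derivative along them. -/
def C3AlongCircles (f : M → M) : Prop :=
  ∀ y : M, ∃ L : ℝ → ℝ, IsCircleLift f y L ∧ ContDiff ℝ 3 L ∧ ∀ θ, 0 < deriv L θ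

/-- The nonlinearity `L'' / L'` of `L` at `0`. -/
def nonlinearity (L : ℝ → ℝ) : ℝ := iteratedDeriv 2 L 0 / deriv L 0

/-- The Schwarzian derivative of `L` at `0`, plus `κ (L' ^ 2 - 1)`. -/
def schwarzian (κ : ℝ) (L : ℝ → ℝ) : ℝ :=
  iteratedDeriv 3 L 0 / deriv L 0 - 3 / 2 * nonlinearity L ^ 2 + κ * (deriv L 0 ^ 2 - 1)

/-- `f` is one-sided on the set `P` (with the sign `σ`): at all points of `P` the nonlinearity of
`f` along the circles is nonnegative, or at all of them it is nonpositive, or, for some
`κ ≤ 1 / 2`, at all points of `P` the Schwarzian `schwarzian κ` has the sign `σ` or vanishes. -/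
def OneSidedOn (f : M → M) (P : Set M) (σ : ℝ) : Prop :=
  (∀ y ∈ P, ∀ L, IsCircleLift f y L → 0 ≤ nonlinearity L) ∨
  (∀ y ∈ P, ∀ L, IsCircleLift f y L → nonlinearity L ≤ 0) ∨
  ∃ κ : ℝ, κ ≤ 1 / 2 ∧ ∀ y ∈ P, ∀ L, IsCircleLift f y L → 0 ≤ σ * schwarzian κ L

end Circles

section

variable (E : Type*) [NormedAddCommGroup E] [NormedSpace ℝ E]
  {M : Type*} [MetricSpace M] [ChartedSpace E M] [MulAction Circle M]

/-- `f` is one-sided on the circle-contracting periodic points of its small rotations, and (with
the opposite sign of the Schwarzian) on the circle-expanding ones. -/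
def OneSidedNonlinearity (f : M → M) : Prop :=
  ∃ τ : ℝ, 0 < τ ∧
    OneSidedOn f {y | ∃ t : ℝ, |t| < τ ∧ y ∈ CircleContracting E (rotated f t)} 1 ∧
    OneSidedOn f {y | ∃ t : ℝ, |t| < τ ∧ y ∈ CircleExpanding E (rotated f t)} (-1)

/-- Every periodic point `y` of `f`, of any period `n`, continues to a periodic point
`exp (p t) • y` of the rotation `rotated f t`, `|t| ≤ τ`, and its exponent `χ t` along the circle
(the derivative of the `n`-th iterate multiplies the velocity of the action by `exp (n χ t)`) is
never zero and satisfies `∫ dt / |1 - exp (χ t)| ≤ 2 π`; here `τ` does not depend on `y` and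
`n`. -/
def MeanHyperbolicity (f : M → M) : Prop :=
  ∃ τ : ℝ, 0 < τ ∧ ∀ (n : ℕ) (y : M), 0 < n → f^[n] y = y → ∃ p χ : ℝ → ℝ,
    p 0 = 0 ∧ ContinuousOn p (Icc (-τ) τ) ∧ ContinuousOn χ (Icc (-τ) τ) ∧
    (∀ t ∈ Icc (-τ) τ, χ t ≠ 0 ∧
      (rotated f t)^[n] (Circle.exp (p t) • y) = Circle.exp (p t) • y ∧
      mfderiv 𝓘(ℝ, E) 𝓘(ℝ, E) (rotated f t)^[n] (Circle.exp (p t) • y)
        (circleVector E (Circle.exp (p t) • y)) =
          Real.exp (n * χ t) • circleVector E (Circle.exp (p t) • y)) ∧
    ∫ t in (-τ)..τ, 1 / |1 - Real.exp (χ t)| ≤ 2 * Real.pi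

variable {E}

/-- The hypothesis on the base: the closure of the set of periodic points of `A` has a hyperbolic
structure, `A` is expansive on it, and `A` has the periodic shadowing property. Every
diffeomorphism with Axiom A and the no-cycle property has these properties. -/
structure HyperbolicBase {B : Type*} [MetricSpace B] [ChartedSpace E B] [IsManifold 𝓘(ℝ, E) ∞ B]
    {r : ℕ∞} (A : Diffeo E B r) : Prop where
  hyperbolic : HyperbolicStructure E A A.symm (closure (Function.periodicPts A))
  shadowing : PeriodicShadowing A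
  expansive : ExpansiveOnPeriodic A

end

end Pool.Agent.OmegaStability
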