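import Pool.Agent.Work.MP_814647_an.OS.Defs
import Pool.Agent.Work.MP_814647_an.Final
import Pool.Agent.Work.MP_814647_an.ProjP8c
import Pool.Agent.Work.MP_814647_an.Idx9
import Pool.Agent.Work.MP_814647_an.TH.Stmts

/-!
# Circle extensions with one-sided nonlinearity: the items

Every docstring is the complete proof. Write `D_j = deriv (L j)`, `p_k(s) = orb L s k (P s)`.
-/

set_option autoImplicit false

open Set Filter Topology Function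
open scoped Manifold ContDiff

noncomputable section

namespace Pool.Agent.OmegaStability.OS

open Dens

universe u v

/-! ### Part 1: the real line -/

/-- Item SG (EASY). For `κ > 0` put `w = √(κ/2) ≤ 1/2` and `S x = sin (w x) / w`,
`G x = cos (w x)` (positive on `(0, 2π)` since `0 < w x < π`); for `κ = 0`: `S x = x`, `G = 1`;
for `κ < 0` put `w = √(-κ/2)` and `S x = sinh (w x) / w`, `G x = cosh (w x)`. -/
def StSG : Prop := ∀ κ : ℝ, κ ≤ 1 / 2 → ∃ S G : ℝ → ℝ, IsSG κ S G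

/-- Item Osc (MEDIUM), the oscillation inequality. Write `C = G / S`, so `C' = - C ^ 2 - κ / 2 =
- 1 / S ^ 2` on `(0, 2π)`, `n = F'' / F'` (`nlAt F`), `Q = scAt κ F`, so
`n' = F''' / F' - n ^ 2` and `Q = n' - n ^ 2 / 2 + κ (F' ^ 2 - 1)`.
For `x ∈ (a, b]` put `u = F x - F a ∈ (0, 2π)` and
`R x = n x + 2 C (x - a) - 2 F' x * C u`. Computing,
`R' = n' - 2 C ^ 2 - κ - 2 F'' C(u) + 2 F' ^ 2 C(u) ^ 2 + κ F' ^ 2
    = Q + n ^ 2 / 2 - 2 C ^ 2 - 2 n F' C(u) + 2 F' ^ 2 C(u) ^ 2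
    = Q + R ^ 2 / 2 - 2 C R` (with `C = C (x - a)`; expand `(R - 2 C) ^ 2 / 2 =
n ^ 2 / 2 - 2 n F' C(u) + 2 F' ^ 2 C(u) ^ 2`).
Case `σ = 1`: `(S (x - a) ^ 2 * R)' = S (x - a) ^ 2 (R' + 2 C R) = S ^ 2 (Q + R ^ 2 / 2) ≥ 0`, and
`S (x - a) ^ 2 * R = S ^ 2 n + 2 S G - 2 F' G(u) S ^ 2 / S(u) → 0` for `x → a+` (as
`S (x - a) / S (u) → 1 / F' a`), so `S ^ 2 R ≥ 0` and `R b ≥ 0`.
Case `σ = -1`: `Z = - S(u) ^ 2 R / F'` has
`Z' = S(u) ^ 2 / F' * (- Q + R ^ 2 / 2) ≥ 0` (from `(S(u) ^ 2 / F')' =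
S(u) ^ 2 / F' * (2 F' C(u) - n)` and `R' = Q + R ^ 2 / 2 - 2 C R`, using `R = n + 2 C - 2 F' C(u)`:
`Z' = - (S(u) ^ 2 / F') ((2 F' C(u) - n) R + Q + R ^ 2 / 2 - 2 C R) =
- (S(u) ^ 2 / F') (Q - R ^ 2 / 2)`) and `Z → 0` for `x → a+`, so `Z b ≥ 0` and `R b ≤ 0`.
The second inequality is the first one for the map `x ↦ - F (-x)` on `[-b, -a]` (its first and
third derivatives at `-x` are those of `F` at `x`, its second one is `- F'' x`, so `scAt` is the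
same and `nlAt` changes its sign; `deriv`/`iteratedDeriv` of `x ↦ - F (-x)`: `iteratedDeriv_neg`,
`iteratedDeriv_comp_neg`). -/
def StOsc : Prop :=
  ∀ (κ : ℝ) (S G : ℝ → ℝ), IsSG κ S G → ∀ (σ : ℝ), (σ = 1 ∨ σ = -1) → ∀ (F : ℝ → ℝ) (a b : ℝ),
    ContDiff ℝ 3 F → (∀ x, 0 < deriv F x) → a < b → b - a < 2 * Real.pi →
    F b - F a < 2 * Real.pi → (∀ x ∈ Icc a b, 0 ≤ σ * scAt κ F x) →
    0 ≤ σ * (nlAt F b + 2 * (G (b - a) / S (b - a)) -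
      2 * deriv F b * (G (F b - F a) / S (F b - F a))) ∧
    σ * (nlAt F a - 2 * (G (b - a) / S (b - a)) +
      2 * deriv F a * (G (F b - F a) / S (F b - F a))) ≤ 0

/-- Item Hil (EASY from Osc), the Hilbert metric is not expanded. Add `StOsc` on `[l, x]` (first
inequality at `x`) and minus `StOsc` on `[x, r]` (second inequality at `x`): the terms `nlAt F x`
cancel; divide by `2`. -/
def StHil : Prop :=
  ∀ (κ : ℝ) (S G : ℝ → ℝ), IsSG κ S G → ∀ (σ : ℝ), (σ = 1 ∨ σ = -1) → ∀ (F : ℝ → ℝ) (l x r : ℝ),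
    ContDiff ℝ 3 F → (∀ x, 0 < deriv F x) → l < x → x < r → r - l < 2 * Real.pi →
    F r - F l < 2 * Real.pi → (∀ x ∈ Icc l r, 0 ≤ σ * scAt κ F x) →
    0 ≤ σ * (G (x - l) / S (x - l) + G (r - x) / S (r - x) -
      deriv F x * (G (F x - F l) / S (F x - F l) + G (F r - F x) / S (F r - F x)))

/-- Item Cot (EASY). Bounds for `C = G / S` on `(0, 2π)`; `C' = - 1 / S ^ 2` there (from `sq`).
(1) With `M ≥ |S|` on `[0, 2π]`, `M > 0`: `C x - C (x + t) ≥ t / M ^ 2` by the mean value theorem.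
(2) For `a, b ≥ δ`, `a + b ≤ 2π - δ`: `C a ≤ C δ` (monotone), so `C a + C b ≤ 2 C δ ≤ W`;
`C a + C b = S (a + b) / (S a S b) ≥ e / M ^ 2` where `e > 0` is the minimum of `S` on
`[2δ, 2π - δ]` (if this interval is empty there is nothing to show). -/
def StCot : Prop :=
  ∀ (κ : ℝ) (S G : ℝ → ℝ), IsSG κ S G → ∀ δ : ℝ, 0 < δ →
    ∃ c w W : ℝ, 0 < c ∧ 0 < w ∧ w ≤ W ∧
      (∀ x : ℝ, 0 < x → x + δ < 2 * Real.pi → G (x + δ) / S (x + δ) + c ≤ G x / S x) ∧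
      (∀ x y : ℝ, 0 < x → x < y → y < 2 * Real.pi → G y / S y < G x / S x) ∧
      ∀ a b : ℝ, δ ≤ a → δ ≤ b → a + b ≤ 2 * Real.pi - δ →
        w ≤ G a / S a + G b / S b ∧ G a / S a + G b / S b ≤ W

/-- Item Gau (EASY), gauges. `a k ≤ w k / (w (k + 1) + c) ≤ (w k / w (k + 1)) * (W / (W + c))`
(contracting) telescopes with constants `C = W / w₀`, `lam = W / (W + c)`; and
`a k ≥ w k / (w (k + 1) - c) ≥ (w k / w (k + 1)) * (W / (W - c))`, `w (k + 1) - c > 0` because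
`a k > 0`, `w k > 0` (expanding; there `c < W` since `c < w (k + 1) ≤ W`, and
`W / (W - c) ≤ w / (w - c)` for `0 < w ≤ W`), constants
`C = W / w₀`, `lam = (W - c) / W` if `c < W`, any `lam` otherwise (no such sequences). -/
def StGau : Prop :=
  ∀ c w₀ W : ℝ, 0 < c → 0 < w₀ → w₀ ≤ W → ∃ C lam : ℝ, 0 < C ∧ 0 < lam ∧ lam < 1 ∧
    ∀ a w : ℕ → ℝ, (∀ k, 0 < a k) → (∀ k, w₀ ≤ w k) → (∀ k, w k ≤ W) →
      ((∀ k, a k * (w (k + 1) + c) ≤ w k) → ∀ n, ∏ i ∈ Finset.range n, a i ≤ C * lam ^ n) ∧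
      ((∀ k, w k ≤ a k * (w (k + 1) - c)) → ∀ n, 1 ≤ C * lam ^ n * ∏ i ∈ Finset.range n, a i)

/-- Item Cvx (EASY), the case of one-sided nonlinearity, contracting. Case `up`: the derivative
`F_k'` is nondecreasing on `[p k, r k]` (its derivative is `F_k'' = nlAt * F_k' ≥ 0`), so
`F_k (r k) - F_k (p k) ≥ F_k' (p k) (r k - p k)`; with `w k = r k - p k ∈ [δ, 2π]`:
`w (k + 1) ≥ F_k' (p k) w k + δ`. So `a k = F_k' (p k) ≤ (w (k + 1) - δ) / w k ≤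
(w (k + 1) / w k) (1 - δ / 2π)`, which telescopes: `C = 2π / δ`, `lam = 1 - δ / (2π)` (`δ < 2π`
follows from `w (k + 1) ≥ δ + a k w k > δ`, `w ≤ 2π`; if `δ ≥ 2π` there are no such
sequences, take any `lam`). Case `down`: the same with `w k = p k - l k`, since `F_k'` is
nonincreasing on `[l k, p k]` and so `F_k (p k) - F_k (l k) ≥ F_k' (p k) (p k - l k)`. -/
def StCvx : Prop :=
  ∀ δ : ℝ, 0 < δ → ∃ C lam : ℝ, 0 < C ∧ 0 < lam ∧ lam < 1 ∧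
    ∀ (F : ℕ → ℝ → ℝ) (l p r : ℕ → ℝ), (∀ k, ContDiff ℝ 3 (F k)) → (∀ k x, 0 < deriv (F k) x) →
      (∀ k, F k (p k) = p (k + 1)) → (∀ k, l k + δ ≤ p k) → (∀ k, p k + δ ≤ r k) →
      (∀ k, r k ≤ l k + 2 * Real.pi) → (∀ k, l (k + 1) + δ ≤ F k (l k)) →
      (∀ k, F k (r k) + δ ≤ r (k + 1)) →
      ((∀ k, ∀ x ∈ Icc (l k) (r k), 0 ≤ nlAt (F k) x) ∨
        ∀ k, ∀ x ∈ Icc (l k) (r k), nlAt (F k) x ≤ 0) →
      ∀ n, ∏ i ∈ Finset.range n, deriv (F i) (p i) ≤ C * lam ^ n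

/-- Item CvxE (EASY), the case of one-sided nonlinearity, expanding. Case `nlAt ≤ 0`: `F_k'` is
nonincreasing, so `F_k (r k) - F_k (p k) ≤ F_k' (p k) (r k - p k)`; with
`w k = r k - p k ∈ [δ, 2π]`: `F_k' (p k) w k ≥ w (k + 1) + δ`, so
`a k ≥ (w (k + 1) / w k) (1 + δ / 2π)`; telescope. Case `nlAt ≥ 0`: the same with
`w k = p k - l k`. -/
def StCvxE : Prop :=
  ∀ δ : ℝ, 0 < δ → ∃ C lam : ℝ, 0 < C ∧ 0 < lam ∧ lam < 1 ∧
    ∀ (F : ℕ → ℝ → ℝ) (l p r : ℕ → ℝ), (∀ k, ContDiff ℝ 3 (F k)) → (∀ k x, 0 < deriv (F k) x) →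
      (∀ k, F k (p k) = p (k + 1)) → (∀ k, l k + δ ≤ p k) → (∀ k, p k + δ ≤ r k) →
      (∀ k, r k ≤ l k + 2 * Real.pi) → (∀ k, F k (l k) + δ ≤ l (k + 1)) →
      (∀ k, r (k + 1) + δ ≤ F k (r k)) →
      ((∀ k, ∀ x ∈ Icc (l k) (r k), 0 ≤ nlAt (F k) x) ∨
        ∀ k, ∀ x ∈ Icc (l k) (r k), nlAt (F k) x ≤ 0) →
      ∀ n, 1 ≤ C * lam ^ n * ∏ i ∈ Finset.range n, deriv (F i) (p i)

/-- Item ScC (MEDIUM), the Schwarzian case, contracting. Take `S, G` (SG), `C = G / S`, the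
constants `c, w₀, W` of Cot for `δ` (write `c, w, W`), and
`w k = C (p k - l k) + C (r k - p k) ∈ [w₀, W]` (Cot (2), `r k - l k ≤ 2π - δ`). Hil with
`σ = 1`, `F = F k`, at `x = p k` gives (here `F r - F l ≤ r (k + 1) - l (k + 1) - 2 δ < 2π`)
`F_k' (p k) (C (p (k+1) - F_k (l k)) + C (F_k (r k) - p (k+1))) ≤ w k`. By Cot (1) and
monotonicity, since `p (k+1) - l (k+1) ≥ p (k+1) - F_k (l k) + δ`:
`C (p (k+1) - F_k (l k)) ≥ C (p (k+1) - F_k (l k) + δ) + c ≥ C (p (k+1) - l (k+1)) + c`, the same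
on the right. So `F_k' (p k) (w (k + 1) + 2 c) ≤ w k`; conclude by Gau. -/
def StScC : Prop :=
  ∀ κ : ℝ, κ ≤ 1 / 2 → ∀ δ : ℝ, 0 < δ → ∃ C lam : ℝ, 0 < C ∧ 0 < lam ∧ lam < 1 ∧
    ∀ (F : ℕ → ℝ → ℝ) (l p r : ℕ → ℝ), (∀ k, ContDiff ℝ 3 (F k)) → (∀ k x, 0 < deriv (F k) x) →
      (∀ k, F k (p k) = p (k + 1)) → (∀ k, l k + δ ≤ p k) → (∀ k, p k + δ ≤ r k) →
      (∀ k, r k - l k ≤ 2 * Real.pi - δ) → (∀ k, l (k + 1) + δ ≤ F k (l k)) →
      (∀ k, F k (r k) + δ ≤ r (k + 1)) →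
      (∀ k, ∀ x ∈ Icc (l k) (r k), 0 ≤ scAt κ (F k) x) →
      ∀ n, ∏ i ∈ Finset.range n, deriv (F i) (p i) ≤ C * lam ^ n

/-- Item ScE (MEDIUM), the Schwarzian case, expanding. As ScC with `σ = -1`: Hil gives
`F_k' (p k) (C (p (k+1) - F_k (l k)) + C (F_k (r k) - p (k+1))) ≥ w k`, and since
`p (k+1) - F_k (l k) ≥ p (k+1) - l (k+1) + δ` and `< 2π`, Cot (1) gives
`C (p (k+1) - F_k (l k)) ≤ C (p (k+1) - l (k+1) + δ) ≤ C (p (k+1) - l (k+1)) - c`, the same on the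
right. So `w k ≤ F_k' (p k) (w (k + 1) - 2 c)`; conclude by Gau. -/
def StScE : Prop :=
  ∀ κ : ℝ, κ ≤ 1 / 2 → ∀ δ : ℝ, 0 < δ → ∃ C lam : ℝ, 0 < C ∧ 0 < lam ∧ lam < 1 ∧
    ∀ (F : ℕ → ℝ → ℝ) (l p r : ℕ → ℝ), (∀ k, ContDiff ℝ 3 (F k)) → (∀ k x, 0 < deriv (F k) x) →
      (∀ k, F k (p k) = p (k + 1)) → (∀ k, l k + δ ≤ p k) → (∀ k, p k + δ ≤ r k) →
      (∀ k, r k - l k ≤ 2 * Real.pi - δ) → (∀ k, F k (l k) + δ ≤ l (k + 1)) →
      (∀ k, r (k + 1) + δ ≤ F k (r k)) → (∀ k, F k (r k) - F k (l k) < 2 * Real.pi) →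
      (∀ k, ∀ x ∈ Icc (l k) (r k), 0 ≤ -1 * scAt κ (F k) x) →
      ∀ n, 1 ≤ C * lam ^ n * ∏ i ∈ Finset.range n, deriv (F i) (p i)

/-- Item SwC (MEDIUM), the motion of an attracting periodic point. Put
`G t θ = orb L t N θ`; it is a `MonoFam` (as in `Chain.retMap`, file B07) and `NoTangency G τ`, so
`φ t θ = G t θ - θ` is a `DispFam` (`MonoFam.dispFam`). `φ 0 0 = 0` (`Ext.zero`) and the
derivative of `φ 0` at `0` is `∏ - 1 < 0`, so `φ 0` is positive on the left and negative on the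
right of `0`. `DispFam.trap` (with `s₁`, any `k`) gives `W, W' > 0` and for `|s| ≤ s₁` a unique
zero `P s` of `φ s` in `(-W', W)`, with `φ s > 0` on `[-W', P s)` and `φ s < 0` on `(P s, W]`.
`P 0 = 0` (uniqueness; `0 ∈ (-W', W)`). Increase: for `s ≤ s'` and `θ ∈ [P s, P s + s' - s)`,
`G s' θ ≥ G s' (P s) ≥ P s + s' - s > θ`, and `φ s' > 0` on `[-W', P s)`; as `P s'` is a zero with
`φ s' < 0` on its right up to `W` (if `P s' < P s + (s' - s)` then `P s'` would be a zero where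
`φ s' > 0`), `P s' ≥ P s + s' - s`. Induction on `k` (`L k` monotone):
`p_k(s') ≥ p_k(s) + (s' - s)` for all `k` (for `k + 1`: `L k (p_k(s')) + s' ≥ L k (p_k(s)) + s'`).
Continuity: `P` is monotone, and a limit of `P s_n`, `s_n → s`, lies in `[-W', W]`, is a zero of
`φ s`, hence is `P s` (the signs at `± W` exclude the end points). Circle: `φ s (P s + 2π) = 0`, so
`W < P s + 2π` (`φ s < 0` on `(P s, W]`), and `P s' < W`; apply `orb L s' k`: from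
`P s' < P s + 2π` only for `k = 0`; for general `k` use the case `s' ≤ s` (then
`p_k(s') ≤ p_k(s)`), and for `s < s'` induct downwards: if `p_k(s') ≥ p_k(s) + 2π` for some `k`
then `p_(k+1)(s') = L k (p_k(s')) + s' ≥ L k (p_k(s)) + 2π + s' ≥ p_(k+1)(s) + 2π`, so it holds at
the next multiple of `N`, where `p = P` (`orb` is `N`-periodic at the fixed point: `orb_loops`), a
contradiction. Multiplier: `G s` has derivative `∏` at `P s`; it is `≤ 1` by the signs of `φ s` and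
`≠ 1` by `noN`. -/
def StSwC : Prop :=
  ∀ (L : ℕ → ℝ → ℝ) (N : ℕ) (τ Λ s₁ : ℝ), Ext L N τ Λ → 0 < s₁ → s₁ < τ →
    ∏ i ∈ Finset.range N, deriv (L i) 0 < 1 →
    ∃ P : ℝ → ℝ, Swp L N s₁ P ∧
      (∀ s, |s| ≤ s₁ → ∏ i ∈ Finset.range N, deriv (L i) (orb L s i (P s)) < 1) ∧
      ∀ s s' : ℝ, |s| ≤ s₁ → |s'| ≤ s₁ → s ≤ s' → ∀ k : ℕ,
        orb L s k (P s) + (s' - s) ≤ orb L s' k (P s')

/-- Item SwE (MEDIUM), the motion of a repelling periodic point. As SwC, with the reflected family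
`φ t (-θ)` (`DispFam.refl`), for which `0` is attracting; `P s = - (its zero)`. So `φ s < 0` on
`[-W, P s)` and `φ s > 0` on `(P s, W']`, `P` is nonincreasing (if `s ≤ s'` then `φ s' ≥ φ s > 0` on
`(P s, W']`, so `P s' ≤ P s`), continuous, and `P s > P s' - 2π` as before. For all `k`:
`p_k(s') ≤ p_k(s)` by downward induction from multiples of `N`: if `p_(k+1)(s') ≤ p_(k+1)(s)` then
`L k (p_k(s')) + s' ≤ L k (p_k(s)) + s`, so `L k (p_k(s)) - L k (p_k(s')) ≥ s' - s ≥ 0`, whence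
`p_k(s) ≥ p_k(s')` and, by the mean value theorem and `D ≤ Λ`,
`Λ (p_k(s) - p_k(s')) ≥ s' - s`. Circle: if `p_k(s') ≥ p_k(s) + 2π` with `s' ≤ s` then
`p_(k+1)(s') ≥ L k (p_k(s)) + 2π + s'`; use instead the upward direction: if
`p_(k+1)(s') ≥ p_(k+1)(s) + 2π` with `s' ≤ s`, then `L k (p_k(s')) ≥ L k (p_k(s) + 2π) + s - s'`, so
`p_k(s') ≥ p_k(s) + 2π`: descend to `k = 0`, a contradiction with the case `k = 0`; for `s < s'`
it is clear from `p_k(s') ≤ p_k(s)`. -/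
def StSwE : Prop :=
  ∀ (L : ℕ → ℝ → ℝ) (N : ℕ) (τ Λ s₁ : ℝ), Ext L N τ Λ → 0 < s₁ → s₁ < τ →
    1 < ∏ i ∈ Finset.range N, deriv (L i) 0 →
    ∃ P : ℝ → ℝ, Swp L N s₁ P ∧
      (∀ s, |s| ≤ s₁ → 1 < ∏ i ∈ Finset.range N, deriv (L i) (orb L s i (P s))) ∧
      ∀ s s' : ℝ, |s| ≤ s₁ → |s'| ≤ s₁ → s ≤ s' → ∀ k : ℕ,
        orb L s' k (P s') ≤ orb L s k (P s) ∧
          s' - s ≤ Λ * (orb L s k (P s) - orb L s' k (P s'))

/-- Item KC (MEDIUM), uniform contraction along contracting periodic orbits. Put `s₁ = τ / 2`,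
`s₂ = 3 τ / 4`, `δ = τ / 4`, and let `P` be as in SwC for `s₂`. Put `l k = p_k(-s₁)`,
`p k = p_k(0) = 0`, `r k = p_k(s₁)`. Then `L k (p k) = p (k + 1)`, `l k + s₁ ≤ p k`,
`p k + s₁ ≤ r k`; `r k - l k ≤ 2π - δ` because `l k ≥ p_k(-s₂) + (s₂ - s₁)` and
`r k < p_k(-s₂) + 2π`; `L k (l k) = l (k + 1) + s₁`, `L k (r k) + s₁ = r (k + 1)`. Every
`x ∈ [l k, r k]` is `p_k(s)` for some `|s| ≤ s₁` (intermediate value theorem, `s ↦ orb L s k (P s)`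
is continuous on `[-s₁, s₁]`: `orb_cont`), and the multiplier at `P s` is `< 1`; so the hypothesis
gives the one-sided condition at all `x ∈ [l k, r k]`. Conclude by Cvx (kinds `up`, `down`) or ScC
(kind `sch κ`) with `δ`. (`0 < Λ` is not needed.) -/
def StKC : Prop :=
  ∀ (K : Kd) (τ Λ : ℝ), K.ok → 0 < τ → ∃ C lam : ℝ, 0 < C ∧ 0 < lam ∧ lam < 1 ∧
    ∀ (L : ℕ → ℝ → ℝ) (N : ℕ), Ext L N τ Λ → (∀ j, ContDiff ℝ 3 (L j)) →
      ∏ i ∈ Finset.range N, deriv (L i) 0 < 1 →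
      (∀ s, |s| < τ → ∀ θ, orb L s N θ = θ →
        ∏ i ∈ Finset.range N, deriv (L i) (orb L s i θ) < 1 →
          ∀ i, K.at 1 (L i) (orb L s i θ)) →
      ∀ n, ∏ i ∈ Finset.range n, deriv (L i) 0 ≤ C * lam ^ n

/-- Item KE (MEDIUM), uniform expansion along expanding periodic orbits. As KC, with SwE:
`l k = p_k(s₁)`, `r k = p_k(-s₁)`, `L k (l k) + s₁ = l (k + 1)`, `L k (r k) = r (k + 1) + s₁`,
`p k - l k ≥ s₁ / Λ`, `r k - p k ≥ s₁ / Λ`; `r k - l k ≤ 2π - (s₂ - s₁) / Λ` because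
`l k ≥ p_k(s₂) + (s₂ - s₁) / Λ` and `r k < p_k(s₂) + 2π`; `L k (r k) - L k (l k) < 2π` because
`r k < l k + 2π` and `Ext.deg`. Take `δ = min (τ / 4) (τ / (4 Λ))` and conclude by CvxE or ScE. -/
def StKE : Prop :=
  ∀ (K : Kd) (τ Λ : ℝ), K.ok → 0 < τ → 0 < Λ → ∃ C lam : ℝ, 0 < C ∧ 0 < lam ∧ lam < 1 ∧
    ∀ (L : ℕ → ℝ → ℝ) (N : ℕ), Ext L N τ Λ → (∀ j, ContDiff ℝ 3 (L j)) →
      1 < ∏ i ∈ Finset.range N, deriv (L i) 0 →
      (∀ s, |s| < τ → ∀ θ, orb L s N θ = θ →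
        1 < ∏ i ∈ Finset.range N, deriv (L i) (orb L s i θ) →
          ∀ i, K.at (-1) (L i) (orb L s i θ)) →
      ∀ n, 1 ≤ C * lam ^ n * ∏ i ∈ Finset.range n, deriv (L i) 0

/-- Item Dif (MEDIUM), the speed. The function `(s, θ) ↦ orb L s k θ` is of class `C^1` (induction
on `k`), its partial derivative in `θ` is `∏ i < k, D_i (orb L s i θ)` and its partial derivative
`a_k` in `s` satisfies `a_0 = 0`, `a_(k+1) = D_k a_k + 1`. Let `Φ (s, θ) = orb L s N θ - θ`; then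
`Φ (s, P s) = 0` near `s` and `∂Φ/∂θ = ∏ - 1 ≠ 0` at `(s, P s)` (`noN`). As `P` is continuous at
`s`, it is differentiable there: from `0 = Φ (s + h, P (s + h)) - Φ (s, P s) = Φ_s h + Φ_θ Δ +
o(|h| + |Δ|)` one gets `Δ = - (Φ_s / Φ_θ) h + o(h)`. Then `v k` = derivative of
`s ↦ orb L s k (P s)` (chain rule), and `v (k + 1) = D_k v k + 1` from
`orb L s (k + 1) (P s) = L k (orb L s k (P s)) + s`; `v N = v 0` from `Swp.fixed` (which holds in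
a neighbourhood of `s`). -/
def StDif : Prop :=
  ∀ (L : ℕ → ℝ → ℝ) (N : ℕ) (τ Λ s₁ : ℝ) (P : ℝ → ℝ), Ext L N τ Λ → 0 < s₁ → s₁ < τ →
    Swp L N s₁ P → ∀ s, |s| < s₁ → ∃ v : ℕ → ℝ,
      (∀ k, HasDerivAt (fun s' => orb L s' k (P s')) (v k) s) ∧
      (∀ k, v (k + 1) = deriv (L k) (orb L s k (P s)) * v k + 1) ∧ v N = v 0

/-- Item Spd (EASY), bounded speeds. Let `v (k + 1) = a k * v k + 1`, all sequences `N`-periodic.
Contracting: all products over blocks are `≤ C lam ^ n`. Unrolling from `k = 0` over `n = m N`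
steps and using `v (m N) = v 0`: `v 0 = (∏ i < n, a i) v 0 + Σ_(j=1)^(n) ∏_(i=j)^(n-1) a i`, so
`|v 0| ≤ C lam ^ n |v 0| + C / (1 - lam)`; let `m → ∞`. Expanding: `v 0 = (v (mN) - Σ...) / ∏`,
i.e. `v 0 = v 0 / ∏_(i<n) a i - Σ_(j=1)^(n) 1 / ∏_(i<j) a i`, and `1 / ∏_(i<j) a i ≤ C lam ^ j`;
again `|v 0| ≤ C / (1 - lam)`. -/
def StSpd : Prop :=
  ∀ (C lam : ℝ), 0 < C → 0 < lam → lam < 1 → ∀ (N : ℕ) (a v : ℕ → ℝ), 0 < N →
    (∀ k, 0 < a k) → (∀ k, a (k + N) = a k) → (∀ k, v (k + N) = v k) →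
    (∀ k, v (k + 1) = a k * v k + 1) →
    ((∀ j n, ∏ i ∈ Finset.range n, a (j + i) ≤ C * lam ^ n) ∨
      (∀ j n, 1 ≤ C * lam ^ n * ∏ i ∈ Finset.range n, a (j + i))) →
    |v 0| ≤ C / (1 - lam)

/-- Item Jen (EASY), speeds and exponents. Let `c = exp (log (∏ a) / N)`, the geometric mean of the
`a k`. Contracting (`v k ≥ 1` for `k ≤ N`): `a k * v k = v (k + 1) - 1`, so `v (k + 1) > 1`, also
`v 0 = v N > 1`, and `∏ a k = ∏ (v (k + 1) - 1) / v k = ∏ (1 - 1 / v k)` over `k < N` (shift the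
index, `v N = v 0`). Geometric mean `≤` arithmetic mean `≤ ` (harmonic mean `≤` arithmetic mean):
`c ≤ (1/N) Σ (1 - 1 / v k) ≤ 1 - 1 / V` with `V = (1/N) Σ v k > 1`. So `c < 1` and
`1 / (1 - c) ≤ V`. Expanding (`v k < 0` for `k ≤ N`, put `w k = 1 - v k > 1`):
`a k = (v (k + 1) - 1) / v k = w (k + 1) / (w k - 1)`, so `1 / ∏ a k = ∏ (1 - 1 / w k)` and as before
`1 / c ≤ 1 - 1 / W`, `W = (1/N) Σ w k = 1 + R`, `R = (1/N) Σ - v k > 0`. So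
`c ≥ (1 + R) / R = 1 + 1 / R` and `1 / (c - 1) ≤ R`.
(Mathlib: `Real.inner_le_nnorm_mul_nnorm`-type lemmas are not needed; `Real.geom_mean_le_arith_mean`
or `Real.add_one_le_exp`: with `m = 1 - 1/V` one has `log x ≤ log m + x / m - 1`, and
`inner_mul_le_norm_mul_norm`/`Finset.sum_div_..`/`div_add_div_same`, or the tangent inequality
`1 / v ≥ 2 / V - v / V ^ 2` for the harmonic mean.) -/
def StJen : Prop :=
  ∀ (N : ℕ) (a v : ℕ → ℝ), 0 < N → (∀ k, 0 < a k) → v N = v 0 →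
    (∀ k, v (k + 1) = a k * v k + 1) →
    ((∀ k ≤ N, 1 ≤ v k) → ∏ i ∈ Finset.range N, a i < 1 ∧
      1 / |1 - Real.exp (Real.log (∏ i ∈ Finset.range N, a i) / N)| ≤
        (∑ k ∈ Finset.range N, v k) / N) ∧
    ((∀ k ≤ N, v k < 0) → 1 < ∏ i ∈ Finset.range N, a i ∧
      1 / |1 - Real.exp (Real.log (∏ i ∈ Finset.range N, a i) / N)| ≤
        (∑ k ∈ Finset.range N, -v k) / N)

/-- Item Int (MEDIUM), the integral of `1 / |1 - exp χ|`. Let `χ s` be `1 / N` times the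
logarithm of the product `∏ i < N, D_i (p_i(s))`; it is continuous on `[-s₁, s₁]` and nonzero
(`noN`). Contracting case (the product at `0` is `< 1`): with `P` from SwC for `s₁`, the speeds
`v k` (Dif) are `≥ 1` because `p_k(s') - p_k(s) ≥ s' - s`; Jen gives
`1 / |1 - exp (χ s)| ≤ mean of v k` for `|s| < s₁`, and each `p_k` has derivative `v k` on
`(-s₁, s₁)` and is continuous on the closed interval; so
`∫ 1 / |1 - exp χ| ≤ (1/N) Σ_k (p_k(s₁) - p_k(-s₁)) ≤ 2π` (`Swp.circ`). Precisely: the function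
`H s = (1/N) Σ_k p_k(s) - ∫_(-s₁)^s 1 / |1 - exp χ|` is continuous on `[-s₁, s₁]` with a
nonnegative derivative inside (the integrand is continuous), hence `H (s₁) ≥ H (-s₁)`.
Expanding case (SwE): `v k ≤ - 1 / Λ < 0` (from `s' - s ≤ Λ (p_k(s) - p_k(s'))`, `Λ > 0`), and
`1 / |1 - exp χ| ≤ mean of (- v k)`; in the same way `∫ ≤ (1/N) Σ_k (p_k(-s₁) - p_k(s₁)) ≤ 2π`. -/
def StInt : Prop :=
  ∀ (L : ℕ → ℝ → ℝ) (N : ℕ) (τ Λ s₁ : ℝ), Ext L N τ Λ → 0 < s₁ → s₁ < τ → 0 < Λ →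
    ∃ P : ℝ → ℝ, Swp L N s₁ P ∧
      ContinuousOn (fun s => Real.log (∏ i ∈ Finset.range N, deriv (L i) (orb L s i (P s))) / N)
        (Icc (-s₁) s₁) ∧
      (∀ s ∈ Icc (-s₁) s₁,
        Real.log (∏ i ∈ Finset.range N, deriv (L i) (orb L s i (P s))) / N ≠ 0) ∧
      ∫ s in (-s₁)..s₁,
        1 / |1 - Real.exp
          (Real.log (∏ i ∈ Finset.range N, deriv (L i) (orb L s i (P s))) / N)| ≤ 2 * Real.pi

end Pool.Agent.OmegaStability.OS
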