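import Pool.Agent.Work.MP_814647_an.OS.Stmts

/-!
# Circle extensions with one-sided nonlinearity: the items on the manifold

Every docstring is the complete proof.
-/

set_option autoImplicit false

open Set Filter Topology Function
open scoped Manifold ContDiff

noncomputable section

namespace Pool.Agent.OmegaStability.OS

open Dens

universe u v

/-- Item Uq (EASY), uniqueness of lifts: `exp (L θ) • f y = exp (L' θ) • f y` gives
`exp (L θ - L' θ) = 1` (free action), so the continuous function `L - L'` has values in `2π ℤ` and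
vanishes at `0`. -/
def StUq : Prop :=
  ∀ (M : Type u) [MulAction Circle M], (∀ (z : Circle) (y : M), z • y = y → z = 1) →
    ∀ (f : M → M) (y : M) (L L' : ℝ → ℝ), IsCircleLift f y L → IsCircleLift f y L' → L = L'

/-- Item Br (MEDIUM, an adaptation of `Dens.exists_tau`, file `Idx9`). Take `ℒ` from `exists_nlift`.
`exists_fibreDeriv` gives a continuous `Dm` with `HasDerivAt (ℒ y) (Dm (exp θ • y)) θ`, so
`deriv (ℒ y) θ = Dm (exp θ • y)` and `ℒ y` is of class `C^1`. `Dm ≥ 0` by monotonicity and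
`Dm y ≠ 0`: the derivative of `f` at `y` is injective and multiplies `vgen m y ≠ 0` by `Dm y`
(`mfderiv_lift`, `gen_ne_zero`). `Λ` = a positive upper bound of `Dm` (compactness).
`τ` as in `exists_tau`: `f.trans (h t) ∈ N` for `|t| < τ`.
`ext`: let `|s| < τ`, `g = rotated f s`, `g^[n] y = y`. `ℒ` is also an `NLift` of `g` (`g (exp θ • y)
= exp s • exp (ℒ y θ) • f y = exp (ℒ y θ) • g y`). `pos`, `per` (`g^[j + n] y = g^[j] y`), `smooth`,
`dpos`, `dle`, `deg`, `zero` are clear. `noT`, `noN`: by `Chain.iterate (chain_periodic ..)` and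
`rotated g t = rotated f (s + t)`, for `|t| < τ - |s|`:
`(f.trans (h (s + t)))^[n] (exp η • y) = exp (orb L t n η) • y`, and all periodic points of
`f.trans (h (s + t))` are hyperbolic (`hypAt_of_conjClass`), so `crossing` and `crossing_aux`
apply exactly as in `exists_tau`; the derivative of `orb L t n` at `θ` is
`∏ i < n, deriv (L i) (orb L t i θ)` (chain rule, as in `orb_hasDerivAt`).
Last claim: an `IsCircleLift` of class `C^3` is `ℒ y` (Uq). -/
def StBr : Prop :=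
  ∀ (m : ℕ) (M : Type u) [MetricSpace M] [CompactSpace M]
    [ChartedSpace (EuclideanSpace ℝ (Fin m)) M] [IsManifold (𝓡 m) ∞ M] [MulAction Circle M],
    SmoothCircleAction (EuclideanSpace ℝ (Fin m)) M →
    (∀ (z : Circle) (y : M), z • y = y → z = 1) → ∀ (r : ℕ∞), 1 ≤ r →
    ∀ f : Diffeo (EuclideanSpace ℝ (Fin m)) M r, PreservesOrientedCircles f → OmegaStable f →
    ∃ (ℒ : M → ℝ → ℝ) (Dm : M → ℝ) (τ Λ : ℝ), FibData f ℒ Dm τ Λ ∧
      (C3AlongCircles f → ∀ y, ContDiff ℝ 3 (ℒ y))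

/-- Item Der (EASY): `mfderiv_lift` (file B07) for `ℒ y` at `0`, whose derivative is
`Dm (exp 0 • y) = Dm y`, and `ℒ y 0 = 0`. -/
def StDer : Prop :=
  ∀ (m : ℕ) (M : Type u) [MetricSpace M] [CompactSpace M]
    [ChartedSpace (EuclideanSpace ℝ (Fin m)) M] [IsManifold (𝓡 m) ∞ M] [MulAction Circle M],
    SmoothCircleAction (EuclideanSpace ℝ (Fin m)) M → ∀ (r : ℕ∞), 1 ≤ r →
    ∀ (f : Diffeo (EuclideanSpace ℝ (Fin m)) M r) (ℒ : M → ℝ → ℝ) (Dm : M → ℝ) (τ Λ : ℝ),
    FibData f ℒ Dm τ Λ → ∀ y : M,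
      (mfderiv (𝓡 m) (𝓡 m) f y (vgen m y) : EuclideanSpace ℝ (Fin m)) = Dm y • vgen m (f y)

/-- Item Cls (EASY-MEDIUM). Let `g = rotated f s = f.trans (h s)` (`exists_rot`). By
`Dens.multiplier` for `g` (with the same `ℒ`, which is an `NLift` of `g`, and the same `Dm`: if
`g (exp θ • e) = exp (L θ) • e'` then `f (exp θ • e) = exp (L θ - s) • e'`, whose derivative is
`Dm (exp θ • e)`; `HasDerivAt (ℒ y)` comes from `FibData.der` and `FibData.smooth`, and any lift
differs from a translate of `ℒ` by a constant — or use the `Dm` of `exists_fibreDeriv`, which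
equals `Dm` by uniqueness of derivatives) the derivative of `g^[n]` at a point `y` with
`g^[n] y = y` multiplies `circleVector y` (`= vgen m y`, nonzero: `gen_ne_zero`) by
`∏ i < n, Dm (g^[i] y)` (`loopD` at `0`, where `orb .. 0 i 0 = 0`). This product is positive.
The four claims follow as in `index_main`. -/
def StCls : Prop :=
  ∀ (m : ℕ) (M : Type u) [MetricSpace M] [CompactSpace M]
    [ChartedSpace (EuclideanSpace ℝ (Fin m)) M] [IsManifold (𝓡 m) ∞ M] [MulAction Circle M],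
    SmoothCircleAction (EuclideanSpace ℝ (Fin m)) M →
    (∀ (z : Circle) (y : M), z • y = y → z = 1) → ∀ (r : ℕ∞), 1 ≤ r →
    ∀ (f : Diffeo (EuclideanSpace ℝ (Fin m)) M r) (ℒ : M → ℝ → ℝ) (Dm : M → ℝ) (τ Λ : ℝ),
    FibData f ℒ Dm τ Λ → ∀ (s : ℝ) (y : M),
      (y ∈ CircleContracting (EuclideanSpace ℝ (Fin m)) (rotated f s) ↔
        ∃ n, 0 < n ∧ (rotated f s)^[n] y = y ∧
          ∏ i ∈ Finset.range n, Dm ((rotated f s)^[i] y) < 1) ∧
      (y ∈ CircleExpanding (EuclideanSpace ℝ (Fin m)) (rotated f s) ↔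
        ∃ n, 0 < n ∧ (rotated f s)^[n] y = y ∧
          1 < ∏ i ∈ Finset.range n, Dm ((rotated f s)^[i] y))

/-- Item One (EASY). `η ↦ ℒ y (θ + η) - ℒ y θ` is the lift of `f` on the circle of `exp θ • y`:
`f (exp η • exp θ • y) = exp (ℒ y (θ + η)) • f y = exp (ℒ y (θ + η) - ℒ y θ) • f (exp θ • y)`. Its
derivatives at `0` are those of `ℒ y` at `θ` (`iteratedDeriv_comp_const_add`, the constant
disappears), so its `nonlinearity` is `nlAt (ℒ y) θ` and its `schwarzian κ` is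
`scAt κ (ℒ y) θ`. Take `K = up`, `down` or `sch κ` in the three cases of `OneSidedOn`. -/
def StOne : Prop :=
  ∀ (M : Type u) [MulAction Circle M] (f : M → M) (ℒ : M → ℝ → ℝ), NLift f ℒ →
    (∀ y, ContDiff ℝ 3 (ℒ y)) → ∀ (P : Set M) (σ : ℝ), OneSidedOn f P σ →
    ∃ K : Kd, K.ok ∧ ∀ (y : M) (θ : ℝ), Circle.exp θ • y ∈ P → K.at σ (ℒ y) θ

/-- Uniform estimates for the small rotations. -/
def Unif (m : ℕ) {M : Type u} [MetricSpace M] [ChartedSpace (EuclideanSpace ℝ (Fin m)) M]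
    [MulAction Circle M] (f : M → M) (Dm : M → ℝ) (C lam τ₁ : ℝ) : Prop :=
  0 < C ∧ 0 < lam ∧ lam < 1 ∧ 0 < τ₁ ∧ ∀ s : ℝ, |s| < τ₁ → ∀ y : M,
    (y ∈ CircleContracting (EuclideanSpace ℝ (Fin m)) (rotated f s) →
      ∀ n, ∏ i ∈ Finset.range n, Dm ((rotated f s)^[i] y) ≤ C * lam ^ n) ∧
    (y ∈ CircleExpanding (EuclideanSpace ℝ (Fin m)) (rotated f s) →
      ∀ n, 1 ≤ C * lam ^ n * ∏ i ∈ Finset.range n, Dm ((rotated f s)^[i] y))

/-- Item Uni (MEDIUM). Let `τ'` be the number in `OneSidedNonlinearity`, `τ₁ = min τ τ' / 2`, and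
`K`, `K'` the kinds given by One for the two sets; constants of KC (`K`, `τ₁`, `Λ`) and KE (`K'`,
`τ₁`, `Λ`), `C` the larger of the two, `lam` the larger of the two. Let `|s| < τ₁`, `g = rotated f s`,
`y ∈ CircleContracting g`; by Cls there is `n > 0` with `g^[n] y = y` and product `< 1`. Put
`L j = ℒ (g^[j] y)`; `Ext L n (τ - |s|) Λ`, hence `Ext L n τ₁ Λ` (smaller parameter).
`deriv (L i) 0 = Dm (g^[i] y)`. Let `|t| < τ₁`, `orb L t n θ = θ`, product at `θ` `< 1`. The points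
`z i = exp (orb L t i θ) • g^[i] y` are the orbit of `z 0` under `rotated g t = rotated f (s + t)`
(`Chain.iterate` for `i ≤ n`, then periodicity, or direct induction), `z n = z 0`, and
`Dm (z i) = deriv (L i) (orb L t i θ)`; so by Cls `z 0` is circle-contracting for
`rotated f (s + t)`, `|s + t| < τ'`, and so is every `z i` (the product over a period starting at
`i` is the same). By One, `K.at 1 (ℒ (g^[i] y)) (orb L t i θ)`. So KC applies. Expanding: the same
with KE. -/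
def StUni : Prop :=
  ∀ (m : ℕ) (M : Type u) [MetricSpace M] [CompactSpace M]
    [ChartedSpace (EuclideanSpace ℝ (Fin m)) M] [IsManifold (𝓡 m) ∞ M] [MulAction Circle M],
    SmoothCircleAction (EuclideanSpace ℝ (Fin m)) M →
    (∀ (z : Circle) (y : M), z • y = y → z = 1) → ∀ (r : ℕ∞), 1 ≤ r →
    ∀ (f : Diffeo (EuclideanSpace ℝ (Fin m)) M r) (ℒ : M → ℝ → ℝ) (Dm : M → ℝ) (τ Λ : ℝ),
    FibData f ℒ Dm τ Λ → (∀ y, ContDiff ℝ 3 (ℒ y)) →
    OneSidedNonlinearity (EuclideanSpace ℝ (Fin m)) f →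
    ∃ C lam τ₁ : ℝ, Unif m f Dm C lam τ₁

/-- Item Lip (MEDIUM), the periodic points move with bounded speed. Let `ρ = min τ τ₁`,
`η = ρ / 4`, `K = C / (1 - lam)`, `s₁ = ρ / 2`. Let `|s| < η`, `g = rotated f s`, `g^[n] y = y`,
`L j = ℒ (g^[j] y)`, so `Ext L n (τ - |s|) Λ` and `s₁ < τ - |s|`. By `noN` at `t = 0`, `θ = 0` the
product is `≠ 1`; take `P` from SwC or SwE. For `|t| < s₁` let `v` be as in Dif. The points
`exp (orb L t j (P t)) • g^[j] y` form the orbit of a contracting (expanding) periodic point of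
`rotated f (s + t)`, `|s + t| < τ₁`; so with `a i = deriv (L i) (orb L t i (P t)) =
Dm (..)` the block products are bounded by `Unif`, and Spd gives `|v 0| ≤ K`, where `v 0` is
the derivative of `P` (`orb L t 0 θ = θ`). By the mean value theorem `|P (-s)| = |P (-s) - P 0| ≤
K |s|`, and `orb L (-s) n (P (-s)) = P (-s)` says that `exp (P (-s)) • y` is fixed by the `n`-th
iterate of `rotated g (-s) = f`. -/
def StLip : Prop :=
  ∀ (m : ℕ) (M : Type u) [MetricSpace M] [CompactSpace M]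
    [ChartedSpace (EuclideanSpace ℝ (Fin m)) M] [IsManifold (𝓡 m) ∞ M] [MulAction Circle M],
    SmoothCircleAction (EuclideanSpace ℝ (Fin m)) M →
    (∀ (z : Circle) (y : M), z • y = y → z = 1) → ∀ (r : ℕ∞), 1 ≤ r →
    ∀ (f : Diffeo (EuclideanSpace ℝ (Fin m)) M r) (ℒ : M → ℝ → ℝ) (Dm : M → ℝ) (τ Λ : ℝ),
    FibData f ℒ Dm τ Λ → ∀ C lam τ₁ : ℝ, Unif m f Dm C lam τ₁ →
    ∃ η K : ℝ, 0 < η ∧ 0 < K ∧ ∀ s : ℝ, |s| < η → ∀ (n : ℕ) (y : M), 0 < n →
      (rotated f s)^[n] y = y → ∃ θ : ℝ, |θ| ≤ K * |s| ∧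
        f^[n] (Circle.exp θ • y) = Circle.exp θ • y

/-- Item Fol (EASY). From Lip: take `z' = exp θ • z`; `π z' = π z` (same orbit of the action), and
`dist z (exp θ • z) ≤ ε` if `|θ|` is small, uniformly in `z` (`exists_smul_close`, file B07). -/
def StFol : Prop :=
  ∀ (M : Type u) (B : Type v) [MetricSpace M] [CompactSpace M] [MetricSpace B]
    [MulAction Circle M] (π : M → B) (f : M → M),
    (Continuous fun p : Circle × M => p.1 • p.2) →
    (∀ y y' : M, π y = π y' ↔ ∃ z : Circle, z • y = y') →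
    (∃ η K : ℝ, 0 < η ∧ 0 < K ∧ ∀ s : ℝ, |s| < η → ∀ (n : ℕ) (y : M), 0 < n →
      (rotated f s)^[n] y = y → ∃ θ : ℝ, |θ| ≤ K * |s| ∧
        f^[n] (Circle.exp θ • y) = Circle.exp θ • y) →
    ∀ ε > 0, ∃ η > 0, ∀ s : ℝ, |s| < η → TH.Follows π (rotated f s) f ε

/-- Item Clo (EASY). For fixed `n` the product `∏ i < n, Dm (f^[i] y)` is a continuous function of
`y` and `rotated f 0 = f`; closed inequalities pass to the closure. The closures are invariant:
`f` maps a circle-contracting periodic point to one (the product over a period starting at `f y` is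
the same: Cls), and so does its inverse (`f^[n-1] y` is mapped to `y`); `f` is a homeomorphism. -/
def StClo : Prop :=
  ∀ (m : ℕ) (M : Type u) [MetricSpace M] [CompactSpace M]
    [ChartedSpace (EuclideanSpace ℝ (Fin m)) M] [IsManifold (𝓡 m) ∞ M] [MulAction Circle M],
    SmoothCircleAction (EuclideanSpace ℝ (Fin m)) M →
    (∀ (z : Circle) (y : M), z • y = y → z = 1) → ∀ (r : ℕ∞), 1 ≤ r →
    ∀ (f : Diffeo (EuclideanSpace ℝ (Fin m)) M r) (ℒ : M → ℝ → ℝ) (Dm : M → ℝ) (τ Λ : ℝ),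
    FibData f ℒ Dm τ Λ → ∀ C lam τ₁ : ℝ, Unif m f Dm C lam τ₁ →
    (∀ y ∈ closure (CircleContracting (EuclideanSpace ℝ (Fin m)) f),
      ∀ n, ∏ i ∈ Finset.range n, Dm (f^[i] y) ≤ C * lam ^ n) ∧
    (∀ y ∈ closure (CircleExpanding (EuclideanSpace ℝ (Fin m)) f),
      ∀ n, 1 ≤ C * lam ^ n * ∏ i ∈ Finset.range n, Dm (f^[i] y)) ∧
    (∀ y, f y ∈ closure (CircleContracting (EuclideanSpace ℝ (Fin m)) f) ↔
      y ∈ closure (CircleContracting (EuclideanSpace ℝ (Fin m)) f)) ∧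
    ∀ y, f y ∈ closure (CircleExpanding (EuclideanSpace ℝ (Fin m)) f) ↔
      y ∈ closure (CircleExpanding (EuclideanSpace ℝ (Fin m)) f)

/-- Item HB (EASY-MEDIUM), an adaptation of `hypEst_of_structure` and `invariantOver_symm` (file
B02), with the invariant set `Λ` instead of `univ`. -/
def StHB : Prop :=
  ∀ (d : ℕ) (B : Type v) [MetricSpace B] [CompactSpace B]
    [ChartedSpace (EuclideanSpace ℝ (Fin d)) B] [IsManifold (𝓡 d) ∞ B] (r : ℕ∞), 1 ≤ r →
    ∀ (A : Diffeo (EuclideanSpace ℝ (Fin d)) B r) (Λ : Set B), (∀ x, A x ∈ Λ ↔ x ∈ Λ) →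
    HyperbolicStructure (EuclideanSpace ℝ (Fin d)) A A.symm Λ →
    ∃ (γ : RMetric (EuclideanSpace ℝ (Fin d)) B) (Es Eu : TFamily (EuclideanSpace ℝ (Fin d)) B)
      (c μ : ℝ), HypEst A A.symm γ Λ Es Eu c μ

/-- Item HE (MEDIUM), an adaptation of `exists_hypEst` (end of file B02) to a base which is
hyperbolic only on a closed invariant set `ΛB`, for an invariant set `Λ ⊆ π⁻¹ ΛB`. The proof is the
same: `P7.Setup` and `P7.BHyp` are used for the types `↥Λ`, `↥ΛB` and the restricted maps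
(`P7.exists_splitting` is about arbitrary types, with `Λ := univ`), and the families `Es`, `Eu` are
extended by `⊥` outside `Λ`. The bounds `exists_bound`, `exists_bound_below`, which need
compactness, are used on the whole of `M` as in `exists_hypEst`. -/
def StHE : Prop :=
  ∀ (d : ℕ) (B : Type v) (M : Type u) [MetricSpace B] [CompactSpace B]
    [ChartedSpace (EuclideanSpace ℝ (Fin d)) B] [IsManifold (𝓡 d) ∞ B]
    [MetricSpace M] [CompactSpace M] [ChartedSpace (EuclideanSpace ℝ (Fin (d + 1))) M]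
    [IsManifold (𝓡 (d + 1)) ∞ M] [MulAction Circle M] (π : M → B), IsCircleBundle d π →
    ∀ (r : ℕ∞), 1 ≤ r → ∀ (A : Diffeo (EuclideanSpace ℝ (Fin d)) B r)
    (f : Diffeo (EuclideanSpace ℝ (Fin (d + 1))) M r), (∀ y, π (f y) = A (π y)) →
    ∀ (γB : RMetric (EuclideanSpace ℝ (Fin d)) B) (ΛB : Set B)
      (EsB EuB : TFamily (EuclideanSpace ℝ (Fin d)) B) (cB μB : ℝ),
    (∀ x, A x ∈ ΛB ↔ x ∈ ΛB) → HypEst A A.symm γB ΛB EsB EuB cB μB →
    ∀ (γ : RMetric (EuclideanSpace ℝ (Fin (d + 1))) M) (D : M → ℝ), (∀ y, 0 < D y) →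
    (∀ y, mfderiv (𝓡 (d + 1)) (𝓡 (d + 1)) f y (gen d y) = D y • gen d (f y)) →
    ∀ Λ : Set M, (∀ y, f y ∈ Λ ↔ y ∈ Λ) → (∀ y ∈ Λ, π y ∈ ΛB) →
    ∀ C κ : ℝ, 0 < C → 0 < κ → κ < 1 →
    (∀ y ∈ Λ, ∀ l : ℕ, ∏ i ∈ Finset.range l, D (f^[i] y) ≤ C * κ ^ l) →
    ∃ (Es Eu : TFamily (EuclideanSpace ℝ (Fin (d + 1))) M) (c μ : ℝ),
      HypEst f f.symm γ Λ Es Eu c μ

/-- Item Mea (MEDIUM), mean hyperbolicity. Take `FibData` (Br), `τ₀ = τ / 2`, `s = 0`
(`rotated f 0 = f`): for `f^[n] y = y`, `L j = ℒ (f^[j] y)` (as `(rotated f 0)^[j] y = f^[j] y`)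
satisfies `Ext L n τ Λ`. Take `P` from Int with `s₁ = τ₀`, and `χ t = log (∏ ..) / n`.
`(rotated f t)^[n] (exp (P t) • y) = exp (orb L t n (P t)) • y = exp (P t) • y` (`Chain.iterate`), and
the derivative of `(rotated f t)^[n]` at `exp (P t) • y` multiplies the velocity by
`∏ i < n, Dm (exp (orb L t i (P t)) • f^[i] y) = exp (n χ t)`: `mfderiv_lift` for
`orb L t n` (which has this derivative at `P t`), with `rotated f t` a `C^r` diffeomorphism
(`exists_rot`). -/
def StMea : Prop :=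
  ∀ (m : ℕ) (M : Type u) [MetricSpace M] [CompactSpace M]
    [ChartedSpace (EuclideanSpace ℝ (Fin m)) M] [IsManifold (𝓡 m) ∞ M] [MulAction Circle M],
    SmoothCircleAction (EuclideanSpace ℝ (Fin m)) M →
    (∀ (z : Circle) (y : M), z • y = y → z = 1) → ∀ (r : ℕ∞), 1 ≤ r →
    ∀ f : Diffeo (EuclideanSpace ℝ (Fin m)) M r, PreservesOrientedCircles f → OmegaStable f →
    MeanHyperbolicity (EuclideanSpace ℝ (Fin m)) f

end Pool.Agent.OmegaStability.OS
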